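import Pool.Agent.Lib.MP_b5021c_nt.IfaceO1
import Pool.Agent.Lib.MP_b5021c_nt.W.H1.Oi

/-!
# MP_b5021c_nt, all `θ`, K ODD, (O1-iv): the two Harnack rows (IVZ), (IVE), `j ≥ 3`

`W = 1 - 2 (1 + z) u + (2/j) (1/z - z)`, `u = f / (z E)`, has real part `≥ 0`, since
`|(1 + z) f| ≤ |q + z f|` on the circle.
-/

namespace Pool.Agent.B5.OOne

open Polynomial Metric
open Pool.Agent.B5.Nr.Car (Cara)
open Pool.Agent.B5.Nr.Sch

/-- One-variable data of (O1-iv). -/
structure IvD (q f E : ℤ[X]) (a p : ℝ) (j : ℕ) : Prop where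
  o : O1d q f a p j
  eq : f - q = X * E
  e0 : E.coeff 0 = j
  ez : ∀ z : ℂ, ‖z‖ ≤ 1 → (aeval z E : ℂ) ≠ 0
  le : ∀ z : ℂ, ‖z‖ = 1 → ‖(1 + z) * aeval z f‖ ≤ ‖aeval z q + z * aeval z f‖

/-- A quotient with nonnegative real part on the circle. -/
theorem cara_div {N E : ℂ → ℂ} (hN : Differentiable ℂ N) (hE : Differentiable ℂ E)
    (hz : ∀ z : ℂ, ‖z‖ ≤ 1 → E z ≠ 0) (hre : ∀ z : ℂ, ‖z‖ = 1 → 0 ≤ (N z / E z).re) :
    Cara (fun z => N z / E z) := by
  have hd : DifferentiableOn ℂ (fun z => N z / E z) (closedBall 0 1) :=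
    hN.differentiableOn.div hE.differentiableOn (fun z h => hz z (by simpa using h))
  refine ⟨hd.mono ball_subset_closedBall, ?_⟩
  intro z hz1
  have hmax := Complex.norm_le_of_forall_mem_frontier_norm_le (U := ball (0 : ℂ) 1)
    (f := fun w => Complex.exp (-(N w / E w))) (C := 1) isBounded_ball ?_ ?_ (z := z) ?_
  · rw [Complex.norm_exp, Complex.neg_re, Real.exp_le_one_iff] at hmax
    linarith
  · refine ⟨((hd.mono ball_subset_closedBall).neg).cexp, ?_⟩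
    rw [closure_ball (0 : ℂ) one_ne_zero]
    exact (hd.neg).cexp.continuousOn
  · intro w hw
    rw [frontier_ball (0 : ℂ) one_ne_zero] at hw
    have hw1 : ‖w‖ = 1 := by simpa using hw
    rw [Complex.norm_exp, Complex.neg_re, Real.exp_le_one_iff, neg_nonpos]
    exact hre w hw1
  · rw [closure_ball (0 : ℂ) one_ne_zero]
    simpa using hz1.le

variable {q f E : ℤ[X]} {a p : ℝ} {j : ℕ}

/-- The function `W`. -/
theorem IvD.W (h : IvD q f E a p j) : ∃ W : ℂ → ℂ, Cara W ∧ ∀ x : ℝ, 0 < x → x < 1 →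
    (W x).re = 1 - 2 * ((1 + x) * (aeval x f : ℝ) / (x * aeval x E)) + 2 / j * (1 / x - x) := by
  have hj := h.o.j2
  have hj0 : (j : ℝ) ≠ 0 := by
    have : j ≠ 0 := by omega
    exact_mod_cast this
  have hj0' : (j : ℂ) ≠ 0 := by exact_mod_cast hj0
  set F : ℝ[X] := f.map (Int.castRingHom ℝ) with hF
  set G : ℝ[X] := E.map (Int.castRingHom ℝ) with hG
  have eF : ∀ z : ℂ, aeval z F = aeval z f := fun z => by rw [hF, aeval_map_real]
  have eG : ∀ z : ℂ, aeval z G = aeval z E := fun z => by rw [hG, aeval_map_real]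
  have h1 : (X : ℝ[X]) ∣ X * G - C 2 * ((1 + X) * F) + C (2 / (j : ℝ)) * ((1 - X ^ 2) * G) := by
    rw [X_dvd_iff, coeff_add, coeff_sub, coeff_X_mul_zero, coeff_C_mul, coeff_C_mul,
      mul_coeff_zero, mul_coeff_zero, hF, hG, coeff_map, coeff_map, h.o.f0, h.e0]
    simp only [coeff_add, coeff_sub, coeff_one_zero, coeff_X_zero, map_one]
    rw [show (X ^ 2 : ℝ[X]).coeff 0 = 0 by rw [coeff_X_pow]; simp]
    simp only [map_natCast]
    field_simp
    ring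
  obtain ⟨N, hN⟩ := h1
  have eN : ∀ z : ℂ, z * aeval z N = z * aeval z E - 2 * ((1 + z) * aeval z f) +
      2 / j * ((1 - z ^ 2) * aeval z E) := by
    intro z
    have h2 := congrArg (fun P => aeval z P) hN
    simp only [map_mul, map_add, map_sub, aeval_X, aeval_C, map_one, map_pow, eF, eG] at h2
    rw [← h2]
    simp
  have hval : ∀ z : ℂ, z ≠ 0 → aeval z E ≠ 0 → aeval z N / aeval z E =
      1 - 2 * ((1 + z) * aeval z f / (z * aeval z E)) + 2 / j * (1 / z - z) := by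
    intro z hz hE
    have h2 := eN z
    have h3 : aeval z N = (z * aeval z E - 2 * ((1 + z) * aeval z f) +
      2 / j * ((1 - z ^ 2) * aeval z E)) / z := by
      rw [eq_div_iff hz, mul_comm, h2]
    rw [h3]
    field_simp
  refine ⟨fun z => aeval z N / aeval z E, ?_, ?_⟩
  · refine cara_div (Polynomial.differentiable_aeval _) (Polynomial.differentiable_aeval _)
      h.ez ?_
    intro z hz
    have hz0 : z ≠ 0 := by
      rintro rfl
      simp at hz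
    have hE := h.ez z hz.le
    rw [hval z hz0 hE]
    -- `Re (1/z - z) = 0`
    have h2 : (2 / (j : ℂ) * (1 / z - z)).re = 0 := by
      have h3 : (2 / (j : ℂ)) = ((2 / (j : ℝ) : ℝ) : ℂ) := by push_cast; ring
      have h4 : 1 / z = (starRingEnd ℂ) z := by
        rw [one_div, Complex.inv_def, Complex.normSq_eq_norm_sq, hz]
        simp
      rw [h3, h4, Complex.re_ofReal_mul]
      simp
    have h5 : ((1 + z) * aeval z f / (z * aeval z E)).re ≤ 1 / 2 := by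
      have h6 := h.le z hz
      have h7 : aeval z q + z * aeval z f = (1 + z) * aeval z f - z * aeval z E := by
        have h8 := congrArg (fun P => (aeval z P : ℂ)) h.eq
        simp only [map_sub, map_mul, aeval_X] at h8
        linear_combination -h8
      rw [h7] at h6
      set A := (1 + z) * aeval z f with hA
      set B := z * aeval z E with hB
      have hB0 : B ≠ 0 := mul_ne_zero hz0 hE
      have hBp : 0 < Complex.normSq B := Complex.normSq_pos.mpr hB0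
      have h9 : ‖A‖ ^ 2 ≤ ‖A - B‖ ^ 2 := pow_le_pow_left₀ (norm_nonneg _) h6 2
      rw [Complex.sq_norm, Complex.sq_norm, Complex.normSq_apply, Complex.normSq_apply] at h9
      simp only [Complex.sub_re, Complex.sub_im] at h9
      rw [Complex.div_re, ← add_div, div_le_iff₀ hBp, Complex.normSq_apply]
      nlinarith
    rw [Complex.add_re, h2, add_zero, Complex.sub_re, Complex.one_re]
    have h6 : (2 * ((1 + z) * aeval z f / (z * aeval z E))).re =
        2 * ((1 + z) * aeval z f / (z * aeval z E)).re := by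
      have h7 : (2 : ℂ) = ((2 : ℝ) : ℂ) := by norm_num
      rw [h7, Complex.re_ofReal_mul]
    rw [h6]
    linarith
  · intro x hx0 hx1
    have hxn : ‖(x : ℂ)‖ ≤ 1 := by
      rw [Complex.norm_real, Real.norm_eq_abs, abs_of_pos hx0]
      exact hx1.le
    change (aeval (x : ℂ) N / aeval (x : ℂ) E : ℂ).re = _
    rw [hval (x : ℂ) (by exact_mod_cast hx0.ne') (h.ez _ hxn), aeval_real_cast, aeval_real_cast]
    have h2 : (1 - 2 * ((1 + (x : ℂ)) * ((aeval x f : ℝ) : ℂ) / (x * ((aeval x E : ℝ) : ℂ))) +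
        2 / (j : ℂ) * (1 / x - x)) = ((1 - 2 * ((1 + x) * (aeval x f : ℝ) / (x * aeval x E)) +
        2 / (j : ℝ) * (1 / x - x) : ℝ) : ℂ) := by
      push_cast
      ring
    rw [h2, Complex.ofReal_re]

theorem IvD.Epos (h : IvD q f E a p j) {x : ℝ} (hx0 : 0 ≤ x) (hx : x ≤ 1) :
    0 < (aeval x E : ℝ) := by
  have hne : ∀ t : ℝ, 0 ≤ t → t ≤ 1 → (aeval t E : ℝ) ≠ 0 := by
    intro t ht0 ht1 h0
    have h1 := h.ez t (by rw [Complex.norm_real, Real.norm_eq_abs, abs_of_nonneg ht0]; exact ht1)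
    rw [aeval_real_cast, h0] at h1
    exact h1 rfl
  have h0 : (aeval (0 : ℝ) E : ℝ) = j := by
    rw [← coeff_zero_eq_aeval_zero', h.e0]; simp
  have hj : (0 : ℝ) < j := by
    have := h.o.j2
    exact_mod_cast (by omega : 0 < j)
  by_contra hcon
  push Not at hcon
  have hc : ContinuousOn (fun t : ℝ => (aeval t E : ℝ)) (Set.Icc 0 x) :=
    (Polynomial.continuous_aeval E).continuousOn
  have hmem : (0 : ℝ) ∈ Set.Icc (aeval x E : ℝ) (aeval (0 : ℝ) E) := by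
    rw [h0]; exact ⟨hcon, hj.le⟩
  obtain ⟨t, ht, ht0⟩ := intermediate_value_Icc' hx0 hc hmem
  exact hne t ht.1 (ht.2.trans hx) ht0

theorem IvD.qf (h : IvD q f E a p j) (x : ℝ) :
    (aeval x q : ℝ) = aeval x f - x * aeval x E := by
  have h8 := congrArg (fun P => (aeval x P : ℝ)) h.eq
  simp only [map_sub, map_mul, aeval_X] at h8
  linarith

/-- `p > 1 / (j + 1)`, `p < 1`. -/
theorem IvD.pb (h : IvD q f E a p j) : p * (j + p) = 1 ∧ p < 1 ∧ 1 / ((j : ℝ) + 1) < p := by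
  have hp0 := h.o.p0
  have hpj := h.o.pj
  have hj : (2 : ℝ) ≤ j := by exact_mod_cast h.o.j2
  have h1 : p * (j + p) = 1 := by
    rw [← hpj]
    field_simp
    ring
  have h2 : p < 1 := by nlinarith
  refine ⟨h1, h2, ?_⟩
  rw [div_lt_iff₀ (by linarith)]
  nlinarith

/-- `W < 1` at `1 / (j + 1)`. -/
theorem IvD.low (h : IvD q f E a p j) :
    1 - 2 * ((1 + 1 / ((j : ℝ) + 1)) * (aeval (1 / ((j : ℝ) + 1)) f : ℝ) /
      (1 / ((j : ℝ) + 1) * aeval (1 / ((j : ℝ) + 1)) E)) +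
      2 / j * (1 / (1 / ((j : ℝ) + 1)) - 1 / ((j : ℝ) + 1)) < 1 := by
  have hj : (2 : ℝ) ≤ j := by exact_mod_cast h.o.j2
  set b : ℝ := 1 / ((j : ℝ) + 1) with hb
  have hb0 : 0 < b := by rw [hb]; positivity
  have hb1 : b < 1 := by
    rw [hb, div_lt_one (by linarith)]
    linarith
  have hba : b < a := by
    rw [hb, div_lt_iff₀ (by linarith)]
    linarith [h.o.lt]
  have hq := h.o.loc.qpos hb0.le hba
  rw [h.qf] at hq
  have hE := h.Epos hb0.le hb1.le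
  have hbE : 0 < b * aeval b E := mul_pos hb0 hE
  have h1 : 1 < (aeval b f : ℝ) / (b * aeval b E) := by
    rw [lt_div_iff₀ hbE]
    linarith
  have h2 : (1 + b) * (aeval b f : ℝ) / (b * aeval b E) =
      (1 + b) * ((aeval b f : ℝ) / (b * aeval b E)) := by ring
  have h3 : 2 / (j : ℝ) * (1 / b - b) = 2 * (1 + b) := by
    rw [hb]
    have : (j : ℝ) ≠ 0 := by linarith
    have : (j : ℝ) + 1 ≠ 0 := by linarith
    field_simp
    ring
  rw [h2, h3]
  nlinarith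

/-- `W ≥ 1` at `p`. -/
theorem IvD.hi (h : IvD q f E a p j) :
    1 ≤ 1 - 2 * ((1 + p) * (aeval p f : ℝ) / (p * aeval p E)) + 2 / j * (1 / p - p) := by
  obtain ⟨h1, h2, h3⟩ := h.pb
  have hp0 := h.o.p0
  have hj : (2 : ℝ) ≤ j := by exact_mod_cast h.o.j2
  have hE := h.Epos hp0.le h2.le
  have hpE : 0 < p * aeval p E := mul_pos hp0 hE
  have hB := h.o.B
  rw [h.qf] at hB
  have h4 : (1 + p) * (aeval p f : ℝ) / (p * aeval p E) ≤ 1 := by
    rw [div_le_one hpE]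
    linarith
  have h5 : 2 / (j : ℝ) * (1 / p - p) = 2 := by
    rw [one_div, h.o.pj]
    field_simp
  rw [h5]
  linarith

/-- (IVE) `V''_0(1/j) ≤ 0` is impossible for `j ≥ 3`. -/
theorem IvD.ive (h : IvD q f E a p j) (hj3 : 3 ≤ j)
    (hv : (1 + 1 / (j : ℝ)) ^ 2 * (aeval (1 / (j : ℝ)) f : ℝ) -
      1 / j * aeval (1 / (j : ℝ)) E ≤ 0) : False := by
  obtain ⟨W, hW, hval⟩ := h.W
  have hj : (3 : ℝ) ≤ j := by exact_mod_cast hj3
  set J : ℝ := (j : ℝ) with hJ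
  have hJ0 : 0 < J := by linarith
  have hy0 : 0 < 1 / J := by positivity
  have hy1 : 1 / J < 1 := by
    rw [div_lt_one hJ0]
    linarith
  have hb0 : 0 < 1 / (J + 1) := by positivity
  have hby : 1 / (J + 1) ≤ 1 / J := one_div_le_one_div_of_le hJ0 (by linarith)
  have h1 := hW.up hb0.le hby hy1
  have h2 := hval (1 / (J + 1)) hb0 (lt_of_le_of_lt hby hy1)
  have h3 := h.low
  rw [← h2] at h3
  have h4 := hval (1 / J) hy0 hy1
  have hE := h.Epos hy0.le hy1.le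
  have hyE : 0 < 1 / J * aeval (1 / J) E := mul_pos hy0 hE
  have h5 : (1 + 1 / J) * (aeval (1 / J) f : ℝ) / (1 / J * aeval (1 / J) E) ≤ 1 / (1 + 1 / J) := by
    rw [div_le_div_iff₀ hyE (by positivity)]
    nlinarith
  have h6 : 3 - 2 * J / (J + 1) - 2 / J ^ 2 ≤ (W ((1 / J : ℝ) : ℂ)).re := by
    rw [h4]
    have h7 : 1 / (1 + 1 / J) = J / (J + 1) := by
      field_simp
    have h8 : 2 / J * (1 / (1 / J) - 1 / J) = 2 - 2 / J ^ 2 := by
      field_simp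
    rw [h8]
    rw [h7] at h5
    have h9 : 2 * J / (J + 1) = 2 * (J / (J + 1)) := by ring
    rw [h9]
    linarith
  have h10 : (W ((1 / J : ℝ) : ℂ)).re * ((1 + 1 / (J + 1)) * (1 - 1 / J)) <
      (1 - 1 / (J + 1)) * (1 + 1 / J) := by
    have h11 : 0 < (1 - 1 / (J + 1)) * (1 + 1 / J) := by
      have : 1 / (J + 1) < 1 := lt_of_le_of_lt hby hy1
      apply mul_pos (by linarith) (by linarith)
    calc _ ≤ _ := h1
      _ < 1 * ((1 - 1 / (J + 1)) * (1 + 1 / J)) := mul_lt_mul_of_pos_right h3 h11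
      _ = _ := one_mul _
  have h12 : (3 - 2 * J / (J + 1) - 2 / J ^ 2) * ((1 + 1 / (J + 1)) * (1 - 1 / J)) <
      (1 - 1 / (J + 1)) * (1 + 1 / J) := by
    have h13 : 0 < (1 + 1 / (J + 1)) * (1 - 1 / J) := mul_pos (by linarith) (by linarith)
    exact lt_of_le_of_lt (mul_le_mul_of_nonneg_right h6 h13.le) h10
  have h14 : (1 - 1 / (J + 1)) * (1 + 1 / J) -
      (3 - 2 * J / (J + 1) - 2 / J ^ 2) * ((1 + 1 / (J + 1)) * (1 - 1 / J)) =
      -2 * (J ^ 4 - J ^ 3 - 5 * J ^ 2 + J + 2) / (J ^ 3 * (J + 1) ^ 2) := by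
    field_simp
    ring
  have h15 : 0 < J ^ 4 - J ^ 3 - 5 * J ^ 2 + J + 2 := by
    nlinarith [mul_nonneg (sub_nonneg.mpr hj) (sq_nonneg J), mul_nonneg (sub_nonneg.mpr hj) (mul_nonneg hJ0.le (sq_nonneg J)), mul_nonneg (sub_nonneg.mpr hj) hJ0.le]
  have h16 : -2 * (J ^ 4 - J ^ 3 - 5 * J ^ 2 + J + 2) / (J ^ 3 * (J + 1) ^ 2) < 0 := by
    apply div_neg_of_neg_of_pos (by linarith)
    positivity
  linarith

/-- (IVZ), `j ≥ 4`: `V''_0(1/2) < 0`. -/
theorem IvD.ivz4 (h : IvD q f E a p j) (hj4 : 4 ≤ j) :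
    (1 + 1 / 2 : ℝ) ^ 2 * (aeval (1 / 2 : ℝ) f : ℝ) - 1 / 2 * aeval (1 / 2 : ℝ) E < 0 := by
  by_contra hv
  push Not at hv
  obtain ⟨W, hW, hval⟩ := h.W
  have hj : (4 : ℝ) ≤ j := by exact_mod_cast hj4
  obtain ⟨h1, h2, h3⟩ := h.pb
  have hp0 := h.o.p0
  have hp2 : p ≤ 1 / 2 := by nlinarith
  have h4 := hW.lo hp0.le hp2 (by norm_num)
  have h5 := hval p hp0 h2
  have h6 := h.hi
  rw [← h5] at h6
  have h7 := hval (1 / 2) (by norm_num) (by norm_num)
  have hE := h.Epos (x := 1 / 2) (by norm_num) (by norm_num)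
  have hyE : 0 < (1 / 2 : ℝ) * aeval (1 / 2 : ℝ) E := mul_pos (by norm_num) hE
  have h8 : 2 / 3 ≤ (1 + 1 / 2) * (aeval (1 / 2 : ℝ) f : ℝ) / (1 / 2 * aeval (1 / 2 : ℝ) E) := by
    rw [div_le_div_iff₀ (by norm_num) hyE]
    nlinarith
  have h9 : (W ((1 / 2 : ℝ) : ℂ)).re ≤ -1 / 3 + 3 / j := by
    rw [h7]
    have h10 : 2 / (j : ℝ) * (1 / (1 / 2) - 1 / 2) = 3 / j := by
      ring
    rw [h10]
    linarith
  -- `(1 + p) / 2 ≤ W(1/2) (1 - p) 3/2`
  have h11 : (1 + p) * (1 - 1 / 2) ≤ (W ((1 / 2 : ℝ) : ℂ)).re * ((1 - p) * (1 + 1 / 2)) := by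
    have h12 : 0 ≤ (1 + p) * (1 - 1 / 2) := by nlinarith
    calc (1 + p) * (1 - 1 / 2) = 1 * ((1 + p) * (1 - 1 / 2)) := by ring
      _ ≤ (W (p : ℂ)).re * ((1 + p) * (1 - 1 / 2)) := mul_le_mul_of_nonneg_right h6 h12
      _ ≤ _ := h4
  have h13 : (1 + p) * (1 - 1 / 2) ≤ (-1 / 3 + 3 / j) * ((1 - p) * (1 + 1 / 2)) := by
    refine h11.trans (mul_le_mul_of_nonneg_right h9 ?_)
    nlinarith
  have h14 : (3 : ℝ) / j ≤ 3 / 4 := by
    rw [div_le_div_iff₀ (by linarith) (by norm_num)]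
    linarith
  have h15 : 3 / (j : ℝ) = 3 * (1 / j) := by ring
  -- `-1/3 + 3/j ≤ 5/12`
  have h16 : (-1 / 3 + 3 / (j : ℝ)) * ((1 - p) * (1 + 1 / 2)) ≤ 5 / 12 * ((1 - p) * (1 + 1 / 2)) := by
    apply mul_le_mul_of_nonneg_right (by linarith)
    nlinarith
  -- `j = 4`: `p ≥ 1/5`
  rcases eq_or_lt_of_le hj4 with hj5 | hj5
  · have h17 : (j : ℝ) = 4 := by exact_mod_cast hj5.symm
    rw [h17] at h3
    nlinarith
  · have hj6 : (5 : ℝ) ≤ j := by exact_mod_cast hj5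
    have h17 : (3 : ℝ) / j ≤ 3 / 5 := by
      rw [div_le_div_iff₀ (by linarith) (by norm_num)]
      linarith
    have h18 : (-1 / 3 + 3 / (j : ℝ)) * ((1 - p) * (1 + 1 / 2)) ≤
        4 / 15 * ((1 - p) * (1 + 1 / 2)) := by
      apply mul_le_mul_of_nonneg_right (by linarith)
      nlinarith
    nlinarith

/-- (IVZ), `j = 3`: `V''_0(3/5) < 0`. -/
theorem IvD.ivz3 (h : IvD q f E a p 3) :
    (1 + 3 / 5 : ℝ) ^ 2 * (aeval (3 / 5 : ℝ) f : ℝ) - 3 / 5 * aeval (3 / 5 : ℝ) E < 0 := by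
  by_contra hv
  push Not at hv
  obtain ⟨W, hW, hval⟩ := h.W
  obtain ⟨h1, h2, h3⟩ := h.pb
  have hp0 := h.o.p0
  push_cast at h1 hval
  have hp3 : 3 / 10 < p := by nlinarith
  have hp2 : p ≤ 3 / 5 := by nlinarith
  have h4 := hW.lo hp0.le hp2 (by norm_num)
  have h5 := hval p hp0 h2
  have h6 := h.hi
  push_cast at h6
  rw [← h5] at h6
  have h7 := hval (3 / 5) (by norm_num) (by norm_num)
  have hE := h.Epos (x := 3 / 5) (by norm_num) (by norm_num)
  have hyE : 0 < (3 / 5 : ℝ) * aeval (3 / 5 : ℝ) E := mul_pos (by norm_num) hE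
  have h8 : 5 / 8 ≤ (1 + 3 / 5) * (aeval (3 / 5 : ℝ) f : ℝ) / (3 / 5 * aeval (3 / 5 : ℝ) E) := by
    rw [div_le_div_iff₀ (by norm_num) hyE]
    nlinarith
  have h9 : (W ((3 / 5 : ℝ) : ℂ)).re ≤ 83 / 180 := by
    rw [h7]
    have h10 : 2 / (3 : ℝ) * (1 / (3 / 5) - 3 / 5) = 32 / 45 := by
      norm_num
    rw [h10]
    linarith
  have h11 : (1 + p) * (1 - 3 / 5) ≤ (W ((3 / 5 : ℝ) : ℂ)).re * ((1 - p) * (1 + 3 / 5)) := by
    have h12 : 0 ≤ (1 + p) * (1 - 3 / 5) := by nlinarith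
    calc (1 + p) * (1 - 3 / 5) = 1 * ((1 + p) * (1 - 3 / 5)) := by ring
      _ ≤ (W (p : ℂ)).re * ((1 + p) * (1 - 3 / 5)) := mul_le_mul_of_nonneg_right h6 h12
      _ ≤ _ := h4
  have h13 : (1 + p) * (1 - 3 / 5) ≤ (83 / 180) * ((1 - p) * (1 + 3 / 5)) := by
    refine h11.trans (mul_le_mul_of_nonneg_right h9 ?_)
    nlinarith
  nlinarith

end Pool.Agent.B5.OOne
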