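import Pool.Agent.Lib.MP_b5021c_nt.KO.H67.Bas

/-!
# MP_b5021c_nt, all `θ`, K ODD, row KO_O2: a drop at the B-load, `u = 1`: `n = j + 1`
-/

namespace Pool.Agent.B5.KO67

open scoped LaurentPolynomial
open Polynomial
open Pool.Agent.B5.KE
open Pool.Agent.B5.Nr.Sch (Loc)
open Pool.Agent.B5.Nr (TrezS)
open Pool.Agent.B5.H61 (CuspS)

/-- Values at integers. -/
theorem aeval_int (E : ℤ[X]) (x : ℤ) : (aeval ((x : ℤ) : ℂ) E : ℂ) = ((E.eval x : ℤ) : ℂ) := by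
  have h4 : ((x : ℤ) : ℂ) = algebraMap ℤ ℂ x := by simp
  rw [h4, aeval_algebraMap_apply]
  change algebraMap ℤ ℂ (aeval (x : ℤ) E) = _
  rw [coe_aeval_eq_eval]
  simp

/-- A z-free closing: the constant coefficient is a multiple of the coefficient of a ray with the
lowest coefficient `1`. -/
theorem zfree_E (hU : UnitRS) {K : Type} [AddCommGroup K] {G : AO ℤ K} {T : K} {c w : RO ℤ}
    {p E : ℤ[X]} (hz : ZFree G) (hG : G.coeff 0 ≠ 0) (hT : G.coeff T ≠ 0) (hw : IsUnit w)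
    (hp : p.coeff 0 = 1) (hE : E.coeff 0 ≠ 0) (h0 : c * G.coeff 0 = -toLaurent (X * E))
    (h1 : w * (c * G.coeff T) = toLaurent p) : ∃ s : ℤ, E = C s * p := by
  obtain ⟨c', g', hc', hg', hcg, ⟨u, huc⟩, ⟨v, hvg⟩⟩ := split_one hU hp hw h1
  obtain ⟨b1, k1, hb1, hG1⟩ := zfree_mono hz T hT
  obtain ⟨b0, k0, hb0, hG0⟩ := zfree_mono hz 0 hG
  have hg1 : g' = 1 := by
    obtain ⟨n, s, hs, hvs⟩ := (hU ℤ _).mp v.isUnit
    have h2 : (LaurentPolynomial.T 0 : RO ℤ) * toLaurent g' =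
        LaurentPolynomial.T (n + k1) * toLaurent (C (s * b1)) := by
      rw [LaurentPolynomial.T_zero, one_mul, ← hvg, hG1, hvs, toLaurent_C, map_mul,
        LaurentPolynomial.T_add]
      ring
    obtain ⟨-, h3⟩ := H56.nf_unique 0 _ g' _ (by rw [hg']; exact one_ne_zero)
      (by rw [coeff_C_zero]; exact mul_ne_zero hs.ne_zero hb1) h2
    have h4 : g'.coeff 0 = s * b1 := by rw [h3, coeff_C_zero]
    rw [h3, ← h4, hg', C_1]
  rw [hg1, mul_one] at hcg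
  have h2 : (-(u : RO ℤ) * LaurentPolynomial.T k0) * toLaurent (c' * C b0) =
      toLaurent (X * E) := by
    rw [← neg_eq_iff_eq_neg.mpr h0, hG0, huc, map_mul, toLaurent_C]
    ring
  obtain ⟨s, hs⟩ := eq_E0 hU (by
    apply IsUnit.mul u.isUnit.neg
    exact (hU ℤ _).mpr ⟨k0, 1, isUnit_one, by rw [map_one, one_mul]⟩) hc' hE
    (by rw [coeff_C_zero]; exact hb0) h2
  refine ⟨s * b0, ?_⟩
  rw [hs, hcg, C_mul]
  ring

section

variable {P L : Type} [Fintype P] [DecidableEq P] [AddCommGroup L] [Module.Free ℤ L]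
  [Module.Finite ℤ L] {phi : L →+ (P → ℤ)} {D : AO ℤ L}

theorem neA (e : (RO ℤ)ˣ) : -e ≠ ld e 1 := by
  intro h5
  have h6 := kap_ld e
  rw [h5] at h6
  exact kap_ne (mul_eq_right.mp h6)

/-- `n = 1` at the load A: terminal, odd rank. -/
theorem n_ne_one_o (hTr : TrezS) {S : L} {q f : ℤ[X]} {e : (RO ℤ)ˣ} {a : ℝ} {j : ℕ}
    (W : Ko phi D q a j) (hS : Ray D S) (hR : RN D S q f e a) (hu : f.coeff 0 = 1) :
    f.coeff 1 - q.coeff 1 ≠ 1 := by
  intro hn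
  obtain ⟨ha0, ha2, hθ2, hθ⟩ := ko_num W
  have hj := W.j2
  obtain ⟨E, hE, hE0, -, hEz⟩ := typa hR.loc hu hR.ne
  have h2 := (hTr P L phi D S (-e) a⁻¹ W.min.fp.dd (by rw [W.rk]; omega) hS hθ2 (classP_q hR) (by
    refine ⟨0, q, -E, ?_, ?_, ?_, ?_, ?_⟩
    · rw [LaurentPolynomial.T_zero, one_mul, hR.D0]
    · rw [V0_A hR, zero_add]
      have h3 : q - f = X * -E := by rw [mul_neg, ← hE]; ring
      rw [h3, map_mul, toLaurent_X]
    · rw [hR.loc.q0, map_one, norm_one]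
    · rw [coeff_neg, hE0, hn, map_neg, map_one, norm_neg, norm_one]
    · intro z hz
      rw [ev_map, map_neg]
      exact neg_ne_zero.mpr (hEz z hz))).2 (by rw [W.rk]; exact ⟨j, rfl⟩)
  rw [W.rk] at h2
  push_cast at h2
  linarith

/-- `V_B` is negative to the right of its zero. -/
theorem sgn_ne {q f : ℤ[X]} (hq : q.coeff 0 = 1) {b p : ℝ} (hbp : b < p) (hp0 : 0 < p)
    (hp : p < 1)
    (hb : ((q + X * f).map (Coef.emb : ℤ →+* ℂ)).roots.filter (fun x => ‖x‖ < 1) = {(b : ℂ)}) :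
    (aeval p (q + X * f) : ℝ) ≠ 0 := by
  intro h0
  have hV0 : (q + X * f).map (Coef.emb : ℤ →+* ℂ) ≠ 0 := by
    intro h0
    have h1 : ((q + X * f).map (Coef.emb : ℤ →+* ℂ)).coeff 0 = 0 := by rw [h0, coeff_zero]
    rw [coeff_map, coeff_add, coeff_X_mul_zero, hq, add_zero, map_one] at h1
    exact one_ne_zero h1
  have h1 : (p : ℂ) ∈ ((q + X * f).map (Coef.emb : ℤ →+* ℂ)).roots.filter (fun x => ‖x‖ < 1) := by
    rw [Multiset.mem_filter, mem_roots hV0, IsRoot, ev_map, ae_re]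
    have h2 : ((q + X * f).map (Int.castRingHom ℝ)).eval p = (aeval p (q + X * f) : ℝ) := by
      rw [eval_map, aeval_def]; rfl
    rw [h2, h0]
    refine ⟨by simp, ?_⟩
    rw [Complex.norm_real, Real.norm_eq_abs, abs_of_pos hp0]
    exact hp
  rw [hb, Multiset.mem_singleton] at h1
  have h2 : p = b := by exact_mod_cast h1
  linarith

/-- Class `V(N')`, `N' ≤ j`, rank `2 j + 1`: impossible. -/
theorem fcl_no (hEvz : EvzS) (hEv1 : BdV ℤ 1 1) {j : ℕ} (hj : 2 ≤ j) {N' : ℝ} (hN : N' ≤ j)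
    {P' L' : Type} [Fintype P'] [DecidableEq P'] [AddCommGroup L'] [Module.Free ℤ L']
    [Module.Finite ℤ L'] {phi' : L' →+ (P' → ℤ)} {D' : AO ℤ L'} (hD : DD phi' D')
    (hV : ClassV N' (D'.coeff 0)) (hr : 2 * j + 1 ≤ Module.finrank ℤ L') : False := by
  obtain ⟨h1, n, g, hg, hg0, hz⟩ := id hV
  have h2 : N' = ((g.coeff 0).natAbs : ℕ) := by
    rw [← hg0]
    change ‖((g.coeff 0 : ℤ) : ℂ)‖ = _
    rw [Complex.norm_intCast, Nat.cast_natAbs, Int.cast_abs]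
  obtain ⟨m, hm⟩ : ∃ m : ℕ, m = (g.coeff 0).natAbs := ⟨_, rfl⟩
  rw [← hm] at h2
  rw [h2] at hN h1 hV
  have hmj : m ≤ j := by exact_mod_cast hN
  have hm1 : 1 ≤ m := by exact_mod_cast h1
  rcases Nat.lt_or_ge m 2 with h3 | h3
  · have h4 : m = 1 := by omega
    rw [h4, Nat.cast_one] at hV
    have h5 := hEv1 P' L' phi' D' hD hV
    have h6 : Module.finrank ℤ L' ≤ 1 := by exact_mod_cast h5
    omega
  · have h5 := hEvz m h3 P' L' phi' D' hD hV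
    have h6 : Module.finrank ℤ L' ≤ 2 * m := by exact_mod_cast h5
    omega

/-- `θ_B ≥ j`. -/
theorem thB (hE1 : E1S) (hMV : MVS) (hMm : MmulS) (hClp : ClpS) (hFou : FouS) (hDti : DtiS)
    {q f : ℤ[X]} {a b : ℝ} {j g : ℕ} {eta : L → (RO ℤ)ˣ} {C : Set L}
    (W : KcB phi D q f a j eta g C) (hA : ASet phi D eta g C) (hg : g = 1 ∨ g = 2) {S : L}
    (hS : S ∈ C) {e : (RO ℤ)ˣ} (he : eta S = ld e 1) (hR : RN D S q f e a) {i0 : P}
    {h : co phi i0 S = 1} {c : RO ℤ} {n : ℕ} {G : Fin n → AO ℤ (Ker (co phi i0))}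
    (fd : FD phi D S i0 (ld e 1) h c n G) (hs : snp phi S i0 G = ∅)
    (hb0 : 0 < b) (hb1 : b < 1)
    (hb : ((q + X * f).map (Coef.emb : ℤ →+* ℂ)).roots.filter (fun x => ‖x‖ < 1) = {(b : ℂ)}) :
    (j : ℝ) ≤ b⁻¹ := by
  have fp := W.ko.min.fp
  have hrk := W.ko.rk
  have hj := W.ko.j2
  have hc0 : (q + X * f).coeff 0 = 1 := by
    rw [coeff_add, coeff_X_mul_zero, hR.loc.q0, add_zero]
  have hP := classP_of hb0 hb1 hc0 hb
  have hX : ((ld e 1 : (RO ℤ)ˣ) : RO ℤ) * D.coeff S = toLaurent (X * f) := by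
    have h1 := ld_S hR 1
    rw [pow_one] at h1
    exact h1
  have hcast : (((2 * j - 1 : ℕ) : ℝ)) = 2 * j - 1 := by
    rw [Nat.cast_sub (by omega)]
    push_cast
    ring
  have hodd : Odd (2 * j - 1) := by
    rw [Nat.odd_iff]
    omega
  rcases hg with hg | hg
  · -- drop one
    have hdr := W.kc.dr S hS i0 h
    rw [he, hg] at hdr
    have hP' : ClassP b⁻¹ (D.coeff 0 + ((ld e 1 : (RO ℤ)ˣ) : RO ℤ) * D.coeff S) := by
      rw [hX, hR.D0, ← map_add]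
      exact hP
    obtain ⟨l, K, h3, h4, h5⟩ := good_g hE1 hMV hMm hClp fp fd hs (by omega) hP'
    have h6 := (W.ko.ih (2 * j - 1) (by omega) b⁻¹ P K ((phO phi S i0).comp (incl K))
      (res K (G l)) h5 h3 (by omega)).2 hodd
    rw [hcast] at h6
    linarith
  · -- drop two
    subst hg
    obtain ⟨Z, dl, hF, hZ0, hZC⟩ := hFou ℤ P L phi D eta a⁻¹ C W.ko.min (by omega) hA S hS
    have h2 : D.coeff 0 + 2 * ((eta (Z 0) : RO ℤ) * D.coeff (Z 0)) ≠ 0 := by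
      rw [hZ0, he, hX, hR.D0]
      have h3' : (toLaurent (2 * (X * f)) : RO ℤ) = 2 * toLaurent (X * f) := by
        rw [map_mul toLaurent 2 (X * f), map_ofNat]
      have h3 : (toLaurent q + 2 * toLaurent (X * f) : RO ℤ) = toLaurent (q + 2 * (X * f)) := by
        rw [map_add, h3']
      rw [h3, toLaurent_ne_zero]
      intro h4
      have h5 : (q + 2 * (X * f)).coeff 0 = 0 := by rw [h4, coeff_zero]
      rw [coeff_add, hR.loc.q0, mul_coeff_zero, coeff_X_mul_zero, mul_zero, add_zero] at h5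
      exact one_ne_zero h5
    obtain ⟨P', L', _, _, _, _, _, phi', D', hD', hr', hco⟩ := hDti ℤ P L phi D eta a⁻¹ Z dl fp
      (by omega) W.ko.min.cls hF (fun i => hA.v0 (Z i) (hZC i)) h2
    rw [hZ0, he, hX, hR.D0, ← map_add] at hco
    have h6 := (W.ko.ih (2 * j - 1) (by omega) b⁻¹ P' L' phi' D' hD' (by rw [hco]; exact hP)
      (by omega)).2 hodd
    rw [hcast] at h6
    linarith

/-- The loads of `C` have no small factors. -/
theorem aset (hSf : SfzS) (hClp : ClpS) {q f : ℤ[X]} {a : ℝ} {j g : ℕ} {eta : L → (RO ℤ)ˣ}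
    {C : Set L} (W : KcB phi D q f a j eta g C) (hu : f.coeff 0 = 1) : ASet phi D eta g C := by
  refine ⟨W.kc.ray, ?_, ?_, W.kc.us, W.kc.mtl⟩
  · intro T hT
    obtain ⟨e, he, hR⟩ := W.rn T hT
    rw [he]
    exact V0_ne hR (k := 1) (le_refl 1)
  · intro T hT i0 h c n G fd i
    obtain ⟨e, he, hR⟩ := W.rn T hT
    obtain ⟨T', -, hM⟩ := W.kc.ex T hT
    rw [he] at fd hM
    exact all_big hClp W.ko.min.fp fd (sf_B hSf W.ko hR hu fd (Or.inr ⟨T', _, hM⟩)).1 i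

/-- The data at one ray of `C`: a zero of `V_B` in the open disc, `n ≤ j + 1`. -/
theorem upper (hMV : MVS) (hMm : MmulS) (hE1 : E1S) (hPc : PCZS) (hClp : ClpS) (hFD : FDS)
    (hSf : SfzS) (hI3 : Io3S) (hMfc : MfcS) (hCa : Ca5S) (hGlc : GlcS) (hFou : FouS)
    (hDti : DtiS) {q f : ℤ[X]} {a : ℝ} {j g : ℕ} {eta : L → (RO ℤ)ˣ} {C : Set L}
    (W : KcB phi D q f a j eta g C) (hu : f.coeff 0 = 1) {S : L} (hS : S ∈ C) {e : (RO ℤ)ˣ}
    (he : eta S = ld e 1) (hR : RN D S q f e a) :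
    (g = 1 ∨ g = 2) ∧ (∃ b : ℂ, ‖b‖ < 1 ∧ aeval b (q + X * f) = 0) ∧
      f.coeff 1 - q.coeff 1 ≤ j + 1 := by
  obtain ⟨ha0, ha2, hθ2, hθ⟩ := ko_num W.ko
  have fp := W.ko.min.fp
  have hD := fp.dd
  have hrk := W.ko.rk
  have hj := W.ko.j2
  have h2 : 2 ≤ Module.finrank ℤ L := by omega
  have hA := aset hSf hClp W hu
  have hray := W.kc.ray S hS
  obtain ⟨S1, -, hM⟩ := W.kc.ex S hS
  rw [he] at hM
  have hg : g = 1 ∨ g = 2 := by
    have h3 := hGlc ℤ P L phi D eta g a⁻¹ C W.ko.min h2 hA W.kc.ne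
    have h4 := W.kc.g1
    omega
  obtain ⟨i0, h⟩ := exists_port hD hray
  obtain ⟨c, n, G, fd⟩ := hFD ℤ P L phi D S i0 (ld e 1) h
    ⟨hD, h2, hray, h, V0_ne hR (k := 1) (le_refl 1)⟩
  obtain ⟨hs, hbig⟩ := sf_B hSf W.ko hR hu fd (Or.inr ⟨S1, _, hM⟩)
  have hzero := zero_B hMV hMm hR fd hbig
  refine ⟨hg, hzero, ?_⟩
  by_contra hn
  push Not at hn
  have hl := lob hPc hR.loc hR.u hR.ne (k := 1) (le_refl 1)
  rw [pow_one] at hl
  rcases hl with h3 | ⟨b, hab, hb1, hb⟩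
  · obtain ⟨b, hb1, hb2⟩ := hzero
    exact h3 b hb1 hb2
  · have hb0 : 0 < b := lt_trans ha0 hab
    have h4 := thB hE1 hMV hMm hClp hFou hDti W hA hg hS he hR fd hs hb0 hb1 hb
    -- the value at `a / (1 - a)`
    have hn' : a⁻¹ + 1 ≤ f.coeff 1 - q.coeff 1 := by
      have h5 : (j : ℤ) + 2 ≤ f.coeff 1 - q.coeff 1 := by omega
      have h6 : ((j : ℝ) + 2) ≤ ((f.coeff 1 - q.coeff 1 : ℤ) : ℝ) := by exact_mod_cast h5
      push_cast at h6
      linarith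
    have h5 := hI3 q f a hR.loc (cardi hMfc hCa hD h2 hR hM) hu ha2 hn'
    have hp0 : 0 < a / (1 - a) := div_pos ha0 (by linarith)
    have hp1 : a / (1 - a) < 1 := by
      rw [div_lt_one (by linarith)]
      linarith
    have hbp : b < a / (1 - a) := by
      rw [lt_div_iff₀ (by linarith)]
      have h6 : b * (j : ℝ) ≤ 1 := by
        have := mul_le_mul_of_nonneg_left h4 hb0.le
        rwa [mul_inv_cancel₀ hb0.ne'] at this
      have h7 := W.ko.lt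
      have hj' : (2 : ℝ) ≤ j := by exact_mod_cast hj
      -- `b (1 - a) < b j a ≤ a`
      have h8 : b * (1 - a) < b * (j * a) := mul_lt_mul_of_pos_left (by linarith) hb0
      have h9 : b * (j * a) ≤ a := by nlinarith
      linarith
    have h6 := sgn (k := 1) (le_refl 1) hR.loc.q0 hb0 (by rw [pow_one]; exact hb) hbp.le hp1
    rw [pow_one] at h6
    refine sgn_ne hR.loc.q0 hbp hp0 hp1 hb ?_
    refine le_antisymm h6 ?_
    rw [map_add, map_mul, aeval_X]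
    exact h5

/-- The closing A at a ray of `C`: one factor of class `V(n)`, `n ≥ 2`, rank `2 j`. -/
theorem first (hMm : MmulS) (hMV : MVS) (hE1 : E1S) (hClp : ClpS) (hC0 : Coeff0S) (hG0 : G0S)
    (hI1 : Inj1S) (hRk : RkS) (hFD : FDS) (hWW : WWfS) (hRF : RayFacS) (hMug : MugS)
    (hMco : McoS) (hTr : TrezS) (hTsa : TsaS) {q f : ℤ[X]} {a : ℝ} {j g : ℕ}
    {eta : L → (RO ℤ)ˣ} {C : Set L} (W : KcB phi D q f a j eta g C) (hu : f.coeff 0 = 1)
    {S S1 : L} (hS : S ∈ C) {e e1 : (RO ℤ)ˣ} (he : eta S = ld e 1) (hR : RN D S q f e a)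
    (hM : Mut D S S1 (ld e 1) e1) (Y : Dp phi S S1) :
    ∃ nu : ℕ, 2 ≤ nu ∧ (nu : ℤ) = f.coeff 1 - q.coeff 1 ∧
      ∃ (c : RO ℤ) (G : AO ℤ (Ker (co phi Y.i0))), ClassV 1 c ∧
        cl (co phi Y.i0) S Y.h0 (-e) D = cst c * G ∧ DD (phO phi S Y.i0) G ∧
        ClassV nu (G.coeff 0) ∧ Ray G Y.T ∧ c * G.coeff 0 = toLaurent (q - f) ∧
        (∃ w : (RO ℤ)ˣ, (w : RO ℤ) * (c * G.coeff Y.T) = toLaurent ((1 + X) * f)) ∧
        ImS (phO phi S Y.i0) Y.T ∧ co (phO phi S Y.i0) Y.i1 = Y.k1 := by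
  have fp := W.ko.min.fp
  have hrk := W.ko.rk
  have hj := W.ko.j2
  have hray := W.kc.ray S hS
  obtain ⟨E, hE, hE0, hEpos, hEz⟩ := typa hR.loc hu hR.ne
  have hn1 := n_ne_one_o hTr W.ko hray hR hu
  have hn2 : 2 ≤ f.coeff 1 - q.coeff 1 := by omega
  obtain ⟨nu, hnu⟩ : ∃ nu : ℕ, (nu : ℤ) = f.coeff 1 - q.coeff 1 :=
    ⟨(f.coeff 1 - q.coeff 1).toNat, by omega⟩
  have hdrA : Dfr phi D S (-e) := W.kc.fr S hS (-e) (by rw [he]; exact neA e)
  refine ⟨nu, by omega, hnu, ?_⟩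
  apply fa1 hWW hRF hMug hMco hClp hE1 hC0 hG0 hI1 hMV hRk hFD P L phi D S S1 q f e e1 a nu Y fp
    (by omega) hR hu hnu hM (hdrA Y.i0 Y.h0)
  intro c n G fd
  by_contra hs
  have h5 := hTsa P L phi D S Y.i0 Y.h0 c n G q f e a fp (by omega) hray hR hu hn2 fd
    (hdrA Y.i0 Y.h0) (Finset.nonempty_iff_ne_empty.mpr hs)
  have h6 := W.kc.dr S hS Y.i0 Y.h0
  have h7 := W.kc.g1
  rw [he] at h6
  omega

end

/-- Row KO_O2. -/
theorem ob2 (hU : UnitRS) (hMm : MmulS) (hMV : MVS) (hE1 : E1S) (hPc : PCZS) (hClp : ClpS)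
    (hC0 : Coeff0S) (hG0 : G0S) (hI1 : Inj1S) (hRk : RkS) (hFD : FDS) (hWW : WWfS)
    (hRF : RayFacS) (hMug : MugS) (hMco : McoS) (hCu : CuspS) (hSf : SfzS) (hTr : TrezS)
    (hEvz : EvzS) (hEv1 : BdV ℤ 1 1) (hFcl : FclS) (hTsa : TsaS) (hI3 : Io3S) (hMfc : MfcS)
    (hCa : Ca5S) (hGlc : GlcS) (hFou : FouS) (hDti : DtiS) : Ob2S := by
  intro P L _ _ _ _ _ phi D q f a j eta g C W hu
  obtain ⟨S, hS⟩ := W.kc.ne
  obtain ⟨e, he, hR⟩ := W.rn S hS
  obtain ⟨S1, -, hM⟩ := W.kc.ex S hS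
  rw [he] at hM
  have fp := W.ko.min.fp
  have hD := fp.dd
  have hrk := W.ko.rk
  have hj := W.ko.j2
  have h2 : 2 ≤ Module.finrank ℤ L := by omega
  obtain ⟨hg, hzero, hup⟩ := upper hMV hMm hE1 hPc hClp hFD hSf hI3 hMfc hCa hGlc hFou hDti W hu
    hS he hR
  obtain ⟨Y⟩ := (hMco ℤ P L phi D S S1 (ld e 1) _ hD.inj hD.bin hM).2.2.2
  obtain ⟨nu, hnu2, hnu, c, G, hc, hcl, hDG, hVG, hrayG, hco0, ⟨w, hw⟩, -, -⟩ := first hMm hMV hE1
    hClp hC0 hG0 hI1 hRk hFD hWW hRF hMug hMco hTr hTsa W hu hS he hR hM Y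
  have hker := finrank_ker hRk Y.h0
  have hlo : j ≤ nu := by
    have h5 := hEvz nu hnu2 P _ (phO phi S Y.i0) G hDG hVG
    have h6 : Module.finrank ℤ (Ker (co phi Y.i0)) ≤ 2 * nu := by exact_mod_cast h5
    omega
  refine ⟨?_, hg⟩
  by_contra hne
  have hnuj : nu = j := by omega
  rw [hnuj] at hVG hnu
  obtain ⟨E, hE, hE0, hEpos, hEz⟩ := typa hR.loc hu hR.ne
  rcases hFcl ℤ P _ (phO phi S Y.i0) G (j : ℝ) hDG hVG (by omega) with
    hz | ⟨N', b, D', hN', hD', hV', hr'⟩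
  · have hqf : (toLaurent (q - f) : RO ℤ) = -toLaurent (X * E) := by
      rw [← hE, ← map_neg]
      congr 1
      ring
    obtain ⟨s, hs⟩ := zfree_E hU hz ((hMV ℤ).1 _ _ hVG).1 hrayG.1 w.isUnit
      (by rw [mul_coeff_zero, hu]; simp) (by omega) (hco0.trans hqf) hw
    refine cusp_m1 hCu hD h2 hR hM hzero (z := -1) (by rw [norm_neg, norm_one]) ?_
    have h3 : (aeval (-1 : ℂ) E : ℂ) = 0 := by
      have h4 := aeval_int E (-1)
      rw [hs] at h4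
      simp only [eval_mul, eval_add, eval_one, eval_X, eval_C, Int.reduceNeg, add_neg_cancel,
        zero_mul, mul_zero, Int.cast_zero, Int.cast_neg, Int.cast_one] at h4
      rw [hs]
      exact h4
    have h5 := congrArg (fun p : ℤ[X] => (aeval (-1 : ℂ) p : ℂ)) hE
    simp only [map_sub, map_mul, aeval_X, h3, mul_zero] at h5
    rw [map_add, map_mul, aeval_X]
    linear_combination -h5
  · exact fcl_no hEvz hEv1 hj hN' hD' hV' (by rw [hr']; omega)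

end Pool.Agent.B5.KO67
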