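import Pool.Agent.Lib.MP_b5021c_nt.KO.H67.O3
import Pool.Agent.Lib.MP_b5021c_nt.KO.H40.PxF
import Pool.Agent.Lib.MP_b5021c_nt.E.H07.Mxu

/-!
# MP_b5021c_nt, all `θ`, K ODD, (O4): the ports of the double closing
-/

set_option linter.unusedSectionVars false

namespace Pool.Agent.B5.KO67

open scoped LaurentPolynomial
open Polynomial
open Pool.Agent.B5.KE
open Pool.Agent.B5.Nr.Sch
open Pool.Agent.B5.Nr (TrezS)
open Pool.Agent.B5.H61 (CuspS)
open Pool.Agent.B5.H40 (uT)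

section

variable {P L : Type} [Fintype P] [DecidableEq P] [AddCommGroup L] [Module.Free ℤ L]
  [Module.Finite ℤ L] {phi : L →+ (P → ℤ)} {D : AO ℤ L} {S S1 : L}

/-- The marking of the double kernel by the ports outside `S` and `S1`. -/
def psd (Y : Dp phi S S1) : Ker Y.k1 →+ (P → ℤ) where
  toFun b := fun p => if phi S p = 0 ∧ phi S1 p = 0 then phi ((b : Ker (co phi Y.i0)) : L) p else 0
  map_zero' := by
    funext p
    simp
  map_add' a b := by
    funext p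
    by_cases h : phi S p = 0 ∧ phi S1 p = 0 <;> simp [h]

theorem psd_apply (Y : Dp phi S S1) (b : Ker Y.k1) (p : P) : psd Y b p =
    if phi S p = 0 ∧ phi S1 p = 0 then phi ((b : Ker (co phi Y.i0)) : L) p else 0 := rfl

theorem psd_eq (phi : L →+ (P → ℤ)) (i0 : P) (h0 : co phi i0 S = 1) (T : Ker (co phi i0))
    (eT : (T : L) = S1) (i1 : P)
    (hk : ∀ a : Ker (co phi i0), co (phO phi S i0) i1 a = phi (a : L) i1)
    (h1 : co (phO phi S i0) i1 T = 1) :
    psd (⟨i0, h0, T, eT, i1, co (phO phi S i0) i1, hk, h1⟩ : Dp phi S S1) =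
      phO (phO phi S i0) T i1 := by
  ext b p
  change (if phi S p = 0 ∧ phi S1 p = 0 then phi ((b : Ker (co phi i0)) : L) p else 0) =
    (if (if phi S p = 0 then phi (T : L) p else 0) = 0 then
      (if phi S p = 0 then phi ((b : Ker (co phi i0)) : L) p else 0) else 0)
  rw [eT]
  by_cases hS : phi S p = 0
  · simp only [hS, true_and, if_true]
  · simp only [hS, false_and, if_false, if_true]

/-- The ports of the double kernel are injective modulo a ray of a face `{S, S1, R}`. -/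
theorem ims_psd (hF : FspS) (fp : FP phi D) (Y : Dp phi S S1) {R : L}
    (rS : D.coeff S ≠ 0) (rS1 : D.coeff S1 ≠ 0) (rR : D.coeff R ≠ 0)
    (dS : ∀ i, phi S i = 0 ∨ phi S1 i = 0) (dR : ∀ i, phi S i = 0 ∨ phi R i = 0)
    (dR1 : ∀ i, phi S1 i = 0 ∨ phi R i = 0) {iR : P} (hiR : phi R iR = 1) {lam : L →+ ℤ}
    (lS : lam S = 0) (lS1 : lam S1 = 0) (lR : lam R = 0)
    (hl : ∀ x ∈ supp D, 0 ≤ lam x ∧
      (lam x = 0 → ∃ a b c : ℤ, (c = 0 ∨ c = 1) ∧ x = a • S + b • S1 + c • R))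
    {x : Ker Y.k1} (hx : ((x : Ker (co phi Y.i0)) : L) = R) : ImS (psd Y) x := by
  intro b hb
  obtain ⟨K, hK⟩ : ∃ K : Submodule ℤ L, K = satur (Submodule.span ℤ {S, S1, R}) := ⟨_, rfl⟩
  have hsub : ∀ y ∈ ({S, S1, R} : Set L), y ∈ Submodule.span ℤ ({S, S1, R} : Set L) :=
    fun y hy => Submodule.subset_span hy
  have hin : ∀ y ∈ Submodule.span ℤ ({S, S1, R} : Set L), y ∈ K := fun y hy => by
    rw [hK]
    exact H63.le_satur _ hy
  have hSK : S ∈ K := hin _ (hsub _ (by simp))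
  have hS1K : S1 ∈ K := hin _ (hsub _ (by simp))
  have hRK : R ∈ K := hin _ (hsub _ (by simp))
  have hspan : ∀ y ∈ Submodule.span ℤ ({S, S1, R} : Set L), ∃ a b c : ℤ,
      y = a • S + b • S1 + c • R := by
    intro y hy
    obtain ⟨a, y1, hy1, rfl⟩ := Submodule.mem_span_insert.mp hy
    obtain ⟨b, y2, hy2, rfl⟩ := Submodule.mem_span_insert.mp hy1
    obtain ⟨c, rfl⟩ := Submodule.mem_span_singleton.mp hy2
    exact ⟨a, b, c, by rw [add_assoc]⟩
  have hmem : ∀ y ∈ K, ∃ n : ℤ, n ≠ 0 ∧ ∃ a b c : ℤ, n • y = a • S + b • S1 + c • R := by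
    intro y hy
    rw [hK] at hy
    obtain ⟨n, hn, hny⟩ := hy
    exact ⟨n, hn, hspan _ hny⟩
  have hlK : ∀ y ∈ K, lam y = 0 := by
    intro y hy
    obtain ⟨n, hn, a, b, c, h⟩ := hmem y hy
    have h1 := congrArg lam h
    rw [map_add, map_add, map_zsmul, map_zsmul, map_zsmul, map_zsmul, lS, lS1, lR, smul_zero,
      smul_zero, smul_zero, add_zero, add_zero, smul_eq_mul] at h1
    exact (mul_eq_zero.mp h1).resolve_left hn
  have hpos : ∀ y ∈ supp D, y ∉ K → 0 < lam y := by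
    intro y hy hyK
    obtain ⟨h1, h2⟩ := hl y hy
    rcases lt_or_eq_of_le h1 with h3 | h3
    · exact h3
    · exfalso
      obtain ⟨a, b, c, -, h4⟩ := h2 h3.symm
      apply hyK
      rw [h4]
      exact K.add_mem (K.add_mem (K.smul_mem _ hSK) (K.smul_mem _ hS1K)) (K.smul_mem _ hRK)
  have hrkK : rk {y | y ∈ supp D ∧ y ∈ K} = Module.finrank ℤ K := by
    unfold rk
    apply le_antisymm
    · apply Submodule.finrank_mono
      rw [Submodule.span_le]
      exact fun y hy => hy.2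
    · have h1 : Module.finrank ℤ K = Module.finrank ℤ (Submodule.span ℤ ({S, S1, R} : Set L)) := by
        rw [hK, H07.finrank_satur]
      rw [h1]
      apply Submodule.finrank_mono
      apply Submodule.span_mono
      rintro y (rfl | rfl | rfl)
      · exact ⟨rS, hSK⟩
      · exact ⟨rS1, hS1K⟩
      · exact ⟨rR, hRK⟩
  obtain ⟨B, hB⟩ : ∃ B : L, B = ((b : Ker (co phi Y.i0)) : L) := ⟨_, rfl⟩
  have hbk0 : phi B Y.i0 = 0 := by
    rw [hB]
    exact (b : Ker (co phi Y.i0)).2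
  have hbk1 : phi B Y.i1 = 0 := by
    have h1 : Y.k1 (b : Ker (co phi Y.i0)) = 0 := b.2
    rw [Y.hk] at h1
    rw [hB]
    exact h1
  have hBK : B ∈ K := by
    by_contra hc
    obtain ⟨i, h1, h2⟩ := hF ℤ P L phi D fp K lam (by rw [hK]; exact H63.satur_sat _) hlK hpos
      hrkK B hc
    have s0 := h1 S hSK
    have s1 := h1 S1 hS1K
    have s2 := h1 R hRK
    have h3 := hb i (by rw [psd_apply, if_pos ⟨s0, s1⟩, hx]; exact s2)
    rw [psd_apply, if_pos ⟨s0, s1⟩, ← hB] at h3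
    exact h2 h3
  obtain ⟨n, hn, a, c, d, h⟩ := hmem B hBK
  have hSi : phi S Y.i0 = 1 := Y.h0
  have hS1i : phi S1 Y.i1 = 1 := by
    have h1 := Y.h1
    rw [Y.hk, Y.eT] at h1
    exact h1
  have z1 : phi S1 Y.i0 = 0 := by
    rcases dS Y.i0 with h1 | h1
    · rw [hSi] at h1
      exact absurd h1 one_ne_zero
    · exact h1
  have z2 : phi R Y.i0 = 0 := by
    rcases dR Y.i0 with h1 | h1
    · rw [hSi] at h1
      exact absurd h1 one_ne_zero
    · exact h1
  have z3 : phi S Y.i1 = 0 := by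
    rcases dS Y.i1 with h1 | h1
    · exact h1
    · rw [hS1i] at h1
      exact absurd h1 one_ne_zero
  have z4 : phi R Y.i1 = 0 := by
    rcases dR1 Y.i1 with h1 | h1
    · rw [hS1i] at h1
      exact absurd h1 one_ne_zero
    · exact h1
  have e0 := congrFun (congrArg phi h) Y.i0
  simp only [map_add, map_zsmul, Pi.add_apply, Pi.smul_apply, smul_eq_mul, hbk0, hSi, z1, z2,
    mul_zero, mul_one, add_zero] at e0
  have e1 := congrFun (congrArg phi h) Y.i1
  simp only [map_add, map_zsmul, Pi.add_apply, Pi.smul_apply, smul_eq_mul, hbk1, hS1i, z3, z4,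
    mul_zero, mul_one, add_zero, zero_add] at e1
  have z5 : phi S iR = 0 := by
    rcases dR iR with h1 | h1
    · exact h1
    · rw [hiR] at h1
      exact absurd h1 one_ne_zero
  have z6 : phi S1 iR = 0 := by
    rcases dR1 iR with h1 | h1
    · exact h1
    · rw [hiR] at h1
      exact absurd h1 one_ne_zero
  have e2 := congrFun (congrArg phi h) iR
  simp only [map_add, map_zsmul, Pi.add_apply, Pi.smul_apply, smul_eq_mul, hiR, z5, z6,
    mul_zero, mul_one, add_zero, zero_add] at e2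
  rw [← e0, ← e1, zero_smul, zero_smul, zero_add, zero_add] at h
  refine ⟨phi B iR, ?_⟩
  apply Subtype.ext
  apply Subtype.ext
  change ((b : Ker (co phi Y.i0)) : L) = phi B iR • ((x : Ker (co phi Y.i0)) : L)
  rw [hx, ← hB]
  have h9 : n • (B - phi B iR • R) = 0 := by
    rw [smul_sub, h, smul_smul, e2, sub_self]
  rcases smul_eq_zero.mp h9 with h10 | h10
  · exact absurd h10 hn
  · exact sub_eq_zero.mp h10

end

/-- The double closing `(-1/z, z)` of a mutual pair of loads B with `n = j + 1`, of full rank, with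
a third ray with unit lowest coefficient: one factor of class `V(j)`, with the ports outside the
two rays. -/
theorem double2 (hMm : MmulS) (hMV : MVS) (hE1 : E1S) (hE2 : E2S) (hPc : PCZS) (hClp : ClpS)
    (hC0 : Coeff0S) (hG0 : G0S) (hI1 : Inj1S) (hRk : RkS) (hFD : FDS) (hWW : WWfS)
    (hRF : RayFacS) (hMug : MugS) (hMco : McoS) (hTr : TrezS) (hTsa : TsaS)
    (hO5 : H67.O5aS) {P L : Type} [Fintype P] [DecidableEq P] [AddCommGroup L]
    [Module.Free ℤ L] [Module.Finite ℤ L] {phi : L →+ (P → ℤ)} {D : AO ℤ L} {q f : ℤ[X]} {a : ℝ}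
    {j g : ℕ} {eta : L → (RO ℤ)ˣ} {C : Set L} (W : KcB phi D q f a j eta g C)
    (hu : f.coeff 0 = 1) (hn : f.coeff 1 - q.coeff 1 = j + 1) {S S1 : L} (hS : S ∈ C)
    {e e1 : (RO ℤ)ˣ} (he : eta S = ld e 1) (hR : RN D S q f e a)
    (hM : Mut D S S1 (ld e 1) e1) {E : ℤ[X]} (hE : f - q = X * E)
    (hEz : ∀ z : ℂ, ‖z‖ < 1 → aeval z E ≠ 0) (hEm : (aeval (-1 : ℂ) E : ℂ) ≠ 0)
    (Y : Dp phi S S1)
    (hfull : rk (supp (dc Y (ld e 1 * kap) (e1 * uT (1 : ℤˣ) 1) D)) + 2 = Module.finrank ℤ L)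
    (x : Ker Y.k1) (hx : Ray (dc Y (ld e 1 * kap) (e1 * uT (1 : ℤˣ) 1) D) x) {p : ℤ[X]}
    (hp : p.coeff 0 = 1) {e2 : (RO ℤ)ˣ}
    (hxp : (e2 : RO ℤ) * (dc Y (ld e 1 * kap) (e1 * uT (1 : ℤˣ) 1) D).coeff x = toLaurent p) :
    ∃ (c : RO ℤ) (H : AO ℤ (Ker Y.k1)), ClassV 1 c ∧
      dc Y (ld e 1 * kap) (e1 * uT (1 : ℤˣ) 1) D = cst c * H ∧ DD (psd Y) H ∧
      ClassV (j : ℝ) (H.coeff 0) ∧ Ray H x ∧
      c * H.coeff 0 = -toLaurent (X * (E - (1 + X) * f)) ∧
      (e2 : RO ℤ) * (c * H.coeff x) = toLaurent p ∧ Module.finrank ℤ (Ker Y.k1) + 1 = 2 * j := by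
  have fp := W.ko.min.fp
  have hD := fp.dd
  have hrk := W.ko.rk
  have hj := W.ko.j2
  obtain ⟨ha0, ha2, hθ2, hθ⟩ := ko_num W.ko
  obtain ⟨i0, h0, T, eT, i1, k1, hk, h1⟩ := Y
  have hfst : ∃ nu : ℕ, 2 ≤ nu ∧ (nu : ℤ) = f.coeff 1 - q.coeff 1 ∧
      ∃ (c : RO ℤ) (G : AO ℤ (Ker (co phi i0))), ClassV 1 c ∧
        cl (co phi i0) S h0 (-e) D = cst c * G ∧ DD (phO phi S i0) G ∧
        ClassV nu (G.coeff 0) ∧ Ray G T ∧ c * G.coeff 0 = toLaurent (q - f) ∧
        (∃ w : (RO ℤ)ˣ, (w : RO ℤ) * (c * G.coeff T) = toLaurent ((1 + X) * f)) ∧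
        ImS (phO phi S i0) T ∧ co (phO phi S i0) i1 = k1 := first hMm hMV
    hE1 hClp hC0 hG0 hI1 hRk hFD hWW hRF hMug hMco hTr hTsa W hu hS he hR hM
    ⟨i0, h0, T, eT, i1, k1, hk, h1⟩
  obtain ⟨nu, hnu2, hnu, c, G, hc, hcl, hDG, hVG, hrayG, hco0, ⟨w, hw⟩, hIm, hi1⟩ := hfst
  have hnuj : nu = j + 1 := by omega
  rw [hnuj] at hVG
  subst hi1
  have hE0 : E.coeff 0 = j + 1 := by
    have h3 := congrArg (fun r : ℤ[X] => r.coeff 1) hE
    simp only [coeff_sub, coeff_X_mul] at h3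
    rw [← h3, hn]
  -- the double closing
  have hload : ld e 1 * kap = -e := by rw [mul_comm]; exact kap_ld e
  have hdc : dc (⟨i0, h0, T, eT, i1, co (phO phi S i0) i1, hk, h1⟩ : Dp phi S S1)
      (ld e 1 * kap) (e1 * uT (1 : ℤˣ) 1) D =
      cst c * cl (co (phO phi S i0) i1) T h1 (e1 * uT (1 : ℤˣ) 1) G := by
    unfold dc
    dsimp only
    rw [hload, hcl, map_mul, H71.cl_cst]
  rw [hdc] at hfull hx hxp
  have hcne : c ≠ 0 := ((hMV ℤ).1 _ _ hc).1
  have hsup : supp (cst c * cl (co (phO phi S i0) i1) T h1 (e1 * uT (1 : ℤˣ) 1) G) =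
      supp (cl (co (phO phi S i0) i1) T h1 (e1 * uT (1 : ℤˣ) 1) G) := H56.supp_cst_mul hcne _
  rw [hsup] at hfull
  have hx' := ray_congr hsup hx
  have hker := finrank_ker hRk h0
  have hker1 := finrank_ker hRk h1
  rw [H71.cst_mul_coeff] at hxp
  -- the coefficient of `T`
  have hcT : c * (((e1 * uT (1 : ℤˣ) 1 : (RO ℤ)ˣ) : RO ℤ) * G.coeff T) =
      toLaurent (X * ((1 + X) * f)) := by
    obtain ⟨-, hA1, hA2, -⟩ := hMco ℤ P L phi D S S1 (ld e 1) e1 hD.inj hD.bin hM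
    have hX : ((ld e 1 : (RO ℤ)ˣ) : RO ℤ) * D.coeff S = toLaurent (X * f) := by
      have h3 := ld_S hR 1
      rw [pow_one] at h3
      exact h3
    have hcoT : (e1 : RO ℤ) * (c * G.coeff T) = toLaurent ((1 + X) * f) := by
      have hcl' : cl (co phi i0) S h0 (kap * ld e 1) D = cst c * G := by
        rw [kap_ld]
        exact hcl
      have hVne : D.coeff 0 + ((kap * ld e 1 : (RO ℤ)ˣ) : RO ℤ) * D.coeff S ≠ 0 := by
        rw [kap_ld]
        exact V0_ne_A hR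
      obtain ⟨-, -, hco1, -, -, -, -⟩ := hMug ℤ P L phi D S S1 (ld e 1) e1 kap i0 h0 T c
        G fp hM.r0 hM.r1 hM.m0 hM.m1 eT kap_ne hVne hcl'
      rw [hco1, hX, kap_val, sub_neg_eq_add, map_mul, map_mul, map_add, map_one, toLaurent_X]
      have h2 : (LaurentPolynomial.T (-1) : RO ℤ) * LaurentPolynomial.T 1 = 1 := by
        rw [← LaurentPolynomial.T_add, neg_add_cancel, LaurentPolynomial.T_zero]
      linear_combination (toLaurent f : RO ℤ) * h2
    rw [Units.val_mul, uT1_val, map_mul, toLaurent_X]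
    linear_combination (LaurentPolynomial.T 1 : RO ℤ) * hcoT
  obtain ⟨c', H, hc', hclH, hDH, hVH⟩ := second hFD hG0 hC0 hE1 hE2 hMV hMm hRk hWW hRF hO5 h1
    hR.loc hu hj ha2.le W.ko.lt hDG (by omega) hVG hc hrayG hIm hE hE0 hEz hco0 hcT hEm
    (by omega) x hx' (g := p) (by rw [hp, abs_one]) hxp
  have hcc : ClassV 1 (c * c') := by
    obtain ⟨k, r, hcp, hp1, -, hpz⟩ := H78.classV_nf hc
    obtain ⟨k', r', hcp', hp1', -, hpz'⟩ := H78.classV_nf hc'
    refine H66.classV_of (a := k + k') (x' := r * r') le_rfl ?_ ?_ ?_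
    · rw [hcp, hcp', LaurentPolynomial.T_add, map_mul]
      ring
    · rw [mul_coeff_zero, Int.cast_mul, abs_mul, hp1, hp1', mul_one]
    · intro z hz
      rw [Polynomial.map_mul, eval_mul]
      exact mul_ne_zero (hpz z hz) (hpz' z hz)
  have hc'ne : c' ≠ 0 := ((hMV ℤ).1 _ _ hc').1
  rw [hclH, H71.cst_mul_coeff] at hxp
  have hV0 : c * c' * H.coeff 0 = -toLaurent (X * (E - (1 + X) * f)) := by
    have h3 : (cl (co (phO phi S i0) i1) T h1 (e1 * uT (1 : ℤˣ) 1) G).coeff 0 =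
        G.coeff 0 + ((e1 * uT (1 : ℤˣ) 1 : (RO ℤ)ˣ) : RO ℤ) * G.coeff T := by
      have h4 := H47.cl_coeff_bin (co (phO phi S i0) i1) T h1 (e1 * uT (1 : ℤˣ) 1) G
        (fun b hb => hDG.bin b hb i1) 0
      rw [h4]
      have h5 : ((0 : Ker (co (phO phi S i0) i1)) : Ker (co phi i0)) = 0 := rfl
      rw [h5, zero_add]
    rw [hclH, H71.cst_mul_coeff] at h3
    have h4 : c * c' * H.coeff 0 = c * G.coeff 0 +
        c * (((e1 * uT (1 : ℤˣ) 1 : (RO ℤ)ˣ) : RO ℤ) * G.coeff T) := by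
      rw [mul_assoc, h3]
      ring
    rw [h4, hco0, hcT, ← map_add, ← map_neg]
    congr 1
    have h5 : q = f - X * E := by rw [← hE]; ring
    rw [h5]
    ring
  have hpsi : psd (⟨i0, h0, T, eT, i1, co (phO phi S i0) i1, hk, h1⟩ : Dp phi S S1) =
      phO (phO phi S i0) T i1 := psd_eq phi i0 h0 T eT i1 hk h1
  refine ⟨c * c', H, hcc, ?_, ?_, hVH, ?_, hV0, ?_, ?_⟩
  · rw [hdc, hclH, H71.cst_mul, mul_assoc]
  · rw [hpsi]
    exact hDH
  · refine ray_congr ?_ hx'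
    rw [hclH, H56.supp_cst_mul hc'ne]
  · rw [mul_assoc]
    exact hxp
  · change Module.finrank ℤ (Ker (co (phO phi S i0) i1)) + 1 = 2 * j
    omega

end Pool.Agent.B5.KO67
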