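import Pool.Agent.Lib.MP_b5021c_nt.KO.H67.O3
import Pool.Agent.Lib.MP_b5021c_nt.IfaceBP

/-!
# MP_b5021c_nt, all `θ`, K ODD, row KO_O3 from Theorem B' (`BpS`) instead of `SewS`
-/

namespace Pool.Agent.B5.KO67

open scoped LaurentPolynomial
open Polynomial
open Pool.Agent.B5.KE
open Pool.Agent.B5.Nr.Sch
open Pool.Agent.B5.H40 (uT)
open Pool.Agent.B5.Nr (TrezS)
open Pool.Agent.B5.H61 (CuspS)

theorem abs_aeval_le {G : ℤ[X]} (h : ∀ k, |G.coeff k| ≤ 1) {x : ℝ} (hx0 : 0 ≤ x) (hx1 : x < 1) :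
    |(aeval x G : ℝ)| ≤ (1 - x)⁻¹ := by
  rw [aeval_eq_sum_range]
  refine (Finset.abs_sum_le_sum_abs _ _).trans ?_
  have h1 : ∀ i ∈ Finset.range (G.natDegree + 1), |G.coeff i • x ^ i| ≤ x ^ i := by
    intro i _
    rw [zsmul_eq_mul, abs_mul, abs_of_nonneg (pow_nonneg hx0 i)]
    have h2 : |((G.coeff i : ℤ) : ℝ)| ≤ 1 := by exact_mod_cast h i
    nlinarith [pow_nonneg hx0 i]
  refine (Finset.sum_le_sum h1).trans ?_
  rw [← tsum_geometric_of_lt_one hx0 hx1]
  exact (summable_geometric_of_lt_one hx0 hx1).sum_le_tsum _ (fun i _ => pow_nonneg hx0 i)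

/-- The sign of a polynomial with coefficients `0, 1, -1` on `(0, 1/2)`. -/
theorem sgn_small {F : ℤ[X]} (h1 : ∀ k, |F.coeff k| ≤ 1) {a y : ℝ} (ha : 0 < a)
    (hay : a ≤ y) (hy : y < 1 / 2) (hF : (aeval y F : ℝ) ≤ 0) : (aeval a F : ℝ) ≤ 0 := by
  by_cases hF0 : F = 0
  · rw [hF0, map_zero]
  obtain ⟨m, hm0, hm⟩ : ∃ m : ℕ, F.coeff m ≠ 0 ∧ ∀ d < m, F.coeff d = 0 := by
    classical
    have hex : ∃ m, F.coeff m ≠ 0 := by
      by_contra hcon
      push Not at hcon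
      exact hF0 (by ext n; rw [hcon n, coeff_zero])
    exact ⟨Nat.find hex, Nat.find_spec hex, fun d hd => by
      have := Nat.find_min hex hd
      push Not at this
      exact this⟩
  obtain ⟨G, hG⟩ := X_pow_dvd_iff.mpr hm
  have hGc : ∀ k, G.coeff k = F.coeff (k + m) := by
    intro k
    rw [hG, coeff_X_pow_mul]
  have hG1 : ∀ k, |G.coeff k| ≤ 1 := fun k => by rw [hGc]; exact h1 _
  have hsp : G = X * G.divX + C (G.coeff 0) := (X_mul_divX_add G).symm
  have hb : ∀ x : ℝ, 0 < x → x < 1 / 2 →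
      |(aeval x G : ℝ) - G.coeff 0| < 1 := by
    intro x hx0 hx
    have h2 : (aeval x G : ℝ) = x * aeval x G.divX + G.coeff 0 := by
      conv_lhs => rw [hsp]
      rw [map_add, map_mul, aeval_X, aeval_C]
      simp
    have h3 := abs_aeval_le (G := G.divX) (fun k => by rw [coeff_divX]; exact hG1 _) hx0.le
      (by linarith)
    rw [h2, add_sub_cancel_right, abs_mul, abs_of_pos hx0]
    have h4 : x * (1 - x)⁻¹ < 1 := by
      rw [mul_inv_lt_iff₀ (by linarith)]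
      linarith
    nlinarith
  have hG0 : G.coeff 0 = F.coeff m := by rw [hGc, zero_add]
  have hev : ∀ x : ℝ, (aeval x F : ℝ) = x ^ m * aeval x G := by
    intro x
    rw [hG, map_mul, map_pow, aeval_X]
  have hy0 : 0 < y := by linarith
  rcases lt_or_gt_of_ne hm0 with h | h
  · -- `F_m = -1`
    have h2 : G.coeff 0 ≤ -1 := by omega
    have h3 : ((G.coeff 0 : ℤ) : ℝ) ≤ -1 := by exact_mod_cast h2
    have h4 := (abs_lt.mp (hb a ha (by linarith))).2
    rw [hev]
    have h5 := pow_pos ha m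
    nlinarith
  · have h2 : 1 ≤ G.coeff 0 := by omega
    have h3 : (1 : ℝ) ≤ ((G.coeff 0 : ℤ) : ℝ) := by exact_mod_cast h2
    have h4 := (abs_lt.mp (hb y hy0 hy)).1
    rw [hev] at hF
    have h5 := pow_pos hy0 m
    nlinarith

/-- THE END of (O3) from Theorem B'. -/
theorem end_3b (hU : UnitRS) (hM1 : M1S) (hMm : MmulS) (hMV : MVS) (hE2 : E2S) (hBp : BpS)
    {Q K : Type} [Fintype Q] [DecidableEq Q] [AddCommGroup K] [Module.Free ℤ K]
    [Module.Finite ℤ K] {psi : K →+ (Q → ℤ)} {H : AO ℤ K} {x : K} {q f E : ℤ[X]} {a : ℝ} {j : ℕ}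
    {c w : RO ℤ} (hloc : Loc q f a) (hu : f.coeff 0 = 1) (hj : 2 ≤ j)
    (hja : 1 < ((j : ℝ) + 1) * a) (haj : a * j ≤ 1) (hIH : ∀ K < 2 * j, Bnk K)
    (hB : (aeval (1 / (j : ℝ)) (q + X * f) : ℝ) ≤ 0) (hD : DD psi H)
    (hfr : Module.finrank ℤ K + 1 = 2 * j)
    (hV : ClassV j (H.coeff 0)) (hc : ClassV 1 c) (hT : Ray H x) (hw : IsUnit w)
    (hE : f - q = X * E) (hE0 : E.coeff 0 = j + 1)
    (h0 : c * H.coeff 0 = -toLaurent (X * (E - (1 + X) * f)))
    (h1 : w * (c * H.coeff x) = toLaurent ((1 - X) * (1 + X) * f))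
    (hcusp : ∀ z : ℂ, ‖z‖ = 1 → (aeval z (q + X * f) : ℂ) ≠ 0) : False := by
  obtain ⟨V, hVd⟩ : ∃ V : ℤ[X], V = E - (1 + X) * f := ⟨_, rfl⟩
  rw [← hVd] at h0
  have hE' : E = V + (1 + X) * f := by rw [hVd]; ring
  have hq1 : q = f - X * V - X * (1 + X) * f := by
    have : q = f - X * E := by rw [← hE]; ring
    rw [this, hE']
    ring
  have hVB : q + X * f = (1 - X) * (1 + X) * f - X * V := by
    rw [hq1]
    ring
  have hV0 : V.coeff 0 = j := by
    rw [hVd, coeff_sub, hE0, mul_coeff_zero, hu]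
    simp
  have hj0 : (j : ℤ) ≠ 0 := by exact_mod_cast (by omega : j ≠ 0)
  have hjV : V.coeff 0 ≠ 0 := by rw [hV0]; exact hj0
  -- no zero at `1`, `-1`
  have hV1 : V.eval 1 ≠ 0 := by
    intro h2
    apply hcusp 1 (by simp)
    have h3 := aeval_int V 1
    rw [h2, Int.cast_one, Int.cast_zero] at h3
    rw [hVB]
    simp only [map_sub, map_mul, map_add, map_one, aeval_X, h3]
    ring
  have hVm : V.eval (-1) ≠ 0 := by
    intro h2
    apply hcusp (-1) (by simp)
    have h3 := aeval_int V (-1)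
    rw [h2, Int.cast_neg, Int.cast_one, Int.cast_zero] at h3
    rw [hVB]
    simp only [map_sub, map_mul, map_add, map_one, aeval_X, h3]
    ring
  have hp : ((1 - X) * (1 + X) * f).coeff 0 = 1 := by
    rw [mul_coeff_zero, hu, mul_coeff_zero]
    simp
  obtain ⟨c', g', hc', hg', hcg, ⟨u, huc⟩, ⟨v, hvg⟩⟩ := split_one hU hp hw h1
  -- the constant coefficient of `H`
  have hH0 : H.coeff 0 ≠ 0 := ((hMV ℤ).1 _ _ hV).1
  obtain ⟨m, p', hp', hp'0⟩ := H40.exists_normal (H.coeff 0) hH0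
  obtain ⟨n, s, hs, hus⟩ := (hU ℤ _).mp u.isUnit
  obtain ⟨s', rfl⟩ := hs
  obtain ⟨p, hpd⟩ : ∃ p : ℤ[X], p = -(C (s' : ℤ) * p') := ⟨_, rfl⟩
  have hVp : V = c' * p := by
    have h2 : (LaurentPolynomial.T (n + m) : RO ℤ) * toLaurent (C (s' : ℤ) * (c' * p')) =
        LaurentPolynomial.T 1 * toLaurent (-V) := by
      rw [huc, hp', hus] at h0
      rw [LaurentPolynomial.T_add, map_mul toLaurent (C _), map_mul, toLaurent_C, map_neg]
      rw [map_mul, toLaurent_X] at h0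
      linear_combination h0
    obtain ⟨-, h3⟩ := H56.nf_unique (n + m) 1 _ _ (by
      rw [mul_coeff_zero, coeff_C_zero, mul_coeff_zero, hc', one_mul]
      exact mul_ne_zero (Units.ne_zero s') hp'0) (by
      rw [coeff_neg]
      exact neg_ne_zero.mpr hjV) h2
    rw [hpd]
    linear_combination h3
  have hp0 : p.coeff 0 = j := by
    have h2 : V.coeff 0 = p.coeff 0 := by rw [hVp, mul_coeff_zero, hc', one_mul]
    rw [← h2, hV0]
  have hwp : ((uT (-s') (-m) : (RO ℤ)ˣ) : RO ℤ) * H.coeff 0 = toLaurent p := by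
    rw [H40.uT_val, hp', hpd, map_neg toLaurent, map_mul toLaurent (C _), toLaurent_C,
      Units.val_neg, map_neg]
    have h2 : (LaurentPolynomial.T (-m) : RO ℤ) * LaurentPolynomial.T m = 1 := by
      rw [← LaurentPolynomial.T_add, neg_add_cancel, LaurentPolynomial.T_zero]
    linear_combination (-(LaurentPolynomial.C (s' : ℤ) * toLaurent p') : RO ℤ) * h2
  have hMc : M (toLaurent c' : RO ℤ) = 1 := by
    have h3 := ((hMV ℤ).1 _ _ hc).2
    have hc0 : (toLaurent c' : RO ℤ) ≠ 0 := by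
      rw [toLaurent_ne_zero]
      intro h4
      rw [h4, coeff_zero] at hc'
      exact zero_ne_one hc'
    rw [huc, (hMm ℤ).1 _ _ u.ne_zero hc0, (hMm ℤ).2.2 _ u.isUnit, one_mul] at h3
    exact h3
  have hdvd : c' ∣ ((1 - X) * (1 + X)) * q := by
    refine ⟨(1 - X - X ^ 2) * g' - X * ((1 - X) * (1 + X)) * p, ?_⟩
    calc ((1 - X) * (1 + X)) * q = (1 - X - X ^ 2) * ((1 - X) * (1 + X) * f) -
          X * ((1 - X) * (1 + X)) * V := by rw [hq1]; ring
      _ = (1 - X - X ^ 2) * (c' * g') - X * ((1 - X) * (1 + X)) * (c' * p) := by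
          rw [hcg, ← hVp]
      _ = _ := by ring
  have hc1 : c' = 1 := by
    rcases c_dvd2 hU hM1 hMm (fun z hz => q_ne hloc z hz) hc' hMc hdvd with h3 | h3 | h3
    · exact h3
    · exfalso
      apply hV1
      rw [hVp, eval_mul, h3, zero_mul]
    · exfalso
      apply hVm
      rw [hVp, eval_mul, h3, zero_mul]
  rw [hc1, one_mul] at hcg hVp
  have hg1 : g' ≠ 1 := by
    intro h2
    rw [h2] at hcg
    have := congrArg (fun p : ℤ[X] => p.eval 1) hcg
    simp at this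
  have ha0 := hloc.a0
  have ha1 := hloc.a1
  have hqa : (aeval a q : ℝ) = 0 := by
    obtain ⟨s, hs, -⟩ := hloc.s
    have h3 : (aeval a q : ℝ) = (q.map (Int.castRingHom ℝ)).eval a := by
      rw [eval_map, aeval_def]; rfl
    rw [h3, hs]
    simp
  rcases hBp Q K psi H j x (uT (-s') (-m)) v p g' hj hD hV hfr hIH hT hwp hp0 hvg hg' hg1 with
    ⟨k, t, r, hk, hpt, hgr⟩ | ⟨s, F, y, hsj, hpF, hgF, hF0, hF1, -, -, -⟩
  · -- binomials
    rw [hgr] at hcg
    have hr1 : r = -1 := by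
      have := congrArg (fun p : ℤ[X] => p.eval 1) hcg
      simp only [eval_mul, eval_sub, eval_one, eval_X, eval_add, eval_C, eval_pow, one_pow,
        sub_self, zero_mul, mul_one] at this
      omega
    have ht : |t| < j := by
      apply t_lt hk
      intro z hz
      have h10 : (aeval z p : ℂ) ≠ 0 := by
        intro hpz
        have hp'z : (aeval z p' : ℂ) = 0 := by
          rw [hpd, map_neg, map_mul, aeval_C, neg_eq_zero] at hpz
          rcases mul_eq_zero.mp hpz with h5 | h5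
          · exfalso
            have h6 : ((s' : ℤ) : ℂ) = 0 := h5
            exact Units.ne_zero s' (by exact_mod_cast h6)
          · exact h5
        rcases lt_or_eq_of_le hz with h4 | h4
        · obtain ⟨-, n0, g0, hg0, hg0', hz0⟩ := id hV
          have h5 : (g0.coeff 0) ≠ 0 := by
            intro h6
            rw [h6, map_zero, norm_zero] at hg0'
            have : (j : ℝ) ≠ 0 := by exact_mod_cast (by omega : j ≠ 0)
            exact this hg0'.symm
          obtain ⟨-, h8⟩ := H56.nf_unique n0 m g0 p' h5 hp'0 (by rw [← hg0, hp'])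
          have h9 := hz0 z h4
          rw [ev_map, h8] at h9
          exact h9 hp'z
        · obtain ⟨zc, rfl⟩ := circle_of z h4
          have h5 := (hE2 ℤ Q K psi H hD (by omega)).1 zc
          rw [hp', map_mul, evR_poly, hp'z, mul_zero] at h5
          exact h5 rfl
      rw [hpt, map_add, map_mul, map_pow, aeval_X, aeval_C, aeval_C] at h10
      simpa using h10
    obtain ⟨ht1, ht2⟩ := abs_lt.mp ht
    obtain ⟨F, hF⟩ : ∃ F : ℝ, F = aeval a f := ⟨_, rfl⟩
    obtain ⟨A, hA⟩ : ∃ A : ℝ, A = a ^ k := ⟨_, rfl⟩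
    have e1 : (1 - a ^ 2) * F = 1 - A := by
      have := congrArg (fun p : ℤ[X] => (aeval a p : ℝ)) hcg
      simp only [map_mul, map_add, map_sub, map_one, aeval_X, map_pow, ← hF, aC, hr1] at this
      push_cast at this
      rw [← hA] at this
      linear_combination this
    have e2 : F * (1 - a - a ^ 2) = a * (j + t * A) := by
      have h3 := congrArg (fun p : ℤ[X] => (aeval a p : ℝ)) hq1
      simp only [map_mul, map_add, map_sub, map_one, aeval_X, ← hF, hqa] at h3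
      have h4 : (aeval a V : ℝ) = j + t * A := by
        rw [hVp, hpt, map_add, map_mul (aeval a) (C _), map_pow, aeval_X, aC, aC, hA]
        push_cast
        ring
      rw [h4] at h3
      linear_combination -h3
    have hA0 : 0 < A := by rw [hA]; exact pow_pos ha0 k
    have hA1 : A < 1 := by
      rw [hA]
      exact pow_lt_one₀ ha0.le ha1 (by omega)
    have ht3 : -((j : ℝ) - 1) ≤ t := by
      have : -((j : ℤ) - 1) ≤ t := by omega
      exact_mod_cast this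
    have e3 : (1 - a - a ^ 2) * (1 - A) = (1 - a ^ 2) * (a * (j + t * A)) := by
      rw [← e1, ← e2]
      ring
    have e4 : (1 - a) * (1 - A) < a * (j + t * A) := by
      have h3 : a * (j - (j - 1) * A) ≤ a * (j + t * A) := by
        apply mul_le_mul_of_nonneg_left _ ha0.le
        nlinarith
      have h4 : 0 < (((j : ℝ) + 1) * a - 1) * (1 - A) := mul_pos (by linarith) (by linarith)
      nlinarith [mul_pos ha0 hA0]
    have e5 : 0 < 1 - a ^ 2 := by nlinarith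
    have e6 : (1 - a ^ 2) * ((1 - a) * (1 - A)) < (1 - a - a ^ 2) * (1 - A) := by
      rw [e3]
      exact mul_lt_mul_of_pos_left e4 e5
    have e7 : 0 < a ^ 3 * (1 - A) := mul_pos (pow_pos ha0 3) (by linarith)
    nlinarith
  · -- the form of LEMMA UF
    rw [hgF] at hcg
    have hj3 : (3 : ℝ) ≤ j := by exact_mod_cast (by omega : 3 ≤ j)
    have hsj' : (s : ℝ) + 3 ≤ j := by exact_mod_cast hsj
    have hs0 : (0 : ℝ) ≤ s := Nat.cast_nonneg s
    have hjp : (0 : ℝ) < j := by linarith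
    -- at `1 / j`
    have hFy : (aeval (1 / (j : ℝ)) F : ℝ) ≤ 0 := by
      rw [hVB, hcg, hVp, hpF] at hB
      simp only [map_add, map_sub, map_mul, map_one, aeval_X, aC] at hB
      push_cast at hB
      have h2 : (1 / (j : ℝ)) * j = 1 := by field_simp
      have h3 : (1 / (j : ℝ)) * ((s : ℝ) + 1) < 1 := by
        rw [one_div, inv_mul_lt_iff₀ hjp]
        linarith
      have h4 : (aeval (1 / (j : ℝ)) F : ℝ) * (1 - (1 / (j : ℝ)) * ((s : ℝ) + 1)) ≤ 0 := by
        linear_combination hB + h2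
      by_contra h5
      push Not at h5
      have h6 : 0 < (aeval (1 / (j : ℝ)) F : ℝ) * (1 - (1 / (j : ℝ)) * ((s : ℝ) + 1)) :=
        mul_pos h5 (by linarith)
      linarith
    have hay : a ≤ 1 / (j : ℝ) := by
      rw [le_div_iff₀ hjp]
      exact haj
    have hy2 : 1 / (j : ℝ) < 1 / 2 := by
      apply one_div_lt_one_div_of_lt <;> linarith
    have hFa := sgn_small hF1 ha0 hay hy2 hFy
    -- at `a`
    have h3 := congrArg (fun p : ℤ[X] => (aeval a p : ℝ)) hq1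
    have h4 := congrArg (fun p : ℤ[X] => (aeval a p : ℝ)) hcg
    simp only [map_mul, map_add, map_sub, map_one, aeval_X, hqa] at h3 h4
    have h5 : (aeval a V : ℝ) = j + (s + 1) * aeval a F := by
      rw [hVp, hpF, map_add, map_mul (aeval a) (C _), aC, aC]
      push_cast
      ring
    rw [h5] at h3
    obtain ⟨y, hy⟩ : ∃ y : ℝ, y = aeval a F := ⟨_, rfl⟩
    obtain ⟨g, hg⟩ : ∃ g : ℝ, g = aeval a f := ⟨_, rfl⟩
    rw [← hy] at h3 h4 hFa
    rw [← hg] at h3 h4
    -- `(1 - a - a²) (1 + y) = a (1 - a²) (j + (s + 1) y)`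
    have h6 : (1 - a - a ^ 2) * (1 + y) = a * (1 - a ^ 2) * (j + (s + 1) * y) := by
      linear_combination (-(1 - a ^ 2)) * h3 - (1 - a - a ^ 2) * h4
    have h7 : y * ((1 - a - a ^ 2) - (s + 1) * (a * (1 - a ^ 2))) =
        a * j * (1 - a ^ 2) - (1 - a - a ^ 2) := by
      linear_combination h6
    have e5 : 0 < 1 - a ^ 2 := by
      have : 0 < (1 - a) * (1 + a) := mul_pos (by linarith) (by linarith)
      linarith
    have h8 : a ^ 3 < a * j * (1 - a ^ 2) - (1 - a - a ^ 2) := by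
      have h9 : (1 - a) * (1 - a ^ 2) < a * j * (1 - a ^ 2) :=
        mul_lt_mul_of_pos_right (by linarith) e5
      have h10 : (1 - a) * (1 - a ^ 2) = (1 - a - a ^ 2) + a ^ 3 := by ring
      linarith
    have h9 : 0 < (1 - a - a ^ 2) - (s + 1) * (a * (1 - a ^ 2)) := by
      have h10 : (s + 1) * (a * (1 - a ^ 2)) ≤ (j - 2) * a := by
        have h11 : (s + 1) * (a * (1 - a ^ 2)) ≤ (s + 1) * a := by
          apply mul_le_mul_of_nonneg_left _ (by linarith)
          have : a * (1 - a ^ 2) = a - a ^ 3 := by ring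
          linarith [pow_pos ha0 3]
        have h12 : (s + 1) * a ≤ (j - 2) * a := mul_le_mul_of_nonneg_right (by linarith) ha0.le
        linarith
      have h14 : 0 < a * (1 - a) := mul_pos ha0 (by linarith)
      have h15 : (1 - a - a ^ 2) - (j - 2) * a = (1 - a * j) + a * (1 - a) := by ring
      linarith
    have h10 : 0 < a ^ 3 := pow_pos ha0 3
    have h11 : y * ((1 - a - a ^ 2) - (s + 1) * (a * (1 - a ^ 2))) ≤ 0 :=
      mul_nonpos_of_nonpos_of_nonneg hFa h9.le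
    linarith

/-- The load B of a ray of `C` at `1 / j`. -/
theorem loadB_j (hMV : MVS) (hMm : MmulS) (hE1 : E1S) (hPc : PCZS) (hClp : ClpS) (hFD : FDS)
    (hSf : SfzS) (hGlc : GlcS) (hFou : FouS) (hDti : DtiS) {P L : Type} [Fintype P]
    [DecidableEq P] [AddCommGroup L] [Module.Free ℤ L] [Module.Finite ℤ L] {phi : L →+ (P → ℤ)}
    {D : AO ℤ L} {q f : ℤ[X]} {a : ℝ} {j g : ℕ} {eta : L → (RO ℤ)ˣ} {C : Set L}
    (W : KcB phi D q f a j eta g C) (hu : f.coeff 0 = 1) {S : L} (hS : S ∈ C) {e : (RO ℤ)ˣ}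
    (he : eta S = ld e 1) (hR : RN D S q f e a) :
    a * j ≤ 1 ∧ (aeval (1 / (j : ℝ)) (q + X * f) : ℝ) ≤ 0 ∧
      ∃ b : ℝ, a < b ∧ b < 1 ∧ (j : ℝ) ≤ b⁻¹ ∧
        ((q + X * f).map (Coef.emb : ℤ →+* ℂ)).roots.filter (fun x => ‖x‖ < 1) = {(b : ℂ)} := by
  obtain ⟨ha0, ha2, hθ2, hθ⟩ := ko_num W.ko
  have fp := W.ko.min.fp
  have hD := fp.dd
  have hrk := W.ko.rk
  have hj := W.ko.j2
  have h2 : 2 ≤ Module.finrank ℤ L := by omega
  have hA := aset hSf hClp W hu
  have hray := W.kc.ray S hS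
  obtain ⟨S1, -, hM⟩ := W.kc.ex S hS
  rw [he] at hM
  have hg : g = 1 ∨ g = 2 := by
    have h3 := hGlc ℤ P L phi D eta g a⁻¹ C W.ko.min h2 hA W.kc.ne
    have h4 := W.kc.g1
    omega
  obtain ⟨i0, h⟩ := exists_port hD hray
  obtain ⟨c, n, G, fd⟩ := hFD ℤ P L phi D S i0 (ld e 1) h
    ⟨hD, h2, hray, h, V0_ne hR (k := 1) (le_refl 1)⟩
  obtain ⟨hs, hbig⟩ := sf_B hSf W.ko hR hu fd (Or.inr ⟨S1, _, hM⟩)
  have hzero := zero_B hMV hMm hR fd hbig
  have hl := lob hPc hR.loc hR.u hR.ne (k := 1) (le_refl 1)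
  rw [pow_one] at hl
  rcases hl with h3 | ⟨b, hab, hb1, hb⟩
  · obtain ⟨b, hb1, hb2⟩ := hzero
    exact absurd hb2 (h3 b hb1)
  · have hb0 : 0 < b := lt_trans ha0 hab
    have h4 := thB hE1 hMV hMm hClp hFou hDti W hA hg hS he hR fd hs hb0 hb1 hb
    have hj0 : (0 : ℝ) < j := by exact_mod_cast (by omega : 0 < j)
    have h5 : b * j ≤ 1 := by
      have := mul_le_mul_of_nonneg_left h4 hb0.le
      rwa [mul_inv_cancel₀ hb0.ne'] at this
    refine ⟨?_, ?_, b, hab, hb1, h4, hb⟩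
    · nlinarith
    · have h6 := sgn (k := 1) (le_refl 1) hR.loc.q0 (p := 1 / (j : ℝ)) hb0
        (by rw [pow_one]; exact hb) (by rw [le_div_iff₀ hj0]; exact h5) (by
          rw [div_lt_one hj0]
          exact_mod_cast (by omega : 1 < j))
      rw [pow_one] at h6
      exact h6

/-- Row KO_O3 from Theorem B'. -/
theorem ob3b (hU : UnitRS) (hM1 : M1S) (hMm : MmulS) (hMV : MVS) (hE1 : E1S) (hE2 : E2S)
    (hPc : PCZS) (hClp : ClpS) (hC0 : Coeff0S) (hG0 : G0S) (hI1 : Inj1S) (hI2 : Inj2S)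
    (hRk : RkS) (hFD : FDS) (hWW : WWfS) (hRF : RayFacS) (hMug : MugS) (hMco : McoS)
    (hCu : CuspS) (hSf : SfzS) (hTr : TrezS) (hTsa : TsaS) (hI3 : Io3S) (hMfc : MfcS)
    (hCa : Ca5S) (hGlc : GlcS) (hFou : FouS) (hDti : DtiS) (hT2f : T2fS) (hD2 : D2S)
    (hF1 : F1S) (hF3 : F3S) (hBp : BpS) (hO5 : H67.O5aS) : Ob3S := by
  intro P L _ _ _ _ _ phi D q f a j eta C W hu hn
  obtain ⟨S, hS⟩ := W.kc.ne
  obtain ⟨S1, hS1, S2, hS2, hM01, hM02, hs2, hs1⟩ := W.kc.two le_rfl S hS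
  obtain ⟨e, he, hR⟩ := W.rn S hS
  have fp := W.ko.min.fp
  have hD := fp.dd
  have hrk := W.ko.rk
  have hj := W.ko.j2
  have h2 : 2 ≤ Module.finrank ℤ L := by omega
  obtain ⟨-, hzero, -⟩ := upper hMV hMm hE1 hPc hClp hFD hSf hI3 hMfc hCa hGlc hFou hDti W hu
    hS he hR
  obtain ⟨haj, hBj, -⟩ := loadB_j hMV hMm hE1 hPc hClp hFD hSf hGlc hFou hDti W hu hS he hR
  have hM12 : Mut D S1 S2 (eta S1) (eta S2) := by
    refine (W.kc.mtl S1 hS1 S2 hM02.r1 ?_).2
    intro h3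
    apply hs2
    refine ⟨1, one_ne_zero, ?_⟩
    rw [one_smul]
    exact Submodule.mem_sup_left h3
  rw [he] at hM01 hM02
  obtain ⟨E, hE, hE0, hEpos, hEz⟩ := typa hR.loc hu hR.ne
  rw [hn] at hE0
  have hcusp : ∀ z : ℂ, ‖z‖ = 1 → (aeval z (q + X * f) : ℂ) ≠ 0 := fun z hz =>
    cusp_m1 hCu hD h2 hR hM01 hzero hz
  have hEm : (aeval (-1 : ℂ) E : ℂ) ≠ 0 := by
    intro h3
    apply hcusp (-1) (by simp)
    have h5 := congrArg (fun p : ℤ[X] => (aeval (-1 : ℂ) p : ℂ)) hE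
    simp only [map_sub, map_mul, aeval_X, h3, mul_zero] at h5
    rw [map_add, map_mul, aeval_X]
    linear_combination -h5
  obtain ⟨Y⟩ := (hMco ℤ P L phi D S S1 (ld e 1) _ hD.inj hD.bin hM01).2.2.2
  obtain ⟨x, -, hx, hxc⟩ := third hD2 hF1 hF3 hI2 hMco fp hM01 hM02 hM12 hs2 kap_ne uT1_ne Y
  have hfull := hT2f ℤ P L phi D S S1 S2 (ld e 1) _ _ kap (uT (1 : ℤˣ) 1) hD hM01 hM02 hs2 hs1
    kap_ne uT1_ne Y
  have hX : ((ld e 1 : (RO ℤ)ˣ) : RO ℤ) * D.coeff S = toLaurent (X * f) := by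
    have h3 := ld_S hR 1
    rw [pow_one] at h3
    exact h3
  have hxp : ((eta S2 : (RO ℤ)ˣ) : RO ℤ) *
      (dc Y (ld e 1 * kap) (eta S1 * uT (1 : ℤˣ) 1) D).coeff x =
      toLaurent ((1 - X) * (1 + X) * f) := by
    rw [hxc, hX, kap_val, uT1_val]
    simp only [map_mul, map_add, map_sub, map_one, toLaurent_X]
    have h3 : (LaurentPolynomial.T (-1) : RO ℤ) * LaurentPolynomial.T 1 = 1 := by
      rw [← LaurentPolynomial.T_add, neg_add_cancel, LaurentPolynomial.T_zero]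
    linear_combination ((1 - LaurentPolynomial.T 1) * toLaurent f : RO ℤ) * h3
  have hp0 : ((1 - X) * (1 + X) * f).coeff 0 = 1 := by
    rw [mul_coeff_zero, hu, mul_coeff_zero]
    simp
  obtain ⟨c, H, psi, hc, -, hDH, hVH, hrH, hH0, hHx, hfr⟩ := double hMm hMV hE1 hE2 hPc hClp hC0
    hG0 hI1 hRk hFD hWW hRF hMug hMco hTr hTsa hO5 W hu hn hS he hR hM01 hE hEz hEm Y hfull x hx
    hp0 hxp
  exact end_3b hU hM1 hMm hMV hE2 hBp hR.loc hu hj W.ko.lt haj
    (fun K hK => W.ko.ih K (by omega)) hBj hDH hfr hVH hc hrH (eta S2).isUnit hE hE0 hH0 hHx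
    hcusp

end Pool.Agent.B5.KO67
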