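import Pool.Agent.Lib.MP_b5021c_nt.IfaceKO
import Pool.Agent.Lib.MP_b5021c_nt.E.H47.E4
import Pool.Agent.Lib.MP_b5021c_nt.E.H61.Inj

/-!
# MP_b5021c_nt: three mutual rays span a face; the third ray after the double closing
-/

namespace Pool.Agent.B5.KO67

open scoped LaurentPolynomial

section

variable {O : Type} [CommRing O] [IsDomain O] [IsPrincipalIdealRing O] [Coef O] {P : Type}
  [Fintype P] [DecidableEq P] {L : Type} [AddCommGroup L] [Module.Free ℤ L] [Module.Finite ℤ L]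
  {phi : L →+ (P → ℤ)} {D : AO O L}

omit [IsDomain O] [IsPrincipalIdealRing O] [Coef O] [Module.Free ℤ L] [Module.Finite ℤ L] in
theorem satUS (e : (RO O)ˣ) (S : L) (n : ℤ) (x : L) (hn : n ≠ 0) (h : n • x ∈ US e S D) :
    x ∈ US e S D := by
  obtain ⟨m, hm, hmx⟩ := h
  exact ⟨m * n, mul_ne_zero hm hn, by rw [mul_smul]; exact hmx⟩

omit [IsDomain O] [IsPrincipalIdealRing O] [Coef O] [Module.Free ℤ L] [Module.Finite ℤ L] in
theorem selfUS (e : (RO O)ˣ) (S : L) : S ∈ US e S D := by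
  refine ⟨1, one_ne_zero, ?_⟩
  rw [one_smul]
  exact Submodule.subset_span (Set.mem_insert _ _)

/-- An exponent with all ports in the three rays, outside their span, lies in `U_0`. -/
theorem tri_aux (hF1 : F1S) (hI2 : Inj2S) (fp : FP phi D) {S0 S1 S2 : L} {e0 e1 e2 : (RO O)ˣ}
    (h0 : Ray D S0) (m12 : Mut D S1 S2 e1 e2) {a : L} (ha : a ∈ supp D)
    (hout : ∀ i, phi S0 i = 0 → phi S1 i = 0 → phi S2 i = 0 → phi a i = 0)
    (hK : ¬ ∃ k l m : ℤ, a = k • S0 + l • S1 + m • S2) : a ∈ US e0 S0 D := by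
  by_contra hcon
  have hb0 := fp.dd.bin S0 h0.1
  have hba := fp.dd.bin a ha
  have hin := hI2 O P L phi D S1 S2 e1 e2 fp m12.r0 m12.r1 m12.m0 m12.m1
  by_cases hd : ∀ i, phi S0 i = 1 → phi a i = 0
  · obtain ⟨k, l, hkl⟩ := hin a (by
      intro i h1 h2
      rcases hb0 i with h | h
      · exact hout i h h1 h2
      · exact hd i h)
    exact hK ⟨0, k, l, by rw [hkl, zero_smul, zero_add]⟩
  · push Not at hd
    obtain ⟨i, hi, hai⟩ := hd
    have hai1 : phi a i = 1 := (hba i).resolve_left hai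
    by_cases hd2 : ∃ i, phi a i = 0 ∧ phi S0 i = 1
    · exact ha ((hF1 O P L phi D S0 e0 fp.dd.inj fp.dd.bin hb0 h0.2.1 a hcon).1 ⟨i, hai1, hi⟩ hd2)
    · push Not at hd2
      have hsub : ∀ j, phi S0 j = 1 → phi a j = 1 := by
        intro j hj
        rcases hba j with h | h
        · exact absurd hj (hd2 j h)
        · exact h
      obtain ⟨k, l, hkl⟩ := hin (a - S0) (by
        intro j h1 h2
        rw [map_sub, Pi.sub_apply]
        rcases hb0 j with h | h
        · rw [h, hout j h h1 h2, sub_self]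
        · rw [hsub j h, h, sub_self])
      exact hK ⟨1, k, l, by
        rw [one_smul, add_assoc, ← hkl]
        abel⟩

/-- THREE MUTUAL RAYS SPAN A FACE. -/
theorem tri (hD2 : D2S) (hF1 : F1S) (hI2 : Inj2S) (fp : FP phi D) {S0 S1 S2 : L}
    {e0 e1 e2 : (RO O)ˣ} (m01 : Mut D S0 S1 e0 e1) (m02 : Mut D S0 S2 e0 e2)
    (m12 : Mut D S1 S2 e1 e2)
    (ind : ∀ k l : ℤ, k • S1 + l • S2 ∈ US e0 S0 D → k = 0 ∧ l = 0) :
    ∃ lam : L →+ ℤ, lam S0 = 0 ∧ lam S1 = 0 ∧ lam S2 = 0 ∧
      ∀ b ∈ supp D, (∃ k l m : ℤ, b = k • S0 + l • S1 + m • S2) ∨ 0 < lam b := by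
  classical
  set K : Submodule ℤ L := Submodule.span ℤ {S0, S1, S2} with hK
  have memK : ∀ a, a ∈ K ↔ ∃ k l m : ℤ, a = k • S0 + l • S1 + m • S2 := by
    intro a
    rw [hK, Submodule.mem_span_triple]
    constructor
    · rintro ⟨k, l, m, h⟩
      exact ⟨k, l, m, h.symm⟩
    · rintro ⟨k, l, m, h⟩
      exact ⟨k, l, m, h.symm⟩
  set A : Finset L := D.coeff.support.filter (fun a => a ∉ K) with hA
  have memA : ∀ a, a ∈ A ↔ a ∈ supp D ∧ a ∉ K := by
    intro a
    simp only [hA, Finset.mem_filter, Finsupp.mem_support_iff, supp, Set.mem_ofPred_eq]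
  rcases hD2 L A K with ⟨lam, hlK, hlA⟩ | ⟨c, ⟨a0, ha0, hca0⟩, hc⟩
  · refine ⟨lam, hlK S0 ((memK _).mpr ⟨1, 0, 0, by simp⟩),
      hlK S1 ((memK _).mpr ⟨0, 1, 0, by simp⟩), hlK S2 ((memK _).mpr ⟨0, 0, 1, by simp⟩), ?_⟩
    intro b hb
    by_cases hbK : b ∈ K
    · exact Or.inl ((memK b).mp hbK)
    · exact Or.inr (hlA b ((memA b).mpr ⟨hb, hbK⟩))
  · exfalso
    obtain ⟨al, be, ga, hab⟩ := (memK _).mp hc
    have hout : ∀ a ∈ A, c a ≠ 0 → ∀ i, phi S0 i = 0 → phi S1 i = 0 → phi S2 i = 0 →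
        phi a i = 0 := by
      intro a ha hca i h0 h1 h2
      have h3 : ∑ x ∈ A, (c x : ℤ) * phi x i = 0 := by
        have := congrArg (fun x => phi x i) hab
        simp only [map_add, map_zsmul, Pi.add_apply, Pi.smul_apply, h0, h1, h2, smul_zero,
          add_zero, map_sum, Finset.sum_apply, map_nsmul] at this
        rw [← this]
        refine Finset.sum_congr rfl fun x _ => ?_
        rw [nsmul_eq_mul]
      have h4 : ∀ x ∈ A, 0 ≤ (c x : ℤ) * phi x i := by
        intro x hx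
        rcases fp.dd.bin x ((memA x).mp hx).1 i with h | h <;> rw [h] <;> simp
      have h5 := (Finset.sum_eq_zero_iff_of_nonneg h4).mp h3 a ha
      rcases mul_eq_zero.mp h5 with h | h
      · exact absurd (by exact_mod_cast h) hca
      · exact h
    have hin0 : ∀ a ∈ A, c a ≠ 0 → a ∈ US e0 S0 D := by
      intro a ha hca
      exact tri_aux hF1 hI2 fp m01.r0 m12 ((memA a).mp ha).1 (hout a ha hca)
        (fun h => ((memA a).mp ha).2 ((memK a).mpr h))
    have hin1 : ∀ a ∈ A, c a ≠ 0 → a ∈ US e1 S1 D := by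
      intro a ha hca
      refine tri_aux hF1 hI2 fp m01.r1 m02 ((memA a).mp ha).1
        (fun i h1 h0 h2 => hout a ha hca i h0 h1 h2) ?_
      rintro ⟨k, l, m, h⟩
      exact ((memA a).mp ha).2 ((memK a).mpr ⟨l, k, m, by rw [h]; abel⟩)
    have hsum : ∀ (e : (RO O)ˣ) (S : L), (∀ a ∈ A, c a ≠ 0 → a ∈ US e S D) →
        ∑ a ∈ A, c a • a ∈ US e S D := by
      intro e S h
      refine Submodule.sum_mem _ fun a ha => ?_
      by_cases hca : c a = 0
      · rw [hca, zero_smul]; exact Submodule.zero_mem _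
      · rw [← natCast_zsmul]
        exact Submodule.smul_mem _ _ (h a ha hca)
    have hsum0 := hsum e0 S0 hin0
    have hsum1 := hsum e1 S1 hin1
    have h1 : be • S1 + ga • S2 ∈ US e0 S0 D := by
      have := Submodule.sub_mem _ hsum0 (Submodule.smul_mem _ al (selfUS (D := D) e0 S0))
      rw [hab] at this
      convert this using 1
      abel
    obtain ⟨hbe, hga⟩ := ind be ga h1
    have hal : al = 0 := by
      by_contra hal
      refine m01.m1 (satUS e1 S1 al S0 hal ?_)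
      rw [hab, hbe, hga, zero_smul, zero_smul, add_zero, add_zero] at hsum1
      exact hsum1
    rw [hal, hbe, hga, zero_smul, zero_smul, zero_smul, add_zero, add_zero] at hab
    -- positivity
    have ha0' := (memA a0).mp ha0
    have ha0ne : a0 ≠ 0 := fun h => ha0'.2 (by rw [h]; exact Submodule.zero_mem _)
    obtain ⟨i, hi⟩ := H61.exists_port fp.dd.inj (fp.dd.bin a0 ha0'.1) ha0ne
    have h2 : ∑ x ∈ A, (c x : ℤ) * phi x i = 0 := by
      have := congrArg (fun x => phi x i) hab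
      simp only [map_sum, Finset.sum_apply, map_nsmul, Pi.smul_apply, map_zero,
        Pi.zero_apply] at this
      rw [← this]
      refine Finset.sum_congr rfl fun x _ => ?_
      rw [nsmul_eq_mul]
    have h3 : ∀ x ∈ A, 0 ≤ (c x : ℤ) * phi x i := by
      intro x hx
      rcases fp.dd.bin x ((memA x).mp hx).1 i with h | h <;> rw [h] <;> simp
    have h4 := (Finset.sum_eq_zero_iff_of_nonneg h3).mp h2 a0 ha0
    rw [hi, mul_one] at h4
    exact hca0 (by exact_mod_cast h4)

/-- Independence of `S1`, `S2` modulo `U_0`. -/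
theorem ind_of (hF3 : F3S) (hD : DD phi D) {S0 S1 S2 : L} {e0 e1 : (RO O)ˣ}
    (m01 : Mut D S0 S1 e0 e1) (h : S2 ∉ satur (US e1 S1 D ⊔ Submodule.span ℤ {S0})) (k l : ℤ)
    (hkl : k • S1 + l • S2 ∈ US e0 S0 D) : k = 0 ∧ l = 0 := by
  have h1 := hF3 O P L phi D S0 S1 e0 e1 hD.inj hD.bin m01.r0 m01.r1 m01.m0 hkl
  have h2 : S1 ∈ satur (US e1 S1 D ⊔ Submodule.span ℤ {S0}) := by
    refine ⟨1, one_ne_zero, ?_⟩
    rw [one_smul]
    exact Submodule.mem_sup_left (selfUS e1 S1)
  have h3 : l • S2 ∈ satur (US e1 S1 D ⊔ Submodule.span ℤ {S0}) := by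
    have := Submodule.sub_mem _ h1 (Submodule.smul_mem _ k h2)
    rwa [add_sub_cancel_left] at this
  have hl : l = 0 := by
    by_contra hl
    obtain ⟨m, hm, hmx⟩ := h3
    exact h ⟨m * l, mul_ne_zero hm hl, by rw [mul_smul]; exact hmx⟩
  refine ⟨?_, hl⟩
  by_contra hk
  rw [hl, zero_smul, add_zero] at hkl
  exact m01.m0 (satUS e0 S0 k S1 hk hkl)

/-- THE THIRD RAY after the double closing: coefficient and exposedness. -/
theorem third (hD2 : D2S) (hF1 : F1S) (hF3 : F3S) (hI2 : Inj2S) (hMco : McoS) (fp : FP phi D)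
    {S0 S1 S2 : L} {e0 e1 e2 t0 t1 : (RO O)ˣ} (m01 : Mut D S0 S1 e0 e1)
    (m02 : Mut D S0 S2 e0 e2) (m12 : Mut D S1 S2 e1 e2)
    (h2 : S2 ∉ satur (US e1 S1 D ⊔ Submodule.span ℤ {S0})) (ht0 : t0 ≠ 1) (ht1 : t1 ≠ 1)
    (Y : Dp phi S0 S1) :
    ∃ x : Ker Y.k1, ((x : Ker (co phi Y.i0)) : L) = S2 ∧
      Ray (dc Y (e0 * t0) (e1 * t1) D) x ∧
      (e2 : RO O) * (dc Y (e0 * t0) (e1 * t1) D).coeff x =
        (1 - (t0 : RO O)) * (1 - (t1 : RO O)) * ((e0 : RO O) * D.coeff S0) := by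
  have hD := fp.dd
  have hb := hD.bin
  obtain ⟨d01, c01, p01, -⟩ := hMco O P L phi D S0 S1 e0 e1 hD.inj hb m01
  obtain ⟨d02, c02, p02, -⟩ := hMco O P L phi D S0 S2 e0 e2 hD.inj hb m02
  obtain ⟨d12, c12, p12, -⟩ := hMco O P L phi D S1 S2 e1 e2 hD.inj hb m12
  have ind := ind_of hF3 hD m01 h2
  obtain ⟨lam, hl0, hl1, hl2, hlam⟩ := tri hD2 hF1 hI2 fp m01 m02 m12 ind
  -- the triple coefficient
  have p012 : (e0 : RO O) * (e1 : RO O) * (e2 : RO O) * D.coeff (S1 + S2 + S0) =
      (e0 : RO O) * D.coeff S0 := by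
    have h3 : S1 + S2 ∉ US e0 S0 D := by
      intro h4
      have := (ind 1 1 (by rw [one_smul, one_smul]; exact h4)).1
      exact one_ne_zero this
    have h4 := (hF1 O P L phi D S0 e0 hD.inj hb (hb S0 m01.r0.1) m01.r0.2.1 (S1 + S2) h3).2 (by
      intro i
      rcases d01 i with h | h
      · exact Or.inr h
      · rcases d02 i with h' | h'
        · exact Or.inr h'
        · left
          rw [map_add, Pi.add_apply, h, h', add_zero])
    calc (e0 : RO O) * (e1 : RO O) * (e2 : RO O) * D.coeff (S1 + S2 + S0)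
        = (e1 : RO O) * (e2 : RO O) * (D.coeff (S1 + S2) + (e0 : RO O) * D.coeff (S1 + S2 + S0)) -
          (e1 : RO O) * (e2 : RO O) * D.coeff (S1 + S2) := by ring
      _ = (e0 : RO O) * D.coeff S0 := by rw [h4, p12, mul_zero, zero_sub, neg_neg, c01]
  have hi0 : phi S0 Y.i0 = 1 := Y.h0
  have hi1 : phi S1 Y.i1 = 1 := by
    have h3 := Y.hk Y.T
    rw [Y.h1, Y.eT] at h3
    exact h3.symm
  have hS1i0 : phi S1 Y.i0 = 0 := by
    rcases d01 Y.i0 with h | h
    · rw [hi0] at h; exact absurd h one_ne_zero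
    · exact h
  have hS2i0 : phi S2 Y.i0 = 0 := by
    rcases d02 Y.i0 with h | h
    · rw [hi0] at h; exact absurd h one_ne_zero
    · exact h
  have hS0i1 : phi S0 Y.i1 = 0 := by
    rcases d01 Y.i1 with h | h
    · exact h
    · rw [hi1] at h; exact absurd h one_ne_zero
  have hS2i1 : phi S2 Y.i1 = 0 := by
    rcases d12 Y.i1 with h | h
    · rw [hi1] at h; exact absurd h one_ne_zero
    · exact h
  have hxk : Y.k1 ⟨S2, hS2i0⟩ = 0 := by
    rw [Y.hk]
    exact hS2i1
  have hco := E4.dc_coeff hb d01 Y (e0 * t0) (e1 * t1)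
  have hkey : (e2 : RO O) * (dc Y (e0 * t0) (e1 * t1) D).coeff ⟨⟨S2, hS2i0⟩, hxk⟩ =
      (1 - (t0 : RO O)) * (1 - (t1 : RO O)) * ((e0 : RO O) * D.coeff S0) := by
    rw [hco]
    unfold H47.dco
    change (e2 : RO O) * (D.coeff S2 + ((e0 * t0 : (RO O)ˣ) : RO O) * D.coeff (S2 + S0) +
      ((e1 * t1 : (RO O)ˣ) : RO O) * D.coeff (S2 + S1) +
      ((e0 * t0 : (RO O)ˣ) : RO O) * ((e1 * t1 : (RO O)ˣ) : RO O) * D.coeff (S2 + S0 + S1)) = _
    have q1 : S2 + S0 = S0 + S2 := add_comm _ _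
    have q2 : S2 + S1 = S1 + S2 := add_comm _ _
    have q3 : S2 + S0 + S1 = S1 + S2 + S0 := by abel
    rw [q3, q1, q2, Units.val_mul, Units.val_mul]
    rw [c01] at p12
    linear_combination c02 + (t0 : RO O) * p02 + (t1 : RO O) * p12 +
      (t0 : RO O) * (t1 : RO O) * p012
  refine ⟨⟨⟨S2, hS2i0⟩, hxk⟩, rfl, ⟨?_, ?_, (lam.comp (incl _)).comp (incl _), hl2, ?_⟩, hkey⟩
  · intro h3
    rw [h3, mul_zero] at hkey
    have n0 : (1 : RO O) - (t0 : RO O) ≠ 0 := by
      rw [sub_ne_zero]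
      intro h4
      apply ht0
      apply Units.ext
      rw [Units.val_one]
      exact h4.symm
    have n1 : (1 : RO O) - (t1 : RO O) ≠ 0 := by
      rw [sub_ne_zero]
      intro h4
      apply ht1
      apply Units.ext
      rw [Units.val_one]
      exact h4.symm
    exact mul_ne_zero (mul_ne_zero n0 n1) (mul_ne_zero e0.ne_zero m01.r0.1) hkey.symm
  · intro h3
    have h4 := congrArg (fun y : Ker Y.k1 => ((y : Ker (co phi Y.i0)) : L)) h3
    exact m02.r1.2.1 h4
  · intro a ha ha0 hax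
    change 0 < lam ((a : Ker (co phi Y.i0)) : L)
    obtain ⟨y, hy⟩ : ∃ y : L, y = ((a : Ker (co phi Y.i0)) : L) := ⟨_, rfl⟩
    rw [← hy]
    have hyi0 : phi y Y.i0 = 0 := by rw [hy]; exact (a : Ker (co phi Y.i0)).2
    have hyi1 : phi y Y.i1 = 0 := by
      have h3 : Y.k1 (a : Ker (co phi Y.i0)) = 0 := a.2
      rw [Y.hk] at h3
      rw [hy]
      exact h3
    -- one of the four exponents
    have hex : ∃ m n : ℤ, y + m • S0 + n • S1 ∈ supp D := by
      by_contra hcon
      push Not at hcon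
      have hz : ∀ m n : ℤ, D.coeff (y + m • S0 + n • S1) = 0 := by
        intro m n
        by_contra h3
        exact hcon m n h3
      have z1 := hz 0 0
      have z2 := hz 1 0
      have z3 := hz 0 1
      have z4 := hz 1 1
      simp only [zero_smul, one_smul, add_zero] at z1 z2 z3 z4
      have h3 : (dc Y (e0 * t0) (e1 * t1) D).coeff a ≠ 0 := ha
      rw [hco, ← hy] at h3
      apply h3
      unfold H47.dco
      rw [z1, z2, z3, z4]
      ring
    obtain ⟨m, n, hmn⟩ := hex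
    rcases hlam _ hmn with ⟨k, l, r, hk⟩ | hpos
    · exfalso
      have e0' := congrArg (fun v => phi v Y.i0) hk
      have e1' := congrArg (fun v => phi v Y.i1) hk
      simp only [map_add, map_zsmul, Pi.add_apply, Pi.smul_apply, smul_eq_mul, hyi0, hi0, hS1i0,
        hS2i0, mul_one, mul_zero, add_zero, zero_add] at e0'
      simp only [map_add, map_zsmul, Pi.add_apply, Pi.smul_apply, smul_eq_mul, hyi1, hi1, hS0i1,
        hS2i1, mul_one, mul_zero, add_zero, zero_add] at e1'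
      rw [← e0', ← e1'] at hk
      have hyr : y = r • S2 := by
        have h3 : y + (m • S0 + n • S1) = r • S2 + (m • S0 + n • S1) := by
          rw [← add_assoc, hk]
          abel
        exact add_right_cancel h3
      obtain ⟨i, hi⟩ := H61.exists_port hD.inj (hb S2 m02.r1.1) m02.r1.2.1
      have hr := hb _ hmn i
      have hi' : phi S0 i = 0 := (d02 i).resolve_right (by rw [hi]; exact one_ne_zero)
      have hi'' : phi S1 i = 0 := (d12 i).resolve_right (by rw [hi]; exact one_ne_zero)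
      rw [hyr] at hr
      simp only [map_add, map_zsmul, Pi.add_apply, Pi.smul_apply, smul_eq_mul, hi, hi', hi'',
        mul_one, mul_zero, add_zero] at hr
      rcases hr with hr | hr
      · apply ha0
        apply Subtype.ext
        apply Subtype.ext
        change ((a : Ker (co phi Y.i0)) : L) = 0
        rw [← hy, hyr, hr, zero_smul]
      · apply hax
        apply Subtype.ext
        apply Subtype.ext
        change ((a : Ker (co phi Y.i0)) : L) = S2
        rw [← hy, hyr, hr, one_smul]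
    · rw [map_add, map_add, map_zsmul, map_zsmul, hl0, hl1, smul_zero, smul_zero, add_zero,
        add_zero] at hpos
      exact hpos

end

end Pool.Agent.B5.KO67
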