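import Pool.Agent.Lib.MP_b5021c_nt.IfaceO4V
import Pool.Agent.Lib.MP_b5021c_nt.KO.H67.O2
import Pool.Agent.Lib.MP_b5021c_nt.KO.H67.Tri

/-!
# MP_b5021c_nt, K ODD, leaf (O1-iv): rows O4_PRE and O4_FR2
-/

namespace Pool.Agent.B5.KO67

open scoped LaurentPolynomial
open Polynomial
open Pool.Agent.B5.KE
open Pool.Agent.B5.Nr.Sch (Loc)
open Pool.Agent.B5.Nr (TrezS)
open Pool.Agent.B5.H61 (CuspS)
open Pool.Agent.MP_b5021c_nt (nz)

/-- (O4_PRE) -/
theorem o4pre (hO1b : O1bS) (hTr : TrezS) (hWoo : WooS) (hCu : CuspS) : O4preS := by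
  intro P L _ _ _ _ _ phi D q f a j eta g C W hu S0 hS0
  obtain ⟨S1, hS1, hM⟩ := W.kc.ex S0 hS0
  obtain ⟨e0, he0, hR0⟩ := W.rn S0 hS0
  obtain ⟨e1, he1, hR1⟩ := W.rn S1 hS1
  have hj := W.ko.j2
  have hrk := W.ko.rk
  have hD := W.ko.min.fp.dd
  have h2 : 2 ≤ Module.finrank ℤ L := by omega
  have hray := W.kc.ray S0 hS0
  have hdf : Dfr phi D S0 (ld e0 1) := W.kc.fr S0 hS0 (ld e0 1) (by
    rw [he0]
    exact (neA e0).symm)
  obtain ⟨p, o⟩ := hO1b P L phi D S0 q f e0 a j W.ko hray hR0 hu hdf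
  obtain ⟨E, hE, hE0, hEp, hEz⟩ := typa hR0.loc hu hR0.ne
  have hn1 := n_ne_one_o hTr W.ko hray hR0 hu
  have hn2 := hWoo q f a p j o.loc hu o.j2 o.p0 o.pj o.ap o.lt (by omega) o.B
  rw [he0, he1] at hM
  refine ⟨E, p, S1, e0, e1, W, o, hE, by omega, by omega, ?_, hS0, hS1, he0, he1, hR0, hR1, hM⟩
  intro z hz hz0
  rcases lt_or_eq_of_le hz with h | hz1
  · exact hEz z h hz0
  have hD0 : D.coeff 0 = LaurentPolynomial.T 0 * toLaurent q := by
    rw [hR0.D0, LaurentPolynomial.T_zero, one_mul]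
  have hDS : ((-e0 : (RO ℤ)ˣ) : RO ℤ) * D.coeff S0 =
      LaurentPolynomial.T 0 * toLaurent (-f) := by
    rw [LaurentPolynomial.T_zero, one_mul, Units.val_neg, neg_mul, hR0.DS, map_neg]
  have hqf : q + -f = -(X * E) := by rw [← hE]; ring
  have hV : q + -f ≠ 0 := by
    intro h0
    have h1 : f.coeff 1 - q.coeff 1 = 0 := by
      have h3 : (q + -f).coeff 1 = 0 := by rw [h0, coeff_zero]
      rw [coeff_add, coeff_neg] at h3
      omega
    omega
  have h3 := hCu ℤ P L phi D S0 S1 (-e0) (-e1) 0 q (-f) hD h2 hM hD0 hDS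
    (by
      unfold nz
      rw [roots_loc hR0.loc, Multiset.card_singleton])
    (fun w hw => by rw [ev_map]; exact q_ne hR0.loc w hw) hV
    ⟨0, by rw [norm_zero]; exact one_pos, by
      rw [ev_map, hqf, map_neg, map_mul, aeval_X, zero_mul, neg_zero]⟩ z hz1
  rw [ev_map, hqf, map_neg, map_mul, hz0, mul_zero, neg_zero] at h3
  exact h3 rfl

/-- (O4_FR2) -/
theorem o4fr2 (hT2f : T2fS) (hF3 : F3S) (hRk : RkS) : O4fr2S := by
  intro P L _ _ _ _ _ phi D q f E a p j eta g C S0 S1 e0 e1 i0 h0 T i1 h1 k hg hT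
  have hD := k.kc.ko.min.fp.dd
  obtain ⟨A, hA, B, hB, hMA, hMB, hBA, hAB⟩ := k.kc.kc.two hg S0 k.m0
  rw [k.t0] at hMA hMB
  have hM := k.mt
  -- a third ray independent of `S1` modulo `U_0`
  have hsub : ∀ {X : L} {eX : (RO ℤ)ˣ}, Mut D S0 X (-e0) eX →
      satur (US eX X D ⊔ Submodule.span ℤ {S0}) ≤
        satur (US (-e0) S0 D ⊔ Submodule.span ℤ {X}) := by
    intro X eX hX x hx
    obtain ⟨n, hn, hnx⟩ := hx
    have h3 := hF3 ℤ P L phi D X S0 eX (-e0) hD.inj hD.bin hX.r1 hX.r0 hX.m1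
    have h4 : US eX X D ⊔ Submodule.span ℤ {S0} ≤
        satur (US (-e0) S0 D ⊔ Submodule.span ℤ {X}) := by
      refine sup_le h3 ?_
      rw [Submodule.span_singleton_le_iff_mem]
      refine ⟨1, one_ne_zero, ?_⟩
      rw [one_smul]
      exact Submodule.mem_sup_left (selfUS (-e0) S0)
    obtain ⟨m, hm, hmx⟩ := h4 hnx
    exact ⟨m * n, mul_ne_zero hm hn, by rw [mul_smul]; exact hmx⟩
  have hsup : ∀ {X : L} {eX : (RO ℤ)ˣ}, Mut D S0 X (-e0) eX →
      satur (US (-e0) S0 D ⊔ Submodule.span ℤ {X}) ≤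
        satur (US eX X D ⊔ Submodule.span ℤ {S0}) := by
    intro X eX hX x hx
    obtain ⟨n, hn, hnx⟩ := hx
    have h3 := hF3 ℤ P L phi D S0 X (-e0) eX hD.inj hD.bin hX.r0 hX.r1 hX.m0
    have h4 : US (-e0) S0 D ⊔ Submodule.span ℤ {X} ≤
        satur (US eX X D ⊔ Submodule.span ℤ {S0}) := by
      refine sup_le h3 ?_
      rw [Submodule.span_singleton_le_iff_mem]
      refine ⟨1, one_ne_zero, ?_⟩
      rw [one_smul]
      exact Submodule.mem_sup_left (selfUS eX X)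
    obtain ⟨m, hm, hmx⟩ := h4 hnx
    exact ⟨m * n, mul_ne_zero hm hn, by rw [mul_smul]; exact hmx⟩
  -- membership modulo `U_0`
  have hrel : ∀ {X Y : L}, Y ∈ satur (US (-e0) S0 D ⊔ Submodule.span ℤ {X}) →
      ∃ n m : ℤ, n ≠ 0 ∧ n • Y - m • X ∈ US (-e0) S0 D := by
    intro X Y hY
    obtain ⟨n, hn, hnY⟩ := hY
    obtain ⟨u, hu, v, hv, huv⟩ := Submodule.mem_sup.mp hnY
    obtain ⟨m, rfl⟩ := Submodule.mem_span_singleton.mp hv
    exact ⟨n, m, hn, by rw [← huv, add_sub_cancel_right]; exact hu⟩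
  have hswap : ∀ {X Y : L} {eX : (RO ℤ)ˣ}, Mut D S0 X (-e0) eX →
      X ∈ satur (US (-e0) S0 D ⊔ Submodule.span ℤ {Y}) →
        Y ∈ satur (US (-e0) S0 D ⊔ Submodule.span ℤ {X}) := by
    intro X Y eX hX h
    obtain ⟨n, m, hn, hnm⟩ := hrel h
    have hm : m ≠ 0 := by
      rintro rfl
      rw [zero_smul, sub_zero] at hnm
      exact hX.m0 (satUS (-e0) S0 n X hn hnm)
    refine ⟨m, hm, ?_⟩
    have h3 : m • Y = -(n • X - m • Y) + n • X := by abel
    rw [h3]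
    exact Submodule.add_mem _ (Submodule.mem_sup_left (Submodule.neg_mem _ hnm))
      (Submodule.mem_sup_right (Submodule.smul_mem _ _ (Submodule.mem_span_singleton_self X)))
  obtain ⟨S2, e2, hM2, h21⟩ : ∃ (S2 : L) (e2 : (RO ℤ)ˣ), Mut D S0 S2 (-e0) e2 ∧
      S2 ∉ satur (US (-e0) S0 D ⊔ Submodule.span ℤ {S1}) := by
    by_contra hcon
    push Not at hcon
    have hA1 := hcon A _ hMA
    have hB1 := hcon B _ hMB
    have h1A := hswap hMA hA1
    -- `B` depends on `A`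
    apply hBA
    apply hsup hMA
    obtain ⟨n, m, hn, hnm⟩ := hrel hB1
    obtain ⟨n', m', hn', hnm'⟩ := hrel h1A
    refine ⟨n' * n, mul_ne_zero hn' hn, ?_⟩
    have h3 : (n' * n) • B = n' • (n • B - m • S1) + m • (n' • S1 - m' • A) +
        (m * m') • A := by
      rw [smul_sub, smul_sub, mul_smul, mul_smul, smul_comm m n' S1]
      abel
    rw [h3]
    exact Submodule.add_mem _ (Submodule.mem_sup_left (Submodule.add_mem _
      (Submodule.smul_mem _ _ hnm) (Submodule.smul_mem _ _ hnm')))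
      (Submodule.mem_sup_right (Submodule.smul_mem _ _ (Submodule.mem_span_singleton_self A)))
  have h2a : S2 ∉ satur (US (-e1) S1 D ⊔ Submodule.span ℤ {S0}) := fun h => h21 (hsub hM h)
  have h2b : S1 ∉ satur (US e2 S2 D ⊔ Submodule.span ℤ {S0}) := fun h =>
    h21 (hswap hM (hsub hM2 h))
  -- the double closing
  have hSi : phi S0 i1 = 0 := by
    by_contra hne
    have h3 : (if phi S0 i1 = 0 then phi (T : L) i1 else 0) = 1 := h1
    rw [if_neg hne] at h3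
    exact zero_ne_one h3
  have hk : ∀ b : Ker (co phi i0), co (phO phi S0 i0) i1 b = phi (b : L) i1 := by
    intro b
    change (if phi S0 i1 = 0 then phi (b : L) i1 else 0) = _
    rw [if_pos hSi]
  have hne : ∀ e : (RO ℤ)ˣ, (-e)⁻¹ * ld e 1 ≠ 1 := by
    intro e h3
    apply neA e
    rw [inv_mul_eq_one] at h3
    exact h3
  have h5 := hT2f ℤ P L phi D S0 S1 S2 (-e0) (-e1) e2 ((-e0)⁻¹ * ld e0 1) ((-e1)⁻¹ * ld e1 1) hD
    hM hM2 h2a h2b (hne e0) (hne e1) ⟨i0, h0, T, hT, i1, co (phO phi S0 i0) i1, hk, h1⟩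
  rw [mul_inv_cancel_left, mul_inv_cancel_left] at h5
  have h6 := finrank_ker hRk h0
  change Module.finrank ℤ (Ker (co phi i0)) = rk (supp (vV phi D S0 e0 e1 i0 h0 T i1 h1)) + 1
  have h7 : rk (supp (vV phi D S0 e0 e1 i0 h0 T i1 h1)) + 2 = Module.finrank ℤ L := h5
  omega

end Pool.Agent.B5.KO67
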