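import Pool.Agent.Lib.MP_b5021c_nt.KO.H67.Pre
import Pool.Agent.Lib.MP_b5021c_nt.KV.H67.Kh

/-!
# MP_b5021c_nt, K ODD, leaf (O1-iv): row O4_SF2 (`g ≥ 2`: `V''` has no small factor)
-/

namespace Pool.Agent.B5.KO67

open scoped LaurentPolynomial
open Polynomial
open Pool.Agent.B5.KE
open Pool.Agent.B5.KV67
open Pool.Agent.B5.Nr.Sch (Loc)

theorem load_quot (e : (RO ℤ)ˣ) :
    ((-e : (RO ℤ)ˣ) : RO ℤ) * (((ld e 1)⁻¹ : (RO ℤ)ˣ) : RO ℤ) = -LaurentPolynomial.T (-1) := by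
  have h1 : (-e : (RO ℤ)ˣ) = kap * ld e 1 := (kap_ld e).symm
  rw [h1, Units.val_mul, mul_assoc, Units.mul_inv, mul_one, kap_val]

theorem evT67 (z : Circle) (n : ℤ) : evR z (LaurentPolynomial.T n : RO ℤ) = (z : ℂ) ^ n := by
  rw [evR, LaurentPolynomial.eval₂_T]
  simp

/-- (O4_SF2) -/
theorem o4sf2 (hSmall : SmallS) (hApa : ApaS) (hKm : KmuS) (hRk : RkS) (hVco : VcoS) :
    O4sf2S := by
  classical
  intro P L _ _ _ _ _ phi D q f E a p j eta g C S0 S1 e0 e1 i0 h0 T x i1 h1 c n G K hg hfr fd _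
  by_contra hne
  obtain ⟨l, hl⟩ := Finset.nonempty_iff_ne_empty.mpr hne
  have hl2 : ¬ 1 < M ((G l).coeff 0) ∧ ¬ Pure (phO phi S0 i0) T i1 (G l) := by
    unfold snp at hl
    exact (Finset.mem_filter.mp hl).2
  obtain ⟨b, jj, e, hsp⟩ := (hSmall ℤ P _ (phO phi S0 i0) (vB phi D S0 e0 i0 h0) T i1 (ld e1 1) h1
    c n G fd l hl2.1).2.2 hl2.2
  have hD := K.k.kc.ko.min.fp.dd
  have hkc := K.k.kc.kc
  have hrkL := K.k.kc.ko.rk
  have hker := finrank_ker hRk h0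
  have hker1 := finrank_ker hRk h1
  -- ports
  have hSi : phi S0 i1 = 0 := by
    by_contra hne
    have h3 : (if phi S0 i1 = 0 then phi (T : L) i1 else 0) = 1 := h1
    rw [if_neg hne] at h3
    exact zero_ne_one h3
  have hS1i : phi S1 i1 = 1 := by
    have h3 : (if phi S0 i1 = 0 then phi (T : L) i1 else 0) = 1 := h1
    rw [if_pos hSi, K.hT] at h3
    exact h3
  have hS1 : Ray D S1 := hkc.ray S1 K.k.m1
  -- a functional
  have hus := hkc.us S1 K.k.m1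
  rw [K.k.t1] at hus
  have hrk : rk (((US (-e1) S1 D : Submodule ℤ L) : Set L) ∪ {S0}) < Module.finrank ℤ L := by
    have h3 := (hRk L L).2.2.2.2.2.1 ((US (-e1) S1 D : Submodule ℤ L) : Set L) {S0}
    have h4 : rk ((US (-e1) S1 D : Submodule ℤ L) : Set L) =
        Module.finrank ℤ (US (-e1) S1 D) := by
      unfold rk
      rw [Submodule.span_eq]
    have h5 : rk ({S0} : Set L) = 1 := (hRk L L).2.2.2.2.2.2.1 S0 (hkc.ray S0 K.k.m0).2.1
    omega
  obtain ⟨nu, hnu, hk⟩ := hKm L _ hrk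
  have hkU : ∀ y ∈ US (-e1) S1 D, nu y = 0 := fun y hy => hk y (Or.inl hy)
  have hkS0 : nu S0 = 0 := hk S0 (Or.inr rfl)
  have hkS1 : nu S1 = 0 := hkU S1 (selfUS (-e1) S1)
  have hv : ∀ y : L, phi y i1 = 0 →
      D.coeff y + ((-e1 : (RO ℤ)ˣ) : RO ℤ) * D.coeff (y + S1) ≠ 0 → nu y = 0 := by
    intro y hy hne
    apply hkU
    refine ⟨1, one_ne_zero, ?_⟩
    rw [one_smul]
    refine Submodule.subset_span (Or.inr ?_)
    have h7 := (hVco ℤ P L phi D S1 (-e1) hD.inj hD.bin (hD.bin S1 hS1.1) hS1.2.1).2.2.2.2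
      i1 hS1i ⟨y, hy⟩
    change vco (-e1) S1 D y ≠ 0
    rw [← h7, H47.cl_coeff_bin (co phi i1) S1 hS1i (-e1) D (fun b hb' => hD.bin b hb' i1)]
    exact hne
  obtain ⟨y0, hy0⟩ := dpr_ne h0 K.hT h1 hkS0 hkS1 hnu
  set mu : Ker (co (phO phi S0 i0) i1) →+ ℤ :=
    (nu.comp (incl (Ker (co phi i0)))).comp (incl (Ker (co (phO phi S0 i0) i1))) with hmu
  have hmu0 : mu ≠ 0 := by
    intro h
    apply hy0
    exact DFunLike.congr_fun h y0
  have hmus : ∀ y ∈ supp (cl (co (phO phi S0 i0) i1) T h1 (-e1) (vB phi D S0 e0 i0 h0)),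
      mu y = 0 := by
    intro y hy
    have hy2 : (cl (co (phO phi S0 i0) i1) T h1 (-e1) (vB phi D S0 e0 i0 h0)).coeff y ≠ 0 := hy
    rw [csm_coeff hD.bin h0 K.hT h1] at hy2
    have hyi : phi ((y : Ker (co phi i0)) : L) i1 = 0 := by
      have h4 : (if phi S0 i1 = 0 then phi ((y : Ker (co phi i0)) : L) i1 else 0) = 0 := y.2
      rw [if_pos hSi] at h4
      exact h4
    change nu ((y : Ker (co phi i0)) : L) = 0
    by_cases h7 : D.coeff ((y : Ker (co phi i0)) : L) +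
        ((-e1 : (RO ℤ)ˣ) : RO ℤ) * D.coeff (((y : Ker (co phi i0)) : L) + S1) = 0
    · have h8 : D.coeff (((y : Ker (co phi i0)) : L) + S0) +
          ((-e1 : (RO ℤ)ˣ) : RO ℤ) * D.coeff (((y : Ker (co phi i0)) : L) + S0 + S1) ≠ 0 := by
        intro h9
        apply hy2
        unfold csm
        linear_combination h7 + ((ld e0 1 : (RO ℤ)ˣ) : RO ℤ) * h9
      have h9 := hv (((y : Ker (co phi i0)) : L) + S0)
        (by rw [map_add, Pi.add_apply, hyi, hSi, add_zero]) h8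
      rw [map_add, hkS0, add_zero] at h9
      exact h9
    · exact hv _ hyi h7
  -- the equation
  have hfull : rk (supp (cl (co (phO phi S0 i0) i1) T h1 (ld e1 1) (vB phi D S0 e0 i0 h0))) =
      Module.finrank ℤ (Ker (co (phO phi S0 i0) i1)) := by
    have h3 : Module.finrank ℤ (Ker (co phi i0)) =
      rk (supp (cl (co (phO phi S0 i0) i1) T h1 (ld e1 1) (vB phi D S0 e0 i0 h0))) + 1 := hfr
    omega
  obtain ⟨q0, U0, h5, -, -⟩ := hApa ℤ P _ (phO phi S0 i0) (vB phi D S0 e0 i0 h0) T i1 (ld e1 1) h1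
    c n G fd l b jj e hsp hfull (-e1) (neA e1) (V0_ne_A K.rn) mu hmu0 hmus
  rw [V0_A K.rn, load_quot] at h5
  have h6 : q + X * f - (1 + X) * f = -(X * E) := by
    rw [← K.k.eq]
    ring
  rw [h6] at h5
  have h7 := congrArg (evR (-1 : Circle)) h5
  have hm1 : ((-1 : Circle) : ℂ) = -1 := rfl
  rw [map_mul, map_sub, map_one, map_neg (evR (-1)) (LaurentPolynomial.T (-1)), evT67, hm1,
    evR_tL, hm1, map_neg, map_mul, aeval_X] at h7
  have h8 : (1 : ℂ) - -(-1) ^ (-1 : ℤ) = 0 := by norm_num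
  rw [h8, zero_mul] at h7
  apply K.k.ez (-1) (by simp)
  linear_combination h7

end Pool.Agent.B5.KO67
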