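import Pool.Agent.Lib.MP_b5021c_nt.IfaceKO
import Pool.Agent.Lib.MP_b5021c_nt.KE.H96.Kev

/-!
# MP_b5021c_nt, all `θ`, K ODD: numbers, small factors, `θ_B ≥ j` (PaperALL.md (O2))
-/

namespace Pool.Agent.B5.KO67

open scoped LaurentPolynomial
open Polynomial
open Pool.Agent.B5.KE
open Pool.Agent.B5.Nr.Sch (Loc)
open Pool.Agent.B5.Nr (TrezS)
open Pool.Agent.B5.H61 (CuspS)

section

variable {P L : Type} [Fintype P] [DecidableEq P] [AddCommGroup L] [Module.Free ℤ L]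
  [Module.Finite ℤ L] {phi : L →+ (P → ℤ)} {D : AO ℤ L}

/-- The numbers of a counterexample. -/
theorem ko_num {q : ℤ[X]} {a : ℝ} {j : ℕ} (W : Ko phi D q a j) :
    0 < a ∧ a < 1 / 2 ∧ 2 ≤ a⁻¹ ∧ a⁻¹ < j + 1 := by
  have ha := W.qn.a0
  have hj : (2 : ℝ) ≤ j := by exact_mod_cast W.j2
  have h1 := W.mu
  have h2 : 2 < a⁻¹ := by linarith
  refine ⟨ha, ?_, h2.le, ?_⟩
  · have h3 := mul_lt_mul_of_pos_right h2 ha
    rw [inv_mul_cancel₀ ha.ne'] at h3
    linarith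
  · have h3 := W.lt
    rw [inv_lt_iff_one_lt_mul₀ ha]
    linarith

theorem num_exb_o {a : ℝ} {j : ℕ} (h : a⁻¹ < j + 1) (h1 : ExB (2 * j + 1) a⁻¹) : False := by
  have h2 := h1.2 ⟨j, rfl⟩
  push_cast at h2
  linarith

theorem num_lin_o {a : ℝ} {j : ℕ} (h : a⁻¹ < j + 1)
    (h1 : ((2 * j + 1 : ℕ) : ℝ) ≤ 2 * a⁻¹ - 1) : False := by
  push_cast at h1
  linarith

/-- An element of lower rank and of class `P(θ')`, `θ' + 1 ≤ θ`. -/
theorem num_low_o {a : ℝ} {j : ℕ} (h : a⁻¹ < j + 1) (hIH : ∀ K < 2 * j + 1, Bnk K)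
    (h1 : LowG (2 * j + 1) a⁻¹) : False := by
  obtain ⟨th, hth, P', L', _, _, _, _, _, phi', D', hD', hP', h2, h3⟩ := h1
  have h4 := hIH (Module.finrank ℤ L') h3 th P' L' phi' D' hD' hP' rfl
  have hth1 : 1 < th := hP'.1
  have hth0 : 0 < 1 / th := by positivity
  rcases Nat.even_or_odd (Module.finrank ℤ L') with he | ho
  · have h5 := h4.1 he
    have h6 : 2 * j ≤ Module.finrank ℤ L' := by
      obtain ⟨r, hr⟩ := he
      omega
    have h7 : (2 * j : ℝ) ≤ (Module.finrank ℤ L' : ℝ) := by exact_mod_cast h6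
    linarith
  · have h5 := h4.2 ho
    have h6 : 2 * j ≤ Module.finrank ℤ L' + 1 := by omega
    have h7 : (2 * j : ℝ) ≤ (Module.finrank ℤ L' : ℝ) + 1 := by exact_mod_cast h6
    linarith

/-- (SF) at the load B, `u = 1`: no small factor, and there is a big factor. -/
theorem sf_B (hSf : SfzS) {S : L} {i0 : P} {q f : ℤ[X]} {e : (RO ℤ)ˣ} {a : ℝ}
    {h : co phi i0 S = 1} {c : RO ℤ} {n : ℕ} {G : Fin n → AO ℤ (Ker (co phi i0))} {j : ℕ}
    (W : Ko phi D q a j) (hR : RN D S q f e a) (hu : f.coeff 0 = 1)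
    (fd : FD phi D S i0 (ld e 1) h c n G)
    (hdr : Module.finrank ℤ L = rk (supp (cl (co phi i0) S h (ld e 1) D)) + 1 ∨
      ∃ (S1 : L) (e1 : (RO ℤ)ˣ), Mut D S S1 (ld e 1) e1) :
    snp phi S i0 G = ∅ ∧ big G ≠ ∅ := by
  obtain ⟨ha0, ha2, hθ2, hθ⟩ := ko_num W
  have hj := W.j2
  have key : ¬ ((snp phi S i0 G).Nonempty ∨ big G = ∅) := by
    intro hcon
    have hX : ((ld e 1 : (RO ℤ)ˣ) : RO ℤ) * D.coeff S = toLaurent (X * f) := by
      have h1 := ld_S hR 1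
      rw [pow_one] at h1
      exact h1
    have h1 := hSf P L phi D S i0 (ld e 1) h c n G a⁻¹ 0 q f W.min.fp fd
      (by rw [W.rk]; omega) hθ2 (classP_q hR)
      (by rw [LaurentPolynomial.T_zero, one_mul, hR.D0])
      (by rw [hR.loc.q0, abs_one])
      (by rw [LaurentPolynomial.T_zero, one_mul, hX])
      (by rw [hu, abs_one]) hcon hdr
    rw [W.rk] at h1
    rcases h1 with h1 | h1 | h1
    · exact num_exb_o hθ h1
    · exact num_lin_o hθ h1
    · exact num_low_o hθ W.ih h1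
  constructor
  · by_contra h1
    exact key (Or.inl (Finset.nonempty_iff_ne_empty.mpr h1))
  · intro h1
    exact key (Or.inr h1)

/-- One factor of class `P`, without small factors, any drop. -/
theorem good_g (hE1 : E1S) (hMV : MVS) (hMm : MmulS) (hClp : ClpS) {S : L} {i0 : P}
    {eta : (RO ℤ)ˣ} {h : co phi i0 S = 1} {c : RO ℤ} {n : ℕ}
    {G : Fin n → AO ℤ (Ker (co phi i0))} {th : ℝ} (fp : FP phi D)
    (fd : FD phi D S i0 eta h c n G) (hs : snp phi S i0 G = ∅)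
    (h2 : 1 ≤ rk (supp (cl (co phi i0) S h eta D)))
    (hP : ClassP th (D.coeff 0 + (eta : RO ℤ) * D.coeff S)) :
    ∃ (l : Fin n) (K : Submodule ℤ (Ker (co phi i0))), ClassP th ((G l).coeff 0) ∧
      Module.finrank ℤ K = rk (supp (cl (co phi i0) S h eta D)) ∧
      DD ((phO phi S i0).comp (incl K)) (res K (G l)) := by
  obtain ⟨l⟩ := fac_ex fd h2
  have hbig := all_big hClp fp fd hs
  have hx : ∀ i, (G i).coeff 0 ≠ 0 := fun i => (fd.st i).1
  rw [fd.v00] at hP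
  obtain ⟨h3, h4, -⟩ := one_fac hE1 hMV hMm fd.c0 hx hP hbig l
  obtain ⟨-, K, -, -, h5, h6⟩ := (hClp ℤ P L phi D S i0 eta h c n G fp fd).2 l
  refine ⟨l, K, h4, ?_, h6⟩
  have h7 : ∏ i, G i = G l := by
    rw [Finset.prod_eq_single l]
    · intro i _ hi
      exact absurd (h3 i) hi
    · intro hi
      exact absurd (Finset.mem_univ l) hi
  rw [h5, fd.eq, h7, H56.supp_cst_mul fd.c0]

/-- The cardioid condition at a mutual pair. -/
theorem cardi (hMfc : MfcS) (hCa : Ca5S) {S S1 : L} {q f : ℤ[X]} {e e1 : (RO ℤ)ˣ} {a : ℝ}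
    (hD : DD phi D) (h2 : 2 ≤ Module.finrank ℤ L) (hR : RN D S q f e a)
    (hM : Mut D S S1 (ld e 1) e1) (z : ℂ) (hz : ‖z‖ = 1) :
    ‖aeval z (q + 3 * X * f)‖ ≤ 2 * ‖aeval z q‖ := by
  obtain ⟨zc, rfl⟩ := circle_of z hz
  have h1 := hMfc ℤ P L phi D S S1 (ld e 1) e1 hD h2 hM zc
  have hX : ((ld e 1 : (RO ℤ)ˣ) : RO ℤ) * D.coeff S = toLaurent (X * f) := by
    have h1 := ld_S hR 1
    rw [pow_one] at h1
    exact h1
  rw [hX, hR.D0, evR_poly, evR_poly] at h1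
  have h3 := (hCa (aeval (zc : ℂ) q) (aeval (zc : ℂ) (X * f)) (by
    intro x y hx hy h3
    apply h1 x y hx hy
    linear_combination h3)).2
  obtain ⟨Q, hQ⟩ : ∃ Q : ℂ, Q = aeval (zc : ℂ) q := ⟨_, rfl⟩
  obtain ⟨A, hA⟩ : ∃ A : ℂ, A = aeval (zc : ℂ) (X * f) := ⟨_, rfl⟩
  have h4 : (aeval (zc : ℂ) (q + 3 * X * f) : ℂ) = Q + 3 * A := by
    rw [hQ, hA]
    simp only [map_add, map_mul, aeval_X, map_ofNat]
    ring
  rw [← hQ, ← hA] at h3
  rw [h4, ← hQ]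
  have h5 : ‖Q + 3 * A‖ ^ 2 = ‖Q‖ ^ 2 + 9 * ‖A‖ ^ 2 + 6 * (A * (starRingEnd ℂ) Q).re := by
    rw [← Complex.normSq_eq_norm_sq, ← Complex.normSq_eq_norm_sq, ← Complex.normSq_eq_norm_sq,
      Complex.normSq_add]
    have e1 : Complex.normSq (3 * A) = 9 * Complex.normSq A := by
      rw [Complex.normSq_mul]
      norm_num
    have e2 : (Q * (starRingEnd ℂ) (3 * A)).re = 3 * (A * (starRingEnd ℂ) Q).re := by
      simp only [map_mul, Complex.mul_re, Complex.conj_re, Complex.conj_im, Complex.mul_im]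
      have e3 : ((starRingEnd ℂ) 3).re = 3 ∧ ((starRingEnd ℂ) 3).im = 0 := by
        constructor <;> simp
      norm_num
      ring
    rw [e1, e2]
    ring
  have h6 : ‖Q + 3 * A‖ ^ 2 ≤ (2 * ‖Q‖) ^ 2 := by
    rw [h5]
    nlinarith
  exact le_of_sq_le_sq h6 (by positivity)

end

end Pool.Agent.B5.KO67
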