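import Pool.Agent.Lib.MP_b5021c_nt.KO.H67.Ivz

/-!
# MP_b5021c_nt, all `θ`, K ODD, (O1-iv): row (NBW), `j ≥ 3`
-/

namespace Pool.Agent.B5.OOne

open Polynomial
open Pool.Agent.B5.Nr.Car (Cara)
open Pool.Agent.B5.Nr.Sch

variable {q f E : ℤ[X]} {a p : ℝ} {j : ℕ}

/-- (NBW) `V_B` has no zero in `(0, 2 / (2 j + 1)]`. -/
theorem IvD.nbw (h : IvD q f E a p j) (hj3 : 3 ≤ j) {x : ℝ} (hx0 : 0 < x)
    (hx : x ≤ 2 / (2 * (j : ℝ) + 1)) (hv : (aeval x q : ℝ) + x * aeval x f = 0) : False := by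
  obtain ⟨W, hW, hval⟩ := h.W
  have hj : (3 : ℝ) ≤ j := by exact_mod_cast hj3
  have hlow := h.low
  have hqf := h.qf x
  have hEx := fun t ht0 ht1 => h.Epos (x := t) ht0 ht1
  generalize hJ : (j : ℝ) = J at *
  have hJ0 : 0 < J := by linarith
  have hD : 0 < 2 * J + 1 := by linarith
  have hxD : x * (2 * J + 1) ≤ 2 := by rwa [le_div_iff₀ hD] at hx
  have hx1 : x < 1 := by nlinarith
  have hE := hEx x hx0.le hx1.le
  have hxE : 0 < x * aeval x E := mul_pos hx0 hE
  have h1 : (1 + x) * (aeval x f : ℝ) / (x * aeval x E) = 1 := by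
    rw [div_eq_one_iff_eq hxE.ne']
    linarith
  have hWx : (W x).re * (J * x) = 2 * (1 - x ^ 2) - x * J := by
    rw [hval x hx0 hx1, h1]
    field_simp
    ring
  have hb0 : 0 < 1 / (J + 1) := by positivity
  have hb1 : 1 / (J + 1) < 1 := by
    rw [div_lt_one (by linarith)]
    linarith
  have hWb := hval (1 / (J + 1)) hb0 hb1
  rw [← hWb] at hlow
  have e1 : 1 - 1 / (J + 1) = J / (J + 1) := by
    field_simp
    ring
  have e2 : 1 + 1 / (J + 1) = (J + 2) / (J + 1) := by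
    field_simp
    ring
  have hJ1 : 0 < J + 1 := by linarith
  rcases le_total x (1 / (J + 1)) with hc | hc
  · have h2 := hW.lo hx0.le hc hb1
    have h3 : (W x).re * ((1 + x) * (1 - 1 / (J + 1))) < (1 - x) * (1 + 1 / (J + 1)) := by
      have h4 : 0 < (1 - x) * (1 + 1 / (J + 1)) := mul_pos (by linarith) (by linarith)
      calc _ ≤ _ := h2
        _ < 1 * ((1 - x) * (1 + 1 / (J + 1))) := mul_lt_mul_of_pos_right hlow h4
        _ = _ := one_mul _
    rw [e1, e2] at h3
    have h5 : (W x).re * ((1 + x) * J) < (1 - x) * (J + 2) := by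
      have h6 := mul_lt_mul_of_pos_right h3 hJ1
      have h7 : (W x).re * ((1 + x) * (J / (J + 1))) * (J + 1) = (W x).re * ((1 + x) * J) := by
        field_simp
      have h8 : (1 - x) * ((J + 2) / (J + 1)) * (J + 1) = (1 - x) * (J + 2) := by
        field_simp
      rwa [h7, h8] at h6
    have h9 : (2 * (1 - x ^ 2) - x * J) * (1 + x) < x * ((1 - x) * (J + 2)) := by
      rw [← hWx]
      have := mul_lt_mul_of_pos_right h5 hx0
      nlinarith
    have h10 : x * (J + 1) ≤ 1 := by rwa [le_div_iff₀ hJ1] at hc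
    -- `J x ≤ 1 - x`
    have h11 : 0 ≤ (1 - x - x * J) * ((1 + x) + (1 - x)) := by
      apply mul_nonneg <;> nlinarith
    nlinarith [mul_pos hx0 (sub_pos.mpr hx1), mul_pos (mul_pos hx0 (sub_pos.mpr hx1)) hx0]
  · have h2 := hW.up hb0.le hc hx1
    have h3 : (W x).re * ((1 + 1 / (J + 1)) * (1 - x)) < (1 - 1 / (J + 1)) * (1 + x) := by
      have h4 : 0 < (1 - 1 / (J + 1)) * (1 + x) := mul_pos (by linarith) (by linarith)
      calc _ ≤ _ := h2
        _ < 1 * ((1 - 1 / (J + 1)) * (1 + x)) := mul_lt_mul_of_pos_right hlow h4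
        _ = _ := one_mul _
    rw [e1, e2] at h3
    have h5 : (W x).re * ((J + 2) * (1 - x)) < J * (1 + x) := by
      have h6 := mul_lt_mul_of_pos_right h3 hJ1
      have h7 : (W x).re * ((J + 2) / (J + 1) * (1 - x)) * (J + 1) =
          (W x).re * ((J + 2) * (1 - x)) := by
        field_simp
      have h8 : J / (J + 1) * (1 + x) * (J + 1) = J * (1 + x) := by
        field_simp
      rwa [h7, h8] at h6
    have h9 : (2 * (1 - x ^ 2) - x * J) * ((J + 2) * (1 - x)) < J ^ 2 * (x * (1 + x)) := by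
      rw [← hWx]
      have := mul_lt_mul_of_pos_right h5 (mul_pos hJ0 hx0)
      nlinarith
    -- the bounds at `2 / (2 J + 1)`
    set y : ℝ := 2 / (2 * J + 1) with hy
    have hy0 : 0 < y := by positivity
    have hyD : y * (2 * J + 1) = 2 := by
      rw [hy]
      field_simp
    have h10 : 2 * (1 - y ^ 2) - y * J ≤ 2 * (1 - x ^ 2) - x * J := by nlinarith
    have hy1 : y < 1 := by nlinarith
    have h11 : 0 < 2 * (1 - y ^ 2) - y * J := by nlinarith
    have h12 : (2 * (1 - y ^ 2) - y * J) * ((J + 2) * (1 - y)) ≤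
        (2 * (1 - x ^ 2) - x * J) * ((J + 2) * (1 - x)) := by
      apply mul_le_mul h10
      · exact mul_le_mul_of_nonneg_left (by linarith) (by linarith)
      · exact mul_nonneg (by linarith) (by linarith)
      · linarith
    have h13 : J ^ 2 * (x * (1 + x)) ≤ J ^ 2 * (y * (1 + y)) := by
      apply mul_le_mul_of_nonneg_left _ (sq_nonneg J)
      nlinarith
    have h14 : J ^ 2 * (y * (1 + y)) ≤ (2 * (1 - y ^ 2) - y * J) * ((J + 2) * (1 - y)) := by
      have h15 : (2 * (1 - y ^ 2) - y * J) * ((J + 2) * (1 - y)) - J ^ 2 * (y * (1 + y)) =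
          ((4 * J ^ 2 + 6 * J - 6) * ((J + 2) * (2 * J - 1)) -
            2 * J ^ 2 * ((2 * J + 3) * (2 * J + 1))) / (2 * J + 1) ^ 3 := by
        rw [hy]
        field_simp
        ring
      have h16 : 0 ≤ (4 * J ^ 2 + 6 * J - 6) * ((J + 2) * (2 * J - 1)) -
            2 * J ^ 2 * ((2 * J + 3) * (2 * J + 1)) := by
        have h17 : (4 * J ^ 2 + 6 * J - 6) * ((J + 2) * (2 * J - 1)) -
            2 * J ^ 2 * ((2 * J + 3) * (2 * J + 1)) =
            8 * J ^ 3 - 8 * J ^ 2 - 30 * J + 12 := by ring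
        rw [h17]
        nlinarith [mul_nonneg (sub_nonneg.mpr hj) (sq_nonneg J), mul_nonneg (sub_nonneg.mpr hj) hJ0.le]
      have h18 : 0 ≤ ((4 * J ^ 2 + 6 * J - 6) * ((J + 2) * (2 * J - 1)) -
            2 * J ^ 2 * ((2 * J + 3) * (2 * J + 1))) / (2 * J + 1) ^ 3 :=
        div_nonneg h16 (by positivity)
      linarith
    linarith

end Pool.Agent.B5.OOne
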