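import Pool.Agent.Lib.MP_b5021c_nt.KO.H67.TkB
import Pool.Agent.Lib.MP_b5021c_nt.SF.H27.Big
import Pool.Agent.Lib.MP_b5021c_nt.KE.H96.Fa1
import Pool.Agent.Lib.MP_b5021c_nt.E.H67.Rfc
import Pool.Agent.Lib.MP_b5021c_nt.IfaceS1
import Pool.Agent.Lib.MP_b5021c_nt.E.H07.Mxu

/-!
# MP_b5021c_nt, all `θ`, K ODD, (O4), l ≥ 4, row TK: the closing `z0 = 1` of `W`
-/

set_option linter.unusedSectionVars false

namespace Pool.Agent.B5.KO67

open scoped LaurentPolynomial
open Polynomial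
open Pool.Agent.B5.KE
open Pool.Agent.B5.SFH27

section

variable {P K : Type} [Fintype P] [DecidableEq P] [AddCommGroup K] [Module.Free ℤ K]
  [Module.Finite ℤ K]

/-- A small factor at a load of delay one with a mutual partner: it is unique, of mass one. -/
theorem small_mut (hQs : QsgS) (hCz : CzaS) (hTz : TzaS) (hFj : FjtS) (hGa : GaiS) (hNz : NdzS)
    (hNd : Nd3S) (hNr : Nr3S) (hTa : Ta3S) (hLd : LdzS) {phi : K →+ (P → ℤ)} {D : AO ℤ K} {S : K}
    {i0 : P} {eta : (RO ℤ)ˣ} {h : co phi i0 S = 1} {c : RO ℤ} {n : ℕ}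
    {G : Fin n → AO ℤ (Ker (co phi i0))} {θ θ' : ℝ} {m : ℤ} {q f : ℤ[X]}
    (fd : FD phi D S i0 eta h c n G) (hθ : 2 ≤ θ) (hP : ClassP θ (D.coeff 0))
    (hq : D.coeff 0 = LaurentPolynomial.T m * toLaurent q)
    (hf : (eta : RO ℤ) * D.coeff S = LaurentPolynomial.T m * toLaurent (X * f)) (ld : LDz q f)
    (hf1 : |f.coeff 0| ≤ 1) (hMc : M c = 1)
    (hP' : ClassP θ' (D.coeff 0 + (eta : RO ℤ) * D.coeff S))
    (hmut : ∃ (S1 : K) (e1 : (RO ℤ)ˣ), Mut D S S1 eta e1) (hsn : (snp phi S i0 G).Nonempty) :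
    ∃ (l : Fin n) (b : Ker (co phi i0)) (j : P) (e : (RO ℤ)ˣ)
      (hj : co (phK phi (co phi i0)) j b = 1)
      (Q : AO ℤ (Ker (co (phK phi (co phi i0)) j))),
        QC phi D S i0 eta h c n G l b j e hj Q ∧ Q = cst (c * (G l).coeff 0) := by
  classical
  obtain ⟨T', s, W, c1⟩ := hCz q f ld
  obtain ⟨-, T, hT, hroot⟩ :=
    hLd P K phi D S eta θ m q f fd.cc.dd fd.cc.two fd.cc.ray hP hq ld.q0 hf
  have hV : D.coeff 0 + (eta : RO ℤ) * D.coeff S =
      LaurentPolynomial.T m * toLaurent (q + X * f) := by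
    rw [hq, hf, map_add, mul_add]
  have hP2 := hP'
  rw [hV] at hP2
  obtain ⟨hT'1, hT'θ⟩ := zero_data ld c1 hP2
  have hT1 : 1 < |T| := by
    rw [hT]
    linarith
  obtain ⟨t, ht1, ht2⟩ := hQs ℤ P K phi D S i0 eta h c n G fd hMc m (q + X * f) hV
    (no_double hNd ld c1 hT'1)
  have hMass : Mass (∑ l ∈ snp phi S i0 G, t l) q f := mass_of _ t hq hV ht2
  have hnn : ∀ l ∈ snp phi S i0 G, NnR (t l) := by
    intro l hl
    obtain ⟨-, -, -, -, -, -, -, -, -, -, -, h1⟩ := ht1 l hl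
    exact h1
  have hne : ∀ l ∈ snp phi S i0 G, t l ≠ 0 := by
    intro l hl
    obtain ⟨-, -, -, -, -, -, -, -, -, -, h1, -⟩ := ht1 l hl
    exact h1
  have hint : ∀ l ∈ snp phi S i0 G, 1 ≤ (t l).coeff 0 ∧ |(t l).coeff 1| ≤ (t l).coeff 0 - 1 :=
    fun l hl => nr_int hNr (hne l hl) (hnn l hl)
  have htt0 := sum_coeff (snp phi S i0 G) t 0
  have htt1 := sum_coeff (snp phi S i0 G) t 1
  have hcardle : ((snp phi S i0 G).card : ℤ) ≤ (∑ l ∈ snp phi S i0 G, t l).coeff 0 := by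
    rw [htt0]
    have h1 : ((snp phi S i0 G).card : ℤ) = ∑ _l ∈ snp phi S i0 G, (1 : ℤ) := by simp
    rw [h1]
    exact Finset.sum_le_sum fun l hl => (hint l hl).1
  have hcpos : 1 ≤ (snp phi S i0 G).card := hsn.card_pos
  have httne : (∑ l ∈ snp phi S i0 G, t l) ≠ 0 := by
    intro h0
    rw [h0] at hcardle
    have h1 : (0 : RO ℤ).coeff 0 = 0 := rfl
    rw [h1] at hcardle
    omega
  have httn : NnR (∑ l ∈ snp phi S i0 G, t l) := sum_nnR _ _ hnn
  rcases hTz _ q f T T' s W ld c1 hT1 hroot hT'1 hf1 httne httn hMass with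
    h1 | ⟨-, h2, hTT, sg, hsg, hsT', h3⟩
  · have hc1 : (snp phi S i0 G).card = 1 := by
      rw [h1] at hcardle
      have h2 : (1 : RO ℤ).coeff 0 = 1 := AddMonoidAlgebra.coeff_one_zero
      rw [h2] at hcardle
      omega
    obtain ⟨l, hl⟩ := Finset.card_eq_one.mp hc1
    obtain ⟨b, j, e, hj, Q, F, hQ, hQF, hF, hFt, -, -⟩ := ht1 l (by rw [hl]; simp)
    rw [hl, Finset.sum_singleton] at h1
    have F1 : F = 1 := hTa ℤ _ F hF (by rw [hFt, h1])
    exact ⟨l, b, j, e, hj, Q, hQ, by rw [hQF, F1, mul_one]⟩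
  · exfalso
    have hc1 : (snp phi S i0 G).card = 1 := by
      have h4 : |(∑ l ∈ snp phi S i0 G, t l).coeff 1| ≤
          (∑ l ∈ snp phi S i0 G, t l).coeff 0 - (snp phi S i0 G).card := by
        rw [htt0, htt1]
        calc |∑ l ∈ snp phi S i0 G, (t l).coeff 1|
            ≤ ∑ l ∈ snp phi S i0 G, |(t l).coeff 1| := Finset.abs_sum_le_sum_abs _ _
          _ ≤ ∑ l ∈ snp phi S i0 G, ((t l).coeff 0 - 1) :=
              Finset.sum_le_sum fun l hl => (hint l hl).2
          _ = _ := by rw [Finset.sum_sub_distrib]; simp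
      have h5 : |(∑ l ∈ snp phi S i0 G, t l).coeff 1| =
          (∑ l ∈ snp phi S i0 G, t l).coeff 0 - 1 := by
        rw [h3, abs_mul, abs_of_nonneg (by omega : 0 ≤ (∑ l ∈ snp phi S i0 G, t l).coeff 0 - 1)]
        rcases hsg with rfl | rfl <;> simp
      rw [h5] at h4
      omega
    obtain ⟨l, hl⟩ := Finset.card_eq_one.mp hc1
    obtain ⟨b, j, e, hj, Q, F, hQ, hQF, hF, hFt, -, -⟩ := ht1 l (by rw [hl]; simp)
    rw [hl, Finset.sum_singleton] at h2 h3 hMass
    obtain ⟨k, hk⟩ : ∃ k : ℕ, (t l).coeff 0 = k := ⟨((t l).coeff 0).toNat, by omega⟩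
    have hk2 : 2 ≤ k := by omega
    have hFf : F = cst (fej sg k) := by
      apply hFj _ F k sg hF hk2 hsg
      · rw [hFt, hk]
      · rw [hFt, h3, hk]
    have htl : t l = fej sg k := by
      rw [← hFt, hFf, cst, AddMonoidAlgebra.coeff_single, Finsupp.single_eq_same]
    have hk0 : (fej sg k).coeff 0 = (k : ℤ) := by rw [← htl, hk]
    rw [htl] at hMass
    have hgain := hGa q f T T' s W k sg ld c1 (by rw [hT]; exact hθ) hroot hT'1 hf1 hk2 hsg hsT'
      hMass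
    have hsT : 0 < (sg : ℝ) * T := by
      have h4 := mul_pos hsT' hTT
      have h5 : (sg : ℝ) * T' * (T * T') = (sg * T) * T' ^ 2 := by ring
      rw [h5] at h4
      exact pos_of_mul_pos_left h4 (sq_nonneg _)
    exact no_mutual hNz hq hf c1 hT1 hroot (by linarith) hsg hk2 hsT hQ
      (by rw [hQF, hFf, cst, cst, cst, AddMonoidAlgebra.single_mul_single, add_zero]) hk0 hmut

/-- The zero of `q + X f` in the disc. -/
theorem c1d_root {q f : ℤ[X]} {T' : ℝ} {s W : ℂ[X]} (c1 : C1D q f T' s W) (q0 : q.coeff 0 = 1)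
    {b : ℝ} (hb0 : 0 < b) (hb1 : b < 1) (hb : (aeval b (q + X * f) : ℝ) = 0) :
    ((q + X ^ 1 * f).map (Coef.emb : ℤ →+* ℂ)).roots.filter (fun x => ‖x‖ < 1) = {(b : ℂ)} := by
  classical
  have hbn : ‖(b : ℂ)‖ < 1 := by
    rw [Complex.norm_real, Real.norm_eq_abs, abs_of_pos hb0]
    exact hb1
  have h1 : (cpz (q + X * f)).eval (b : ℂ) = 0 := by
    have h2 : (cpz (q + X * f)).eval (b : ℂ) = aeval (b : ℂ) (q + X * f) := ev_map _ _
    have h3 : (aeval (b : ℂ) (q + X * f) : ℂ) = ((aeval b (q + X * f) : ℝ) : ℂ) := by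
      have : (b : ℂ) = algebraMap ℝ ℂ b := rfl
      rw [this, aeval_algebraMap_apply]
      rfl
    rw [h2, h3, hb]
    simp
  have hs0 : s.eval (b : ℂ) ≠ 0 := c1.zf _ hbn
  have h2 := h1
  rw [c1.v, eval_mul] at h2
  have h3 : (1 - C (T' : ℂ) * X : ℂ[X]).eval (b : ℂ) = 0 := (mul_eq_zero.mp h2).resolve_right hs0
  rw [eval_sub, eval_one, eval_mul, eval_C, eval_X] at h3
  have h4 : (T' : ℂ) * (b : ℂ) = 1 := by linear_combination -h3
  have hbC : (b : ℂ) ≠ 0 := by exact_mod_cast hb0.ne'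
  have hTC : (T' : ℂ) ≠ 0 := by
    intro h5
    rw [h5, zero_mul] at h4
    exact zero_ne_one h4
  have e1 : (1 - C (T' : ℂ) * X : ℂ[X]) = C (-(T' : ℂ)) * (X - C (b : ℂ)) := by
    have : C (-(T' : ℂ)) * (X - C (b : ℂ)) = C ((T' : ℂ) * b) - C (T' : ℂ) * X := by
      rw [C_neg, C_mul]
      ring
    rw [this, h4, C_1]
  have hs : s ≠ 0 := by
    intro h5
    apply hs0
    rw [h5, Polynomial.eval_zero]
  have e2 : (q + X ^ 1 * f).map (Coef.emb : ℤ →+* ℂ) = C (-(T' : ℂ)) * ((X - C (b : ℂ)) * s) := by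
    rw [pow_one]
    change cpz (q + X * f) = _
    rw [c1.v, e1, mul_assoc]
  rw [e2, roots_C_mul _ (neg_ne_zero.mpr hTC), roots_mul (mul_ne_zero (X_sub_C_ne_zero _) hs),
    roots_X_sub_C, Multiset.filter_add, Multiset.filter_singleton, if_pos hbn]
  have h5 : s.roots.filter (fun x => ‖x‖ < 1) = 0 := by
    rw [Multiset.filter_eq_nil]
    intro x hx hxn
    exact c1.zf x hxn ((mem_roots hs).mp hx)
  rw [h5, add_zero]

/-- The span of one more element. -/
theorem rk_insert_le {L : Type} [AddCommGroup L] [Module.Free ℤ L] [Module.Finite ℤ L] (s : Set L)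
    (z : L) : rk (insert z s) ≤ rk s + 1 := by
  unfold rk
  have h1 : Submodule.span ℤ (insert z s) = Submodule.span ℤ s ⊔ Submodule.span ℤ {z} := by
    rw [Submodule.span_insert, sup_comm]
  rw [h1]
  exact H07.finrank_sup_le _ _

/-- THE BOUND FOR `H`. -/
theorem TkW.bound (hQs : QsgS) (hCz : CzaS) (hTz : TzaS) (hFj : FjtS) (hGa : GaiS) (hNz : NdzS)
    (hNd : Nd3S) (hNr : Nr3S) (hTa : Ta3S) (hLd : LdzS) (hV : VcoS) (hM : McoS) (hFD : FDS)
    (hE1 : E1S) (hMV : MVS) (hMm : MmulS) (hKm : KmuS) (hRk : RkS) (hRW : ResWDS)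
    (hRS : ResStS) {psi : K →+ (P → ℤ)} {W : AO ℤ K}
    {z0 z1 z2 : K} {e0 e1 e2 : (RO ℤ)ˣ} {m0 m1 m2 nK : K →+ ℤ}
    (h : TkW psi W z0 z1 z2 e0 e1 e2 m0 m1 m2 nK) {q f : ℤ[X]} {j : ℕ} {θ b : ℝ} (hj : 2 ≤ j)
    (hfr : Module.finrank ℤ K = 2 * j) (hIH : ∀ k < 2 * j, Bnk k) (hθ : 2 ≤ θ)
    (hP : ClassP θ (W.coeff 0)) (hq : W.coeff 0 = toLaurent q)
    (hf : (e0 : RO ℤ) * W.coeff z0 = toLaurent (X * f))
    (hf2 : (e2 : RO ℤ) * W.coeff z2 = toLaurent (X * f)) (q0 : q.coeff 0 = 1)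
    (f0 : f.coeff 0 = 1) (hIm : ImS psi z0) (hb0 : 0 < b) (hb1 : b < 1)
    (hb : (aeval b (q + X * f) : ℝ) = 0) (hfb : (aeval b f : ℝ) ≠ 0) :
    ((q + X ^ 1 * f).map (Coef.emb : ℤ →+* ℂ)).roots.filter (fun x => ‖x‖ < 1) = {(b : ℂ)} ∧
      (j : ℝ) - 1 ≤ b⁻¹ - b := by
  classical
  have hD := h.dd
  have h2 : 2 ≤ Module.finrank ℤ K := by omega
  have hq' : W.coeff 0 = LaurentPolynomial.T 0 * toLaurent q := by
    rw [LaurentPolynomial.T_zero, one_mul, hq]
  have hf' : (e0 : RO ℤ) * W.coeff z0 = LaurentPolynomial.T 0 * toLaurent (X * f) := by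
    rw [LaurentPolynomial.T_zero, one_mul, hf]
  obtain ⟨ld, -⟩ := hLd P K psi W z0 e0 θ 0 q f hD h2 h.r0 hP hq' (by rw [q0, abs_one]) hf'
  obtain ⟨T', s, Wc, c1⟩ := hCz q f ld
  have hroots := c1d_root c1 q0 hb0 hb1 hb
  refine ⟨hroots, ?_⟩
  have hV0 : W.coeff 0 + (e0 : RO ℤ) * W.coeff z0 = toLaurent (q + X * f) := by
    rw [hq, hf, map_add]
  have hc0 : (q + X * f).coeff 0 = 1 := by
    rw [coeff_add, q0, mul_coeff_zero, coeff_X_zero, zero_mul, add_zero]
  have hP' : ClassP b⁻¹ (W.coeff 0 + (e0 : RO ℤ) * W.coeff z0) := by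
    rw [hV0]
    exact classP_of hb0 hb1 hc0 (by rw [pow_one] at hroots; exact hroots)
  obtain ⟨i0, h0⟩ := exists_port hD h.r0
  have hvne : W.coeff 0 + (e0 : RO ℤ) * W.coeff z0 ≠ 0 := ((hMV ℤ).2 _ _ hP').1
  have cc : CC psi W z0 i0 e0 := ⟨hD, h2, h.r0, h0, hvne⟩
  obtain ⟨c, n, G, fd⟩ := hFD ℤ P K psi W z0 i0 e0 h0 cc
  have hx : ∀ i, (G i).coeff 0 ≠ 0 := fun i => (fd.st i).1
  have bz0 : Bin psi z0 := hD.bin _ h.r0.1
  obtain ⟨v1, v2, v3, v4, v5⟩ := hV ℤ P K psi W z0 e0 hD.inj hD.bin bz0 h.r0.2.1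
  -- the class of `z2`
  have hz2i : psi z2 i0 = 0 := (h.d02 i0).resolve_left (by
    intro h5
    have h6 : psi z0 i0 = 1 := h0
    rw [h5] at h6
    exact zero_ne_one h6)
  have h02 : W.coeff (z2 + z0) = 0 := by
    by_contra h5
    have h6 := h.ev (z2 + z0) h5 (by
      rw [map_add, map_add, h.m02, h.m00, h.m12, h.m10]
      exact ⟨0, by norm_num⟩)
    rw [map_add, h.n2] at h6
    have := h.n0
    omega
  obtain ⟨Z2, hZ2⟩ : ∃ Z2 : Ker (co psi i0), (Z2 : K) = z2 := ⟨⟨z2, hz2i⟩, rfl⟩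
  have hcz2 : (cl (co psi i0) z0 h0 e0 W).coeff Z2 = W.coeff z2 := by
    rw [v5, hZ2, v3 z2 (fun i => (h.d02 i).symm), h02, mul_zero, add_zero]
  -- the content
  have hprod : cl (co psi i0) z0 h0 e0 W = cst c * ∏ i, G i := fd.eq
  have hP2 : ClassP b⁻¹ (c * ∏ i, (G i).coeff 0) := by
    rw [← fd.v00]
    exact hP'
  have hu0 : ((b : ℝ) : ℂ) ≠ 0 := by exact_mod_cast hb0.ne'
  have hbn : ‖((b : ℝ) : ℂ)‖ < 1 := by
    rw [Complex.norm_real, Real.norm_eq_abs, abs_of_pos hb0]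
    exact hb1
  have hreal : ∀ p : ℤ[X], evU (Units.mk0 _ hu0) (toLaurent p) = ((aeval b p : ℝ) : ℂ) := by
    intro p
    rw [evU_toLaurent]
    change (cpz p).eval ((b : ℝ) : ℂ) = _
    have h3 : (cpz p).eval ((b : ℝ) : ℂ) = aeval ((b : ℝ) : ℂ) p := ev_map _ _
    rw [h3]
    have : ((b : ℝ) : ℂ) = algebraMap ℝ ℂ b := rfl
    rw [this, aeval_algebraMap_apply]
    rfl
  have hMc : M c = 1 := by
    rcases (hE1 ℤ).2 _ _ _ hP2 with ⟨-, h4⟩ | ⟨h3, -⟩
    · exfalso
      have h5 : evU (Units.mk0 _ hu0) (c * ∏ i, (G i).coeff 0) = 0 := by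
        rw [← fd.v00, hV0, hreal, hb]
        simp
      rw [map_mul] at h5
      have h6 : evU (Units.mk0 _ hu0) (∏ i, (G i).coeff 0) ≠ 0 := by
        obtain ⟨-, k, g, hg, -, hgz⟩ := h4
        rw [hg, map_mul, evU_T, evU_toLaurent]
        exact mul_ne_zero (zpow_ne_zero _ (Units.ne_zero _)) (hgz _ hbn)
      have h7 : evU (Units.mk0 _ hu0) c = 0 := (mul_eq_zero.mp h5).resolve_right h6
      have h8 : (e2 : RO ℤ) * (c * (∏ i, G i).coeff Z2) = toLaurent (X * f) := by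
        rw [← hf2, ← hcz2, hprod]
        congr 1
        rw [H71.cst_mul_coeff]
      have h9 := congrArg (evU (Units.mk0 _ hu0)) h8
      rw [map_mul, map_mul, h7, zero_mul, mul_zero, hreal] at h9
      have h10 : (aeval b (X * f) : ℝ) = 0 := by exact_mod_cast h9.symm
      rw [map_mul, aeval_X] at h10
      rcases mul_eq_zero.mp h10 with h11 | h11
      · exact hb0.ne' h11
      · exact hfb h11
    · exact ((hMV ℤ).1 _ _ h3).2
  -- no small factors
  have hmut := h.mut hV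
  have hs : snp psi z0 i0 G = ∅ := by
    by_contra hcon
    obtain ⟨l, bb, jj, e, hjj, Q, hQ, hQ1⟩ := small_mut hQs hCz hTz hFj hGa hNz hNd hNr hTa hLd fd
      hθ hP hq' hf' ld (by rw [f0, abs_one]) hMc hP' ⟨z1, e1, hmut⟩
      (Finset.nonempty_iff_ne_empty.mpr hcon)
    refine h.no_one hV hM hQ hQ1 ?_
    have h5 : W.coeff 0 + 2 * ((e0 : RO ℤ) * W.coeff z0) = toLaurent (q + X * f + X * f) := by
      rw [hq, hf, map_add, map_add]
      ring
    rw [h5, toLaurent_ne_zero]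
    intro h6
    have h7 := congrArg (fun p : ℤ[X] => p.coeff 0) h6
    simp only [coeff_add, mul_coeff_zero, coeff_X_zero, zero_mul, add_zero, coeff_zero, q0] at h7
    exact one_ne_zero h7
  -- the kernel meets the line of `z0` trivially
  have key : ∀ a : Ker (co psi i0), (∀ j, psi z0 j = 0 → psi (a : K) j = 0) → a = 0 := by
    intro a ha
    obtain ⟨k, hk⟩ := hIm (a : K) ha
    have h1 : co psi i0 (a : K) = 0 := a.2
    rw [hk, map_zsmul, h0, smul_eq_mul, mul_one] at h1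
    apply Subtype.ext
    rw [hk, h1, zero_smul]
    rfl
  have nopure : ∀ l, ¬ Pure psi z0 i0 (G l) := by
    intro l hl
    obtain ⟨a, ha, bb, hbb, hab⟩ := fd.wd l
    apply hab
    have h1 : a = 0 := key a fun j hj => hl a ha j (by
      unfold OO
      exact Finset.mem_filter.mpr ⟨Finset.mem_univ _, hj⟩)
    have h2 : bb = 0 := key bb fun j hj => hl bb hbb j (by
      unfold OO
      exact Finset.mem_filter.mpr ⟨Finset.mem_univ _, hj⟩)
    rw [h1, h2]
  have inj : Function.Injective (phO psi z0 i0) := by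
    rw [injective_iff_map_eq_zero]
    intro a ha
    apply key
    intro j hj
    have h4 : phO psi z0 i0 a j = 0 := by rw [ha]; rfl
    change (if psi z0 j = 0 then psi (a : K) j else 0) = 0 at h4
    rw [if_pos hj] at h4
    exact h4
  have hbin : ∀ a : Ker (co psi i0), WW (phK psi (co psi i0)) (II psi z0 i0) (OO psi z0) a →
      Bin (phO psi z0 i0) a := by
    intro a ha j
    change (if psi z0 j = 0 then psi (a : K) j else 0) = 0 ∨
      (if psi z0 j = 0 then psi (a : K) j else 0) = 1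
    by_cases hj : psi z0 j = 0
    · rw [if_pos hj]
      exact ha.1 j (by
        unfold OO
        exact Finset.mem_filter.mpr ⟨Finset.mem_univ _, hj⟩)
    · left
      rw [if_neg hj]
  have hbig : ∀ i, 1 < M ((G i).coeff 0) := by
    intro i
    by_contra hcon
    have h1 : i ∈ snp psi z0 i0 G := by
      unfold snp
      exact Finset.mem_filter.mpr ⟨Finset.mem_univ i, hcon, nopure i⟩
    rw [hs] at h1
    exact absurd h1 (Finset.notMem_empty i)
  -- the rank
  have hker := finrank_ker hRk h0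
  have hz1i : psi z1 i0 = 0 := (h.d01 i0).resolve_left (by
    intro h5
    have h6 : psi z0 i0 = 1 := h0
    rw [h5] at h6
    exact zero_ne_one h6)
  obtain ⟨Z1, hZ1⟩ : ∃ Z1 : Ker (co psi i0), (Z1 : K) = z1 := ⟨⟨z1, hz1i⟩, rfl⟩
  have hrk : 2 * j ≤ rk (supp (cl (co psi i0) z0 h0 e0 W)) + 2 := by
    by_contra hcon
    have h5 := rk_insert_le (supp (cl (co psi i0) z0 h0 e0 W)) Z1
    obtain ⟨mu, hmu, hmu0⟩ := hKm (Ker (co psi i0))
      (insert Z1 (supp (cl (co psi i0) z0 h0 e0 W))) (by omega)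
    -- the functional on `K`
    set pr : K →+ Ker (co psi i0) := prj (co psi i0) z0 h0 with hpr
    have hprc : ∀ a : K, ((pr a : Ker (co psi i0)) : K) = a - psi a i0 • z0 := fun a => rfl
    obtain ⟨nu, hnu⟩ : ∃ nu : K →+ ℤ, nu = mu.comp pr := ⟨_, rfl⟩
    have hself : ∀ a : Ker (co psi i0), pr (a : K) = a := by
      intro a
      apply Subtype.ext
      rw [hprc]
      have : psi (a : K) i0 = 0 := a.2
      rw [this, zero_smul, sub_zero]
    have n0 : nu z0 = 0 := by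
      rw [hnu, AddMonoidHom.comp_apply]
      have h6 : pr z0 = 0 := by
        apply Subtype.ext
        rw [hprc]
        have : psi z0 i0 = 1 := h0
        rw [this, one_smul, sub_self]
        rfl
      rw [h6, map_zero]
    have n1 : nu z1 = 0 := by
      rw [hnu, AddMonoidHom.comp_apply, ← hZ1, hself]
      exact hmu0 _ (Set.mem_insert _ _)
    have n2 : nu z2 = 0 := by
      rw [hnu, AddMonoidHom.comp_apply, ← hZ2, hself]
      apply hmu0 _ (Set.mem_insert_of_mem _ _)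
      change (cl (co psi i0) z0 h0 e0 W).coeff Z2 ≠ 0
      rw [hcz2]
      exact h.r2.1
    have F : Flp psi W z0 e0 nu := by
      have hkill : ∀ a : K, nu a ≠ 0 → vco e0 z0 W a = 0 := by
        intro a ha
        by_contra h6
        apply ha
        rw [hnu, AddMonoidHom.comp_apply]
        apply hmu0 _ (Set.mem_insert_of_mem _ _)
        change (cl (co psi i0) z0 h0 e0 W).coeff (pr a) ≠ 0
        rw [v5, hprc, sub_eq_add_neg, ← neg_smul, v1]
        exact mul_ne_zero (Units.ne_zero _) h6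
      intro a ha
      constructor
      · intro h6 h7
        by_contra h8
        have h9 := v4 a (hD.bin a h8) h6 h7
        rw [hkill a ha] at h9
        exact h8 h9.symm
      · intro h6
        rw [← v3 a h6]
        exact hkill a ha
    have hall := h.sigma F n0 n1 n2
    have h6 : rk (supp W) = Module.finrank ℤ K := hD.spn
    have h7 : nu = 0 := by
      by_contra hne
      have h8 := (hRk K K).1 nu hne
      have h9 : Submodule.span ℤ (supp W) ≤ Ker nu := by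
        rw [Submodule.span_le]
        exact fun a ha => hall a ha
      have h10 := Submodule.finrank_mono h9
      have h11 : rk (supp W) = Module.finrank ℤ (Submodule.span ℤ (supp W)) := rfl
      omega
    apply hmu
    ext a
    have h8 := DFunLike.congr_fun h7 (a : K)
    rw [hnu, AddMonoidHom.comp_apply, hself] at h8
    exact h8
  obtain ⟨l⟩ := fac_ex fd (by omega)
  obtain ⟨h3, h4, -⟩ := one_fac hE1 hMV hMm fd.c0 hx hP2 hbig l
  have h7 : ∏ i, G i = G l := by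
    rw [Finset.prod_eq_single l]
    · intro i _ hi
      exact absurd (h3 i) hi
    · intro hi
      exact absurd (Finset.mem_univ l) hi
  have h8 : supp (cl (co psi i0) z0 h0 e0 W) = supp (G l) := by
    rw [hprod, h7, H56.supp_cst_mul fd.c0]
  rw [h8] at hrk
  obtain ⟨K', hK', hsub, hfrK, hirr, hun, hrkK⟩ := hRW ℤ (Ker (co psi i0)) (G l)
    (fd.irr l).ne_zero
  have hDD : DD ((phO psi z0 i0).comp (incl K')) (res K' (G l)) := by
    refine ⟨inj.comp fun _ _ hh => Subtype.ext hh, fun a ha => hbin _ (fd.ww l _ ha), ?_,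
      hun (fd.un l), hirr (fd.irr l), by rw [hrkK, hfrK]⟩
    exact (hRS ℤ (Ker (co psi i0)) (G l) K' hK' hsub).mp (fd.st l)
  have hle : Module.finrank ℤ K' ≤ Module.finrank ℤ (Ker (co psi i0)) := by
    rw [hfrK]
    exact (hRk (Ker (co psi i0)) (Ker (co psi i0))).2.2.1 _
  have hcP : ClassP b⁻¹ ((res K' (G l)).coeff 0) := by
    rw [res_coeff]
    exact h4
  have hbk := hIH (Module.finrank ℤ K') (by omega) b⁻¹ P K' _ _ hDD hcP rfl
  have hj' : (2 : ℝ) ≤ j := by exact_mod_cast hj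
  rw [one_div, inv_inv] at hbk
  rcases (by omega : Module.finrank ℤ K' = 2 * j - 2 ∨ Module.finrank ℤ K' = 2 * j - 1) with h9 | h9
  · have h10 := hbk.1 (by rw [h9]; exact ⟨j - 1, by omega⟩)
    rw [h9, Nat.cast_sub (by omega)] at h10
    push_cast at h10
    linarith
  · have h10 := hbk.2 (by rw [h9, Nat.odd_iff]; omega)
    rw [h9, Nat.cast_sub (by omega)] at h10
    push_cast at h10
    linarith

end

end Pool.Agent.B5.KO67
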