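import Pool.Agent.Lib.MP_b5021c_nt.KO.H67.TkA
import Pool.Agent.Lib.MP_b5021c_nt.KO.H67.TkC
import Pool.Agent.Lib.MP_b5021c_nt.KO.H67.O3b
import Pool.Agent.Lib.MP_b5021c_nt.KO.H40.Kil
import Pool.Agent.Lib.MP_b5021c_nt.KO.H52.Face
import Pool.Agent.Lib.MP_b5021c_nt.KV.H76.Rim
import Pool.Agent.Lib.MP_b5021c_nt.KV.H29.Fsr
import Pool.Agent.Lib.MP_b5021c_nt.E.H78.Fcl

/-!
# MP_b5021c_nt, all `θ`, K ODD, (O4), l ≥ 4, row TK: no outside ray kills the cycle

`T` is a ray outside the cycle whose load A kills `Z i` and with `f_T = (1 - X - X²) f`, the load B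
of `T` is drop free: impossible.
-/

set_option linter.unusedSectionVars false

namespace Pool.Agent.B5.KO67

open scoped LaurentPolynomial
open Polynomial
open Pool.Agent.B5.KE
open Pool.Agent.B5.Nr.Sch (Loc)
open Pool.Agent.B5.Nr (TrezS)
open Pool.Agent.B5.H61 (CuspS)

section

variable {P L : Type} [Fintype P] [DecidableEq P] [AddCommGroup L] [Module.Free ℤ L]
  [Module.Finite ℤ L] {phi : L →+ (P → ℤ)} {D : AO ℤ L}

/-- The coefficients of the closing. -/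
theorem cl_co (hD : DD phi D) {T : L} {i : P} (h : co phi i T = 1) (u : (RO ℤ)ˣ)
    (x : Ker (co phi i)) : (cl (co phi i) T h u D).coeff x =
      D.coeff (x : L) + (u : RO ℤ) * D.coeff ((x : L) + T) :=
  H36.ndz_clc (co phi i) T h u D (fun a ha => hD.bin a ha i) x

/-- A drop free load B, `u = 1`: the closing is an element of `DD` of class `P`. -/
theorem dd_B (hSf : SfzS) (hMV : MVS) (hMm : MmulS) (hE1 : E1S) (hM1 : M1S) (hPc : PCZS)
    (hClp : ClpS) (hI1 : Inj1S) (hRk : RkS) (hFD : FDS) {q F : ℤ[X]} {a : ℝ} {j : ℕ}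
    (W : Ko phi D q a j) {T : L} {eT : (RO ℤ)ˣ} (hT : Ray D T) (hR : RN D T q F eT a)
    (hu : F.coeff 0 = 1) (hdf : Dfr phi D T (ld eT 1)) {i : P} (h : co phi i T = 1)
    {x : Ker (co phi i)} (hx : ∀ z : Circle, evR z (D.coeff 0 + ((ld eT 1 : (RO ℤ)ˣ) : RO ℤ) *
      D.coeff T) = 0 → evR z ((cl (co phi i) T h (ld eT 1) D).coeff x) ≠ 0) :
    DD (phO phi T i) (cl (co phi i) T h (ld eT 1) D) ∧
      Module.finrank ℤ (Ker (co phi i)) = 2 * j ∧ ∃ b : ℝ, 0 < b ∧ b < 1 ∧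
        ClassP b⁻¹ ((cl (co phi i) T h (ld eT 1) D).coeff 0) := by
  have fp := W.min.fp
  have hD := fp.dd
  have hrk := W.rk
  have hj := W.j2
  have h2 : 2 ≤ Module.finrank ℤ L := by omega
  have hdr := hdf i h
  obtain ⟨c, n, G, fd⟩ := hFD ℤ P L phi D T i (ld eT 1) h
    ⟨hD, h2, hT, h, V0_ne hR (k := 1) (le_refl 1)⟩
  obtain ⟨hs, hbig⟩ := sf_B hSf W hR hu fd (Or.inl hdr)
  have hzero := zero_B hMV hMm hR fd hbig
  have hl := lob hPc hR.loc hR.u hR.ne (k := 1) (le_refl 1)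
  rw [pow_one] at hl
  obtain ⟨b, hab, hb1, hb⟩ := hl.resolve_left (fun h3 => by
    obtain ⟨b, hb1, hb2⟩ := hzero
    exact h3 b hb1 hb2)
  have hb0 : 0 < b := lt_trans hR.loc.a0 hab
  have hc0 : (q + X * F).coeff 0 = 1 := by
    rw [coeff_add, coeff_X_mul_zero, hR.loc.q0, add_zero]
  have hV0 : D.coeff 0 + ((ld eT 1 : (RO ℤ)ˣ) : RO ℤ) * D.coeff T = toLaurent (q + X * F) := by
    have h1 := V0_ld hR 1
    rw [pow_one] at h1
    exact h1
  have hP : ClassP b⁻¹ (D.coeff 0 + ((ld eT 1 : (RO ℤ)ˣ) : RO ℤ) * D.coeff T) := by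
    rw [hV0]
    exact classP_of hb0 hb1 hc0 hb
  have hcl0 : (cl (co phi i) T h (ld eT 1) D).coeff 0 =
      D.coeff 0 + ((ld eT 1 : (RO ℤ)ˣ) : RO ℤ) * D.coeff T := by
    rw [cl_co hD]
    change D.coeff (0 : L) + ((ld eT 1 : (RO ℤ)ˣ) : RO ℤ) * D.coeff ((0 : L) + T) = _
    rw [zero_add]
  have hP2 := hP
  rw [fd.v00] at hP2
  obtain ⟨l⟩ := fac_ex fd (by omega)
  obtain ⟨h3, h4, h5⟩ := one_fac hE1 hMV hMm fd.c0 (fun i => (fd.st i).1) hP2
    (all_big hClp fp fd hs) l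
  obtain ⟨hcl, hdd⟩ := dd_full hRk hClp hI1 fp fd hdr h3
  have hcz : ∀ z : Circle, evR z c ≠ 0 := by
    intro z hz
    have e1 : ∀ y : Ker (co phi i), evR z ((cl (co phi i) T h (ld eT 1) D).coeff y) = 0 := by
      intro y
      rw [hcl, cst, AddMonoidAlgebra.coeff_single_zero_mul, map_mul, hz, zero_mul]
    apply hx z _ (e1 x)
    rw [← hcl0]
    exact e1 0
  have hcu : IsUnit c := hM1 ℤ c fd.c0 ((hMV ℤ).1 _ _ h5).2 hcz
  refine ⟨?_, ?_, b, hb0, hb1, ?_⟩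
  · rw [hcl]
    exact H78.dd_cst hcu hcz hdd
  · have h6 := finrank_ker hRk h
    omega
  · rw [hcl0]
    exact hP

/-- The flips of the closing. -/
theorem flp_cl (hF1 : F1S) (hD : DD phi D) {T Z : L} {i : P} {h : co phi i T = 1}
    {u e : (RO ℤ)ˣ} {m : L →+ ℤ} (hZ : Ray D Z) (hdis : ∀ p, phi T p = 0 ∨ phi Z p = 0)
    (hk : ∀ a, a ∈ US e Z D → m a = 0) (mT : m T = 0) {z : Ker (co phi i)} (hz : (z : L) = Z) :
    Flp (phO phi T i) (cl (co phi i) T h u D) z e (m.comp (incl (Ker (co phi i)))) := by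
  intro a ha
  have hma : m (a : L) ≠ 0 := ha
  have k1 : (a : L) ∉ US e Z D := fun hc => hma (hk _ hc)
  have k2 : (a : L) + T ∉ US e Z D := fun hc => hma (by
    have := hk _ hc
    rwa [map_add, mT, add_zero] at this)
  have F := hF1 ℤ P L phi D Z e hD.inj hD.bin (hD.bin Z hZ.1) hZ.2.1
  have hps : ∀ (x : Ker (co phi i)) (p : P), phO phi T i x p =
      if phi T p = 0 then phi (x : L) p else 0 := fun _ _ => rfl
  constructor
  · rintro ⟨p, hp1, hp2⟩ ⟨r, hr1, hr2⟩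
    rw [hps] at hp1 hp2 hr1 hr2
    rw [hz] at hp2 hr2
    have tp : phi T p = 0 := by
      by_contra hc
      rw [if_neg hc] at hp2
      exact zero_ne_one hp2
    have tr : phi T r = 0 := by
      by_contra hc
      rw [if_neg hc] at hr2
      exact zero_ne_one hr2
    rw [if_pos tp] at hp1 hp2
    rw [if_pos tr] at hr1 hr2
    rw [cl_co hD, (F _ k1).1 ⟨p, hp1, hp2⟩ ⟨r, hr1, hr2⟩,
      (F _ k2).1 ⟨p, by rw [map_add, Pi.add_apply, hp1, tp, add_zero], hp2⟩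
        ⟨r, by rw [map_add, Pi.add_apply, hr1, tr, add_zero], hr2⟩, mul_zero, add_zero]
  · intro hd
    have d1 : ∀ p, phi (a : L) p = 0 ∨ phi Z p = 0 := by
      intro p
      rcases hdis p with hp | hp
      · have := hd p
        rw [hps, hps, if_pos hp, if_pos hp, hz] at this
        exact this
      · exact Or.inr hp
    have d2 : ∀ p, phi ((a : L) + T) p = 0 ∨ phi Z p = 0 := by
      intro p
      rcases hdis p with hp | hp
      · rw [map_add, Pi.add_apply, hp, add_zero]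
        exact d1 p
      · exact Or.inr hp
    have g1 := (F _ k1).2 d1
    have g2 := (F _ k2).2 d2
    rw [cl_co hD, cl_co hD]
    have e1 : ((a + z : Ker (co phi i)) : L) = (a : L) + Z := by
      rw [← hz]
      rfl
    have e2 : (a : L) + Z + T = (a : L) + T + Z := by abel
    rw [e1, e2]
    linear_combination g1 + (u : RO ℤ) * g2

variable {eta : L → (RO ℤ)ˣ} {k : ℕ} {Z : ZMod (k + 3) → L} {mu : ZMod (k + 3) → L →+ ℤ}

/-- Neighbours of a cycle. -/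
theorem kpr_cyc (h : Cyc phi D eta k Z mu) (i : ZMod (k + 3)) : Kpr D eta (Z i) (Z (i + 1)) := by
  have m1 := h.mtl i
  have key : ∀ (i : ZMod (k + 3)) (T : L), Ray D T → T ∉ US (eta (Z i)) (Z i) D →
      Mut D (Z i) T (eta (Z i)) (eta T) := by
    intro i T hT hU
    by_cases h1 : T = Z (i + 1)
    · rw [h1]
      exact h.mtl i
    · by_cases h2 : T = Z (i - 1)
      · have h3 := h.mtl (i - 1)
        rw [sub_add_cancel, ← h2] at h3
        exact ⟨h3.r1, h3.r0, h3.m1, h3.m0⟩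
      · exact absurd ((h.ker i T).mpr (h.oth i T hT h1 h2)) hU
  refine ⟨m1, key i, key (i + 1), ⟨-mu i, ?_, ?_, ?_⟩, ⟨mu (i + 1), ?_, ?_, ?_⟩⟩
  · intro a ha
    rw [AddMonoidHom.neg_apply, (h.ker i a).mp ha, neg_zero]
  · rw [AddMonoidHom.neg_apply, h.nxt i]
  · intro T hT hne
    rw [AddMonoidHom.neg_apply]
    by_cases h2 : T = Z (i - 1)
    · rw [h2, h.prv i]
      norm_num
    · rw [h.oth i T hT hne h2, neg_zero]
  · intro a ha
    exact (h.ker (i + 1) a).mp ha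
  · have h3 := h.prv (i + 1)
    rwa [add_sub_cancel_right] at h3
  · intro T hT hne
    by_cases h2 : T = Z (i + 1 + 1)
    · rw [h2, h.nxt (i + 1)]
      norm_num
    · rw [h.oth (i + 1) T hT h2 (by rw [add_sub_cancel_right]; exact hne)]

/-- A killer of one ray of the cycle kills the whole cycle. -/
theorem cyc_all (hF3 : F3S) (hD : DD phi D) (h : Cyc phi D eta k Z mu) {T : L} (hT : Ray D T)
    (hTZ : ∀ j, T ≠ Z j) {e : (RO ℤ)ˣ} {i : ZMod (k + 3)} (hi : Z i ∉ US e T D)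
    (j : ZMod (k + 3)) : Z j ∉ US e T D := by
  have key : ∀ c : ℕ, Z (i + c) ∉ US e T D := by
    intro c
    induction c with
    | zero => rw [Nat.cast_zero, add_zero]; exact hi
    | succ c ih =>
      intro hc
      have h1 := (KO.H40.cyc_killer hF3 hD h hT hTZ ih _ hc).1
      rw [Nat.cast_succ, ← add_assoc, h.nxt] at h1
      exact one_ne_zero h1
  have h1 := key (ZMod.val (j - i))
  rw [ZMod.natCast_zmod_val] at h1
  rwa [add_sub_cancel] at h1

/-- The data of row TK. -/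
structure Tkr (phi : L →+ (P → ℤ)) (D : AO ℤ L) (q f : ℤ[X]) (a : ℝ) (j : ℕ) (eta : L → (RO ℤ)ˣ)
    (k : ℕ) (Z : ZMod (k + 3) → L) (mu : ZMod (k + 3) → L →+ ℤ) (T : L) (eT : (RO ℤ)ˣ) : Prop where
  ko : Ko phi D q a j
  f0 : f.coeff 0 = 1
  n : f.coeff 1 - q.coeff 1 = j + 1
  loc : Loc q f a
  ne : ∃ z : ℂ, ‖z‖ = 1 ∧ ‖aeval z f‖ ≠ ‖aeval z q‖
  k1 : 1 ≤ k
  cyc : Cyc phi D eta k Z mu
  cf : ∀ i, (eta (Z i) : RO ℤ) * D.coeff (Z i) = toLaurent (X * f)
  rT : Ray D T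
  TZ : ∀ i, T ≠ Z i
  rn : RN D T q ((1 - X - X ^ 2) * f) eT a
  dfr : Dfr phi D T (ld eT 1)
  kil : ∀ i, Z i ∉ US (-eT) T D
  cusp : ∀ z : ℂ, ‖z‖ = 1 → (aeval z (q + X * f) : ℂ) ≠ 0

variable {q f : ℤ[X]} {a : ℝ} {j : ℕ} {T : L} {eT : (RO ℤ)ˣ}

theorem Tkr.dd (h : Tkr phi D q f a j eta k Z mu T eT) : DD phi D := h.ko.min.fp.dd

theorem Tkr.two (h : Tkr phi D q f a j eta k Z mu T eT) : 2 ≤ Module.finrank ℤ L := by
  have h1 := h.ko.rk
  have h2 := h.ko.j2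
  omega

theorem Tkr.ray (h : Tkr phi D q f a j eta k Z mu T eT) (i : ZMod (k + 3)) : Ray D (Z i) :=
  (h.cyc.mtl i).r0

theorem Tkr.muT (h : Tkr phi D q f a j eta k Z mu T eT) (i : ZMod (k + 3)) : mu i T = 0 :=
  h.cyc.oth i T h.rT (h.TZ _) (h.TZ _)

/-- `T` is disjoint from the cycle. -/
theorem Tkr.dis (hF2 : F2S) (h : Tkr phi D q f a j eta k Z mu T eT) (i : ZMod (k + 3)) :
    ∀ p, phi T p = 0 ∨ phi (Z i) p = 0 := fun p =>
  (hF2 ℤ P L phi D (Z i) T (-eT) h.dd.inj h.dd.bin (h.ray i) h.rT (h.kil i) p).symm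

/-- The killing. -/
theorem Tkr.k0 (hF1 : F1S) (h : Tkr phi D q f a j eta k Z mu T eT) {x : L}
    (hx : x ∉ US (-eT) T D) (hd : ∀ p, phi x p = 0 ∨ phi T p = 0) :
    (eT : RO ℤ) * D.coeff (x + T) = D.coeff x := by
  have h1 := (hF1 ℤ P L phi D T (-eT) h.dd.inj h.dd.bin (h.dd.bin T h.rT.1) h.rT.2.1 x hx).2 hd
  rw [Units.val_neg] at h1
  linear_combination -h1

theorem Tkr.kZ (hF1 : F1S) (hF2 : F2S) (h : Tkr phi D q f a j eta k Z mu T eT)
    (i : ZMod (k + 3)) : (eT : RO ℤ) * D.coeff (Z i + T) = D.coeff (Z i) :=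
  h.k0 hF1 (h.kil i) fun p => (h.dis hF2 i p).symm

/-- The sum of two neighbours is killed. -/
theorem Tkr.kZZ (hF1 : F1S) (hF2 : F2S) (hF3 : F3S) (h : Tkr phi D q f a j eta k Z mu T eT)
    (i : ZMod (k + 3)) :
    (eT : RO ℤ) * D.coeff (Z i + Z (i + 1) + T) = D.coeff (Z i + Z (i + 1)) := by
  apply h.k0 hF1
  · intro hc
    have h1 := (KO.H40.cyc_killer hF3 h.dd h.cyc h.rT h.TZ (h.kil i) _ hc).1
    have h2 : mu i (Z i) = 0 := by
      obtain ⟨n1, n2, -⟩ := KO.H40.idx k i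
      exact KO.H40.cyc_mu h.cyc n1 n2
    rw [map_add, h2, h.cyc.nxt, zero_add] at h1
    exact one_ne_zero h1
  · intro p
    rcases h.dis hF2 i p with h1 | h1
    · exact Or.inr h1
    · rcases h.dis hF2 (i + 1) p with h2 | h2
      · exact Or.inr h2
      · left
        rw [map_add, Pi.add_apply, h1, h2, add_zero]

/-- The coefficient of `Z i` in the closing `T = 1` at the load B. -/
theorem Tkr.cz (hF1 : F1S) (hF2 : F2S) (h : Tkr phi D q f a j eta k Z mu T eT) {iT : P}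
    (hT : co phi iT T = 1) (i : ZMod (k + 3)) {z : Ker (co phi iT)} (hz : (z : L) = Z i) :
    (eta (Z i) : RO ℤ) * (cl (co phi iT) T hT (ld eT 1) D).coeff z =
      toLaurent (X * ((1 + X) * f)) := by
  rw [cl_co h.dd, hz, ld_val]
  have h1 := h.kZ hF1 hF2 i
  have h2 := h.cf i
  have e1 : (toLaurent (X * ((1 + X) * f)) : RO ℤ) =
      (1 + LaurentPolynomial.T 1) * toLaurent (X * f) := by
    simp only [map_mul, map_add, map_one, toLaurent_X]
    ring
  rw [e1, ← h2]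
  linear_combination ((eta (Z i) : RO ℤ) * LaurentPolynomial.T 1) * h1

/-- The constant coefficient of the closing. -/
theorem Tkr.cz0 (h : Tkr phi D q f a j eta k Z mu T eT) {iT : P} (hT : co phi iT T = 1) :
    (cl (co phi iT) T hT (ld eT 1) D).coeff 0 =
      toLaurent (q + X * ((1 - X - X ^ 2) * f)) := by
  rw [cl_co h.dd]
  have h1 := V0_ld h.rn 1
  rw [pow_one] at h1
  change D.coeff (0 : L) + ((ld eT 1 : (RO ℤ)ˣ) : RO ℤ) * D.coeff ((0 : L) + T) = _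
  rw [zero_add]
  exact h1

/-- The face of `{T, Z i}`. -/
theorem Tkr.fac (hRS : RaySpanS) (hE2 : E2S) (hF2 : F2S)
    (h : Tkr phi D q f a j eta k Z mu T eT) (i : ZMod (k + 3)) :
    ∃ lam : L →+ ℤ, lam T = 0 ∧ lam (Z i) = 0 ∧
      ∀ x ∈ supp D, x ≠ 0 → x ≠ T → x ≠ Z i → x ≠ T + Z i → 0 < lam x := by
  obtain ⟨lam, l1, l2, l3⟩ := KVH29.fsr hRS hE2 P L phi D eta (Z i) (Z (i + 1)) T h.dd h.two
    (kpr_cyc h.cyc i) h.rT (h.TZ i) (fun p => by
      rcases h.dis hF2 i p with h1 | h1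
      · exact Or.inl h1
      · rcases h.dis hF2 (i + 1) p with h2 | h2
        · exact Or.inl h2
        · exact Or.inr ⟨h1, h2⟩) ((h.cyc.ker (i + 1) T).mpr (h.muT _))
  exact ⟨lam, l2, l1, fun x hx h0 hT hZ hs => l3 x hx h0 hZ hT (by rw [add_comm]; exact hs)⟩

/-- Rays of the closing. -/
theorem Tkr.rim (hFsp : FspS) (hRS : RaySpanS) (hE2 : E2S) (hF1 : F1S) (hF2 : F2S)
    (h : Tkr phi D q f a j eta k Z mu T eT) {iT : P} (hT : co phi iT T = 1) (i : ZMod (k + 3))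
    {z : Ker (co phi iT)} (hz : (z : L) = Z i) :
    Ray (cl (co phi iT) T hT (ld eT 1) D) z ∧ ImS (phO phi T iT) z := by
  obtain ⟨lam, l1, l2, l3⟩ := h.fac hRS hE2 hF2 i
  refine KV.H76.ray_im hFsp h.ko.min.fp hT hz h.rT (h.ray i)
    (fun p => (h.dis hF2 i p).symm) l1 l2 l3 (eta := ld eT 1) (c := 1) ?_ one_ne_zero ?_
  · rw [show (cst 1 : AO ℤ (Ker (co phi iT))) = 1 from rfl, one_mul]
  · intro h0
    have h1 := h.cz hF1 hF2 hT i hz
    rw [cl_co h.dd, hz, h0, mul_zero] at h1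
    have h2 := toLaurent_eq_zero.mp h1.symm
    have h3 := congrArg (fun p : ℤ[X] => p.coeff 1) h2
    simp only [coeff_X_mul, mul_coeff_zero, coeff_add, coeff_one_zero, coeff_X_zero, add_zero,
      one_mul, coeff_zero, h.f0] at h3
    exact one_ne_zero h3

/-- The closing with its flips. -/
theorem Tkr.tkW (hRes : ResKS) (hFact : FactS) (hC0 : Coeff0S) (hE1 : E1S) (hMV : MVS)
    (hM1 : M1S) (hC4 : C4S) (hE2 : E2S) (hThin : ThinS) (hF1 : F1S) (hF2 : F2S) (hF3 : F3S)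
    (hMin : MinS) (hB5a : B5aS) (hVco : VcoS) (hWWf : WWfS) (hU : UnitAS) (hI : Inj1S)
    (hMco : McoS) (hFsp : FspS) (hRS : RaySpanS) (h : Tkr phi D q f a j eta k Z mu T eT) {iT : P}
    (hT : co phi iT T = 1) (hdd : DD (phO phi T iT) (cl (co phi iT) T hT (ld eT 1) D))
    (i : ZMod (k + 3)) {z0 z1 z2 : Ker (co phi iT)} (h0 : (z0 : L) = Z i)
    (h1 : (z1 : L) = Z (i + 1)) (h2 : (z2 : L) = Z (i + 2)) :
    ∃ nK : Ker (co phi iT) →+ ℤ, TkW (phO phi T iT) (cl (co phi iT) T hT (ld eT 1) D) z0 z1 z2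
      (eta (Z i)) (eta (Z (i + 1))) (eta (Z (i + 2))) ((mu i).comp (incl _))
      ((mu (i + 1)).comp (incl _)) ((mu (i + 2)).comp (incl _)) nK := by
  obtain ⟨-, -, nu, n0, n1, -, n2, nR, nev⟩ := KO.H40.cyc_kil hRes hFact hC0 hE1 hMV hM1 hC4 hE2
    hThin hF1 hF3 hMin hB5a hVco hWWf hU hI hMco h.ko.min h.two h.k1 h.cyc h.rT h.TZ
    (e := -eT) (V0_ne_A h.rn) (i := i) (h.kil i)
  obtain ⟨p1, p2, p3, p4, p5⟩ := KO.H40.idx k i
  have e1 : i + 1 - 1 = i := by ring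
  have e2 : i + 1 + 1 = i + 2 := by ring
  have e3 : i + 2 - 1 = i + 1 := by ring
  have bin := h.dd.bin
  have dis : ∀ (m n : ZMod (k + 3)) (x y : Ker (co phi iT)), (x : L) = Z m → (y : L) = Z n →
      m ≠ n → ∀ p, phO phi T iT x p = 0 ∨ phO phi T iT y p = 0 := by
    intro m n x y hx hy hmn p
    change (if phi T p = 0 then phi (x : L) p else 0) = 0 ∨
      (if phi T p = 0 then phi (y : L) p else 0) = 0
    by_cases hp : phi T p = 0
    · rw [if_pos hp, if_pos hp, hx, hy]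
      exact h.cyc.dis m n hmn p
    · left
      rw [if_neg hp]
  have hsup : ∀ (m : L →+ ℤ), m T = 0 → ∀ x ∈ supp (cl (co phi iT) T hT (ld eT 1) D),
      ∃ y ∈ supp D, m (x : L) = m y ∧ ∀ m' : L →+ ℤ, m' T = 0 → m' (x : L) = m' y := by
    intro m mT x hx
    by_cases hx0 : D.coeff (x : L) = 0
    · refine ⟨(x : L) + T, ?_, by rw [map_add, mT, add_zero], fun m' hm' => by
        rw [map_add, hm', add_zero]⟩
      intro hc
      apply hx
      change D.coeff ((x : L) + T) = 0 at hc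
      rw [cl_co h.dd, hx0, hc, mul_zero, add_zero]
    · exact ⟨(x : L), hx0, rfl, fun _ _ => rfl⟩
  have nT : nu T = 0 := nR T h.rT (h.TZ _) (h.TZ _) (h.TZ _) (h.TZ _)
  refine ⟨nu.comp (incl _), ?_⟩
  exact
    { dd := hdd
      r0 := (h.rim hFsp hRS hE2 hF1 hF2 hT i h0).1
      r1 := (h.rim hFsp hRS hE2 hF1 hF2 hT (i + 1) h1).1
      r2 := (h.rim hFsp hRS hE2 hF1 hF2 hT (i + 2) h2).1
      d01 := dis i (i + 1) z0 z1 h0 h1 p1
      d02 := dis i (i + 2) z0 z2 h0 h2 p4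
      d12 := dis (i + 1) (i + 2) z1 z2 h1 h2 p5
      F0 := flp_cl hF1 h.dd (h.ray i) (h.dis hF2 i) (fun x hx => (h.cyc.ker i x).mp hx)
        (h.muT i) h0
      F1 := flp_cl hF1 h.dd (h.ray (i + 1)) (h.dis hF2 (i + 1))
        (fun x hx => (h.cyc.ker (i + 1) x).mp hx) (h.muT (i + 1)) h1
      F2 := flp_cl hF1 h.dd (h.ray (i + 2)) (h.dis hF2 (i + 2))
        (fun x hx => (h.cyc.ker (i + 2) x).mp hx) (h.muT (i + 2)) h2
      m00 := by
        change mu i (z0 : L) = 0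
        rw [h0]
        exact KO.H40.cyc_mu h.cyc p1 p2
      m01 := by
        change mu i (z1 : L) = 1
        rw [h1]
        exact h.cyc.nxt i
      m02 := by
        change mu i (z2 : L) = 0
        rw [h2]
        exact KO.H40.cyc_mu h.cyc (Ne.symm p5) (Ne.symm (KO.H40.idx3 h.k1 i))
      m10 := by
        change mu (i + 1) (z0 : L) = -1
        rw [h0]
        have := h.cyc.prv (i + 1)
        rwa [e1] at this
      m11 := by
        change mu (i + 1) (z1 : L) = 0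
        rw [h1]
        exact KO.H40.cyc_mu h.cyc (by rw [e2]; exact p5) (by rw [e1]; exact Ne.symm p1)
      m12 := by
        change mu (i + 1) (z2 : L) = 1
        rw [h2, ← e2]
        exact h.cyc.nxt (i + 1)
      m21 := by
        change mu (i + 2) (z1 : L) = -1
        rw [h1]
        have := h.cyc.prv (i + 2)
        rwa [e3] at this
      m22 := by
        change mu (i + 2) (z2 : L) = 0
        rw [h2]
        obtain ⟨r1, r2, -⟩ := KO.H40.idx k (i + 2)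
        exact KO.H40.cyc_mu h.cyc r1 r2
      v0 := by
        intro x hx
        obtain ⟨y, hy, hxy, -⟩ := hsup (mu i) (h.muT i) x hx
        change mu i (x : L) = 0 ∨ mu i (x : L) = 1 ∨ mu i (x : L) = -1
        rw [hxy]
        exact h.cyc.val i y hy
      v1 := by
        intro x hx
        obtain ⟨y, hy, hxy, -⟩ := hsup (mu (i + 1)) (h.muT (i + 1)) x hx
        change mu (i + 1) (x : L) = 0 ∨ mu (i + 1) (x : L) = 1 ∨ mu (i + 1) (x : L) = -1
        rw [hxy]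
        exact h.cyc.val (i + 1) y hy
      ev := by
        intro x hx hev
        obtain ⟨y, hy, -, hall⟩ := hsup (mu i) (h.muT i) x hx
        change nu (x : L) = 0
        rw [hall nu nT]
        apply nev y hy
        rw [← hall (mu i) (h.muT i), ← hall (mu (i + 1)) (h.muT (i + 1))]
        exact hev
      n0 := by
        change nu (z0 : L) ≠ 0
        rw [h0]
        exact n0
      n1 := by
        change nu (z1 : L) = -nu (z0 : L)
        rw [h0, h1]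
        exact n1
      n2 := by
        change nu (z2 : L) = nu (z0 : L)
        rw [h0, h2]
        exact n2 }

/-- The face of `Z i`, `Z (i + 1)`, `T`. -/
theorem Tkr.tkD (hFcm : FcmS) (hMco : McoS) (hF1 : F1S) (hF2 : F2S) (hF3 : F3S)
    (h : Tkr phi D q f a j eta k Z mu T eT) (i : ZMod (k + 3)) : ∃ V : ℤ[X], TkD q f V a j := by
  obtain ⟨V, hV⟩ : ∃ V : ℤ[X], X * V = (1 - X - X ^ 2) * f - q := by
    have h1 : X ∣ (1 - X - X ^ 2) * f - q := by
      rw [X_dvd_iff, coeff_sub, mul_coeff_zero, h.f0, h.loc.q0]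
      simp
    obtain ⟨V, hV⟩ := h1
    exact ⟨V, hV.symm⟩
  refine ⟨V, h.loc, h.ne, h.f0, h.ko.j2, h.ko.lt, h.n, ?_, hV, ?_⟩
  · intro hc
    apply h.cusp (-1) (by simp)
    rw [map_add, map_mul, aeval_X, hc]
    ring
  · intro zz hzz x y s hx hy hs
    obtain ⟨z, rfl⟩ := circle_of zz hzz
    have hD := h.dd
    obtain ⟨p1, p2, -⟩ := KO.H40.idx k i
    have hM := h.cyc.mtl i
    obtain ⟨hdis, -, h01, -⟩ := hMco ℤ P L phi D (Z i) (Z (i + 1)) _ _ hD.inj hD.bin hM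
    rw [h.cf i] at h01
    -- the normal form
    obtain ⟨r, hr⟩ : ∃ r : RO ℤ, r = -(((eT⁻¹ : (RO ℤ)ˣ) : RO ℤ) * toLaurent (X * f)) := ⟨_, rfl⟩
    have einv : ((eT⁻¹ : (RO ℤ)ˣ) : RO ℤ) * (eT : RO ℤ) = 1 := eT.inv_mul
    have g1 := h.kZ hF1 hF2 i
    have g2 := h.kZ hF1 hF2 (i + 1)
    have g3 := h.kZZ hF1 hF2 hF3 i
    have hN : Nf D (Z i) (Z (i + 1)) (eta (Z i)) (eta (Z (i + 1))) T 0 0 (D.coeff T - r) r := by
      refine ⟨Nat.zero_le _, Nat.zero_le _, ?_, ?_, ?_, ?_⟩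
      · simp
      · simp only [zero_ne_one, false_and, if_false, zero_sub]
        have c1 := h.cf i
        rw [add_comm T (Z i), hr]
        linear_combination ((eta (Z i) : RO ℤ) * ((eT⁻¹ : (RO ℤ)ˣ) : RO ℤ)) * g1 -
          ((eta (Z i) : RO ℤ) * D.coeff (Z i + T)) * einv + ((eT⁻¹ : (RO ℤ)ˣ) : RO ℤ) * c1
      · simp only [zero_ne_one, and_false, if_false, zero_sub]
        have c1 := h.cf (i + 1)
        rw [add_comm T (Z (i + 1)), hr]
        linear_combination ((eta (Z (i + 1)) : RO ℤ) * ((eT⁻¹ : (RO ℤ)ˣ) : RO ℤ)) * g2 -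
          ((eta (Z (i + 1)) : RO ℤ) * D.coeff (Z (i + 1) + T)) * einv +
          ((eT⁻¹ : (RO ℤ)ˣ) : RO ℤ) * c1
      · simp only [zero_ne_one, and_false, if_false, zero_add]
        have e1 : T + Z i + Z (i + 1) = Z i + Z (i + 1) + T := by abel
        rw [e1, hr]
        linear_combination ((eta (Z i) : RO ℤ) * (eta (Z (i + 1)) : RO ℤ) *
          ((eT⁻¹ : (RO ℤ)ˣ) : RO ℤ)) * g3 - ((eta (Z i) : RO ℤ) * (eta (Z (i + 1)) : RO ℤ) *
          D.coeff (Z i + Z (i + 1) + T)) * einv + ((eT⁻¹ : (RO ℤ)ˣ) : RO ℤ) * h01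
    have hn : ‖evR z ((ld eT 1 : (RO ℤ)ˣ) : RO ℤ)‖ = 1 :=
      H36.norm_evR_unit z _ (ld eT 1 : (RO ℤ)ˣ).isUnit
    have hout : Out phi (Z i) (Z (i + 1)) T := fun p => by
      rcases h.dis hF2 i p with h1 | h1
      · exact Or.inl h1
      · rcases h.dis hF2 (i + 1) p with h2 | h2
        · exact Or.inl h2
        · exact Or.inr ⟨h1, h2⟩
    have hf := H52.Face.face hFcm hD h.two (hD.bin _ (h.ray i).1) (hD.bin _ (h.ray (i + 1)).1)
      (hD.bin T h.rT.1) (h.ray i).2.1 (h.ray (i + 1)).2.1 h.rT.2.1 hdis hout (h.cf i)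
      (h.cf (i + 1)) h01 hN z (x := x) (y := y)
      (t := evR z ((ld eT 1 : (RO ℤ)ˣ) : RO ℤ) * s) hx hy (by rw [norm_mul, hn, one_mul]; exact hs)
    intro hcon
    apply hf
    have hD0 : D.coeff 0 = toLaurent q := h.rn.D0
    have c1 : ((ld eT 1 : (RO ℤ)ˣ) : RO ℤ) * r = -toLaurent (X ^ 2 * f) := by
      rw [ld_val, hr]
      have e1 : (toLaurent (X ^ 2 * f) : RO ℤ) = LaurentPolynomial.T 1 * toLaurent (X * f) := by
        rw [← toLaurent_X, ← map_mul]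
        congr 1
        ring
      rw [e1]
      linear_combination (-(LaurentPolynomial.T 1 : RO ℤ) * toLaurent (X * f)) * einv
    have c2 : ((ld eT 1 : (RO ℤ)ˣ) : RO ℤ) * (D.coeff T - r) =
        toLaurent (X * ((1 - X - X ^ 2) * f) + X ^ 2 * f) := by
      have h1 := ld_S h.rn 1
      rw [pow_one] at h1
      rw [mul_sub, c1, map_add, sub_neg_eq_add]
      congr 1
    have d1 := congrArg (evR z) c1
    have d2 := congrArg (evR z) c2
    rw [map_mul, map_neg, evR_poly] at d1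
    rw [map_mul, evR_poly] at d2
    rw [hD0, ← map_add toLaurent, evR_poly, evR_poly]
    linear_combination hcon + s * d2 + (s * ((1 - x) * (1 - y))) * d1

/-- THE ROW TK. -/
theorem tk (hQs : QsgS) (hCz : CzaS) (hTz : TzaS) (hFj : FjtS) (hGa : GaiS) (hNz : NdzS)
    (hNd : Nd3S) (hNr : Nr3S) (hTa : Ta3S) (hLd : LdzS) (hKm : KmuS) (hRW : ResWDS)
    (hRs : ResStS) (hSf : SfzS) (hMm : MmulS) (hPc : PCZS) (hClp : ClpS) (hRk : RkS)
    (hFD : FDS) (hRes : ResKS) (hFact : FactS) (hC0 : Coeff0S) (hE1 : E1S) (hMV : MVS)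
    (hM1 : M1S) (hC4 : C4S) (hE2 : E2S) (hThin : ThinS) (hF1 : F1S) (hF2 : F2S) (hF3 : F3S)
    (hMin : MinS) (hB5a : B5aS) (hVco : VcoS) (hWWf : WWfS) (hU : UnitAS) (hI : Inj1S)
    (hMco : McoS) (hFsp : FspS) (hRS : RaySpanS) (hFcm : FcmS)
    (h : Tkr phi D q f a j eta k Z mu T eT) : False := by
  have hD := h.dd
  have hj := h.ko.j2
  obtain ⟨iT, hT⟩ := exists_port hD h.rT
  have hTi : phi T iT = 1 := hT
  have hzk : ∀ m : ZMod (k + 3), Z m ∈ Ker (co phi iT) := by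
    intro m
    change phi (Z m) iT = 0
    rcases h.dis hF2 m iT with h1 | h1
    · rw [hTi] at h1
      exact absurd h1 one_ne_zero
    · exact h1
  obtain ⟨V, hTD⟩ := h.tkD hFcm hMco hF1 hF2 hF3 0
  -- the closing is in `DD`
  obtain ⟨hdd, hfr, bb, hbb0, hbb1, hPW⟩ := dd_B hSf hMV hMm hE1 hM1 hPc hClp hI hRk hFD h.ko h.rT
    h.rn (by rw [mul_coeff_zero, h.f0]; simp) h.dfr hT (x := ⟨Z 0, hzk 0⟩) (by
      intro z h0 hx
      have h1 := V0_ld h.rn 1
      rw [pow_one] at h1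
      have h2 : evR z (toLaurent (q + X * ((1 - X - X ^ 2) * f)) : RO ℤ) = 0 := by
        rw [← h1]
        exact h0
      rw [evR_poly] at h2
      have h3 := congrArg (evR z) (h.cz hF1 hF2 hT 0 (z := ⟨Z 0, hzk 0⟩) rfl)
      rw [map_mul, hx, mul_zero, evR_poly] at h3
      simp only [map_mul, map_add, map_sub, map_pow, map_one, aeval_X] at h2 h3
      have hz1 : ‖(z : ℂ)‖ = 1 := Circle.norm_coe z
      have hz0 : (z : ℂ) ≠ 0 := by
        intro hc
        rw [hc, norm_zero] at hz1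
        exact zero_ne_one hz1
      rcases mul_eq_zero.mp h3.symm with h4 | h4
      · exact hz0 h4
      · rcases mul_eq_zero.mp h4 with h5 | h5
        · have h6 : (z : ℂ) = -1 := by linear_combination h5
          rw [h6] at h2
          apply hTD.m1
          linear_combination h2
        · rw [h5] at h2
          apply q_ne h.loc (z : ℂ) hz1
          linear_combination h2)
  obtain ⟨nK, hW⟩ := h.tkW hRes hFact hC0 hE1 hMV hM1 hC4 hE2 hThin hF1 hF2 hF3 hMin hB5a hVco hWWf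
    hU hI hMco hFsp hRS hT hdd 0 (z0 := ⟨Z 0, hzk 0⟩) (z1 := ⟨Z (0 + 1), hzk _⟩)
    (z2 := ⟨Z (0 + 2), hzk _⟩) rfl rfl rfl
  obtain ⟨b, hb0, hb1, hb⟩ := hTD.root
  have hθ : (2 : ℝ) ≤ bb⁻¹ := by
    have h1 := (h.ko.ih (2 * j) (by omega) bb⁻¹ P (Ker (co phi iT)) (phO phi T iT) _ hdd hPW
      hfr).1 ⟨j, by ring⟩
    have hj' : (2 : ℝ) ≤ j := by exact_mod_cast hj
    push_cast at h1
    have h2 : 0 < 1 / bb⁻¹ := by positivity
    linarith
  have hfb : (aeval b ((1 + X) * f) : ℝ) ≠ 0 := by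
    intro h0
    have h1 := hTD.Vpos hb0.le hb1.le
    have h2 := hb
    rw [hTD.w01] at h2
    have e1 : (1 + X) * (1 - X ^ 2) * f = (1 - X ^ 2) * ((1 + X) * f) := by ring
    rw [e1, map_sub, map_mul, h0, mul_zero, zero_sub, map_mul, aeval_X, neg_eq_zero] at h2
    rcases mul_eq_zero.mp h2 with h3 | h3
    · exact hb0.ne' h3
    · rw [h3] at h1
      exact lt_irrefl _ h1
  obtain ⟨hroots, hbj⟩ := hW.bound hQs hCz hTz hFj hGa hNz hNd hNr hTa hLd hVco hMco hFD hE1 hMV hMm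
    hKm hRk hRW hRs (q := q + X * ((1 - X - X ^ 2) * f)) (f := (1 + X) * f) hj hfr
    (fun k hk => h.ko.ih k (by omega)) hθ hPW (h.cz0 hT) (h.cz hF1 hF2 hT 0 rfl)
    (h.cz hF1 hF2 hT (0 + 2) rfl) (by
      rw [coeff_add, coeff_X_mul_zero, h.loc.q0, add_zero]) (by
      rw [mul_coeff_zero, h.f0]
      simp) (h.rim hFsp hRS hE2 hF1 hF2 hT 0 rfl).2 hb0 hb1 hb hfb
  -- the value at `t`
  obtain ⟨t, ht0, ht1, htj⟩ : ∃ t : ℝ, 0 < t ∧ t < 1 ∧ t ^ 2 + ((j : ℝ) - 1) * t = 1 := by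
    have hj' : (2 : ℝ) ≤ j := by exact_mod_cast hj
    have hc : ContinuousOn (fun t : ℝ => t ^ 2 + ((j : ℝ) - 1) * t) (Set.Icc 0 1) := by fun_prop
    have hmem : (1 : ℝ) ∈ Set.Icc ((0 : ℝ) ^ 2 + ((j : ℝ) - 1) * 0)
        ((1 : ℝ) ^ 2 + ((j : ℝ) - 1) * 1) := by
      constructor <;> linarith
    obtain ⟨t, ht, ht1⟩ := intermediate_value_Icc zero_le_one hc hmem
    simp only at ht1
    refine ⟨t, ?_, ?_, ht1⟩
    · rcases lt_or_eq_of_le ht.1 with h2 | h2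
      · exact h2
      · rw [← h2] at ht1
        norm_num at ht1
    · rcases lt_or_eq_of_le ht.2 with h2 | h2
      · exact h2
      · rw [h2] at ht1
        linarith
  have hbt : b ≤ t := by
    by_contra hc
    push Not at hc
    have h1 : b⁻¹ < t⁻¹ := by
      rw [inv_lt_inv₀ hb0 ht0]
      exact hc
    have h2 : t⁻¹ - t = j - 1 := by
      field_simp
      linarith
    linarith
  have h3 := sgn (k := 1) (le_refl 1) (q := q + X * ((1 - X - X ^ 2) * f)) (f := (1 + X) * f) (by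
    rw [coeff_add, coeff_X_mul_zero, h.loc.q0, add_zero]) hb0 hroots hbt ht1
  rw [pow_one] at h3
  exact hTD.fin ht0 htj h3

/-- THE ROW TK for a cycle of `C`. -/
theorem tk_kcb (hQs : QsgS) (hCz : CzaS) (hTz : TzaS) (hFj : FjtS) (hGa : GaiS) (hNz : NdzS)
    (hNd : Nd3S) (hNr : Nr3S) (hTa : Ta3S) (hLd : LdzS) (hKm : KmuS) (hRW : ResWDS)
    (hRs : ResStS) (hSf : SfzS) (hMm : MmulS) (hPc : PCZS) (hClp : ClpS) (hRk : RkS)
    (hFD : FDS) (hRes : ResKS) (hFact : FactS) (hC0 : Coeff0S) (hE1 : E1S) (hMV : MVS)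
    (hM1 : M1S) (hC4 : C4S) (hE2 : E2S) (hThin : ThinS) (hF1 : F1S) (hF2 : F2S) (hF3 : F3S)
    (hMin : MinS) (hB5a : B5aS) (hVco : VcoS) (hWWf : WWfS) (hU : UnitAS) (hI : Inj1S)
    (hMco : McoS) (hFsp : FspS) (hRS : RaySpanS) (hFcm : FcmS) (hI3 : Io3S) (hMfc : MfcS)
    (hCa : Ca5S) (hGlc : GlcS) (hFou : FouS) (hDti : DtiS) (hCu : CuspS) {g : ℕ} {C : Set L}
    (W : KcB phi D q f a j eta g C) (hu : f.coeff 0 = 1) (hn : f.coeff 1 - q.coeff 1 = j + 1)
    (hk : 1 ≤ k) (h : Cyc phi D eta k Z mu) (hZ : ∀ i, Z i ∈ C) (hT : Ray D T)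
    (hTZ : ∀ i, T ≠ Z i) (hR : RN D T q ((1 - X - X ^ 2) * f) eT a)
    (hdf : Dfr phi D T (ld eT 1)) {i : ZMod (k + 3)} (hi : Z i ∉ US (-eT) T D) : False := by
  have hD := W.ko.min.fp.dd
  obtain ⟨e, he, hRZ⟩ := W.rn (Z 0) (hZ 0)
  obtain ⟨-, hzero, -⟩ := upper hMV hMm hE1 hPc hClp hFD hSf hI3 hMfc hCa hGlc hFou hDti W hu
    (hZ 0) he hRZ
  have h2 : 2 ≤ Module.finrank ℤ L := by
    have h1 := W.ko.rk
    have h3 := W.ko.j2
    omega
  have hM := h.mtl 0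
  rw [he] at hM
  have hcf : ∀ i, (eta (Z i) : RO ℤ) * D.coeff (Z i) = toLaurent (X * f) := by
    intro i
    obtain ⟨e', he', hR'⟩ := W.rn (Z i) (hZ i)
    have h1 := ld_S hR' 1
    rw [pow_one] at h1
    rw [he']
    exact h1
  exact tk hQs hCz hTz hFj hGa hNz hNd hNr hTa hLd hKm hRW hRs hSf hMm hPc hClp hRk hFD hRes hFact
    hC0 hE1 hMV hM1 hC4 hE2 hThin hF1 hF2 hF3 hMin hB5a hVco hWWf hU hI hMco hFsp hRS hFcm
    (mu := mu) (eta := eta) (Z := Z)
    { ko := W.ko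
      f0 := hu
      n := hn
      loc := hRZ.loc
      ne := hRZ.ne
      k1 := hk
      cyc := h
      cf := hcf
      rT := hT
      TZ := hTZ
      rn := hR
      dfr := hdf
      kil := cyc_all hF3 hD h hT hTZ hi
      cusp := fun z hz => cusp_m1 hCu hD h2 hRZ hM hzero hz }

end

end Pool.Agent.B5.KO67
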