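import Pool.Agent.Lib.MP_b5021c_nt.IfaceAM
import Pool.Agent.Lib.MP_b5021c_nt.KO.H40.Kil
import Pool.Agent.Lib.MP_b5021c_nt.UF.H19.Dcp
import Pool.Agent.Lib.MP_b5021c_nt.K.H25.Sha

/-!
# MP_b5021c_nt, all `θ`, K ODD, (O4), cycles of length `≥ 5`: the normal form and unitarity

`FZ u T` is the normalised coefficient of `u + ∑_(i ∈ T) Z i`.  By the flips (`CnfS`) it depends
only on the number of runs of `T`.
-/

set_option linter.unusedSectionVars false

namespace Pool.Agent.B5.KO67

open scoped LaurentPolynomial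

section

variable {L : Type} [AddCommGroup L] {k : ℕ}

/-- The normalised coefficient of `u + ∑_(i ∈ T) Z i`. -/
noncomputable def FZ (D : AO ℤ L) (eta : L → (RO ℤ)ˣ) (Z : ZMod (k + 3) → L) (u : L)
    (T : Finset (ZMod (k + 3))) : RO ℤ :=
  (∏ i ∈ T, (eta (Z i) : RO ℤ)) * D.coeff (∑ i ∈ T, Z i + u)

/-- The flips at `u`. -/
def Flz (D : AO ℤ L) (eta : L → (RO ℤ)ˣ) (Z : ZMod (k + 3) → L) (u : L) : Prop :=
  ∀ (T : Finset (ZMod (k + 3))) (i : ZMod (k + 3)), i ∉ T → (i + 1 ∈ T ↔ i - 1 ∉ T) →
    FZ D eta Z u (insert i T) = -FZ D eta Z u T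

variable {D : AO ℤ L} {eta : L → (RO ℤ)ˣ} {Z : ZMod (k + 3) → L} {u : L}

theorem flz_of (h : ∀ (T : Finset (ZMod (k + 3))) (i : ZMod (k + 3)), i ∉ T →
    (i + 1 ∈ T ↔ i - 1 ∉ T) →
      D.coeff (∑ j ∈ T, Z j + u) + (eta (Z i) : RO ℤ) * D.coeff (∑ j ∈ insert i T, Z j + u) = 0) :
    Flz D eta Z u := by
  intro T i hi hn
  have h1 := h T i hi hn
  unfold FZ
  rw [Finset.prod_insert hi]
  linear_combination (∏ i ∈ T, (eta (Z i) : RO ℤ)) * h1

theorem nz_cast {m : ℕ} (h0 : 0 < m) (h1 : m < k + 3) : ((m : ℕ) : ZMod (k + 3)) ≠ 0 := by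
  intro h
  rw [ZMod.natCast_eq_zero_iff] at h
  exact absurd (Nat.le_of_dvd h0 h) (by omega)

theorem four_ne (hk : 2 ≤ k) : (4 : ZMod (k + 3)) ≠ 0 := by
  have := nz_cast (k := k) (m := 4) (by norm_num) (by omega)
  exact_mod_cast this

theorem one_nz : (1 : ZMod (k + 3)) ≠ 0 := KO.H40.one_ne k

theorem two_nz : (2 : ZMod (k + 3)) ≠ 0 := KO.H40.two_ne k

/-- A flip with the new element on the right of a run. -/
theorem Flz.r (h : Flz D eta Z u) {T : Finset (ZMod (k + 3))} {i j l : ZMod (k + 3)}
    (hj : j = i + 1) (hl : l = i - 1) (h1 : i ∉ T) (h2 : j ∉ T) (h3 : l ∈ T) :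
    FZ D eta Z u (insert i T) = -FZ D eta Z u T := by
  subst hj hl
  exact h T i h1 ⟨fun h4 => absurd h4 h2, fun h4 => absurd h3 h4⟩

/-- A flip with the new element on the left of a run. -/
theorem Flz.l (h : Flz D eta Z u) {T : Finset (ZMod (k + 3))} {i j l : ZMod (k + 3)}
    (hj : j = i + 1) (hl : l = i - 1) (h1 : i ∉ T) (h2 : j ∈ T) (h3 : l ∉ T) :
    FZ D eta Z u (insert i T) = -FZ D eta Z u T := by
  subst hj hl
  exact h T i h1 ⟨fun _ => h3, fun _ => h2⟩

theorem Flz.pair (h : Flz D eta Z u) (i : ZMod (k + 3)) :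
    FZ D eta Z u {i, i + 1} = -FZ D eta Z u {i} := by
  have h1 := one_nz (k := k)
  have h2 := two_nz (k := k)
  rw [Finset.pair_comm]
  refine h.r (j := i + 2) (l := i) (by ring) (by ring) ?_ ?_ ?_
  · rw [Finset.mem_singleton]
    intro hc
    exact h1 (by linear_combination hc)
  · rw [Finset.mem_singleton]
    intro hc
    exact h2 (by linear_combination hc)
  · exact Finset.mem_singleton_self _

theorem Flz.pair' (h : Flz D eta Z u) (i : ZMod (k + 3)) :
    FZ D eta Z u {i, i + 1} = -FZ D eta Z u {i + 1} := by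
  have h1 := one_nz (k := k)
  have h2 := two_nz (k := k)
  refine h.l (j := i + 1) (l := i - 1) rfl rfl ?_ ?_ ?_
  · rw [Finset.mem_singleton]
    intro hc
    exact h1 (by linear_combination -hc)
  · exact Finset.mem_singleton_self _
  · rw [Finset.mem_singleton]
    intro hc
    exact h2 (by linear_combination -hc)

/-- A function on `ZMod` which is invariant under the shift. -/
theorem shift_all {α : Type} (g : ZMod (k + 3) → α) (h : ∀ i, g (i + 1) = g i)
    (i j : ZMod (k + 3)) : g i = g j := by
  have key : ∀ c : ℕ, g (j + c) = g j := by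
    intro c
    induction c with
    | zero => rw [Nat.cast_zero, add_zero]
    | succ c ih => rw [Nat.cast_succ, ← add_assoc, h, ih]
  have h1 := key (ZMod.val (i - j))
  rw [ZMod.natCast_zmod_val, add_sub_cancel] at h1
  exact h1

theorem Flz.one (h : Flz D eta Z u) (i j : ZMod (k + 3)) :
    FZ D eta Z u {i} = FZ D eta Z u {j} :=
  shift_all (fun i => FZ D eta Z u {i}) (fun i => by
    have h1 := h.pair i
    have h2 := h.pair' i
    rw [h1] at h2
    exact (neg_injective h2).symm) i j

theorem Flz.tri (hk : 1 ≤ k) (h : Flz D eta Z u) (i : ZMod (k + 3)) :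
    FZ D eta Z u {i, i + 1, i + 2} = FZ D eta Z u {i} := by
  have h1 := one_nz (k := k)
  have h2 := two_nz (k := k)
  have h3 := KO.H40.three_ne hk
  have e1 : ({i, i + 1, i + 2} : Finset (ZMod (k + 3))) = insert (i + 2) {i, i + 1} := by
    ext x
    simp only [Finset.mem_insert, Finset.mem_singleton]
    tauto
  rw [e1, h.r (j := i + 3) (l := i + 1) (by ring) (by ring), h.pair, neg_neg]
  · simp only [Finset.mem_insert, Finset.mem_singleton, not_or]
    exact ⟨fun hc => h2 (by linear_combination hc), fun hc => h1 (by linear_combination hc)⟩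
  · simp only [Finset.mem_insert, Finset.mem_singleton, not_or]
    exact ⟨fun hc => h3 (by linear_combination hc), fun hc => h2 (by linear_combination hc)⟩
  · simp

/-- `{i, i + 2, i + 3}` from the two sides. -/
theorem Flz.gap (hk : 2 ≤ k) (h : Flz D eta Z u) (i : ZMod (k + 3)) :
    FZ D eta Z u {i, i + 2, i + 3} = -FZ D eta Z u {i, i + 2} ∧
      FZ D eta Z u {i, i + 2, i + 3} = -FZ D eta Z u {i, i + 3} := by
  have h1 := one_nz (k := k)
  have h2 := two_nz (k := k)
  have h3 := KO.H40.three_ne (k := k) (by omega)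
  have h4 := four_ne hk
  have e1 : ({i, i + 2, i + 3} : Finset (ZMod (k + 3))) = insert (i + 3) {i, i + 2} := by
    ext x
    simp only [Finset.mem_insert, Finset.mem_singleton]
    tauto
  have e2 : ({i, i + 2, i + 3} : Finset (ZMod (k + 3))) = insert (i + 2) {i, i + 3} := by
    ext x
    simp only [Finset.mem_insert, Finset.mem_singleton]
    tauto
  constructor
  · rw [e1, h.r (j := i + 4) (l := i + 2) (by ring) (by ring)]
    · simp only [Finset.mem_insert, Finset.mem_singleton, not_or]
      exact ⟨fun hc => h3 (by linear_combination hc), fun hc => h1 (by linear_combination hc)⟩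
    · simp only [Finset.mem_insert, Finset.mem_singleton, not_or]
      exact ⟨fun hc => h4 (by linear_combination hc), fun hc => h2 (by linear_combination hc)⟩
    · simp
  · rw [e2, h.l (j := i + 3) (l := i + 1) (by ring) (by ring)]
    · simp only [Finset.mem_insert, Finset.mem_singleton, not_or]
      exact ⟨fun hc => h2 (by linear_combination hc), fun hc => h1 (by linear_combination -hc)⟩
    · simp
    · simp only [Finset.mem_insert, Finset.mem_singleton, not_or]
      exact ⟨fun hc => h1 (by linear_combination hc), fun hc => h2 (by linear_combination -hc)⟩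

/-- `{i, i + 1, i + 3}` from the two sides. -/
theorem Flz.gap' (hk : 2 ≤ k) (h : Flz D eta Z u) (i : ZMod (k + 3)) :
    FZ D eta Z u {i, i + 1, i + 3} = -FZ D eta Z u {i, i + 3} ∧
      FZ D eta Z u {i, i + 1, i + 3} = -FZ D eta Z u {i + 1, i + 3} := by
  have h1 := one_nz (k := k)
  have h2 := two_nz (k := k)
  have h3 := KO.H40.three_ne (k := k) (by omega)
  have h4 := four_ne hk
  have e1 : ({i, i + 1, i + 3} : Finset (ZMod (k + 3))) = insert (i + 1) {i, i + 3} := by
    ext x
    simp only [Finset.mem_insert, Finset.mem_singleton]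
    tauto
  constructor
  · rw [e1, h.r (j := i + 2) (l := i) (by ring) (by ring)]
    · simp only [Finset.mem_insert, Finset.mem_singleton, not_or]
      exact ⟨fun hc => h1 (by linear_combination hc), fun hc => h2 (by linear_combination -hc)⟩
    · simp only [Finset.mem_insert, Finset.mem_singleton, not_or]
      exact ⟨fun hc => h2 (by linear_combination hc), fun hc => h1 (by linear_combination -hc)⟩
    · simp
  · refine h.l (j := i + 1) (l := i - 1) rfl rfl ?_ ?_ ?_
    · simp only [Finset.mem_insert, Finset.mem_singleton, not_or]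
      exact ⟨fun hc => h1 (by linear_combination -hc), fun hc => h3 (by linear_combination -hc)⟩
    · simp
    · simp only [Finset.mem_insert, Finset.mem_singleton, not_or]
      exact ⟨fun hc => h2 (by linear_combination -hc), fun hc => h4 (by linear_combination -hc)⟩

/-- All pairs at distance two or three have the same coefficient. -/
theorem Flz.two (hk : 2 ≤ k) (h : Flz D eta Z u) (i j : ZMod (k + 3)) :
    FZ D eta Z u {i, i + 2} = FZ D eta Z u {j, j + 2} ∧
      FZ D eta Z u {i, i + 3} = FZ D eta Z u {j, j + 2} := by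
  have h1 : ∀ i, FZ D eta Z u {i, i + 3} = FZ D eta Z u {i, i + 2} := by
    intro i
    obtain ⟨a1, a2⟩ := h.gap hk i
    rw [a1] at a2
    exact (neg_injective a2).symm
  have h2 := shift_all (fun i => FZ D eta Z u {i, i + 2}) (fun i => by
    obtain ⟨a1, a2⟩ := h.gap' hk i
    rw [a1] at a2
    have a3 := neg_injective a2
    rw [h1] at a3
    have e1 : i + 1 + 2 = i + 3 := by ring
    change FZ D eta Z u {i + 1, i + 1 + 2} = FZ D eta Z u {i, i + 2}
    rw [e1, a3]) i j
  exact ⟨h2, by rw [h1]; exact h2⟩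

/-- The run `0, ..., m`. -/
theorem Flz.run (h : Flz D eta Z u) (m : ℕ) (hm : m ≤ k + 1) :
    FZ D eta Z u ((Finset.range (m + 1)).image (fun t : ℕ => (t : ZMod (k + 3)))) =
      (-1) ^ m * FZ D eta Z u {0} := by
  classical
  induction m with
  | zero => simp
  | succ m ih =>
    have hni : ∀ c : ℕ, m < c → c < k + 3 →
        ((c : ℕ) : ZMod (k + 3)) ∉ (Finset.range (m + 1)).image (fun t : ℕ => (t : ZMod (k + 3))) := by
      intro c h1 h2 hc
      obtain ⟨t, ht, hte⟩ := Finset.mem_image.mp hc
      rw [Finset.mem_range] at ht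
      have h3 := nz_cast (k := k) (m := c - t) (by omega) (by omega)
      apply h3
      rw [Nat.cast_sub (by omega), hte, sub_self]
    rw [Finset.range_add_one, Finset.image_insert, h.r (j := ((m + 2 : ℕ) : ZMod (k + 3)))
      (l := (m : ZMod (k + 3))) (by push_cast; ring) (by push_cast; ring)
      (hni (m + 1) (by omega) (by omega)) (hni (m + 2) (by omega) (by omega))
      (Finset.mem_image.mpr ⟨m, Finset.self_mem_range_succ m, rfl⟩), ih (by omega), pow_succ]
    ring

/-- The complement of one element. -/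
theorem Flz.compl_one (h : Flz D eta Z u) :
    FZ D eta Z u (Finset.univ \ {-1}) = (-1) ^ (k + 1) * FZ D eta Z u {0} := by
  classical
  rw [← h.run (k + 1) le_rfl]
  congr 1
  ext x
  simp only [Finset.mem_sdiff, Finset.mem_univ, true_and, Finset.mem_singleton, Finset.mem_image,
    Finset.mem_range]
  constructor
  · intro hx
    refine ⟨ZMod.val x, ?_, ZMod.natCast_zmod_val x⟩
    have h1 := ZMod.val_lt x
    have h2 : ZMod.val x ≠ k + 2 := by
      intro h3
      apply hx
      rw [← ZMod.natCast_zmod_val x, h3]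
      have h4 : ((k + 3 : ℕ) : ZMod (k + 3)) = 0 := ZMod.natCast_self _
      push_cast at h4 ⊢
      linear_combination h4
    omega
  · rintro ⟨t, ht, rfl⟩ hc
    have h1 := nz_cast (k := k) (m := t + 1) (by omega) (by omega)
    apply h1
    push_cast
    rw [hc]
    ring

/-- The run `3, ..., m` with `1`. -/
theorem Flz.run2 (h : Flz D eta Z u) (m : ℕ) (hm : m + 1 ≤ k) :
    FZ D eta Z u (insert 1 ((Finset.range (m + 1)).image (fun t : ℕ => ((t + 3 : ℕ) :
      ZMod (k + 3))))) = (-1) ^ m * FZ D eta Z u {1, 3} := by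
  classical
  induction m with
  | zero => simp
  | succ m ih =>
    have hni : ∀ c : ℕ, m + 3 < c → c ≤ k + 3 →
        ((c : ℕ) : ZMod (k + 3)) ∉ insert 1 ((Finset.range (m + 1)).image (fun t : ℕ =>
          ((t + 3 : ℕ) : ZMod (k + 3)))) := by
      intro c h1 h2 hc
      rcases Finset.mem_insert.mp hc with hc | hc
      · have h3 := nz_cast (k := k) (m := c - 1) (by omega) (by omega)
        apply h3
        rw [Nat.cast_sub (by omega), hc, Nat.cast_one, sub_self]
      · obtain ⟨t, ht, hte⟩ := Finset.mem_image.mp hc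
        rw [Finset.mem_range] at ht
        have h3 := nz_cast (k := k) (m := c - (t + 3)) (by omega) (by omega)
        apply h3
        rw [Nat.cast_sub (by omega), hte, sub_self]
    rw [Finset.range_add_one, Finset.image_insert, Finset.insert_comm,
      h.r (j := ((m + 5 : ℕ) : ZMod (k + 3)))
      (l := ((m + 3 : ℕ) : ZMod (k + 3))) (by push_cast; ring) (by push_cast; ring)
      (hni (m + 1 + 3) (by omega) (by omega)) (hni (m + 5) (by omega) (by omega))
      (Finset.mem_insert_of_mem (Finset.mem_image.mpr ⟨m, Finset.self_mem_range_succ m, rfl⟩)),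
      ih (by omega), pow_succ]
    ring

/-- The complement of `{0, 2}`. -/
theorem Flz.compl_two (hk : 2 ≤ k) (h : Flz D eta Z u) :
    FZ D eta Z u (Finset.univ \ {0, 2}) = (-1) ^ (k + 1) * FZ D eta Z u {1, 3} := by
  classical
  have e1 : ((-1 : RO ℤ)) ^ (k + 1) = (-1) ^ (k - 1) := by
    have : k + 1 = (k - 1) + 2 := by omega
    rw [this, pow_add]
    norm_num
  rw [e1, ← h.run2 (k - 1) (by omega)]
  congr 1
  ext x
  simp only [Finset.mem_sdiff, Finset.mem_univ, true_and, Finset.mem_insert,
    Finset.mem_singleton, Finset.mem_image, Finset.mem_range, not_or]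
  constructor
  · rintro ⟨hx0, hx2⟩
    have h1 := ZMod.val_lt x
    have h3 : ZMod.val x ≠ 0 := by
      intro h3
      apply hx0
      rw [← ZMod.natCast_zmod_val x, h3, Nat.cast_zero]
    have h4 : ZMod.val x ≠ 2 := by
      intro h4
      apply hx2
      rw [← ZMod.natCast_zmod_val x, h4]
      norm_num
    by_cases h5 : ZMod.val x = 1
    · left
      rw [← ZMod.natCast_zmod_val x, h5, Nat.cast_one]
    · right
      refine ⟨ZMod.val x - 3, by omega, ?_⟩
      have h6 : ZMod.val x - 3 + 3 = ZMod.val x := by omega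
      rw [h6, ZMod.natCast_zmod_val]
  · rintro (rfl | ⟨t, ht, rfl⟩)
    · refine ⟨one_nz, fun hc => one_nz (k := k) ?_⟩
      linear_combination -hc
    · constructor
      · exact nz_cast (by omega) (by omega)
      · intro hc
        have h1 := nz_cast (k := k) (m := t + 1) (by omega) (by omega)
        apply h1
        push_cast at hc ⊢
        linear_combination hc

end

end Pool.Agent.B5.KO67
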