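import Pool.Agent.Lib.MP_b5021c_nt.IfaceOC
import Pool.Agent.Lib.MP_b5021c_nt.KO.H67.L5a

/-!
# MP_b5021c_nt, all `θ`, K ODD, (O4), cycles of length `≥ 4`: the arcs (row OC_ARC)
-/

set_option linter.unusedSectionVars false

namespace Pool.Agent.B5.KO67

open scoped LaurentPolynomial
open Polynomial
open Pool.Agent.B5.OC

section

variable {P L : Type} [Fintype P] [DecidableEq P] [AddCommGroup L] [Module.Free ℤ L]
  [Module.Finite ℤ L] {phi : L →+ (P → ℤ)} {D : AO ℤ L} {q f E : ℤ[X]} {a : ℝ} {j : ℕ}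
  {eta : L → (RO ℤ)ˣ} {C : Set L} {k : ℕ} {Z : ZMod (k + 3) → L} {mu : ZMod (k + 3) → L →+ ℤ}

theorem Oc.fr2 (H : Oc phi D q f E a j eta C k Z mu) : 2 ≤ Module.finrank ℤ L := by
  have := H.kb.ko.rk
  have := H.kb.ko.j2
  omega

theorem Oc.v0 (H : Oc phi D q f E a j eta C k Z mu) (i : ZMod (k + 3)) :
    D.coeff 0 + (eta (Z i) : RO ℤ) * D.coeff (Z i) ≠ 0 := by
  rw [H.co, H.kb.ko.D0, ← map_add]
  intro h
  have h1 : q + X * f = 0 := Polynomial.toLaurent_injective (by rw [h, map_zero])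
  apply H.cusp 1 (by simp)
  rw [h1, map_zero]

/-- The flips at a free element. -/
theorem Oc.flz (hCnf : CnfS) (H : Oc phi D q f E a j eta C k Z mu) {u : L}
    (hu : Fre phi Z mu u) : Flz D eta Z u :=
  flz_of fun T i hi hn => (hCnf ℤ P L phi D eta k Z mu H.kb.ko.min.fp (Oc.fr2 H) H.cyc
    (Oc.v0 H)).2 u T i hu hi hn

theorem fre_zero : Fre phi Z mu (0 : L) := by
  refine ⟨fun i p => Or.inl ?_, fun i => map_zero _⟩
  rw [map_zero]
  rfl

theorem FZ_one (i : ZMod (k + 3)) (u : L) :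
    FZ D eta Z u {i} = (eta (Z i) : RO ℤ) * D.coeff (Z i + u) := by
  unfold FZ
  rw [Finset.prod_singleton, Finset.sum_singleton]

theorem FZ_two {i l : ZMod (k + 3)} (h : i ≠ l) (u : L) : FZ D eta Z u {i, l} =
    (eta (Z i) : RO ℤ) * (eta (Z l) : RO ℤ) * D.coeff (Z i + Z l + u) := by
  unfold FZ
  rw [Finset.prod_pair h, Finset.sum_pair h]

theorem FZ_three {i l m : ZMod (k + 3)} (h1 : i ≠ l) (h2 : i ≠ m) (h3 : l ≠ m) (u : L) :
    FZ D eta Z u {i, l, m} = (eta (Z i) : RO ℤ) * (eta (Z l) : RO ℤ) * (eta (Z m) : RO ℤ) *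
      D.coeff (Z i + Z l + Z m + u) := by
  have h4 : i ∉ ({l, m} : Finset (ZMod (k + 3))) := by simp [h1, h2]
  unfold FZ
  rw [Finset.prod_insert h4, Finset.sum_insert h4, Finset.prod_pair h3, Finset.sum_pair h3]
  rw [show Z i + (Z l + Z m) = Z i + Z l + Z m by abel]
  ring

theorem FZ_four {i l m n : ZMod (k + 3)} (h1 : i ≠ l) (h2 : i ≠ m) (h3 : i ≠ n) (h4 : l ≠ m)
    (h5 : l ≠ n) (h6 : m ≠ n) (u : L) : FZ D eta Z u {i, l, m, n} =
      (eta (Z i) : RO ℤ) * (eta (Z l) : RO ℤ) * (eta (Z m) : RO ℤ) * (eta (Z n) : RO ℤ) *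
      D.coeff (Z i + Z l + Z m + Z n + u) := by
  have h7 : i ∉ ({l, m, n} : Finset (ZMod (k + 3))) := by simp [h1, h2, h3]
  have h8 : l ∉ ({m, n} : Finset (ZMod (k + 3))) := by simp [h4, h5]
  unfold FZ
  rw [Finset.prod_insert h7, Finset.sum_insert h7, Finset.prod_insert h8, Finset.sum_insert h8,
    Finset.prod_pair h6, Finset.sum_pair h6]
  rw [show Z i + (Z l + (Z m + Z n)) = Z i + Z l + Z m + Z n by abel]
  ring

/-- The full run of four. -/
theorem Flz.four {u : L} (hk : 2 ≤ k) (h : Flz D eta Z u) (i : ZMod (k + 3)) :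
    FZ D eta Z u {i, i + 1, i + 2, i + 3} = -FZ D eta Z u {i} := by
  have h1 := one_nz (k := k)
  have h2 := two_nz (k := k)
  have h3 := KO.H40.three_ne (k := k) (by omega)
  have h4 := four_ne hk
  have e1 : ({i, i + 1, i + 2, i + 3} : Finset (ZMod (k + 3))) =
      insert (i + 3) {i, i + 1, i + 2} := by
    ext x
    simp only [Finset.mem_insert, Finset.mem_singleton]
    tauto
  rw [e1, h.r (j := i + 4) (l := i + 2) (by ring) (by ring), h.tri (by omega)]
  · simp only [Finset.mem_insert, Finset.mem_singleton, not_or]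
    exact ⟨fun hc => h3 (by linear_combination hc), fun hc => h2 (by linear_combination hc),
      fun hc => h1 (by linear_combination hc)⟩
  · simp only [Finset.mem_insert, Finset.mem_singleton, not_or]
    exact ⟨fun hc => h4 (by linear_combination hc), fun hc => h3 (by linear_combination hc),
      fun hc => h2 (by linear_combination hc)⟩
  · simp

theorem ar3_of (hMco : McoS) (hCnf : CnfS) (H : Oc phi D q f E a j eta C k Z mu)
    (i : ZMod (k + 3)) : Ar3 D eta Z (toLaurent (X * f)) ((eta (Z i) : RO ℤ) *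
      (eta (Z (i + 2)) : RO ℤ) * D.coeff (Z i + Z (i + 2))) i := by
  have hD := H.kb.ko.min.fp.dd
  have key : ∀ i, (eta (Z i) : RO ℤ) * (eta (Z (i + 1)) : RO ℤ) * D.coeff (Z i + Z (i + 1)) =
      -toLaurent (X * f) := fun i => by
    rw [(hMco ℤ P L phi D _ _ _ _ hD.inj hD.bin (H.cyc.mtl i)).2.2.1, H.co]
  have h1 := one_nz (k := k)
  have h2 := two_nz (k := k)
  have hf := Oc.flz hCnf H (fre_zero (phi := phi) (Z := Z) (mu := mu))
  refine ⟨key i, ?_, rfl, ?_⟩
  · have := key (i + 1)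
    rwa [show i + 1 + 1 = i + 2 by ring] at this
  · have h3 := hf.tri H.k1 i
    rw [FZ_three (fun hc => h1 (by linear_combination -hc)) (fun hc => h2 (by linear_combination -hc))
      (fun hc => h1 (by linear_combination -hc)), FZ_one, add_zero, add_zero, H.co] at h3
    exact h3

end

/-- (OC_ARC) -/
theorem arcS (hMco : McoS) (hCnf : CnfS) : ArcS := by
  intro P L _ _ _ _ _ phi D q f E a j eta C k Z mu H
  refine ⟨ar3_of hMco hCnf H, fun hk => ?_⟩
  have h1 := one_nz (k := k)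
  have h2 := two_nz (k := k)
  have h3 := KO.H40.three_ne (k := k) (by omega)
  have hf := Oc.flz hCnf H (fre_zero (phi := phi) (Z := Z) (mu := mu))
  refine ⟨FZ D eta Z 0 {0, 0 + 2}, fun i => ?_⟩
  have n01 : ∀ i : ZMod (k + 3), i ≠ i + 1 := fun i hc => h1 (by linear_combination -hc)
  have n02 : ∀ i : ZMod (k + 3), i ≠ i + 2 := fun i hc => h2 (by linear_combination -hc)
  have n03 : ∀ i : ZMod (k + 3), i ≠ i + 3 := fun i hc => h3 (by linear_combination -hc)
  have n12 : ∀ i : ZMod (k + 3), i + 1 ≠ i + 2 := fun i hc => h1 (by linear_combination -hc)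
  have n13 : ∀ i : ZMod (k + 3), i + 1 ≠ i + 3 := fun i hc => h2 (by linear_combination -hc)
  have n23 : ∀ i : ZMod (k + 3), i + 2 ≠ i + 3 := fun i hc => h1 (by linear_combination -hc)
  have key : ∀ i, (eta (Z i) : RO ℤ) * (eta (Z (i + 2)) : RO ℤ) * D.coeff (Z i + Z (i + 2)) =
      FZ D eta Z 0 {0, 0 + 2} := fun i => by
    rw [← (hf.two hk i 0).1, FZ_two (n02 i), add_zero]
  have ar3 : ∀ i, Ar3 D eta Z (toLaurent (X * f)) (FZ D eta Z 0 {0, 0 + 2}) i := fun i => by
    have := ar3_of hMco hCnf H i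
    rwa [key i] at this
  refine ⟨ar3 i, ar3 (i + 1), ?_, ?_, ?_, ?_⟩
  · rw [← (hf.two hk i 0).2, FZ_two (n03 i), add_zero]
  · have h4 := (hf.gap' hk i).1
    rw [(hf.two hk i 0).2, FZ_three (n01 i) (n03 i) (n13 i), add_zero] at h4
    exact h4
  · have h4 := (hf.gap hk i).1
    rw [(hf.two hk i 0).1, FZ_three (n02 i) (n03 i) (n23 i), add_zero] at h4
    exact h4
  · have h4 := hf.four hk i
    rw [FZ_four (n01 i) (n02 i) (n03 i) (n12 i) (n13 i) (n23 i), FZ_one, add_zero, add_zero,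
      H.co] at h4
    exact h4

end Pool.Agent.B5.KO67
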