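import Pool.Agent.Lib.MP_b5021c_nt.KO.H67.Arc
import Pool.Agent.Lib.MP_b5021c_nt.KO.H40.G4
import Pool.Agent.Lib.MP_b5021c_nt.KO.H40.Df4
import Pool.Agent.Lib.MP_b5021c_nt.KO.H40.K4v

/-!
# MP_b5021c_nt, all `θ`, K ODD, (O4), cycles of length `≥ 4`: `V''` is drop free (row OC_VDF)

Length at least five, or length four with a killer.
-/

set_option linter.unusedSectionVars false

namespace Pool.Agent.B5.KO67

open scoped LaurentPolynomial
open Polynomial
open Pool.Agent.B5.OC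
open Pool.Agent.B5.KV67 (TT1 tA_val)

section

variable {P L : Type} [Fintype P] [DecidableEq P] [AddCommGroup L] [Module.Free ℤ L]
  [Module.Finite ℤ L] {phi : L →+ (P → ℤ)} {D : AO ℤ L} {q f E : ℤ[X]} {a : ℝ} {j : ℕ}
  {eta : L → (RO ℤ)ˣ} {C : Set L} {k : ℕ} {Z : ZMod (k + 3) → L} {mu : ZMod (k + 3) → L →+ ℤ}

/-- The class sums of a double closing vanish where `nu` does not. -/
def Frw (phi : L →+ (P → ℤ)) (D : AO ℤ L) (eta : L → (RO ℤ)ˣ) (S S1 : L) (w0 w1 : RO ℤ)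
    (nu : L →+ ℤ) : Prop :=
  ∀ a : L, Out phi S S1 a → nu a ≠ 0 →
    D.coeff a + ((eta S : RO ℤ) * w0) * D.coeff (a + S) +
      ((eta S1 : RO ℤ) * w1) * D.coeff (a + S1) +
      ((eta S : RO ℤ) * w0) * ((eta S1 : RO ℤ) * w1) * D.coeff (a + S + S1) = 0

theorem Frw.symm {S S1 : L} {w0 w1 : RO ℤ} {nu : L →+ ℤ} (h : Frw phi D eta S S1 w0 w1 nu) :
    Frw phi D eta S1 S w1 w0 nu := by
  intro a ha hn
  have h1 := h a (fun p => (ha p).imp id And.symm) hn
  rw [show a + S1 + S = a + S + S1 by abel]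
  linear_combination h1

/-- The class of `∑_(i ∈ T) Z i + u`. -/
theorem cls_gen (dis : ∀ i j, i ≠ j → ∀ p, phi (Z i) p = 0 ∨ phi (Z j) p = 0) {w0 w1 : RO ℤ}
    {nu : L →+ ℤ} (hfree : Frw phi D eta (Z 0) (Z 1) w0 w1 nu) {u : L}
    (hu : ∀ i p, phi u p = 0 ∨ phi (Z i) p = 0) {T : Finset (ZMod (k + 3))}
    (h0 : (0 : ZMod (k + 3)) ∉ T) (h1 : (1 : ZMod (k + 3)) ∉ T)
    (hn : nu (∑ i ∈ T, Z i + u) ≠ 0) :
    FZ D eta Z u T + w0 * FZ D eta Z u (insert 0 T) + w1 * FZ D eta Z u (insert 1 T) +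
      w0 * w1 * FZ D eta Z u (insert 0 (insert 1 T)) = 0 := by
  have hout : Out phi (Z 0) (Z 1) (∑ i ∈ T, Z i + u) := by
    intro p
    have key : ∀ l : ZMod (k + 3), l ∉ T → phi (Z l) p ≠ 0 → phi (∑ i ∈ T, Z i + u) p = 0 := by
      intro l hl hp
      rw [map_add, Pi.add_apply, map_sum, Finset.sum_apply, (hu l p).resolve_right hp, add_zero]
      apply Finset.sum_eq_zero
      intro i hi
      exact (dis i l (by rintro rfl; exact hl hi) p).resolve_right hp
    by_cases c0 : phi (Z 0) p = 0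
    · by_cases c1 : phi (Z 1) p = 0
      · exact Or.inr ⟨c0, c1⟩
      · exact Or.inl (key 1 h1 c1)
    · exact Or.inl (key 0 h0 c0)
  have h2 := hfree _ hout hn
  have h01 : (0 : ZMod (k + 3)) ∉ insert 1 T := by
    rw [Finset.mem_insert, not_or]
    exact ⟨(one_nz (k := k)).symm, h0⟩
  unfold FZ
  rw [Finset.prod_insert h01, Finset.sum_insert h01, Finset.prod_insert h1, Finset.sum_insert h1,
    Finset.prod_insert h0, Finset.sum_insert h0]
  rw [show ∑ i ∈ T, Z i + u + Z 0 + Z 1 = Z 0 + (Z 1 + ∑ i ∈ T, Z i) + u by abel,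
    show ∑ i ∈ T, Z i + u + Z 0 = Z 0 + ∑ i ∈ T, Z i + u by abel,
    show ∑ i ∈ T, Z i + u + Z 1 = Z 1 + ∑ i ∈ T, Z i + u by abel] at h2
  linear_combination (∏ i ∈ T, (eta (Z i) : RO ℤ)) * h2

theorem FZ_empty (u : L) : FZ D eta Z u ∅ = D.coeff u := by
  unfold FZ
  rw [Finset.prod_empty, Finset.sum_empty, one_mul, zero_add]

/-- The class of `u`. -/
theorem cls_0 (dis : ∀ i j, i ≠ j → ∀ p, phi (Z i) p = 0 ∨ phi (Z j) p = 0) {w0 w1 : RO ℤ}
    {nu : L →+ ℤ} (hfree : Frw phi D eta (Z 0) (Z 1) w0 w1 nu) {u : L}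
    (hu : ∀ i p, phi u p = 0 ∨ phi (Z i) p = 0) (h : Flz D eta Z u) (hn : nu u ≠ 0) :
    D.coeff u + (w0 + w1 - w0 * w1) * FZ D eta Z u {0} = 0 := by
  have h1 := cls_gen dis hfree hu (T := ∅) (by simp) (by simp)
    (by rw [Finset.sum_empty, zero_add]; exact hn)
  have h2 := h.pair 0
  rw [zero_add] at h2
  rw [FZ_empty, insert_empty_eq, insert_empty_eq, h2, h.one 1 0] at h1
  linear_combination h1

/-- The class of `Z 2 + u`. -/
theorem cls_2 (hk : 1 ≤ k) (dis : ∀ i j, i ≠ j → ∀ p, phi (Z i) p = 0 ∨ phi (Z j) p = 0)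
    {w0 w1 : RO ℤ} {nu : L →+ ℤ} (hfree : Frw phi D eta (Z 0) (Z 1) w0 w1 nu) {u : L}
    (hu : ∀ i p, phi u p = 0 ∨ phi (Z i) p = 0) (h : Flz D eta Z u) (hn : nu (Z 2 + u) ≠ 0) :
    (1 - w1 + w0 * w1) * FZ D eta Z u {0} + w0 * FZ D eta Z u {0, 2} = 0 := by
  have e1 := one_nz (k := k)
  have e2 := two_nz (k := k)
  have h1 := cls_gen dis hfree hu (T := {2}) (by
      rw [Finset.mem_singleton]
      exact e2.symm) (by
      rw [Finset.mem_singleton]
      intro hc
      exact e1 (by linear_combination -hc)) (by rw [Finset.sum_singleton]; exact hn)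
  have h2 := h.pair' 1
  rw [one_add_one_eq_two] at h2
  have h3 := h.tri hk 0
  rw [zero_add, zero_add] at h3
  rw [h2, h3, h.one 2 0] at h1
  linear_combination h1

/-- The class of `Z (-1) + u`. -/
theorem cls_m (hk : 1 ≤ k) (dis : ∀ i j, i ≠ j → ∀ p, phi (Z i) p = 0 ∨ phi (Z j) p = 0)
    {w0 w1 : RO ℤ} {nu : L →+ ℤ} (hfree : Frw phi D eta (Z 0) (Z 1) w0 w1 nu) {u : L}
    (hu : ∀ i p, phi u p = 0 ∨ phi (Z i) p = 0) (h : Flz D eta Z u)
    (hn : nu (Z (-1) + u) ≠ 0) :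
    (1 - w0 + w0 * w1) * FZ D eta Z u {0} + w1 * FZ D eta Z u {-1, -1 + 2} = 0 := by
  have e1 := one_nz (k := k)
  have e2 := two_nz (k := k)
  have h1 := cls_gen dis hfree hu (T := {-1}) (by
      rw [Finset.mem_singleton]
      intro hc
      exact e1 (by linear_combination hc)) (by
      rw [Finset.mem_singleton]
      intro hc
      exact e2 (by linear_combination hc)) (by rw [Finset.sum_singleton]; exact hn)
  have h2 := h.pair (-1)
  rw [neg_add_cancel] at h2
  have h3 := h.tri hk (-1)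
  rw [neg_add_cancel, show (-1 : ZMod (k + 3)) + 2 = 1 by ring] at h3
  rw [show (-1 : ZMod (k + 3)) + 2 = 1 by ring]
  have s1 : (insert 0 {-1} : Finset (ZMod (k + 3))) = {-1, 0} := Finset.pair_comm _ _
  have s2 : (insert 1 {-1} : Finset (ZMod (k + 3))) = {-1, 1} := Finset.pair_comm _ _
  have s3 : (insert 0 {-1, 1} : Finset (ZMod (k + 3))) = {-1, 0, 1} := Finset.insert_comm _ _ _
  rw [s1, s2, s3, h2, h3, h.one (-1) 0] at h1
  linear_combination h1

/-- The class of `Z 2 + Z (-1) + u`, length at least five. -/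
theorem cls_2m (hk : 2 ≤ k) (dis : ∀ i j, i ≠ j → ∀ p, phi (Z i) p = 0 ∨ phi (Z j) p = 0)
    {w0 w1 : RO ℤ} {nu : L →+ ℤ} (hfree : Frw phi D eta (Z 0) (Z 1) w0 w1 nu) {u : L}
    (hu : ∀ i p, phi u p = 0 ∨ phi (Z i) p = 0) (h : Flz D eta Z u)
    (hn : nu (Z (-1) + Z 2 + u) ≠ 0) :
    (1 - w0 - w1) * FZ D eta Z u {0, 2} - w0 * w1 * FZ D eta Z u {0} = 0 := by
  have e1 := one_nz (k := k)
  have e2 := two_nz (k := k)
  have e3 := KO.H40.three_ne (k := k) (by omega)
  have hne : (-1 : ZMod (k + 3)) ≠ 2 := fun hc => e3 (by linear_combination -hc)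
  have h1 := cls_gen dis hfree hu (T := {-1, 2}) (by
      simp only [Finset.mem_insert, Finset.mem_singleton, not_or]
      exact ⟨fun hc => e1 (by linear_combination hc), e2.symm⟩) (by
      simp only [Finset.mem_insert, Finset.mem_singleton, not_or]
      exact ⟨fun hc => e2 (by linear_combination hc), fun hc => e1 (by linear_combination -hc)⟩)
    (by rw [Finset.sum_pair hne]; exact hn)
  have t1 := h.two hk (-1) 0
  rw [zero_add, show (-1 : ZMod (k + 3)) + 3 = 2 by ring,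
    show (-1 : ZMod (k + 3)) + 2 = 1 by ring] at t1
  have h2 := (h.gap' hk (-1)).1
  have h3 := (h.gap hk (-1)).2
  have h4 := h.four hk (-1)
  rw [neg_add_cancel, show (-1 : ZMod (k + 3)) + 3 = 2 by ring] at h2
  rw [show (-1 : ZMod (k + 3)) + 3 = 2 by ring, show (-1 : ZMod (k + 3)) + 2 = 1 by ring] at h3
  rw [neg_add_cancel, show (-1 : ZMod (k + 3)) + 3 = 2 by ring,
    show (-1 : ZMod (k + 3)) + 2 = 1 by ring] at h4
  have s1 : (insert 0 {-1, 2} : Finset (ZMod (k + 3))) = {-1, 0, 2} := Finset.insert_comm _ _ _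
  have s2 : (insert 1 {-1, 2} : Finset (ZMod (k + 3))) = {-1, 1, 2} := Finset.insert_comm _ _ _
  have s3 : (insert 0 {-1, 1, 2} : Finset (ZMod (k + 3))) = {-1, 0, 1, 2} :=
    Finset.insert_comm _ _ _
  rw [s1, s2, s3, h2, h3, h4, t1.2, h.one (-1) 0] at h1
  linear_combination h1

/-- The run `2, ..., m + 2`. -/
noncomputable def rn2 (k m : ℕ) : Finset (ZMod (k + 3)) :=
  (Finset.range (m + 1)).image (fun t : ℕ => ((t + 2 : ℕ) : ZMod (k + 3)))

theorem rn2_zero (k : ℕ) : rn2 k 0 = {2} := by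
  unfold rn2
  simp

theorem rn2_succ (k m : ℕ) : rn2 k (m + 1) = insert ((m + 3 : ℕ) : ZMod (k + 3)) (rn2 k m) := by
  unfold rn2
  rw [Finset.range_add_one, Finset.image_insert]

theorem rn2_not {m c : ℕ} (h1 : m + 2 < c) (h2 : c ≤ k + 4) :
    ((c : ℕ) : ZMod (k + 3)) ∉ rn2 k m := by
  intro hc
  obtain ⟨t, ht, hte⟩ := Finset.mem_image.mp hc
  rw [Finset.mem_range] at ht
  have h3 := nz_cast (k := k) (m := c - (t + 2)) (by omega) (by omega)
  apply h3
  rw [Nat.cast_sub (by omega), hte, sub_self]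

theorem zero_not_rn2 {m : ℕ} (hm : m + 1 ≤ k) : (0 : ZMod (k + 3)) ∉ rn2 k m := by
  have h1 := rn2_not (k := k) (m := m) (c := k + 3) (by omega) (by omega)
  rwa [ZMod.natCast_self] at h1

theorem one_not_rn2 {m : ℕ} (hm : m + 1 ≤ k) : (1 : ZMod (k + 3)) ∉ rn2 k m := by
  have h1 := rn2_not (k := k) (m := m) (c := k + 4) (by omega) (by omega)
  rwa [show ((k + 4 : ℕ) : ZMod (k + 3)) = 1 by
    rw [show k + 4 = (k + 3) + 1 by ring, Nat.cast_add, ZMod.natCast_self, zero_add,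
      Nat.cast_one]] at h1

theorem Flz.run_b {u : L} (h : Flz D eta Z u) (B : Finset (ZMod (k + 3)))
    (hB : ∀ x ∈ B, x = 0 ∨ x = 1) (m : ℕ) (hm : m + 1 ≤ k) :
    FZ D eta Z u (B ∪ rn2 k m) = (-1) ^ m * FZ D eta Z u (B ∪ {2}) := by
  induction m with
  | zero => rw [rn2_zero, pow_zero, one_mul]
  | succ m ih =>
    have hBn : ∀ c : ℕ, 1 < c → c < k + 3 → ((c : ℕ) : ZMod (k + 3)) ∉ B := by
      intro c h1 h2 hc
      rcases hB _ hc with h3 | h3
      · exact nz_cast (by omega) h2 h3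
      · apply nz_cast (k := k) (m := c - 1) (by omega) (by omega)
        rw [Nat.cast_sub (by omega), h3, Nat.cast_one, sub_self]
    have hmem : ((m + 2 : ℕ) : ZMod (k + 3)) ∈ rn2 k m :=
      Finset.mem_image.mpr ⟨m, Finset.self_mem_range_succ m, rfl⟩
    rw [rn2_succ, Finset.union_insert, h.r (j := ((m + 4 : ℕ) : ZMod (k + 3)))
      (l := ((m + 2 : ℕ) : ZMod (k + 3))) (by push_cast; ring) (by push_cast; ring) ?_ ?_ ?_,
      ih (by omega), pow_succ]
    · ring
    · rw [Finset.mem_union, not_or]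
      exact ⟨hBn _ (by omega) (by omega), rn2_not (by omega) (by omega)⟩
    · rw [Finset.mem_union, not_or]
      exact ⟨hBn _ (by omega) (by omega), rn2_not (by omega) (by omega)⟩
    · exact Finset.mem_union_right _ hmem

/-- The class of the run. -/
theorem cls_run (dis : ∀ i j, i ≠ j → ∀ p, phi (Z i) p = 0 ∨ phi (Z j) p = 0)
    {w0 w1 : RO ℤ} {nu : L →+ ℤ} (hfree : Frw phi D eta (Z 0) (Z 1) w0 w1 nu) {u : L}
    (hu : ∀ i p, phi u p = 0 ∨ phi (Z i) p = 0) (h : Flz D eta Z u) (m : ℕ) (hm : m + 1 ≤ k)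
    (hn : nu (∑ i ∈ rn2 k m, Z i + u) ≠ 0) :
    (1 - w1 + w0 * w1) * FZ D eta Z u {0} + w0 * FZ D eta Z u {0, 2} = 0 := by
  have h1 := cls_gen dis hfree hu (zero_not_rn2 hm) (one_not_rn2 hm) hn
  have r0 := h.run_b ∅ (by simp) m hm
  have r1 := h.run_b {0} (by simp) m hm
  have r2 := h.run_b {1} (by simp) m hm
  have r3 := h.run_b {0, 1} (by simp) m hm
  rw [Finset.empty_union, Finset.empty_union] at r0
  rw [← Finset.insert_eq, ← Finset.insert_eq] at r1 r2
  rw [Finset.insert_union, Finset.insert_union, ← Finset.insert_eq, ← Finset.insert_eq] at r3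
  have h2 := h.pair' 1
  rw [one_add_one_eq_two] at h2
  have h3 := h.tri (by omega) 0
  rw [zero_add, zero_add] at h3
  rw [h2] at r2
  rw [h3] at r3
  rw [r0, r1, r2, r3, h.one 2 0] at h1
  have h4 : ((-1 : RO ℤ) ^ m) * ((1 - w1 + w0 * w1) * FZ D eta Z u {0} +
      w0 * FZ D eta Z u {0, 2}) = 0 := by
    linear_combination h1
  exact (mul_eq_zero.mp h4).resolve_left (pow_ne_zero _ (by norm_num))

/-- If the class of `Z 2` is not killed then `nu` kills all `Z i`, `i ≠ 0, 1, -1`. -/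
theorem run_zero (dis : ∀ i j, i ≠ j → ∀ p, phi (Z i) p = 0 ∨ phi (Z j) p = 0)
    {w0 w1 : RO ℤ} {nu : L →+ ℤ} (hfree : Frw phi D eta (Z 0) (Z 1) w0 w1 nu)
    (h : Flz D eta Z 0)
    (hne : (1 - w1 + w0 * w1) * FZ D eta Z 0 {0} + w0 * FZ D eta Z 0 {0, 2} ≠ 0) :
    ∀ m : ℕ, m + 1 ≤ k → nu (Z ((m + 2 : ℕ) : ZMod (k + 3))) = 0 := by
  have hu : ∀ (i : ZMod (k + 3)) p, phi (0 : L) p = 0 ∨ phi (Z i) p = 0 := fun i p =>
    Or.inl (by rw [map_zero]; rfl)
  have key : ∀ m : ℕ, m + 1 ≤ k → nu (∑ i ∈ rn2 k m, Z i) = 0 := by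
    intro m hm
    by_contra hc
    exact hne (cls_run dis hfree hu h m hm (by rw [add_zero]; exact hc))
  intro m hm
  rcases Nat.eq_zero_or_pos m with rfl | hm0
  · have h1 := key 0 hm
    rw [rn2_zero, Finset.sum_singleton] at h1
    rw [zero_add]
    exact_mod_cast h1
  · obtain ⟨m', rfl⟩ : ∃ m', m = m' + 1 := ⟨m - 1, by omega⟩
    have h1 := key (m' + 1) hm
    rw [rn2_succ, Finset.sum_insert (rn2_not (by omega) (by omega)), map_add,
      key m' (by omega), add_zero] at h1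
    rw [show m' + 1 + 2 = m' + 3 by ring]
    exact h1

theorem idx_cases (i : ZMod (k + 3)) : i = 0 ∨ i = 1 ∨ i = -1 ∨
    ∃ m : ℕ, m + 1 ≤ k ∧ i = ((m + 2 : ℕ) : ZMod (k + 3)) := by
  have h1 := ZMod.val_lt i
  have h2 := ZMod.natCast_zmod_val i
  rcases Nat.lt_or_ge (ZMod.val i) 2 with h3 | h3
  · rcases Nat.lt_or_ge (ZMod.val i) 1 with h4 | h4
    · left
      rw [← h2, show ZMod.val i = 0 by omega, Nat.cast_zero]
    · right; left
      rw [← h2, show ZMod.val i = 1 by omega, Nat.cast_one]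
  · right; right
    rcases Nat.lt_or_ge (ZMod.val i) (k + 2) with h4 | h4
    · right
      exact ⟨ZMod.val i - 2, by omega, by rw [show ZMod.val i - 2 + 2 = ZMod.val i by omega, h2]⟩
    · left
      rw [← h2, show ZMod.val i = k + 2 by omega]
      have h5 : ((k + 3 : ℕ) : ZMod (k + 3)) = 0 := ZMod.natCast_self _
      push_cast at h5 ⊢
      linear_combination h5

/-- A nonzero polynomial does not kill a nonzero coefficient. -/
theorem pol_kill {A : RO ℤ} (hA : A ≠ 0) {p : ℤ[X]} (hp : p.coeff 0 ≠ 0)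
    (h : toLaurent p * A = 0) : False := by
  have h1 := (mul_eq_zero.mp h).resolve_right hA
  have h2 : p = 0 := toLaurent_injective (by rw [h1, map_zero])
  rw [h2, coeff_zero] at hp
  exact hp rfl

theorem T_pow2 : (LaurentPolynomial.T 1 : RO ℤ) ^ 2 = LaurentPolynomial.T 2 := by
  rw [LaurentPolynomial.T_pow]
  norm_num

/-- The classes of `Z 2` and of `Z (-1)` do not both vanish. -/
theorem van_a {A psi : RO ℤ} (hA : A ≠ 0)
    (h1 : (1 - LaurentPolynomial.T 1 + -LaurentPolynomial.T (-1) * LaurentPolynomial.T 1) * A +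
      -LaurentPolynomial.T (-1) * psi = 0)
    (h2 : (1 - -LaurentPolynomial.T (-1) + -LaurentPolynomial.T (-1) * LaurentPolynomial.T 1) * A +
      LaurentPolynomial.T 1 * psi = 0) : False := by
  refine pol_kill hA (p := X ^ 4 - 1) (by simp) ?_
  rw [map_sub, map_pow, map_one, toLaurent_X]
  obtain ⟨t, ht⟩ : ∃ t : RO ℤ, t = LaurentPolynomial.T 1 := ⟨_, rfl⟩
  obtain ⟨s, hs⟩ : ∃ s : RO ℤ, s = LaurentPolynomial.T (-1) := ⟨_, rfl⟩
  have hst : s * t = 1 := by rw [ht, hs]; exact TT1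
  rw [← ht, ← hs] at h1 h2
  rw [← ht]
  linear_combination (-t ^ 3) * h1 - t * h2 + (A - t ^ 3 * A - t ^ 2 * psi - t * A) * hst

/-- The classes of `Z 2` and of `Z (-1) + Z 2` do not both vanish. -/
theorem van_b {A psi : RO ℤ} (hA : A ≠ 0)
    (h1 : (1 - LaurentPolynomial.T 1 + -LaurentPolynomial.T (-1) * LaurentPolynomial.T 1) * A +
      -LaurentPolynomial.T (-1) * psi = 0)
    (h3 : (1 - -LaurentPolynomial.T (-1) - LaurentPolynomial.T 1) * psi -
      -LaurentPolynomial.T (-1) * LaurentPolynomial.T 1 * A = 0) : False := by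
  refine pol_kill hA (p := X ^ 3 - X ^ 2 - X + 1) (by simp [coeff_one]) ?_
  rw [map_add, map_sub, map_sub, map_pow, map_pow, map_one, toLaurent_X]
  obtain ⟨t, ht⟩ : ∃ t : RO ℤ, t = LaurentPolynomial.T 1 := ⟨_, rfl⟩
  obtain ⟨s, hs⟩ : ∃ s : RO ℤ, s = LaurentPolynomial.T (-1) := ⟨_, rfl⟩
  have hst : s * t = 1 := by rw [ht, hs]; exact TT1
  rw [← ht, ← hs] at h1 h3
  rw [← ht]
  linear_combination (1 + s - t) * t * h1 + h3 +
    ((1 + s - t) * (t * A + psi) - A + t * A) * hst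

/-- The classes of `Z (-1)` and of `Z (-1) + Z 2` do not both vanish. -/
theorem van_c {A psi : RO ℤ} (hA : A ≠ 0)
    (h2 : (1 - -LaurentPolynomial.T (-1) + -LaurentPolynomial.T (-1) * LaurentPolynomial.T 1) * A +
      LaurentPolynomial.T 1 * psi = 0)
    (h3 : (1 - -LaurentPolynomial.T (-1) - LaurentPolynomial.T 1) * psi -
      -LaurentPolynomial.T (-1) * LaurentPolynomial.T 1 * A = 0) : False := by
  refine pol_kill hA (p := X ^ 3 + X ^ 2 - X - 1) (by simp [coeff_one]) ?_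
  rw [map_sub, map_sub, map_add, map_pow, map_pow, map_one, toLaurent_X]
  obtain ⟨t, ht⟩ : ∃ t : RO ℤ, t = LaurentPolynomial.T 1 := ⟨_, rfl⟩
  obtain ⟨s, hs⟩ : ∃ s : RO ℤ, s = LaurentPolynomial.T (-1) := ⟨_, rfl⟩
  have hst : s * t = 1 := by rw [ht, hs]; exact TT1
  rw [← ht, ← hs] at h2 h3
  rw [← ht]
  linear_combination t ^ 3 * h3 - t ^ 2 * (1 + s - t) * h2 -
    A * (t ^ 3 - 1 - t * (1 + s - t) + t ^ 2 * (1 + s - t)) * hst

/-- A ray outside the cycle which is disjoint from `Z 0` and `Z 1`: it is disjoint from the cycle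
or `D_(R + Z 1) = 0`. -/
theorem out_dis (hF1 : F1S) (hI : Inj1S) (fp : FP phi D) (h : Cyc phi D eta k Z mu) {R : L}
    (rR : Ray D R) (hne : ∀ i, R ≠ Z i) (d1 : ∀ p, phi R p = 0 ∨ phi (Z 1) p = 0)
    (h1 : D.coeff (R + Z 1) ≠ 0) : ∀ i p, phi R p = 0 ∨ phi (Z i) p = 0 := by
  have hD := fp.dd
  have mR : ∀ i, mu i R = 0 := fun i => h.oth i R rR (hne _) (hne _)
  have rZ : ∀ i, Ray D (Z i) := fun i => (h.mtl i).r0
  have key : ∀ c : ℕ, (∀ p, phi R p = 0 ∨ phi (Z (1 + c)) p = 0) ∧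
      D.coeff (R + Z (1 + c)) ≠ 0 := by
    intro c
    induction c with
    | zero =>
      rw [Nat.cast_zero, add_zero]
      exact ⟨d1, h1⟩
    | succ c ih =>
      obtain ⟨i, hi⟩ : ∃ i : ZMod (k + 3), i = 1 + c := ⟨_, rfl⟩
      rw [← hi] at ih
      rw [show (1 : ZMod (k + 3)) + ((c + 1 : ℕ) : ZMod (k + 3)) = i + 1 by
        rw [hi]; push_cast; ring]
      obtain ⟨ih1, ih2⟩ := ih
      have i1 : i ≠ i + 1 := (KO.H40.idx k i).1
      have m1 : mu (i + 1) (R + Z i) ≠ 0 := by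
        have h2 := h.prv (i + 1)
        rw [add_sub_cancel_right] at h2
        rw [map_add, mR, h2, zero_add]
        norm_num
      have m0 : mu i (R + Z (i + 1)) ≠ 0 := by
        rw [map_add, mR, h.nxt, zero_add]
        norm_num
      have F := hF1 ℤ P L phi D (Z (i + 1)) (eta (Z (i + 1))) hD.inj hD.bin
        (hD.bin _ (rZ _).1) (rZ _).2.1 (R + Z i) (fun hc => m1 ((h.ker _ _).mp hc))
      have F' := hF1 ℤ P L phi D (Z i) (eta (Z i)) hD.inj hD.bin
        (hD.bin _ (rZ _).1) (rZ _).2.1 (R + Z (i + 1)) (fun hc => m0 ((h.ker _ _).mp hc))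
      have dR : ∀ p, phi R p = 0 ∨ phi (Z (i + 1)) p = 0 := by
        refine KO.dsj hI fp (rZ _) rR (hne _).symm ?_
        rintro ⟨⟨p, p1, p2⟩, p', p3, p4⟩
        apply ih2
        refine F.1 ⟨p, ?_, p2⟩ ⟨p', ?_, p4⟩
        · rw [map_add, Pi.add_apply, p1,
            (h.dis i (i + 1) i1 p).resolve_right (by rw [p2]; exact one_ne_zero), add_zero]
        · rw [map_add, Pi.add_apply, p3,
            (h.dis i (i + 1) i1 p').resolve_right (by rw [p4]; exact one_ne_zero), add_zero]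
      refine ⟨dR, fun hc => ih2 ?_⟩
      have F1 := F'.2 (fun p => by
        rw [map_add, Pi.add_apply]
        rcases h.dis i (i + 1) i1 p with h3 | h3
        · exact Or.inr h3
        · rw [h3, add_zero]
          exact ih1 p)
      have F2 := F.2 (fun p => by
        rw [map_add, Pi.add_apply]
        rcases h.dis i (i + 1) i1 p with h3 | h3
        · rw [h3, add_zero]
          exact dR p
        · exact Or.inr h3)
      rw [hc, zero_add] at F1
      have h4 : D.coeff (R + Z (i + 1) + Z i) = 0 :=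
        (mul_eq_zero.mp F1).resolve_left (eta (Z i)).ne_zero
      rw [show R + Z i + Z (i + 1) = R + Z (i + 1) + Z i by abel, h4, mul_zero, add_zero] at F2
      exact F2
  intro i
  have h2 := (key (ZMod.val (i - 1))).1
  rw [ZMod.natCast_zmod_val, add_sub_cancel] at h2
  exact h2

/-- The mirror image. -/
theorem Oc.rev (H : Oc phi D q f E a j eta C k Z mu) :
    Oc phi D q f E a j eta C k (fun i => Z (1 - i)) (fun i => -mu (1 - i)) where
  k1 := H.k1
  kb := H.kb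
  f0 := H.f0
  n := H.n
  eE := H.eE
  E0 := H.E0
  Ez := H.Ez
  cusp := H.cusp
  tp := H.tp
  cyc := KO.H40.cyc_rev H.cyc
  mem := fun i => H.mem (1 - i)
  co := fun i => H.co (1 - i)

theorem A_ne (H : Oc phi D q f E a j eta C k Z mu) : (toLaurent (X * f) : RO ℤ) ≠ 0 := by
  intro h
  have h1 : X * f = 0 := Polynomial.toLaurent_injective (by rw [h, map_zero])
  have h2 := congrArg (fun p : ℤ[X] => p.coeff 1) h1
  simp only [coeff_X_mul, coeff_zero, H.f0] at h2
  exact one_ne_zero h2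

/-- `nu` kills the cycle. -/
theorem cyc_zero (hCnf : CnfS) (H : Oc phi D q f E a j eta C k Z mu) (hk : 2 ≤ k) {nu : L →+ ℤ}
    (hfree : Frw phi D eta (Z 0) (Z 1) (-LaurentPolynomial.T (-1)) (LaurentPolynomial.T 1) nu)
    (n0 : nu (Z 0) = 0) (n1 : nu (Z 1) = 0) : ∀ i, nu (Z i) = 0 := by
  have hfr0 : Fre phi Z mu (0 : L) := fre_zero
  have hfr0' : Fre phi (fun i => Z (1 - i)) (fun i => -mu (1 - i)) (0 : L) := fre_zero
  have hf : Flz D eta Z 0 := Oc.flz hCnf H hfr0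
  have hf' : Flz D eta (fun i => Z (1 - i)) 0 := Oc.flz hCnf (Oc.rev H) hfr0'
  have dis := H.cyc.dis
  have hA := A_ne H
  have e0 : FZ D eta Z 0 {0} = toLaurent (X * f) := by rw [FZ_one, add_zero, H.co]
  have e0' : FZ D eta (fun i => Z (1 - i)) 0 {0} = toLaurent (X * f) := by
    rw [FZ_one, add_zero, (Oc.rev H).co]
  have e1 := one_nz (k := k)
  have e2 := two_nz (k := k)
  have t1 := hf.two hk (-1) 0
  rw [zero_add, show (-1 : ZMod (k + 3)) + 3 = 2 by ring,
    show (-1 : ZMod (k + 3)) + 2 = 1 by ring] at t1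
  -- the pair `0, 2` of the mirror image
  have hm1 : (-1 : ZMod (k + 3)) ≠ 1 := fun hc => e2 (by linear_combination -hc)
  have p' : FZ D eta (fun i => Z (1 - i)) 0 {0, 2} = FZ D eta Z 0 {0, 2} := by
    rw [← t1.1, FZ_two (e2.symm), FZ_two hm1]
    rw [sub_zero, show (1 : ZMod (k + 3)) - 2 = -1 by ring, add_comm (Z 1) (Z (-1))]
    ring
  have hu0 : ∀ (i : ZMod (k + 3)) p, phi (0 : L) p = 0 ∨ phi (Z i) p = 0 := hfr0.1
  obtain ⟨psi, hpsi⟩ : ∃ psi, psi = FZ D eta Z 0 {0, 2} := ⟨_, rfl⟩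
  have c2 := cls_2 (by omega) dis hfree hu0 hf
  have cm := cls_m (by omega) dis hfree hu0 hf
  have c2m := cls_2m hk dis hfree hu0 hf
  rw [add_zero, e0, ← hpsi] at c2
  rw [add_zero, e0, show (-1 : ZMod (k + 3)) + 2 = 1 by ring, t1.1, ← hpsi] at cm
  rw [add_zero, e0, ← hpsi, map_add] at c2m
  have n2 : nu (Z 2) = 0 := by
    by_contra h2
    by_cases hm : nu (Z (-1)) = 0
    · exact van_b hA (c2 h2) (c2m (by rw [hm, zero_add]; exact h2))
    · exact van_a hA (c2 h2) (cm hm)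
  have nm : nu (Z (-1)) = 0 := by
    by_contra hm
    exact van_c hA (cm hm) (c2m (by rw [n2, add_zero]; exact hm))
  by_cases hc : (1 - LaurentPolynomial.T 1 + -LaurentPolynomial.T (-1) *
      LaurentPolynomial.T 1) * toLaurent (X * f) + -LaurentPolynomial.T (-1) * psi = 0
  · have hR : Frw phi D eta ((fun i => Z (1 - i)) 0) ((fun i => Z (1 - i)) 1)
        (LaurentPolynomial.T 1) (-LaurentPolynomial.T (-1)) nu := by
      change Frw phi D eta (Z (1 - 0)) (Z (1 - 1)) _ _ nu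
      rw [sub_zero, sub_self]
      exact hfree.symm
    have key := run_zero (Z := fun i => Z (1 - i)) (Oc.rev H).cyc.dis hR hf' (by
      rw [e0', p', ← hpsi]
      intro hc'
      exact van_a hA hc (by linear_combination hc'))
    intro i
    rcases idx_cases (1 - i) with h | h | h | ⟨m, hm, h⟩
    · rw [show i = 1 by linear_combination -h]
      exact n1
    · rw [show i = 0 by linear_combination -h]
      exact n0
    · rw [show i = 2 by linear_combination -h]
      exact n2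
    · have h5 := key m hm
      change nu (Z (1 - _)) = 0 at h5
      rw [← h, sub_sub_cancel] at h5
      exact h5
  · have key := run_zero dis hfree hf (by rw [e0, ← hpsi]; exact hc)
    intro i
    rcases idx_cases i with h | h | h | ⟨m, hm, h⟩
    · rw [h]; exact n0
    · rw [h]; exact n1
    · rw [h]; exact nm
    · rw [h]; exact key m hm

/-- (VDF) length at least five. -/
theorem vdf5 (hE2 : E2S) (hRk : RkS) (hF1 : F1S) (hI : Inj1S) (hCnf : CnfS)
    (H : Oc phi D q f E a j eta C k Z mu) (hk : 2 ≤ k) : Vfr phi D eta (Z 0) (Z 1) := by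
  intro nu hK
  have fp := H.kb.ko.min.fp
  have hD := fp.dd
  have hfree : Frw phi D eta (Z 0) (Z 1) (-LaurentPolynomial.T (-1)) (LaurentPolynomial.T 1)
      nu := by
    intro b hb hn
    have h1 := hK.free b hb hn
    rw [Units.val_mul, Units.val_mul, tA_val, KO.H40.tC_val] at h1
    exact h1
  have nZ := cyc_zero hCnf H hk hfree hK.s0 hK.s1
  apply KO.H40.nu_zero hE2 hRk hD (Oc.fr2 H)
  intro R rR
  by_contra hn
  have hne : ∀ i, R ≠ Z i := by
    rintro i rfl
    exact hn (nZ i)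
  have r0 : Ray D (Z 0) := (H.cyc.mtl 0).r0
  have r1 : Ray D (Z 1) := (H.cyc.mtl 1).r0
  have hout := KO.H40.kil_out hI fp r0 r1 hK rR hn
  have d0 : ∀ p, phi R p = 0 ∨ phi (Z 0) p = 0 := fun p => (hout p).imp id And.left
  have d1 : ∀ p, phi R p = 0 ∨ phi (Z 1) p = 0 := fun p => (hout p).imp id And.right
  have mR : ∀ i, mu i R = 0 := fun i => H.cyc.oth i R rR (hne _) (hne _)
  by_cases h1 : D.coeff (R + Z 1) = 0
  · -- all other members of the class vanish
    have m01 : (0 : ZMod (k + 3)) ≠ 1 := (one_nz (k := k)).symm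
    have F0 := hF1 ℤ P L phi D (Z 0) (eta (Z 0)) hD.inj hD.bin (hD.bin _ r0.1) r0.2.1 (R + Z 1)
      (fun hc => by
        have h2 := (H.cyc.ker _ _).mp hc
        have h3 := H.cyc.nxt 0
        rw [zero_add] at h3
        rw [map_add, mR, h3] at h2
        norm_num at h2)
    have F1 := hF1 ℤ P L phi D (Z 1) (eta (Z 1)) hD.inj hD.bin (hD.bin _ r1.1) r1.2.1 (R + Z 0)
      (fun hc => by
        have h2 := (H.cyc.ker _ _).mp hc
        have h3 := H.cyc.prv 1
        rw [sub_self] at h3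
        rw [map_add, mR, h3] at h2
        norm_num at h2)
    have G0 := F0.2 (fun p => by
      rw [map_add, Pi.add_apply]
      rcases H.cyc.dis 0 1 m01 p with h3 | h3
      · exact Or.inr h3
      · rw [h3, add_zero]
        exact d0 p)
    have G1 := F1.2 (fun p => by
      rw [map_add, Pi.add_apply]
      rcases H.cyc.dis 0 1 m01 p with h3 | h3
      · rw [h3, add_zero]
        exact d1 p
      · exact Or.inr h3)
    rw [h1, zero_add] at G0
    have h4 : D.coeff (R + Z 1 + Z 0) = 0 :=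
      (mul_eq_zero.mp G0).resolve_left (eta (Z 0)).ne_zero
    rw [show R + Z 0 + Z 1 = R + Z 1 + Z 0 by abel, h4, mul_zero, add_zero] at G1
    have h5 := hfree R hout hn
    rw [h1, G1, show R + Z 0 + Z 1 = R + Z 1 + Z 0 by abel, h4, mul_zero, mul_zero, mul_zero,
      add_zero, add_zero, add_zero] at h5
    exact rR.1 h5
  · have hdis := out_dis hF1 hI fp H.cyc rR hne d1 h1
    have hf : Flz D eta Z R := Oc.flz hCnf H ⟨hdis, mR⟩
    have dis := H.cyc.dis
    have t1 := hf.two hk (-1) 0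
    rw [zero_add, show (-1 : ZMod (k + 3)) + 3 = 2 by ring,
      show (-1 : ZMod (k + 3)) + 2 = 1 by ring] at t1
    have c0 := cls_0 dis hfree hdis hf hn
    have c2 := cls_2 (by omega) dis hfree hdis hf (by rw [map_add, nZ, zero_add]; exact hn)
    have cm := cls_m (by omega) dis hfree hdis hf (by rw [map_add, nZ, zero_add]; exact hn)
    rw [show (-1 : ZMod (k + 3)) + 2 = 1 by ring, t1.1] at cm
    have hg : FZ D eta Z R {0} = 0 := by
      by_contra hg
      exact van_a hg c2 cm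
    rw [hg, mul_zero, add_zero] at c0
    exact rR.1 c0

end

/-- (OC_VDF) -/
theorem vdfS (hRes : ResKS) (hFact : FactS) (hC0 : Coeff0S) (hE1 : E1S) (hMV : MVS)
    (hM1 : M1S) (hC4 : C4S) (hE2 : E2S) (hThin : ThinS) (hF1 : F1S) (hF3 : F3S) (hMin : MinS)
    (hB5a : B5aS) (hVco : VcoS) (hWWf : WWfS) (hU : UnitAS) (hI : Inj1S) (hMco : McoS)
    (hRk : RkS) (hCnf : CnfS) : VdfS := by
  intro P L _ _ _ _ _ phi D q f E a j eta C k Z mu H hor
  by_cases hk : 2 ≤ k
  · exact vdf5 hE2 hRk hF1 hI hCnf H hk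
  · obtain ⟨T, e, rT, hTZ, hV0, i, hi⟩ := hor.resolve_left hk
    have hk1 : k = 1 := by
      have := H.k1
      omega
    subst hk1
    obtain ⟨nu', K⟩ := KO.H40.k4f_of hRes hFact hC0 hE1 hMV hM1 hC4 hE2 hThin hF1 hF3 hMin hB5a
      hVco hWWf hU hI hMco H.kb.ko.min (Oc.fr2 H) H.cyc rT hTZ hV0 hi
    intro nu hK
    exact KO.H40.vdf4 hE2 hRk hF1 hI H.kb.ko.min.fp (Oc.fr2 H) H.cyc K nu hK

end Pool.Agent.B5.KO67
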