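import Mathlib

/-!
# MP_b5021c_nt, all `θ`, K ODD, (O1-iv): row (ALG)
-/

namespace Pool.Agent.B5.OOne

open Polynomial

/-- Taylor coefficients at `-1`. -/
noncomputable def tj (i : ℕ) (p : ℤ[X]) : ℤ := (taylor (-1) p).coeff i

theorem tj_add (i : ℕ) (p q : ℤ[X]) : tj i (p + q) = tj i p + tj i q := by
  unfold tj
  rw [map_add, coeff_add]

theorem tj_sub (i : ℕ) (p q : ℤ[X]) : tj i (p - q) = tj i p - tj i q := by
  unfold tj
  rw [map_sub, coeff_sub]

theorem tj_neg (i : ℕ) (p : ℤ[X]) : tj i (-p) = -tj i p := by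
  unfold tj
  rw [map_neg, coeff_neg]

theorem tj0_mul (p q : ℤ[X]) : tj 0 (p * q) = tj 0 p * tj 0 q := by
  unfold tj
  rw [taylor_mul, mul_coeff_zero]

theorem tj1_mul (p q : ℤ[X]) : tj 1 (p * q) = tj 0 p * tj 1 q + tj 1 p * tj 0 q := by
  unfold tj
  rw [taylor_mul, coeff_mul, Finset.Nat.antidiagonal_succ]
  simp

theorem tj2_mul (p q : ℤ[X]) :
    tj 2 (p * q) = tj 0 p * tj 2 q + tj 1 p * tj 1 q + tj 2 p * tj 0 q := by
  unfold tj
  have h : (Finset.HasAntidiagonal.antidiagonal 2 : Finset (ℕ × ℕ)) =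
      {(0, 2), (1, 1), (2, 0)} := rfl
  rw [taylor_mul, coeff_mul, h, Finset.sum_insert (by decide), Finset.sum_insert (by decide),
    Finset.sum_singleton]
  ring

theorem tj_C0 (a : ℤ) : tj 0 (C a) = a := by
  unfold tj
  simp

theorem tj_C1 (a : ℤ) : tj 1 (C a) = 0 := by
  unfold tj
  rw [taylor_C, coeff_C]
  simp

theorem tj_C2 (a : ℤ) : tj 2 (C a) = 0 := by
  unfold tj
  rw [taylor_C, coeff_C]
  simp

theorem tj_X0 (n : ℕ) : tj 0 (X ^ n) = (-1) ^ n := by
  unfold tj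
  rw [taylor_coeff_zero]
  simp

theorem tj_X : tj 0 (X : ℤ[X]) = -1 ∧ tj 1 (X : ℤ[X]) = 1 ∧ tj 2 (X : ℤ[X]) = 0 := by
  unfold tj
  rw [taylor_X]
  simp [coeff_X, coeff_one]

theorem tj_X1 (n : ℕ) : tj 1 (X ^ n) = -n * (-1) ^ n := by
  induction n with
  | zero => simpa using tj_C1 1
  | succ n ih =>
    rw [pow_succ, tj1_mul, ih, tj_X0, tj_X.1, tj_X.2.1]
    push_cast
    ring

theorem tj_X2 (n : ℕ) : 2 * tj 2 (X ^ n) = n * (n - 1) * (-1) ^ n := by
  induction n with
  | zero => simpa using tj_C2 1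
  | succ n ih =>
    rw [pow_succ, tj2_mul, tj_X1, tj_X0, tj_X.1, tj_X.2.1, tj_X.2.2]
    push_cast
    linear_combination -ih

/-- `|1 + c j w| = |j + c w|` for `c = ± 1`, `|w| = 1`. -/
theorem refl_norm {c j : ℤ} (hc : c ^ 2 = 1) {w : ℂ} (hw : ‖w‖ = 1) :
    ‖1 + ((c * j : ℤ) : ℂ) * w‖ = ‖(j : ℂ) + (c : ℂ) * w‖ := by
  have h1 : w.re * w.re + w.im * w.im = 1 := by
    rw [← Complex.normSq_apply, Complex.normSq_eq_norm_sq, hw, one_pow]
  have hc' : (c : ℝ) ^ 2 = 1 := by exact_mod_cast hc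
  have h2 : ‖1 + ((c * j : ℤ) : ℂ) * w‖ ^ 2 = ‖(j : ℂ) + (c : ℂ) * w‖ ^ 2 := by
    rw [Complex.sq_norm, Complex.sq_norm, Complex.normSq_apply, Complex.normSq_apply]
    simp only [Complex.add_re, Complex.add_im, Complex.mul_re, Complex.mul_im, Complex.one_re,
      Complex.one_im, Complex.intCast_re, Complex.intCast_im, zero_mul, sub_zero, add_zero,
      zero_add, Int.cast_mul, mul_zero, zero_mul]
    have e : (w.im) ^ 2 = 1 - w.re ^ 2 := by nlinarith
    have e' : w.im * w.im = 1 - w.re * w.re := by linarith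
    have e3 : (c : ℝ) * c = 1 := by nlinarith
    have e4 : (1 + (c : ℝ) * j * w.re) * (1 + c * j * w.re) + c * j * w.im * (c * j * w.im) =
        1 + 2 * (c * j * w.re) + (c * c) * (j * j) * (w.re * w.re + w.im * w.im) := by ring
    have e5 : ((j : ℝ) + c * w.re) * (j + c * w.re) + c * w.im * (c * w.im) =
        j * j + 2 * (c * j * w.re) + (c * c) * (w.re * w.re + w.im * w.im) := by ring
    rw [e4, e5, h1, e3]
    ring
  have := (sq_eq_sq₀ (norm_nonneg _) (norm_nonneg _)).mp h2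
  exact this

/-- Row (ALG). -/
theorem alg {j t gam : ℤ} {k m : ℕ} {f : ℤ[X]} (hk : 1 ≤ k) (hm : 1 ≤ m)
    (h : X ^ (m + 1) * (C j + C t * X ^ k) - (1 + C gam * X ^ k) =
      -((1 + X) * (∑ i ∈ Finset.range m, X ^ i) ^ 2 *
        ((1 + X) ^ 2 * f - X * (C j + C t * X ^ k))))
    (hne : ∃ z : ℂ, ‖z‖ = 1 ∧ ‖1 + (gam : ℂ) * z ^ k‖ ≠ ‖(j : ℂ) + (t : ℂ) * z ^ k‖) :
    False := by
  -- multiply by `(1 - X)^2`
  have hg : (∑ i ∈ Finset.range m, (X : ℤ[X]) ^ i) * (1 - X) = 1 - X ^ m := by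
    have := geom_sum_mul_neg (X : ℤ[X]) m
    exact this
  have h1 : (X ^ (m + 1) * (C j + C t * X ^ k) - (1 + C gam * X ^ k)) * (1 - X) ^ 2 =
      -((1 + X) * (1 - X ^ m) ^ 2 * ((1 + X) ^ 2 * f - X * (C j + C t * X ^ k))) := by
    rw [h, ← hg]
    ring
  have h2 : (X ^ (m + 1) * (C j + C t * X ^ k) - (1 + C gam * X ^ k)) * ((1 - X) * (1 - X)) =
      -((1 + X) * ((1 - X ^ m) * (1 - X ^ m)) *
        ((1 + X) * (1 + X) * f - X * (C j + C t * X ^ k))) := by
    linear_combination h1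
  have hu : ((-1 : ℤ) ^ m) ^ 2 = 1 := by
    rw [← pow_mul, mul_comm, pow_mul]; simp
  have hv : ((-1 : ℤ) ^ k) ^ 2 = 1 := by
    rw [← pow_mul, mul_comm, pow_mul]; simp
  have o0 : tj 0 (1 : ℤ[X]) = 1 := by simpa using tj_C0 1
  have o1 : tj 1 (1 : ℤ[X]) = 0 := by simpa using tj_C1 1
  have o2 : tj 2 (1 : ℤ[X]) = 0 := by simpa using tj_C2 1
  obtain ⟨x0, x1, x2⟩ := tj_X
  have c0 := congrArg (tj 0) h2
  have c1 := congrArg (tj 1) h2
  have c2 := congrArg (tj 2) h2
  have a2 := tj_X2 (m + 1)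
  have b2 := tj_X2 k
  have d2 := tj_X2 m
  simp only [tj0_mul, tj1_mul, tj2_mul, tj_add, tj_sub, tj_neg, tj_C0, tj_C1, tj_C2, tj_X0, tj_X1,
    o0, o1, o2, x0, x1, x2] at c0 c1 c2
  obtain ⟨z, hz, hne⟩ := hne
  have hzk : ‖z ^ k‖ = 1 := by rw [norm_pow, hz, one_pow]
  generalize hv' : (-1 : ℤ) ^ k = v at *
  generalize tj 2 (X ^ k) = r2 at *
  generalize tj 2 (X ^ (m + 1)) = r1 at *
  generalize tj 0 f = f0 at *
  generalize tj 1 f = f1 at *
  have hK : (1 : ℤ) ≤ k := by exact_mod_cast hk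
  have hM : (1 : ℤ) ≤ m := by exact_mod_cast hm
  rw [pow_succ] at c0 c1 c2 a2
  push_cast at c0 c1 c2 a2
  generalize (k : ℤ) = K at *
  rcases neg_one_pow_eq_or ℤ m with hu' | hu'
  · -- `m` even
    rw [hu'] at c0 c1 c2 a2
    generalize (m : ℤ) = M at *
    have e1 : 4 * ((M + 1) * (j + t * v) - K * (j + 1)) = 0 := by
      linear_combination c1 + (1 + K) * c0
    have e2 : 8 * (K * ((j + 1) * (M + 1 - K) + 2 * (M + 1) * (t * v))) = 0 := by
      linear_combination -4 * c2 + 8 * (j + t * v) * a2 - 8 * (t + gam) * b2 +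
        (1 + 2 * K + 2 * K ^ 2) * c0 - (2 * M + 4) * e1
    have e3 : (j + 1) * (M + 1 - K) + 2 * (M + 1) * (t * v) = 0 := by
      have h3 : K * ((j + 1) * (M + 1 - K) + 2 * (M + 1) * (t * v)) = 0 := by omega
      rcases mul_eq_zero.mp h3 with h4 | h4
      · omega
      · exact h4
    have e4 : (M + 1) * (1 + t * v) = 0 := by nlinarith
    have e5 : t * v = -1 := by
      rcases mul_eq_zero.mp e4 with h4 | h4
      · omega
      · omega
    have e6 : gam * v = -j := by linarith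
    have ht : t = -v := by
      have : t * v * v = -1 * v := by rw [e5]
      linear_combination this - t * hv
    have hg' : gam = -v * j := by
      have : gam * v * v = -j * v := by rw [e6]
      linear_combination this - gam * hv
    apply hne
    rw [ht, hg']
    exact refl_norm (by rw [neg_sq]; exact hv) hzk
  · rw [hu'] at c0 c1 c2 a2
    generalize (m : ℤ) = M at *
    have e1 : 4 * (K * (j - 1) - M * (j + t * v)) = 0 := by
      linear_combination c1 + (1 + K) * c0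
    have e2 : 8 * (K * ((j - 1) * (M - K) + 2 * M * (t * v))) = 0 := by
      linear_combination 4 * c2 - 8 * (j + t * v) * a2 - 8 * (t - gam) * b2 -
        (1 + 2 * K + 2 * K ^ 2) * c0 + (2 * M + 2) * e1
    have e3 : (j - 1) * (M - K) + 2 * M * (t * v) = 0 := by
      have h3 : K * ((j - 1) * (M - K) + 2 * M * (t * v)) = 0 := by omega
      rcases mul_eq_zero.mp h3 with h4 | h4
      · omega
      · exact h4
    have e4 : M * (t * v - 1) = 0 := by nlinarith
    have e5 : t * v = 1 := by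
      rcases mul_eq_zero.mp e4 with h4 | h4
      · omega
      · omega
    have e6 : gam * v = j := by linarith
    have ht : t = v := by
      have : t * v * v = 1 * v := by rw [e5]
      linear_combination this - t * hv
    have hg' : gam = v * j := by
      have : gam * v * v = j * v := by rw [e6]
      linear_combination this - gam * hv
    apply hne
    rw [ht, hg']
    exact refl_norm hv hzk

end Pool.Agent.B5.OOne
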