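import Pool.Agent.Lib.MP_b5021c_nt.KO.H67.Sec
import Pool.Agent.Lib.MP_b5021c_nt.KO.H67.Tri

/-!
# MP_b5021c_nt, all `θ`, K ODD, row KO_O3: drop two at the B-load is impossible
-/

namespace Pool.Agent.B5.KO67

open scoped LaurentPolynomial
open Polynomial
open Pool.Agent.B5.KE
open Pool.Agent.B5.Nr.Sch
open Pool.Agent.B5.Nr (TrezS)
open Pool.Agent.B5.H61 (CuspS)
open Pool.Agent.B5.H40 (uT)

theorem uT1_val : ((uT (1 : ℤˣ) 1 : (RO ℤ)ˣ) : RO ℤ) = LaurentPolynomial.T 1 := by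
  rw [H40.uT_val, Units.val_one, map_one, one_mul]

theorem uT1_ne : (uT (1 : ℤˣ) 1 : (RO ℤ)ˣ) ≠ 1 := by
  intro h
  have h1 : ((uT (1 : ℤˣ) 1 : (RO ℤ)ˣ) : RO ℤ) = 1 := by rw [h, Units.val_one]
  rw [uT1_val] at h1
  have h2 := congrArg (fun p : RO ℤ => p.coeff 0) h1
  have h3 : (LaurentPolynomial.T 1 : RO ℤ).coeff 0 = 0 := by
    rw [LaurentPolynomial.T_apply, if_neg (by norm_num)]
  have h4 : (1 : RO ℤ).coeff 0 = 1 := by
    rw [← LaurentPolynomial.T_zero, LaurentPolynomial.T_apply, if_pos rfl]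
  simp only [h3, h4] at h2
  norm_num at h2

/-- The double closing `(-1/z, z)` of a mutual pair of loads B with `n = j + 1`, of full rank, with
a third ray with unit lowest coefficient: one factor of class `V(j)`. -/
theorem double (hMm : MmulS) (hMV : MVS) (hE1 : E1S) (hE2 : E2S) (hPc : PCZS) (hClp : ClpS)
    (hC0 : Coeff0S) (hG0 : G0S) (hI1 : Inj1S) (hRk : RkS) (hFD : FDS) (hWW : WWfS)
    (hRF : RayFacS) (hMug : MugS) (hMco : McoS) (hTr : TrezS) (hTsa : TsaS)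
    (hO5 : H67.O5aS) {P L : Type} [Fintype P] [DecidableEq P] [AddCommGroup L]
    [Module.Free ℤ L] [Module.Finite ℤ L] {phi : L →+ (P → ℤ)} {D : AO ℤ L} {q f : ℤ[X]} {a : ℝ}
    {j g : ℕ} {eta : L → (RO ℤ)ˣ} {C : Set L} (W : KcB phi D q f a j eta g C)
    (hu : f.coeff 0 = 1) (hn : f.coeff 1 - q.coeff 1 = j + 1) {S S1 : L} (hS : S ∈ C)
    {e e1 : (RO ℤ)ˣ} (he : eta S = ld e 1) (hR : RN D S q f e a)
    (hM : Mut D S S1 (ld e 1) e1) {E : ℤ[X]} (hE : f - q = X * E)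
    (hEz : ∀ z : ℂ, ‖z‖ < 1 → aeval z E ≠ 0) (hEm : (aeval (-1 : ℂ) E : ℂ) ≠ 0)
    (Y : Dp phi S S1)
    (hfull : rk (supp (dc Y (ld e 1 * kap) (e1 * uT (1 : ℤˣ) 1) D)) + 2 = Module.finrank ℤ L)
    (x : Ker Y.k1) (hx : Ray (dc Y (ld e 1 * kap) (e1 * uT (1 : ℤˣ) 1) D) x) {p : ℤ[X]}
    (hp : p.coeff 0 = 1) {e2 : (RO ℤ)ˣ}
    (hxp : (e2 : RO ℤ) * (dc Y (ld e 1 * kap) (e1 * uT (1 : ℤˣ) 1) D).coeff x = toLaurent p) :
    ∃ (c : RO ℤ) (H : AO ℤ (Ker Y.k1)) (psi : Ker Y.k1 →+ (P → ℤ)), ClassV 1 c ∧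
      dc Y (ld e 1 * kap) (e1 * uT (1 : ℤˣ) 1) D = cst c * H ∧ DD psi H ∧
      ClassV (j : ℝ) (H.coeff 0) ∧ Ray H x ∧
      c * H.coeff 0 = -toLaurent (X * (E - (1 + X) * f)) ∧
      (e2 : RO ℤ) * (c * H.coeff x) = toLaurent p ∧ Module.finrank ℤ (Ker Y.k1) + 1 = 2 * j := by
  have fp := W.ko.min.fp
  have hD := fp.dd
  have hrk := W.ko.rk
  have hj := W.ko.j2
  obtain ⟨ha0, ha2, hθ2, hθ⟩ := ko_num W.ko
  obtain ⟨i0, h0, T, eT, i1, k1, hk, h1⟩ := Y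
  have hfst : ∃ nu : ℕ, 2 ≤ nu ∧ (nu : ℤ) = f.coeff 1 - q.coeff 1 ∧
      ∃ (c : RO ℤ) (G : AO ℤ (Ker (co phi i0))), ClassV 1 c ∧
        cl (co phi i0) S h0 (-e) D = cst c * G ∧ DD (phO phi S i0) G ∧
        ClassV nu (G.coeff 0) ∧ Ray G T ∧ c * G.coeff 0 = toLaurent (q - f) ∧
        (∃ w : (RO ℤ)ˣ, (w : RO ℤ) * (c * G.coeff T) = toLaurent ((1 + X) * f)) ∧
        ImS (phO phi S i0) T ∧ co (phO phi S i0) i1 = k1 := first hMm hMV
    hE1 hClp hC0 hG0 hI1 hRk hFD hWW hRF hMug hMco hTr hTsa W hu hS he hR hM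
    ⟨i0, h0, T, eT, i1, k1, hk, h1⟩
  obtain ⟨nu, hnu2, hnu, c, G, hc, hcl, hDG, hVG, hrayG, hco0, ⟨w, hw⟩, hIm, hi1⟩ := hfst
  have hnuj : nu = j + 1 := by omega
  rw [hnuj] at hVG
  subst hi1
  have hE0 : E.coeff 0 = j + 1 := by
    have h3 := congrArg (fun r : ℤ[X] => r.coeff 1) hE
    simp only [coeff_sub, coeff_X_mul] at h3
    rw [← h3, hn]
  -- the double closing
  have hload : ld e 1 * kap = -e := by rw [mul_comm]; exact kap_ld e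
  have hdc : dc (⟨i0, h0, T, eT, i1, co (phO phi S i0) i1, hk, h1⟩ : Dp phi S S1)
      (ld e 1 * kap) (e1 * uT (1 : ℤˣ) 1) D =
      cst c * cl (co (phO phi S i0) i1) T h1 (e1 * uT (1 : ℤˣ) 1) G := by
    unfold dc
    dsimp only
    rw [hload, hcl, map_mul, H71.cl_cst]
  rw [hdc] at hfull hx hxp
  have hcne : c ≠ 0 := ((hMV ℤ).1 _ _ hc).1
  have hsup : supp (cst c * cl (co (phO phi S i0) i1) T h1 (e1 * uT (1 : ℤˣ) 1) G) =
      supp (cl (co (phO phi S i0) i1) T h1 (e1 * uT (1 : ℤˣ) 1) G) := H56.supp_cst_mul hcne _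
  rw [hsup] at hfull
  have hx' := ray_congr hsup hx
  have hker := finrank_ker hRk h0
  have hker1 := finrank_ker hRk h1
  rw [H71.cst_mul_coeff] at hxp
  -- the coefficient of `T`
  have hcT : c * (((e1 * uT (1 : ℤˣ) 1 : (RO ℤ)ˣ) : RO ℤ) * G.coeff T) =
      toLaurent (X * ((1 + X) * f)) := by
    obtain ⟨-, hA1, hA2, -⟩ := hMco ℤ P L phi D S S1 (ld e 1) e1 hD.inj hD.bin hM
    have hX : ((ld e 1 : (RO ℤ)ˣ) : RO ℤ) * D.coeff S = toLaurent (X * f) := by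
      have h3 := ld_S hR 1
      rw [pow_one] at h3
      exact h3
    have hcoT : (e1 : RO ℤ) * (c * G.coeff T) = toLaurent ((1 + X) * f) := by
      have hcl' : cl (co phi i0) S h0 (kap * ld e 1) D = cst c * G := by
        rw [kap_ld]
        exact hcl
      have hVne : D.coeff 0 + ((kap * ld e 1 : (RO ℤ)ˣ) : RO ℤ) * D.coeff S ≠ 0 := by
        rw [kap_ld]
        exact V0_ne_A hR
      obtain ⟨-, -, hco1, -, -, -, -⟩ := hMug ℤ P L phi D S S1 (ld e 1) e1 kap i0 h0 T c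
        G fp hM.r0 hM.r1 hM.m0 hM.m1 eT kap_ne hVne hcl'
      rw [hco1, hX, kap_val, sub_neg_eq_add, map_mul, map_mul, map_add, map_one, toLaurent_X]
      have h2 : (LaurentPolynomial.T (-1) : RO ℤ) * LaurentPolynomial.T 1 = 1 := by
        rw [← LaurentPolynomial.T_add, neg_add_cancel, LaurentPolynomial.T_zero]
      linear_combination (toLaurent f : RO ℤ) * h2
    rw [Units.val_mul, uT1_val, map_mul, toLaurent_X]
    linear_combination (LaurentPolynomial.T 1 : RO ℤ) * hcoT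
  obtain ⟨c', H, hc', hclH, hDH, hVH⟩ := second hFD hG0 hC0 hE1 hE2 hMV hMm hRk hWW hRF hO5 h1
    hR.loc hu hj ha2.le W.ko.lt hDG (by omega) hVG hc hrayG hIm hE hE0 hEz hco0 hcT hEm
    (by omega) x hx' (g := p) (by rw [hp, abs_one]) hxp
  have hcc : ClassV 1 (c * c') := by
    obtain ⟨k, r, hcp, hp1, -, hpz⟩ := H78.classV_nf hc
    obtain ⟨k', r', hcp', hp1', -, hpz'⟩ := H78.classV_nf hc'
    refine H66.classV_of (a := k + k') (x' := r * r') le_rfl ?_ ?_ ?_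
    · rw [hcp, hcp', LaurentPolynomial.T_add, map_mul]
      ring
    · rw [mul_coeff_zero, Int.cast_mul, abs_mul, hp1, hp1', mul_one]
    · intro z hz
      rw [Polynomial.map_mul, eval_mul]
      exact mul_ne_zero (hpz z hz) (hpz' z hz)
  have hc'ne : c' ≠ 0 := ((hMV ℤ).1 _ _ hc').1
  rw [hclH, H71.cst_mul_coeff] at hxp
  have hV0 : c * c' * H.coeff 0 = -toLaurent (X * (E - (1 + X) * f)) := by
    have h3 : (cl (co (phO phi S i0) i1) T h1 (e1 * uT (1 : ℤˣ) 1) G).coeff 0 =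
        G.coeff 0 + ((e1 * uT (1 : ℤˣ) 1 : (RO ℤ)ˣ) : RO ℤ) * G.coeff T := by
      have h4 := H47.cl_coeff_bin (co (phO phi S i0) i1) T h1 (e1 * uT (1 : ℤˣ) 1) G
        (fun b hb => hDG.bin b hb i1) 0
      rw [h4]
      have h5 : ((0 : Ker (co (phO phi S i0) i1)) : Ker (co phi i0)) = 0 := rfl
      rw [h5, zero_add]
    rw [hclH, H71.cst_mul_coeff] at h3
    have h4 : c * c' * H.coeff 0 = c * G.coeff 0 +
        c * (((e1 * uT (1 : ℤˣ) 1 : (RO ℤ)ˣ) : RO ℤ) * G.coeff T) := by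
      rw [mul_assoc, h3]
      ring
    rw [h4, hco0, hcT, ← map_add, ← map_neg]
    congr 1
    have h5 : q = f - X * E := by rw [← hE]; ring
    rw [h5]
    ring
  refine ⟨c * c', H, phO (phO phi S i0) T i1, hcc, ?_, hDH, hVH, ?_, hV0, ?_, ?_⟩
  · rw [hdc, hclH, H71.cst_mul, mul_assoc]
  · refine ray_congr ?_ hx'
    rw [hclH, H56.supp_cst_mul hc'ne]
  · rw [mul_assoc]
    exact hxp
  · change Module.finrank ℤ (Ker (co (phO phi S i0) i1)) + 1 = 2 * j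
    omega

/-- Row KO_O3. -/
theorem ob3 (hU : UnitRS) (hM1 : M1S) (hMm : MmulS) (hMV : MVS) (hE1 : E1S) (hE2 : E2S)
    (hPc : PCZS) (hClp : ClpS) (hC0 : Coeff0S) (hG0 : G0S) (hI1 : Inj1S) (hI2 : Inj2S)
    (hRk : RkS) (hFD : FDS) (hWW : WWfS) (hRF : RayFacS) (hMug : MugS) (hMco : McoS)
    (hCu : CuspS) (hSf : SfzS) (hTr : TrezS) (hTsa : TsaS) (hI3 : Io3S) (hMfc : MfcS)
    (hCa : Ca5S) (hGlc : GlcS) (hFou : FouS) (hDti : DtiS) (hT2f : T2fS) (hD2 : D2S)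
    (hF1 : F1S) (hF3 : F3S) (hSw : SewS) (hO5 : H67.O5aS) : Ob3S := by
  intro P L _ _ _ _ _ phi D q f a j eta C W hu hn
  obtain ⟨S, hS⟩ := W.kc.ne
  obtain ⟨S1, hS1, S2, hS2, hM01, hM02, hs2, hs1⟩ := W.kc.two le_rfl S hS
  obtain ⟨e, he, hR⟩ := W.rn S hS
  have fp := W.ko.min.fp
  have hD := fp.dd
  have hrk := W.ko.rk
  have hj := W.ko.j2
  have h2 : 2 ≤ Module.finrank ℤ L := by omega
  obtain ⟨-, hzero, -⟩ := upper hMV hMm hE1 hPc hClp hFD hSf hI3 hMfc hCa hGlc hFou hDti W hu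
    hS he hR
  have hM12 : Mut D S1 S2 (eta S1) (eta S2) := by
    refine (W.kc.mtl S1 hS1 S2 hM02.r1 ?_).2
    intro h3
    apply hs2
    refine ⟨1, one_ne_zero, ?_⟩
    rw [one_smul]
    exact Submodule.mem_sup_left h3
  rw [he] at hM01 hM02
  obtain ⟨E, hE, hE0, hEpos, hEz⟩ := typa hR.loc hu hR.ne
  rw [hn] at hE0
  have hcusp : ∀ z : ℂ, ‖z‖ = 1 → (aeval z (q + X * f) : ℂ) ≠ 0 := fun z hz =>
    cusp_m1 hCu hD h2 hR hM01 hzero hz
  have hEm : (aeval (-1 : ℂ) E : ℂ) ≠ 0 := by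
    intro h3
    apply hcusp (-1) (by simp)
    have h5 := congrArg (fun p : ℤ[X] => (aeval (-1 : ℂ) p : ℂ)) hE
    simp only [map_sub, map_mul, aeval_X, h3, mul_zero] at h5
    rw [map_add, map_mul, aeval_X]
    linear_combination -h5
  obtain ⟨Y⟩ := (hMco ℤ P L phi D S S1 (ld e 1) _ hD.inj hD.bin hM01).2.2.2
  obtain ⟨x, -, hx, hxc⟩ := third hD2 hF1 hF3 hI2 hMco fp hM01 hM02 hM12 hs2 kap_ne uT1_ne Y
  have hfull := hT2f ℤ P L phi D S S1 S2 (ld e 1) _ _ kap (uT (1 : ℤˣ) 1) hD hM01 hM02 hs2 hs1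
    kap_ne uT1_ne Y
  have hX : ((ld e 1 : (RO ℤ)ˣ) : RO ℤ) * D.coeff S = toLaurent (X * f) := by
    have h3 := ld_S hR 1
    rw [pow_one] at h3
    exact h3
  have hxp : ((eta S2 : (RO ℤ)ˣ) : RO ℤ) *
      (dc Y (ld e 1 * kap) (eta S1 * uT (1 : ℤˣ) 1) D).coeff x =
      toLaurent ((1 - X) * (1 + X) * f) := by
    rw [hxc, hX, kap_val, uT1_val]
    simp only [map_mul, map_add, map_sub, map_one, toLaurent_X]
    have h3 : (LaurentPolynomial.T (-1) : RO ℤ) * LaurentPolynomial.T 1 = 1 := by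
      rw [← LaurentPolynomial.T_add, neg_add_cancel, LaurentPolynomial.T_zero]
    linear_combination ((1 - LaurentPolynomial.T 1) * toLaurent f : RO ℤ) * h3
  have hp0 : ((1 - X) * (1 + X) * f).coeff 0 = 1 := by
    rw [mul_coeff_zero, hu, mul_coeff_zero]
    simp
  obtain ⟨c, H, psi, hc, -, hDH, hVH, hrH, hH0, hHx, hfr⟩ := double hMm hMV hE1 hE2 hPc hClp hC0
    hG0 hI1 hRk hFD hWW hRF hMug hMco hTr hTsa hO5 W hu hn hS he hR hM01 hE hEz hEm Y hfull x hx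
    hp0 hxp
  exact end_3 hU hM1 hMm hMV hE2 hSw hR.loc hu hj W.ko.lt hDH hfr hVH hc hrH
    (eta S2).isUnit hE hE0 hH0 hHx hcusp

end Pool.Agent.B5.KO67
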