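import Pool.Agent.Lib.MP_b5021c_nt.KO.H67.O2
import Pool.Agent.Lib.MP_b5021c_nt.E.H67.Rfc
import Pool.Agent.Lib.MP_b5021c_nt.E.H67.O5
import Pool.Agent.Lib.MP_b5021c_nt.E.H66.Wn2
import Pool.Agent.Lib.MP_b5021c_nt.K.H30.C4c

/-!
# MP_b5021c_nt, all `θ`, K ODD: the second closing `(-1/z, z)` has one factor of class `V(j)`;
the final contradiction
-/

namespace Pool.Agent.B5.KO67

open scoped LaurentPolynomial
open Polynomial
open Pool.Agent.B5.KE
open Pool.Agent.B5.Nr.Sch
open Pool.Agent.B5.H66 (div_nf classV_of abs_of_mul nz_of_mul)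

theorem aeval_emb (p : ℤ[X]) (z : ℂ) : (p.map (Int.castRingHom ℂ)).eval z = aeval z p :=
  ev_map p z

/-- SECOND CLOSING: one factor of class `V(j)`. -/
theorem second (hFD : FDS) (hG0 : G0S) (hC0 : Coeff0S) (hE1 : E1S) (hE2 : E2S) (hMV : MVS)
    (hMm : MmulS) (hRk : RkS) (hWW : WWfS) (hRF : RayFacS) (hO5 : H67.O5aS)
    {Q K : Type} [Fintype Q] [DecidableEq Q] [AddCommGroup K] [Module.Free ℤ K]
    [Module.Finite ℤ K] {psi : K →+ (Q → ℤ)} {G : AO ℤ K} {T : K} {i1 : Q}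
    (h1 : co psi i1 T = 1) {q f E : ℤ[X]} {a : ℝ} {j : ℕ} {c e2 : RO ℤ} {e' : (RO ℤ)ˣ}
    (hloc : Loc q f a) (hu : f.coeff 0 = 1) (hj : 2 ≤ j) (ha2 : a ≤ 1 / 2)
    (hja : 1 < ((j : ℝ) + 1) * a) (hD : DD psi G) (hfr : Module.finrank ℤ K = 2 * j)
    (hV : ClassV ((j + 1 : ℕ) : ℝ) (G.coeff 0)) (hc : ClassV 1 c) (hT : Ray G T)
    (hI : ImS psi T) (hE : f - q = X * E) (hE0 : E.coeff 0 = j + 1)
    (hEz : ∀ z : ℂ, ‖z‖ < 1 → aeval z E ≠ 0) (hc0 : c * G.coeff 0 = toLaurent (q - f))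
    (hcT : c * ((e' : RO ℤ) * G.coeff T) = toLaurent (X * ((1 + X) * f)))
    (hEm : (aeval (-1 : ℂ) E : ℂ) ≠ 0)
    (hrk : Module.finrank ℤ K = rk (supp (cl (co psi i1) T h1 e' G)) + 1)
    (x : Ker (co psi i1)) (hx : Ray (cl (co psi i1) T h1 e' G) x) {g : ℤ[X]}
    (hg : |g.coeff 0| = 1)
    (hxg : e2 * (c * (cl (co psi i1) T h1 e' G).coeff x) = toLaurent g) :
    ∃ (c' : RO ℤ) (H : AO ℤ (Ker (co psi i1))), ClassV 1 c' ∧
      cl (co psi i1) T h1 e' G = cst c' * H ∧ DD (phO psi T i1) H ∧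
      ClassV (j : ℝ) (H.coeff 0) := by
  obtain ⟨k, p, hcp, hp1, hp0, hpz⟩ := H78.classV_nf hc
  have hpu : p.coeff 0 = 1 ∨ p.coeff 0 = -1 := by
    have h2 : |p.coeff 0| = 1 := by exact_mod_cast hp1
    exact (abs_eq (by norm_num)).1 h2
  have hpC : ∀ z : ℂ, ‖z‖ < 1 → (aeval z p : ℂ) ≠ 0 := by
    intro z hz
    rw [← aeval_emb]
    exact hpz z hz
  have hG0' : c * G.coeff 0 = LaurentPolynomial.T 1 * toLaurent (-E) := by
    rw [hc0]
    have h3 : q - f = X * -E := by rw [mul_neg, ← hE]; ring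
    rw [h3, map_mul, toLaurent_X]
  have hGT' : c * ((e' : RO ℤ) * G.coeff T) =
      LaurentPolynomial.T 1 * toLaurent ((1 + X) * f) := by
    rw [hcT, map_mul, toLaurent_X]
  obtain ⟨q', hq', hpq⟩ := div_nf hp0 hcp hG0'
  obtain ⟨b', hb', hpb⟩ := div_nf hp0 hcp hGT'
  have hqe : ∀ z : ℂ, (aeval z p : ℂ) * aeval z q' = -aeval z E := by
    intro z
    rw [← map_mul, hpq, map_neg]
  have hbe : ∀ z : ℂ, (aeval z p : ℂ) * aeval z b' = (1 + z) * aeval z f := by
    intro z
    rw [← map_mul, hpb, map_mul, map_add, map_one, aeval_X]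
  have hq'0 : |(q'.coeff 0 : ℝ)| = j + 1 := by
    rw [abs_of_mul hpu hpq, coeff_neg, hE0]
    push_cast
    rw [abs_neg, abs_of_nonneg (by positivity)]
  have hb'0 : |(b'.coeff 0 : ℝ)| = 1 := by
    rw [abs_of_mul hpu hpb, mul_coeff_zero, hu]
    simp
  have hs0 : |((q' + b').coeff 0 : ℝ)| = j := by
    have h2 : p * (q' + b') = -E + (1 + X) * f := by rw [mul_add, hpq, hpb]
    rw [abs_of_mul hpu h2, coeff_add, coeff_neg, hE0, mul_coeff_zero, hu]
    simp
  have hV' : G.coeff 0 + (e' : RO ℤ) * G.coeff T =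
      LaurentPolynomial.T (1 - k) * toLaurent (q' + b') := by
    rw [hq', hb', map_add]
    ring
  -- zeros
  obtain ⟨ez, -, -, -, -, eray⟩ := hE2 ℤ Q K psi G hD (by omega)
  have hq'c : ∀ z : ℂ, ‖z‖ ≤ 1 → (aeval z q' : ℂ) ≠ 0 := by
    intro z hz h0
    rcases lt_or_eq_of_le hz with h2 | h2
    · apply hEz z h2
      have h3 := hqe z
      rw [h0, mul_zero] at h3
      exact neg_eq_zero.mp h3.symm
    · obtain ⟨zc, rfl⟩ := circle_of z h2
      apply ez zc
      rw [hq', map_mul, evR_poly, h0, mul_zero]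
  have hbq : ∀ z : ℂ, ‖z‖ = 1 → ‖(aeval z b' : ℂ)‖ ≤ ‖(aeval z q' : ℂ)‖ := by
    intro z hz
    obtain ⟨zc, rfl⟩ := circle_of z hz
    have h2 := (eray T hT).1 zc
    have h3 : ‖evR zc (G.coeff T)‖ = ‖(aeval (zc : ℂ) b' : ℂ)‖ := by
      have h4 : ‖evR zc ((e' : RO ℤ) * G.coeff T)‖ = ‖(aeval (zc : ℂ) b' : ℂ)‖ := by
        rw [hb', norm_evR']
      rw [← h4, map_mul, norm_mul]
      have h5 : ‖evR zc (e' : RO ℤ)‖ = 1 := C4C.norm_evR_unit zc e'.isUnit
      rw [h5, one_mul]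
    rw [h3, hq', norm_evR'] at h2
    exact h2
  have hsp : SP (-(b'.map (Int.castRingHom ℝ))) (q'.map (Int.castRingHom ℝ)) := by
    apply SP.of_circle
    · intro z hz
      rw [aeval_map_real]
      exact hq'c z hz
    · intro z hz
      rw [map_neg, norm_neg, aeval_map_real, aeval_map_real]
      exact hbq z hz
  have hsz : ∀ z : ℂ, ‖z‖ < 1 → (aeval z (q' + b') : ℂ) ≠ 0 := by
    intro z hz h0
    have h2 : (aeval z (-(b'.map (Int.castRingHom ℝ))) : ℂ) =
        aeval z (q'.map (Int.castRingHom ℝ)) := by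
      rw [map_neg, aeval_map_real, aeval_map_real]
      rw [map_add] at h0
      linear_combination -h0
    have h3 := sp_eq hsp hz h2
    have h4 := congrArg (fun r : ℝ[X] => |r.coeff 0|) h3
    simp only [coeff_neg, coeff_map, abs_neg] at h4
    change |((b'.coeff 0 : ℤ) : ℝ)| = |((q'.coeff 0 : ℤ) : ℝ)| at h4
    rw [hb'0, hq'0] at h4
    have hj' : (2 : ℝ) ≤ j := by exact_mod_cast hj
    linarith
  have hVV : ClassV (j : ℝ) (G.coeff 0 + (e' : RO ℤ) * G.coeff T) := by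
    refine classV_of (by exact_mod_cast (by omega : 1 ≤ j)) hV' hs0 ?_
    intro z hz
    rw [aeval_emb]
    exact hsz z hz
  refine H67.one_fac hFD hG0 hC0 hE1 hMV hMm hRk hWW hRF psi G T i1 h1 e' (j : ℝ) hD (by omega) hT
    hI hVV hrk ?_ x hx (e2 * c) 0 g hg (by
      rw [LaurentPolynomial.T_zero, one_mul, ← hxg]
      ring)
  -- no small factors
  intro c' n G' fd hMc
  have hbm : b'.eval (-1) = 0 := by
    have h2 := hqe (-1)
    have h3 := hbe (-1)
    rw [add_neg_cancel, zero_mul] at h3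
    have h4 : (aeval (-1 : ℂ) p : ℂ) ≠ 0 := by
      intro h5
      rw [h5, zero_mul] at h2
      exact hEm (neg_eq_zero.mp h2.symm)
    have h5 := (mul_eq_zero.mp h3).resolve_left h4
    have h6 := aeval_int b' (-1)
    rw [Int.cast_neg, Int.cast_one, h5] at h6
    exact_mod_cast h6.symm
  refine hO5 Q K psi G T i1 e' h1 c' n G' fd hMc (1 - k) q' b' j a hj hfr hq' hb' ?_ ?_ ?_ ?_ ?_
    hbm ha2 hja ?_
  · intro z hz
    rw [ev_map]
    exact hq'c z hz.le
  · intro z hz
    rw [ev_map]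
    exact hsz z hz
  · exact_mod_cast hb'0
  · exact_mod_cast hq'0
  · exact_mod_cast hs0
  · -- the value at `a`
    have ha0 := hloc.a0
    rw [ev_map, ev_map]
    have hqa : (aeval (a : ℂ) q : ℂ) = 0 := by
      obtain ⟨s, hs, -⟩ := hloc.s
      rw [← aeval_map_real, hs, map_mul]
      simp
    have haC : (a : ℂ) ≠ 0 := by exact_mod_cast ha0.ne'
    have ha1C : (1 + (a : ℂ)) ≠ 0 := by
      have : (1 + a : ℝ) ≠ 0 := by linarith
      exact_mod_cast this
    have hnorm : ‖(a : ℂ)‖ < 1 := by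
      rw [Complex.norm_real, Real.norm_eq_abs, abs_of_pos ha0]
      linarith
    have hF : (aeval (a : ℂ) f : ℂ) = a * aeval (a : ℂ) E := by
      have h5 := congrArg (fun p : ℤ[X] => (aeval (a : ℂ) p : ℂ)) hE
      simp only [map_sub, map_mul, aeval_X, hqa, sub_zero] at h5
      exact h5
    have hEa := hEz _ hnorm
    have hpa := hpC _ hnorm
    have h2 := hqe (a : ℂ)
    have h3 := hbe (a : ℂ)
    rw [hF] at h3
    have hB : (aeval (a : ℂ) b' : ℂ) ≠ 0 := by
      intro h4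
      rw [h4, mul_zero] at h3
      exact mul_ne_zero ha1C (mul_ne_zero haC hEa) h3.symm
    have h4 : (aeval (a : ℂ) q' : ℂ) / aeval (a : ℂ) b' = ((-(1 / (a * (1 + a))) : ℝ) : ℂ) := by
      rw [div_eq_iff hB]
      apply mul_left_cancel₀ hpa
      rw [h2]
      have h5 : (aeval (a : ℂ) p : ℂ) * (((-(1 / (a * (1 + a))) : ℝ) : ℂ) * aeval (a : ℂ) b') =
          ((-(1 / (a * (1 + a))) : ℝ) : ℂ) * ((1 + (a : ℂ)) * (a * aeval (a : ℂ) E)) := by
        rw [← h3]
        ring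
      rw [h5]
      push_cast
      field_simp
    rw [h4, Complex.ofReal_re]
    have h5 : 0 < a * (1 + a) := by positivity
    rw [neg_neg, one_div, inv_mul_cancel₀ h5.ne']

/-- A divisor of `(1 - X²) q`. -/
theorem c_dvd2 (hU : UnitRS) (hM1 : M1S) (hMm : MmulS) {q c : ℤ[X]}
    (hq : ∀ z : ℂ, ‖z‖ = 1 → aeval z q ≠ 0) (hc0 : c.coeff 0 = 1)
    (hM : M (toLaurent c : RO ℤ) = 1) (hd : c ∣ ((1 - X) * (1 + X)) * q) :
    c = 1 ∨ c.eval 1 = 0 ∨ c.eval (-1) = 0 := by
  have hcne : c ≠ 0 := by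
    intro h
    rw [h, coeff_zero] at hc0
    exact zero_ne_one hc0
  have hrel : IsRelPrime c q := by
    intro d hdc hdq
    apply unit_of_dvd hU hM1 hq _ hdq (M_poly_dvd hMm hcne hM hdc)
    intro h0
    obtain ⟨e, he⟩ := hdc
    rw [he, mul_coeff_zero, h0, zero_mul] at hc0
    exact zero_ne_one hc0
  have h1 : c ∣ (1 - X) * (1 + X) := hrel.dvd_of_dvd_mul_right hd
  have hirr1 : Irreducible (1 + X : ℤ[X]) := by
    have : (1 + X : ℤ[X]) = X - C (-1) := by rw [C_neg, sub_neg_eq_add, C_1, add_comm]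
    rw [this]
    exact irreducible_X_sub_C (-1)
  have hirr2 : Irreducible (1 - X : ℤ[X]) := by
    have : (1 - X : ℤ[X]) = -(X - C 1) := by rw [C_1, neg_sub]
    rw [this]
    exact (Associated.refl (X - C (1 : ℤ))).neg_right.irreducible (irreducible_X_sub_C (1 : ℤ))
  by_cases hu : IsUnit c
  · left
    obtain ⟨r, hr, hr2⟩ := Polynomial.isUnit_iff.mp hu
    rw [← hr2, coeff_C_zero] at hc0
    rw [← hr2, hc0, C_1]
  · right
    obtain ⟨d, hd1, hd2⟩ := WfDvdMonoid.exists_irreducible_factor hu hcne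
    have hdp : Prime d := UniqueFactorizationMonoid.irreducible_iff_prime.mp hd1
    rcases hdp.dvd_or_dvd (hd2.trans h1) with h3 | h3
    · left
      obtain ⟨e, he⟩ := ((hd1.dvd_symm hirr2 h3).trans hd2)
      rw [he]
      simp
    · right
      obtain ⟨e, he⟩ := ((hd1.dvd_symm hirr1 h3).trans hd2)
      rw [he]
      simp

/-- THE END of (O3): the double closing is extremal. -/
theorem end_3 (hU : UnitRS) (hM1 : M1S) (hMm : MmulS) (hMV : MVS) (hE2 : E2S) (hSw : SewS)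
    {Q K : Type} [Fintype Q] [DecidableEq Q] [AddCommGroup K] [Module.Free ℤ K]
    [Module.Finite ℤ K] {psi : K →+ (Q → ℤ)} {H : AO ℤ K} {x : K} {q f E : ℤ[X]} {a : ℝ} {j : ℕ}
    {c w : RO ℤ} (hloc : Loc q f a) (hu : f.coeff 0 = 1) (hj : 2 ≤ j)
    (hja : 1 < ((j : ℝ) + 1) * a) (hD : DD psi H) (hfr : Module.finrank ℤ K + 1 = 2 * j)
    (hV : ClassV j (H.coeff 0)) (hc : ClassV 1 c) (hT : Ray H x) (hw : IsUnit w)
    (hE : f - q = X * E) (hE0 : E.coeff 0 = j + 1)
    (h0 : c * H.coeff 0 = -toLaurent (X * (E - (1 + X) * f)))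
    (h1 : w * (c * H.coeff x) = toLaurent ((1 - X) * (1 + X) * f))
    (hcusp : ∀ z : ℂ, ‖z‖ = 1 → (aeval z (q + X * f) : ℂ) ≠ 0) : False := by
  obtain ⟨V, hVd⟩ : ∃ V : ℤ[X], V = E - (1 + X) * f := ⟨_, rfl⟩
  rw [← hVd] at h0
  have hE' : E = V + (1 + X) * f := by rw [hVd]; ring
  have hq1 : q = f - X * V - X * (1 + X) * f := by
    have : q = f - X * E := by rw [← hE]; ring
    rw [this, hE']
    ring
  have hVB : q + X * f = (1 - X) * (1 + X) * f - X * V := by
    rw [hq1]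
    ring
  have hV0 : V.coeff 0 = j := by
    rw [hVd, coeff_sub, hE0, mul_coeff_zero, hu]
    simp
  have hjV : V.coeff 0 ≠ 0 := by
    rw [hV0]
    exact_mod_cast (by omega : j ≠ 0)
  -- no zero at `1`, `-1`
  have hV1 : V.eval 1 ≠ 0 := by
    intro h2
    apply hcusp 1 (by simp)
    have h3 := aeval_int V 1
    rw [h2, Int.cast_one, Int.cast_zero] at h3
    rw [hVB]
    simp only [map_sub, map_mul, map_add, map_one, aeval_X, h3]
    ring
  have hVm : V.eval (-1) ≠ 0 := by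
    intro h2
    apply hcusp (-1) (by simp)
    have h3 := aeval_int V (-1)
    rw [h2, Int.cast_neg, Int.cast_one, Int.cast_zero] at h3
    rw [hVB]
    simp only [map_sub, map_mul, map_add, map_one, aeval_X, h3]
    ring
  have hp : ((1 - X) * (1 + X) * f).coeff 0 = 1 := by
    rw [mul_coeff_zero, hu, mul_coeff_zero]
    simp
  rcases hSw Q K psi H j hj hD hV hfr with hz | ⟨k, t, w0, hk, hG0, hrays⟩
  · -- z-free
    obtain ⟨s, hs⟩ := zfree_E hU hz ((hMV ℤ).1 _ _ hV).1 hT.1 hw hp hjV h0 h1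
    apply hV1
    rw [hs]
    simp
  · -- levels
    obtain ⟨c', g', hc', hg', hcg, ⟨u, huc⟩, ⟨v, hvg⟩⟩ := split_one hU hp hw h1
    obtain ⟨r, hr⟩ := hrays x hT v g' hg' hvg
    have hh0 : (C (j : ℤ) + C t * X ^ k : ℤ[X]).coeff 0 = j := by
      rw [coeff_add, coeff_C_zero, mul_coeff_zero, coeff_X_pow, if_neg (by omega), mul_zero,
        add_zero]
    have h2 : (-(u : RO ℤ) * (w0 : RO ℤ)) * toLaurent (c' * (C (j : ℤ) + C t * X ^ k)) =
        toLaurent (X * V) := by
      rw [← neg_eq_iff_eq_neg.mpr h0, hG0, huc, map_mul]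
      ring
    have hEc : V = c' * (C (j : ℤ) + C t * X ^ k) :=
      eq_E hU (IsUnit.mul u.isUnit.neg w0.isUnit) hc' hjV (by rw [hh0, hV0]) h2
    have hMc : M (toLaurent c' : RO ℤ) = 1 := by
      have h3 := ((hMV ℤ).1 _ _ hc).2
      have hc0 : (toLaurent c' : RO ℤ) ≠ 0 := by
        rw [toLaurent_ne_zero]
        intro h4
        rw [h4, coeff_zero] at hc'
        exact zero_ne_one hc'
      rw [huc, (hMm ℤ).1 _ _ u.ne_zero hc0, (hMm ℤ).2.2 _ u.isUnit, one_mul] at h3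
      exact h3
    have hdvd : c' ∣ ((1 - X) * (1 + X)) * q := by
      refine ⟨(1 - X - X ^ 2) * g' - X * ((1 - X) * (1 + X)) * (C (j : ℤ) + C t * X ^ k), ?_⟩
      calc ((1 - X) * (1 + X)) * q = (1 - X - X ^ 2) * ((1 - X) * (1 + X) * f) -
            X * ((1 - X) * (1 + X)) * V := by rw [hq1]; ring
        _ = (1 - X - X ^ 2) * (c' * g') - X * ((1 - X) * (1 + X)) *
            (c' * (C (j : ℤ) + C t * X ^ k)) := by rw [hcg, ← hEc]
        _ = _ := by ring
    have hc1 : c' = 1 := by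
      rcases c_dvd2 hU hM1 hMm (fun z hz => q_ne hloc z hz) hc' hMc hdvd with h3 | h3 | h3
      · exact h3
      · exfalso
        apply hV1
        rw [hEc, eval_mul, h3, zero_mul]
      · exfalso
        apply hVm
        rw [hEc, eval_mul, h3, zero_mul]
    rw [hc1, one_mul] at hcg hEc
    rw [hr] at hcg
    -- the second coefficient
    have hr1 : r = -1 := by
      have := congrArg (fun p : ℤ[X] => p.eval 1) hcg
      simp only [eval_mul, eval_sub, eval_one, eval_X, eval_add, eval_C, eval_pow, one_pow,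
        sub_self, zero_mul, mul_one] at this
      omega
    have ht : |t| < j := by
      apply t_lt hk
      intro z hz
      rcases lt_or_eq_of_le hz with h4 | h4
      · obtain ⟨-, n0, g0, hg0, hg0', hz0⟩ := id hV
        have h5 : (g0.coeff 0) ≠ 0 := by
          intro h6
          rw [h6, map_zero, norm_zero] at hg0'
          have : (j : ℝ) ≠ 0 := by exact_mod_cast (by omega : j ≠ 0)
          exact this hg0'.symm
        obtain ⟨n, s, hs, hvs⟩ := (hU ℤ _).mp w0.isUnit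
        have h7 : (LaurentPolynomial.T n0 : RO ℤ) * toLaurent g0 =
            LaurentPolynomial.T n * toLaurent (C s * (C (j : ℤ) + C t * X ^ k)) := by
          rw [← hg0, hG0, hvs, map_mul toLaurent (C s), toLaurent_C]
          ring
        obtain ⟨-, h8⟩ := H56.nf_unique n0 n g0 _ h5
          (by
            rw [mul_coeff_zero, coeff_C_zero, hh0]
            exact mul_ne_zero hs.ne_zero (by exact_mod_cast (by omega : j ≠ 0))) h7
        have h9 := hz0 z h4
        rw [ev_map, h8, map_mul, map_add, map_mul, map_pow, aeval_X, aeval_C, aeval_C,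
          aeval_C] at h9
        have h10 := right_ne_zero_of_mul h9
        simpa using h10
      · obtain ⟨zc, rfl⟩ := circle_of z h4
        have h5 := (hE2 ℤ Q K psi H hD (by omega)).1 zc
        rw [hG0, map_mul, evR_poly, map_add, map_mul, map_pow, aeval_X, aeval_C, aeval_C] at h5
        have h6 := right_ne_zero_of_mul h5
        simpa using h6
    obtain ⟨ht1, ht2⟩ := abs_lt.mp ht
    have ha0 := hloc.a0
    have ha1 := hloc.a1
    have hqa : (aeval a q : ℝ) = 0 := by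
      obtain ⟨s, hs, -⟩ := hloc.s
      have h3 : (aeval a q : ℝ) = (q.map (Int.castRingHom ℝ)).eval a := by
        rw [eval_map, aeval_def]; rfl
      rw [h3, hs]
      simp
    obtain ⟨F, hF⟩ : ∃ F : ℝ, F = aeval a f := ⟨_, rfl⟩
    obtain ⟨A, hA⟩ : ∃ A : ℝ, A = a ^ k := ⟨_, rfl⟩
    have e1 : (1 - a ^ 2) * F = 1 - A := by
      have := congrArg (fun p : ℤ[X] => (aeval a p : ℝ)) hcg
      simp only [map_mul, map_add, map_sub, map_one, aeval_X, map_pow, ← hF, aC, hr1] at this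
      push_cast at this
      rw [← hA] at this
      linear_combination this
    have e2 : F * (1 - a - a ^ 2) = a * (j + t * A) := by
      have h3 := congrArg (fun p : ℤ[X] => (aeval a p : ℝ)) hq1
      simp only [map_mul, map_add, map_sub, map_one, aeval_X, ← hF, hqa] at h3
      have h4 : (aeval a V : ℝ) = j + t * A := by
        rw [hEc, map_add, map_mul (aeval a) (C _), map_pow, aeval_X, aC, aC, hA]
        push_cast
        ring
      rw [h4] at h3
      linear_combination -h3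
    have hA0 : 0 < A := by rw [hA]; exact pow_pos ha0 k
    have hA1 : A < 1 := by
      rw [hA]
      exact pow_lt_one₀ ha0.le ha1 (by omega)
    have ht3 : -((j : ℝ) - 1) ≤ t := by
      have : -((j : ℤ) - 1) ≤ t := by omega
      exact_mod_cast this
    -- `(1 - a - a²)(1 - A) = a (1 - a²)(j + t A)`
    have e3 : (1 - a - a ^ 2) * (1 - A) = (1 - a ^ 2) * (a * (j + t * A)) := by
      rw [← e1, ← e2]
      ring
    have e4 : (1 - a) * (1 - A) < a * (j + t * A) := by
      have h3 : a * (j - (j - 1) * A) ≤ a * (j + t * A) := by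
        apply mul_le_mul_of_nonneg_left _ ha0.le
        nlinarith
      have h4 : 0 < (((j : ℝ) + 1) * a - 1) * (1 - A) := mul_pos (by linarith) (by linarith)
      nlinarith [mul_pos ha0 hA0]
    have e5 : 0 < 1 - a ^ 2 := by nlinarith
    have e6 : (1 - a ^ 2) * ((1 - a) * (1 - A)) < (1 - a - a ^ 2) * (1 - A) := by
      rw [e3]
      exact mul_lt_mul_of_pos_left e4 e5
    have e7 : 0 < a ^ 3 * (1 - A) := mul_pos (pow_pos ha0 3) (by linarith)
    nlinarith

end Pool.Agent.B5.KO67
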