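import Pool.Agent.Lib.MP_b5021c_nt.KO.H42.Cer
import Pool.Agent.Lib.MP_b5021c_nt.KO.H67.O2
import Pool.Agent.Lib.MP_b5021c_nt.W.H1.Oi

/-!
# MP_b5021c_nt, all `θ`, K ODD, (O4), l ≥ 4, row TK: the one-variable part

`V` is the hat of `V''_0`: `X V = (1 - X - X²) f - q`.  `T` is killed by `V''` and kills the cycle:
`f_T = (1 - X - X²) f`; the face of `Z_0`, `Z_1`, `T` is `- z (V + (1 - y') f (τ - κ))`.
-/

namespace Pool.Agent.B5.KO67

open Polynomial Complex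
open Pool.Agent.B5.KE
open Pool.Agent.B5.Nr.Sch (Loc)

theorem le_of_ball {g h : ℂ → ℝ} (hg : Continuous g) (hh : Continuous h)
    (H : ∀ x, ‖x‖ < 1 → g x ≤ h x) {x : ℂ} (hx : ‖x‖ ≤ 1) : g x ≤ h x := by
  have h1 : IsClosed {x : ℂ | g x ≤ h x} := isClosed_le hg hh
  have h2 : Metric.ball (0 : ℂ) 1 ⊆ {x : ℂ | g x ≤ h x} := by
    intro y hy
    exact H y (by simpa using hy)
  have h3 := closure_minimal h2 h1
  rw [closure_ball (0 : ℂ) one_ne_zero] at h3
  exact h3 (by simpa using hx)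

/-- `a + b y` without zeros in the disc. -/
theorem lin_le {a b : ℂ} (h : ∀ y : ℂ, ‖y‖ < 1 → a + b * y ≠ 0) : ‖b‖ ≤ ‖a‖ := by
  by_contra hcon
  push Not at hcon
  have hb : b ≠ 0 := by
    rintro rfl
    rw [norm_zero] at hcon
    exact absurd hcon (not_lt.mpr (norm_nonneg a))
  apply h (-a / b)
  · rw [norm_div, norm_neg, div_lt_one (norm_pos_iff.mpr hb)]
    exact hcon
  · field_simp
    ring

/-- The data of the face of `Z_0`, `Z_1`, `T`. -/
structure TkD (q f V : ℤ[X]) (a : ℝ) (j : ℕ) : Prop where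
  loc : Loc q f a
  ne : ∃ z : ℂ, ‖z‖ = 1 ∧ ‖aeval z f‖ ≠ ‖aeval z q‖
  u : f.coeff 0 = 1
  j2 : 2 ≤ j
  lt : 1 < ((j : ℝ) + 1) * a
  n : f.coeff 1 - q.coeff 1 = j + 1
  m1 : (aeval (-1 : ℂ) q : ℂ) ≠ aeval (-1 : ℂ) f
  V : X * V = (1 - X - X ^ 2) * f - q
  face : ∀ z : ℂ, ‖z‖ = 1 → ∀ x y s : ℂ, ‖x‖ < 1 → ‖y‖ < 1 → ‖s‖ < 1 →
    aeval z (q + X * f) - aeval z (X * f) * ((1 - x) * (1 - y)) +
      s * (aeval z (X * ((1 - X - X ^ 2) * f) + X ^ 2 * f) -
        aeval z (X ^ 2 * f) * ((1 - x) * (1 - y))) ≠ 0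

variable {q f V : ℤ[X]} {a : ℝ} {j : ℕ}

theorem TkD.Vz (h : TkD q f V a j) (z : ℂ) :
    z * aeval z V = (1 - z - z ^ 2) * aeval z f - aeval z q := by
  have h1 := congrArg (fun p : ℤ[X] => (aeval z p : ℂ)) h.V
  simpa using h1

/-- `E = V + (1 + X) f`. -/
theorem TkD.E (h : TkD q f V a j) : f - q = X * (V + (1 + X) * f) := by
  have := h.V
  rw [mul_add, this]
  ring

theorem TkD.V0 (h : TkD q f V a j) : V.coeff 0 = j := by
  have h1 := congrArg (fun p : ℤ[X] => p.coeff 1) h.E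
  simp only [coeff_sub, coeff_X_mul, coeff_add, mul_coeff_zero, coeff_one_zero, coeff_X_zero,
    add_zero, one_mul] at h1
  rw [h.u] at h1
  have := h.n
  omega

theorem TkD.hle (h : TkD q f V a j) (z : ℂ) (hz : ‖z‖ = 1) :
    ‖(1 + z) * aeval z f‖ ≤ ‖aeval z V + (1 + z) * aeval z f‖ := by
  have hz0 : z ≠ 0 := by
    rintro rfl
    rw [norm_zero] at hz
    exact zero_ne_one hz
  have h1 : ∀ x : ℂ, ‖x‖ < 1 → ‖aeval z (X * f) * (1 - x)‖ ≤
      ‖(aeval z (q + X * f) : ℂ) - aeval z (X * f) * (1 - x)‖ := by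
    intro x hx
    apply lin_le
    intro y hy hcon
    apply h.face z hz x y 0 hx hy (by simp)
    linear_combination hcon
  have h2 := le_of_ball (g := fun x => ‖aeval z (X * f) * (1 - x)‖)
    (h := fun x => ‖(aeval z (q + X * f) : ℂ) - aeval z (X * f) * (1 - x)‖)
    (by fun_prop) (by fun_prop) h1 (x := -z⁻¹) (by rw [norm_neg, norm_inv, hz, inv_one])
  have e1 : aeval z (X * f) * (1 - -z⁻¹) = (1 + z) * aeval z f := by
    rw [map_mul, aeval_X]
    field_simp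
    ring
  have e2 : (aeval z (q + X * f) : ℂ) - aeval z (X * f) * (1 - -z⁻¹) =
      -(z * (aeval z V + (1 + z) * aeval z f)) := by
    rw [e1, mul_add, h.Vz z, map_add, map_mul, aeval_X]
    ring
  rw [e2, e1, norm_neg, norm_mul z, hz, one_mul] at h2
  exact h2

theorem TkD.hE (h : TkD q f V a j) (z : ℂ) (hz : ‖z‖ ≤ 1) :
    (aeval z V : ℂ) + (1 + z) * aeval z f ≠ 0 := by
  intro h0
  rcases lt_or_eq_of_le hz with h1 | h1
  · obtain ⟨E, hE, -, -, hEz⟩ := typa h.loc h.u h.ne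
    have h2 : E = V + (1 + X) * f := by
      apply mul_left_cancel₀ (X_ne_zero (R := ℤ))
      rw [← hE, h.E]
    apply hEz z h1
    rw [h2]
    simpa using h0
  · have h2 := h.hle z h1
    rw [h0, norm_zero] at h2
    have h3 : (1 + z) * aeval z f = 0 := norm_le_zero_iff.mp h2
    rw [h3, add_zero] at h0
    have h4 := h.Vz z
    rw [h0, mul_zero] at h4
    rcases mul_eq_zero.mp h3 with h5 | h5
    · apply h.m1
      have h6 : z = -1 := by linear_combination h5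
      subst h6
      linear_combination h4
    · rw [h5, mul_zero, zero_sub] at h4
      exact q_ne h.loc z h1 (neg_eq_zero.mp h4.symm)

theorem TkD.hc (h : TkD q f V a j) (z : ℂ) (hz : ‖z‖ = 1) (w : ℂ) (hw : ‖w‖ = 1) :
    0 ≤ ‖(aeval z V : ℂ)‖ ^ 2 +
      2 * (((1 + w) ^ 2 - (1 / z - z)) * aeval z f * (starRingEnd ℂ) (aeval z V)).re := by
  have hz0 : z ≠ 0 := by
    rintro rfl
    rw [norm_zero] at hz
    exact zero_ne_one hz
  obtain ⟨F, hF⟩ : ∃ F : ℂ, F = aeval z f := ⟨_, rfl⟩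
  obtain ⟨Q, hQ⟩ : ∃ Q : ℂ, Q = aeval z q := ⟨_, rfl⟩
  obtain ⟨U, hU⟩ : ∃ U : ℂ, U = aeval z V := ⟨_, rfl⟩
  have hV : z * U = (1 - z - z ^ 2) * F - Q := by
    rw [hU, hF, hQ]
    exact h.Vz z
  have h1 : ∀ x : ℂ, ‖x‖ < 1 → ‖(z * ((1 - z - z ^ 2) * F) + z ^ 2 * F) -
      z ^ 2 * F * ((1 - x) * (1 - x))‖ ≤ ‖Q + z * F - z * F * ((1 - x) * (1 - x))‖ := by
    intro x hx
    apply lin_le
    intro s hs hcon
    apply h.face z hz x x s hx hx hs
    simp only [map_add, map_sub, map_mul, map_pow, aeval_X, map_one, ← hF, ← hQ]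
    linear_combination hcon
  have h2 := le_of_ball (g := fun x => ‖(z * ((1 - z - z ^ 2) * F) + z ^ 2 * F) -
      z ^ 2 * F * ((1 - x) * (1 - x))‖)
    (h := fun x => ‖Q + z * F - z * F * ((1 - x) * (1 - x))‖)
    (by fun_prop) (by fun_prop) h1 (x := -w) (by rw [norm_neg, hw])
  obtain ⟨B, hB⟩ : ∃ B : ℂ, B = ((1 + w) ^ 2 - (1 / z - z)) * F := ⟨_, rfl⟩
  have hB' : z * B = z * (1 + w) ^ 2 * F - F + z ^ 2 * F := by
    rw [hB]
    field_simp
    ring
  have e1 : (z * ((1 - z - z ^ 2) * F) + z ^ 2 * F) - z ^ 2 * F * ((1 - -w) * (1 - -w)) =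
      -(z * z * B) := by
    linear_combination z * hB'
  have e2 : Q + z * F - z * F * ((1 - -w) * (1 - -w)) = -(z * (U + B)) := by
    linear_combination hV + hB'
  rw [e1, e2, norm_neg, norm_neg, norm_mul, norm_mul, norm_mul z, hz, one_mul, one_mul, one_mul]
    at h2
  have h3 : ‖U + B‖ ^ 2 = ‖U‖ ^ 2 + ‖B‖ ^ 2 + 2 * (B * (starRingEnd ℂ) U).re := by
    rw [← normSq_eq_norm_sq, ← normSq_eq_norm_sq, ← normSq_eq_norm_sq, add_comm U B,
      normSq_add]
    ring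
  have h4 : ‖B‖ ^ 2 ≤ ‖U + B‖ ^ 2 := pow_le_pow_left₀ (norm_nonneg _) h2 2
  rw [← hF, ← hU, ← hB]
  linarith

/-- `V` has no zero in the closed disc. -/
theorem TkD.zf (h : TkD q f V a j) (z : ℂ) (hz : ‖z‖ ≤ 1) : (aeval z V : ℂ) ≠ 0 := by
  set V' : ℂ[X] := V.map (Int.castRingHom ℂ) with hV'
  set f' : ℂ[X] := f.map (Int.castRingHom ℂ) with hf'
  have eV : ∀ z : ℂ, V'.eval z = aeval z V := O4C.aeval_mapC V
  have ef : ∀ z : ℂ, f'.eval z = aeval z f := O4C.aeval_mapC f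
  have hV0 : V'.eval 0 = j := by
    rw [← coeff_zero_eq_eval_zero, hV', coeff_map, h.V0]
    simp
  have hf0 : f'.eval 0 = 1 := by
    rw [← coeff_zero_eq_eval_zero, hf', coeff_map, h.u]
    simp
  have h1 := O4C.zfree (E := V' + (1 + X) * f') (V := V') (f := f') (by
      intro z hz
      have := h.hE z hz
      simp only [eval_add, eval_mul, eval_one, eval_X, eV, ef]
      exact this) (by
      intro z
      simp only [eval_add, eval_mul, eval_one, eval_X]) (by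
      intro z hz
      simp only [eval_add, eval_mul, eval_one, eval_X, eV, ef]
      exact h.hle z hz) (by
      simp only [eval_add, eval_mul, eval_one, eval_X, hV0, hf0]
      have : ((j : ℂ) / (j + (1 + 0) * 1)) = ((j / (j + 1) : ℝ) : ℂ) := by
        push_cast; ring
      rw [this, ofReal_re]
      have := h.j2
      have hj : (2 : ℝ) ≤ j := by exact_mod_cast this
      positivity) (by
      intro z hz w hw
      rw [eV, ef]
      exact h.hc z hz w hw) z hz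
  rw [← eV]
  exact h1

theorem TkD.Vpos (h : TkD q f V a j) {x : ℝ} (h0 : 0 ≤ x) (h1 : x ≤ 1) :
    0 < (aeval x V : ℝ) :=
  O4C.pos_of_zfree (by rw [h.V0]; exact_mod_cast (by have := h.j2; omega : 0 < j)) h.zf h0 h1

/-- The apex of `H = D(Z_0 = 1, T = 1)` in terms of `V`. -/
theorem TkD.w01 (h : TkD q f V a j) :
    q + X * ((1 - X - X ^ 2) * f) + X * ((1 + X) * f) = (1 + X) * (1 - X ^ 2) * f - X * V := by
  rw [h.V]
  ring

/-- It has a zero in `(0, 1)`. -/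
theorem TkD.root (h : TkD q f V a j) : ∃ b : ℝ, 0 < b ∧ b < 1 ∧
    (aeval b (q + X * ((1 - X - X ^ 2) * f) + X * ((1 + X) * f)) : ℝ) = 0 := by
  obtain ⟨W, hW⟩ : ∃ W : ℤ[X], W = q + X * ((1 - X - X ^ 2) * f) + X * ((1 + X) * f) := ⟨_, rfl⟩
  rw [← hW]
  have h0 : (aeval (0 : ℝ) W : ℝ) = 1 := by
    rw [← coeff_zero_eq_aeval_zero', hW]
    simp [mul_coeff_zero, h.loc.q0]
  have h1 : (aeval (1 : ℝ) W : ℝ) < 0 := by
    rw [hW, h.w01]
    have := h.Vpos zero_le_one le_rfl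
    simp
    exact this
  have hc : ContinuousOn (fun t : ℝ => (aeval t W : ℝ)) (Set.Icc 0 1) :=
    (Polynomial.continuous_aeval W).continuousOn
  have hmem : (0 : ℝ) ∈ Set.Icc (aeval (1 : ℝ) W : ℝ) (aeval (0 : ℝ) W) := by
    rw [h0]
    exact ⟨h1.le, zero_le_one⟩
  obtain ⟨t, ht, ht0⟩ := intermediate_value_Icc' zero_le_one hc hmem
  simp only at ht0
  refine ⟨t, ?_, ?_, ht0⟩
  · rcases lt_or_eq_of_le ht.1 with h2 | h2
    · exact h2
    · rw [← h2, h0] at ht0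
      exact absurd ht0 one_ne_zero
  · rcases lt_or_eq_of_le ht.2 with h2 | h2
    · exact h2
    · rw [h2] at ht0
      rw [ht0] at h1
      exact absurd h1 (lt_irrefl _)

/-- THE END of row TK. -/
theorem TkD.fin (h : TkD q f V a j) {t : ℝ} (ht0 : 0 < t) (ht : t ^ 2 + ((j : ℝ) - 1) * t = 1)
    (hW : (aeval t (q + X * ((1 - X - X ^ 2) * f) + X * ((1 + X) * f)) : ℝ) ≤ 0) : False := by
  have hj : (2 : ℝ) ≤ j := by exact_mod_cast h.j2
  have hj1 : (0 : ℝ) < (j : ℝ) + 1 := by linarith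
  have hx : (1 / ((j : ℝ) + 1)) * (j + 1) = 1 := by field_simp
  have hxa : 1 / ((j : ℝ) + 1) < a := by
    rw [div_lt_iff₀ hj1]
    have := h.lt
    linarith
  have hr : ∀ x : ℝ, x * aeval x V = (1 - x - x ^ 2) * (aeval x f : ℝ) - aeval x q := by
    intro x
    have h1 := congrArg (fun p : ℤ[X] => (aeval x p : ℝ)) h.V
    simpa using h1
  refine O4C.cer (V := V) (f := f) (N := j) h.j2 hx ht0 ht (by rw [h.V0]) h.u h.hE h.hle ?_ ?_
    h.hc
  · have h1 := h.loc.qpos (x := 1 / ((j : ℝ) + 1)) (by positivity) hxa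
    rw [hr]
    linarith
  · rw [h.w01] at hW
    have e1 : (aeval t ((1 + X) * (1 - X ^ 2) * f - X * V) : ℝ) =
        (1 + t) * (1 - t ^ 2) * aeval t f - t * aeval t V := by simp
    rw [e1] at hW
    linarith

end Pool.Agent.B5.KO67
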