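import Pool.Agent.Lib.MP_b5021c_nt.IfaceKO
import Pool.Agent.Lib.MP_b5021c_nt.KE.H96.Ray
import Pool.Agent.Lib.MP_b5021c_nt.E.H36.Ndz

/-!
# MP_b5021c_nt, all `θ`, K ODD, (O4), l ≥ 4, row TK: toggles

`W = D(T = 1)`; `z0`, `z1`, `z2` consecutive rays of the cycle, `m0`, `m1`, `m2` their functionals,
`nK` the functional of the killer row.  A functional `nu` with `nu z0 = nu z1 = nu z2 = 0` which
kills the closing `z0 = 1` of `W` kills `W`; a small factor of mass one is impossible.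
-/

set_option linter.unusedSectionVars false

namespace Pool.Agent.B5.KO67

open scoped LaurentPolynomial
open Polynomial

section

variable {P K : Type} [Fintype P] [DecidableEq P] [AddCommGroup K] [Module.Free ℤ K]
  [Module.Finite ℤ K]

/-- The closing `z = e` kills everything outside `Ker m`. -/
def Flp (psi : K →+ (P → ℤ)) (W : AO ℤ K) (z : K) (e : (RO ℤ)ˣ) (m : K →+ ℤ) : Prop :=
  ∀ a, m a ≠ 0 →
    ((∃ i, psi a i = 1 ∧ psi z i = 1) → (∃ i, psi a i = 0 ∧ psi z i = 1) → W.coeff a = 0) ∧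
    ((∀ i, psi a i = 0 ∨ psi z i = 0) → W.coeff a + (e : RO ℤ) * W.coeff (a + z) = 0)

variable {psi : K →+ (P → ℤ)} {W : AO ℤ K}

/-- THE TOGGLE. -/
theorem Flp.tog {z : K} {e : (RO ℤ)ˣ} {m : K →+ ℤ} (h : Flp psi W z e m)
    (bin : ∀ a ∈ supp W, Bin psi a) (bz : Bin psi z) (hm : m z = 0) {i : P} (hi : psi z i = 1)
    {a : K} (ha : a ∈ supp W) (hma : m a ≠ 0) : a + (1 - 2 * psi a i) • z ∈ supp W := by
  have hba := bin a ha
  have hnp : ¬ ((∃ i, psi a i = 1 ∧ psi z i = 1) ∧ ∃ i, psi a i = 0 ∧ psi z i = 1) := by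
    rintro ⟨h1, h2⟩
    exact ha ((h a hma).1 h1 h2)
  rcases hba i with h0 | h1
  · have e1 : a + (1 - 2 * psi a i) • z = a + z := by
      rw [h0, mul_zero, sub_zero, one_smul]
    rw [e1]
    have hd : ∀ p, psi a p = 0 ∨ psi z p = 0 := by
      intro p
      rcases hba p with h2 | h2
      · exact Or.inl h2
      · rcases bz p with h3 | h3
        · exact Or.inr h3
        · exact absurd ⟨⟨p, h2, h3⟩, i, h0, hi⟩ hnp
    have h2 := (h a hma).2 hd
    intro h3
    change W.coeff (a + z) = 0 at h3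
    rw [h3, mul_zero, add_zero] at h2
    exact ha h2
  · have e1 : a + (1 - 2 * psi a i) • z = a - z := by
      rw [h1]
      norm_num
      abel
    rw [e1]
    have hd : ∀ p, psi (a - z) p = 0 ∨ psi z p = 0 := by
      intro p
      rcases bz p with h3 | h3
      · exact Or.inr h3
      · left
        rw [map_sub, Pi.sub_apply, h3]
        rcases hba p with h2 | h2
        · exact absurd ⟨⟨i, h1, hi⟩, p, h2, h3⟩ hnp
        · rw [h2, sub_self]
    have h2 := (h (a - z) (by rw [map_sub, hm, sub_zero]; exact hma)).2 hd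
    rw [sub_add_cancel] at h2
    intro h3
    change W.coeff (a - z) = 0 at h3
    rw [h3, zero_add] at h2
    exact (mul_ne_zero e.ne_zero ha) h2

/-- The toggle passes to the next ray. -/
theorem tog_next {x y : K} {e : (RO ℤ)ˣ} {m nu : K →+ ℤ} (bin : ∀ a ∈ supp W, Bin psi a)
    (by' : Bin psi y) (hxy : ∀ p, psi x p = 0 ∨ psi y p = 0) {ix iy : P} (hix : psi x ix = 1)
    (hiy : psi y iy = 1) (F : Flp psi W y e m) (mx : m x = -1) (my : m y = 0) (nx : nu x = 0)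
    (ny : nu y = 0)
    (Tx : ∀ a ∈ supp W, nu a ≠ 0 → a + (1 - 2 * psi a ix) • x ∈ supp W) :
    ∀ a ∈ supp W, nu a ≠ 0 → a + (1 - 2 * psi a iy) • y ∈ supp W := by
  intro a ha hna
  by_cases hma : m a ≠ 0
  · exact F.tog bin by' my hiy ha hma
  push Not at hma
  have hxiy : psi x iy = 0 := by
    rcases hxy iy with h | h
    · exact h
    · rw [hiy] at h
      exact absurd h one_ne_zero
  have hyix : psi y ix = 0 := by
    rcases hxy ix with h | h
    · rw [hix] at h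
      exact absurd h one_ne_zero
    · exact h
  obtain ⟨s, hs⟩ : ∃ s : ℤ, s = 1 - 2 * psi a ix := ⟨_, rfl⟩
  have h1 := Tx a ha hna
  rw [← hs] at h1
  have hs0 : s ≠ 0 := by
    rcases bin a ha ix with h | h <;> rw [h] at hs <;> omega
  have h2 := F.tog bin by' my hiy h1 (by
    rw [map_add, hma, zero_add, map_zsmul, mx, smul_eq_mul]
    omega)
  have e1 : psi (a + s • x) iy = psi a iy := by
    rw [map_add, Pi.add_apply, map_zsmul, Pi.smul_apply, hxiy, smul_zero, add_zero]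
  rw [e1] at h2
  obtain ⟨r, hr⟩ : ∃ r : ℤ, r = 1 - 2 * psi a iy := ⟨_, rfl⟩
  rw [← hr] at h2 ⊢
  have h3 := Tx _ h2 (by
    rw [map_add, map_add, map_zsmul, map_zsmul, nx, ny, smul_zero, smul_zero, add_zero, add_zero]
    exact hna)
  have e2 : psi (a + s • x + r • y) ix = psi a ix + s := by
    rw [map_add, Pi.add_apply, map_add, Pi.add_apply, map_zsmul, Pi.smul_apply, map_zsmul,
      Pi.smul_apply, hix, hyix, smul_zero, add_zero, smul_eq_mul, mul_one]
  rw [e2] at h3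
  have e3 : 1 - 2 * (psi a ix + s) = -s := by omega
  rw [e3] at h3
  have e4 : a + s • x + r • y + -s • x = a + r • y := by
    rw [neg_smul]
    abel
  rw [e4] at h3
  exact h3

/-- Three consecutive rays of the cycle. -/
structure TkW (psi : K →+ (P → ℤ)) (W : AO ℤ K) (z0 z1 z2 : K) (e0 e1 e2 : (RO ℤ)ˣ)
    (m0 m1 m2 nK : K →+ ℤ) : Prop where
  dd : DD psi W
  r0 : Ray W z0
  r1 : Ray W z1
  r2 : Ray W z2
  d01 : ∀ p, psi z0 p = 0 ∨ psi z1 p = 0
  d02 : ∀ p, psi z0 p = 0 ∨ psi z2 p = 0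
  d12 : ∀ p, psi z1 p = 0 ∨ psi z2 p = 0
  F0 : Flp psi W z0 e0 m0
  F1 : Flp psi W z1 e1 m1
  F2 : Flp psi W z2 e2 m2
  m00 : m0 z0 = 0
  m01 : m0 z1 = 1
  m02 : m0 z2 = 0
  m10 : m1 z0 = -1
  m11 : m1 z1 = 0
  m12 : m1 z2 = 1
  m21 : m2 z1 = -1
  m22 : m2 z2 = 0
  v0 : ∀ a ∈ supp W, m0 a = 0 ∨ m0 a = 1 ∨ m0 a = -1
  v1 : ∀ a ∈ supp W, m1 a = 0 ∨ m1 a = 1 ∨ m1 a = -1
  ev : ∀ a ∈ supp W, Even (m0 a + m1 a) → nK a = 0
  n0 : nK z0 ≠ 0
  n1 : nK z1 = -nK z0
  n2 : nK z2 = nK z0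

theorem port_of {W : AO ℤ K} (hD : DD psi W) {z : K} (hz : Ray W z) : ∃ i, psi z i = 1 :=
  KE.exists_port hD hz

/-- SIGMA: a functional which kills the closing of `z0` and vanishes on `z0`, `z1`, `z2` kills
`W`. -/
theorem TkW.sigma {z0 z1 z2 : K} {e0 e1 e2 : (RO ℤ)ˣ} {m0 m1 m2 nK : K →+ ℤ}
    (h : TkW psi W z0 z1 z2 e0 e1 e2 m0 m1 m2 nK) {nu : K →+ ℤ} (F : Flp psi W z0 e0 nu)
    (n0 : nu z0 = 0) (n1 : nu z1 = 0) (n2 : nu z2 = 0) : ∀ a ∈ supp W, nu a = 0 := by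
  have bin := h.dd.bin
  have b0 := bin _ h.r0.1
  have b1 := bin _ h.r1.1
  have b2 := bin _ h.r2.1
  obtain ⟨i0, hi0⟩ := port_of h.dd h.r0
  obtain ⟨i1, hi1⟩ := port_of h.dd h.r1
  obtain ⟨i2, hi2⟩ := port_of h.dd h.r2
  have T0 : ∀ a ∈ supp W, nu a ≠ 0 → a + (1 - 2 * psi a i0) • z0 ∈ supp W := fun a ha hna =>
    F.tog bin b0 n0 hi0 ha hna
  have T1 := tog_next bin b1 h.d01 hi0 hi1 h.F1 h.m10 h.m11 n0 n1 T0
  have T2 := tog_next bin b2 h.d12 hi1 hi2 h.F2 h.m21 h.m22 n1 n2 T1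
  intro a ha
  by_contra hna
  -- ports
  have z0i2 : psi z0 i2 = 0 := (h.d02 i2).resolve_right (by rw [hi2]; exact one_ne_zero)
  have z2i0 : psi z2 i0 = 0 := (h.d02 i0).resolve_left (by rw [hi0]; exact one_ne_zero)
  -- without `z0` and `z2`
  obtain ⟨c, hc, hnc, hc0, hc2⟩ : ∃ c ∈ supp W, nu c ≠ 0 ∧ psi c i0 = 0 ∧ psi c i2 = 0 := by
    obtain ⟨d, hd, hnd, hd0⟩ : ∃ d ∈ supp W, nu d ≠ 0 ∧ psi d i0 = 0 := by
      rcases bin a ha i0 with h1 | h1
      · exact ⟨a, ha, hna, h1⟩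
      · refine ⟨_, T0 a ha hna, ?_, ?_⟩
        · rw [map_add, map_zsmul, n0, smul_zero, add_zero]
          exact hna
        · rw [map_add, Pi.add_apply, map_zsmul, Pi.smul_apply, hi0, h1, smul_eq_mul]
          norm_num
    rcases bin d hd i2 with h1 | h1
    · exact ⟨d, hd, hnd, hd0, h1⟩
    · refine ⟨_, T2 d hd hnd, ?_, ?_, ?_⟩
      · rw [map_add, map_zsmul, n2, smul_zero, add_zero]
        exact hnd
      · rw [map_add, Pi.add_apply, map_zsmul, Pi.smul_apply, z2i0, smul_zero, add_zero, hd0]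
      · rw [map_add, Pi.add_apply, map_zsmul, Pi.smul_apply, hi2, h1, smul_eq_mul]
        norm_num
  -- with `z0`, with `z2`
  have key : ∀ d ∈ supp W, nu d ≠ 0 → psi d i0 = 0 → psi d i2 = 0 →
      d + z0 ∈ supp W ∧ d + z2 ∈ supp W ∧ d + z0 + z2 ∈ supp W := by
    intro d hd hnd h1 h2
    have h3 := T0 d hd hnd
    rw [h1, mul_zero, sub_zero, one_smul] at h3
    have h4 := T2 d hd hnd
    rw [h2, mul_zero, sub_zero, one_smul] at h4
    have h5 := T2 _ h3 (by rw [map_add, n0, add_zero]; exact hnd)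
    rw [map_add, Pi.add_apply, h2, z0i2, add_zero, mul_zero, sub_zero, one_smul] at h5
    exact ⟨h3, h4, h5⟩
  have hm1 : ∀ d ∈ supp W, nu d ≠ 0 → psi d i0 = 0 → psi d i2 = 0 → m1 d = 0 := by
    intro d hd hnd h1 h2
    obtain ⟨k1, k2, -⟩ := key d hd hnd h1 h2
    have q1 := h.v1 _ k1
    have q2 := h.v1 _ k2
    rw [map_add, h.m10] at q1
    rw [map_add, h.m12] at q2
    omega
  have fin : ∀ d ∈ supp W, nu d ≠ 0 → psi d i0 = 0 → psi d i2 = 0 → Even (m0 d) → False := by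
    intro d hd hnd h1 h2 hev
    obtain ⟨-, -, k3⟩ := key d hd hnd h1 h2
    have q0 := hm1 d hd hnd h1 h2
    have q1 := h.ev d hd (by rw [q0, add_zero]; exact hev)
    have q2 := h.ev _ k3 (by
      simp only [map_add, h.m00, h.m02, h.m10, h.m12, q0]
      have : m0 d + 0 + 0 + (0 + -1 + 1) = m0 d := by ring
      rw [this]
      exact hev)
    rw [map_add, map_add, q1, h.n2] at q2
    have := h.n0
    omega
  rcases Int.even_or_odd (m0 c) with hev | hodd
  · exact fin c hc hnc hc0 hc2 hev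
  · have z1i0 : psi z1 i0 = 0 := (h.d01 i0).resolve_left (by rw [hi0]; exact one_ne_zero)
    have z1i2 : psi z1 i2 = 0 := (h.d12 i2).resolve_right (by rw [hi2]; exact one_ne_zero)
    have h1 := T1 c hc hnc
    obtain ⟨s, hs⟩ : ∃ s : ℤ, s = 1 - 2 * psi c i1 := ⟨_, rfl⟩
    rw [← hs] at h1
    refine fin _ h1 ?_ ?_ ?_ ?_
    · rw [map_add, map_zsmul, n1, smul_zero, add_zero]
      exact hnc
    · rw [map_add, Pi.add_apply, map_zsmul, Pi.smul_apply, z1i0, smul_zero, add_zero, hc0]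
    · rw [map_add, Pi.add_apply, map_zsmul, Pi.smul_apply, z1i2, smul_zero, add_zero, hc2]
    · rw [map_add, map_zsmul, h.m01, smul_eq_mul, mul_one]
      have h2 : Odd s := ⟨-psi c i1, by omega⟩
      exact hodd.add_odd h2

/-- The exponents of the closing of `z0` are killed by `m0`. -/
theorem flp_vco (hV : VcoS) (hD : DD psi W) {z : K} (hz : Ray W z) {e : (RO ℤ)ˣ} {m : K →+ ℤ}
    (F : Flp psi W z e m) (mz : m z = 0) {a : K} (ha : vco e z W a ≠ 0) : m a = 0 := by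
  by_contra hma
  have bz := hD.bin z hz.1
  obtain ⟨v1, v2, v3, v4, -⟩ := hV ℤ P K psi W z e hD.inj hD.bin bz hz.2.1
  obtain ⟨k, hk⟩ := v2 a ha
  have hb : Bin psi (a + k • z) := hD.bin _ hk
  have hm' : m (a + k • z) ≠ 0 := by
    rw [map_add, map_zsmul, mz, smul_zero, add_zero]
    exact hma
  have hv : vco e z W (a + k • z) ≠ 0 := by
    rw [v1]
    exact mul_ne_zero (Units.ne_zero _) ha
  by_cases hp : (∃ i, psi (a + k • z) i = 1 ∧ psi z i = 1) ∧ ∃ i, psi (a + k • z) i = 0 ∧ psi z i = 1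
  · exact hk ((F _ hm').1 hp.1 hp.2)
  obtain ⟨i, hi⟩ := port_of hD hz
  rcases hb i with h0 | h1
  · have hd : ∀ p, psi (a + k • z) p = 0 ∨ psi z p = 0 := by
      intro p
      rcases hb p with h2 | h2
      · exact Or.inl h2
      · rcases bz p with h3 | h3
        · exact Or.inr h3
        · exact absurd ⟨⟨p, h2, h3⟩, i, h0, hi⟩ hp
    apply hv
    rw [v3 _ hd]
    exact (F _ hm').2 hd
  · have hd : ∀ p, psi (a + k • z - z) p = 0 ∨ psi z p = 0 := by
      intro p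
      rcases bz p with h3 | h3
      · exact Or.inr h3
      · left
        rw [map_sub, Pi.sub_apply, h3]
        rcases hb p with h2 | h2
        · exact absurd ⟨⟨i, h1, hi⟩, p, h2, h3⟩ hp
        · rw [h2, sub_self]
    have h4 := (F (a + k • z - z) (by rw [map_sub, mz, sub_zero]; exact hm')).2 hd
    have h5 : vco e z W (a + k • z - z) ≠ 0 := by
      have h6 := v1 (a + k • z) (-1)
      rw [neg_smul, one_smul, ← sub_eq_add_neg] at h6
      rw [h6]
      exact mul_ne_zero (Units.ne_zero _) hv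
    apply h5
    rw [v3 _ hd]
    exact h4

theorem flp_US (hV : VcoS) (hD : DD psi W) {z : K} (hz : Ray W z) {e : (RO ℤ)ˣ} {m : K →+ ℤ}
    (F : Flp psi W z e m) (mz : m z = 0) {a : K} (ha : a ∈ US e z W) : m a = 0 := by
  obtain ⟨n, hn, hna⟩ := ha
  have h1 : Submodule.span ℤ (insert z {a : K | vco e z W a ≠ 0}) ≤
      LinearMap.ker m.toIntLinearMap := by
    rw [Submodule.span_le]
    rintro b (rfl | hb)
    · exact mz
    · exact flp_vco hV hD hz F mz hb
  have h2 : m (n • a) = 0 := h1 hna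
  rw [map_zsmul] at h2
  exact (smul_eq_zero.mp h2).resolve_left hn

/-- `z0`, `z1` are mutual. -/
theorem TkW.mut (hV : VcoS) {z0 z1 z2 : K} {e0 e1 e2 : (RO ℤ)ˣ} {m0 m1 m2 nK : K →+ ℤ}
    (h : TkW psi W z0 z1 z2 e0 e1 e2 m0 m1 m2 nK) : Mut W z0 z1 e0 e1 := by
  refine ⟨h.r0, h.r1, fun h1 => ?_, fun h1 => ?_⟩
  · have := flp_US hV h.dd h.r0 h.F0 h.m00 h1
    rw [h.m01] at this
    exact one_ne_zero this
  · have := flp_US hV h.dd h.r1 h.F1 h.m11 h1
    rw [h.m10] at this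
    omega

/-- A SMALL FACTOR OF MASS ONE IS IMPOSSIBLE. -/
theorem TkW.no_one (hV : VcoS) (hM : McoS) {z0 z1 z2 : K} {e0 e1 e2 : (RO ℤ)ˣ}
    {m0 m1 m2 nK : K →+ ℤ} (h : TkW psi W z0 z1 z2 e0 e1 e2 m0 m1 m2 nK) {i0 : P}
    {h0 : co psi i0 z0 = 1} {c : RO ℤ} {n : ℕ} {G : Fin n → AO ℤ (Ker (co psi i0))} {l : Fin n}
    {b : Ker (co psi i0)} {j : P} {e : (RO ℤ)ˣ} {hj : co (phK psi (co psi i0)) j b = 1}
    {Q : AO ℤ (Ker (co (phK psi (co psi i0)) j))}
    (hQ : QC psi W z0 i0 e0 h0 c n G l b j e hj Q) (hQ1 : Q = cst (c * (G l).coeff 0))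
    (h2A : W.coeff 0 + 2 * ((e0 : RO ℤ) * W.coeff z0) ≠ 0) : False := by
  have hD := h.dd
  have hmut := h.mut hV
  have h3 := H36.ndz_three (t := 1) hQ (by rw [mul_one]; exact hQ1)
  obtain ⟨hdis, hm1, hm2, -⟩ := hM ℤ P K psi W z0 z1 e0 e1 hD.inj hD.bin hmut
  have hi0 : psi z0 i0 = 1 := h0
  have hv0 := hQ.fd.cc.v0
  have zz : ∀ i, psi (0 : K) i = 0 := fun i => by rw [map_zero]; rfl
  obtain ⟨x0, y0⟩ := h3 0 (zz i0) (zz j)
  rw [zero_add, zero_add, one_mul] at x0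
  rw [zero_add, zero_add] at y0
  have x0' : (e : RO ℤ) * W.coeff (b : K) = (e0 : RO ℤ) * W.coeff z0 := by
    linear_combination x0
  have hDb : W.coeff (b : K) ≠ 0 := by
    intro h5
    rw [h5, mul_zero] at x0'
    exact (mul_ne_zero e0.ne_zero h.r0.1) x0'.symm
  have hDbS : W.coeff ((b : K) + z0) ≠ 0 := by
    intro h5
    rw [h5, mul_zero, add_zero] at y0
    apply h2A
    linear_combination y0 - x0'
  have bb : Bin psi (b : K) := hD.bin _ hDb
  have bS : Bin psi z0 := hD.bin _ h.r0.1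
  have bbS := hD.bin _ hDbS
  have b1 : Bin psi z1 := hD.bin _ h.r1.1
  have disb : ∀ i, psi (b : K) i = 0 ∨ psi z0 i = 0 := by
    intro i
    have q1 := bb i
    have q2 := bS i
    have q3 := bbS i
    simp only [map_add, Pi.add_apply] at q3
    omega
  have hS1i : psi z1 i0 = 0 := by
    rcases hdis i0 with h5 | h5
    · omega
    · exact h5
  have hb0 : (b : K) ≠ 0 := by
    intro h5
    have : b = 0 := Subtype.ext h5
    rw [this, map_zero] at hj
    exact zero_ne_one hj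
  have hS1 : W.coeff z1 + (e0 : RO ℤ) * W.coeff (z1 + z0) = 0 := by
    have h5 : (e1 : RO ℤ) * (W.coeff z1 + (e0 : RO ℤ) * W.coeff (z1 + z0)) = 0 := by
      rw [add_comm z1 z0]
      linear_combination hm1 + hm2
    exact (mul_eq_zero.mp h5).resolve_left e1.ne_zero
  -- (A)
  have hjS1 : psi z1 j = 0 := by
    by_contra h5
    have h6 : psi z1 j = 1 := (b1 j).resolve_left h5
    have hbj : psi (b : K) j = 1 := hQ.sp.bj
    obtain ⟨x1, y1⟩ := h3 (z1 - (b : K))
      (by rw [map_sub, Pi.sub_apply, hS1i]; have : psi (b : K) i0 = 0 := b.2; omega)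
      (by rw [map_sub, Pi.sub_apply, h6, hbj, sub_self])
    rw [sub_add_cancel, hS1, mul_zero] at y1
    have hz : W.coeff (z1 - (b : K)) + (e0 : RO ℤ) * W.coeff (z1 - (b : K) + z0) = 0 := by
      rw [← neg_eq_zero]
      exact y1.symm
    rw [sub_add_cancel, hz, mul_zero] at x1
    have hne : W.coeff (z1 - (b : K)) ≠ 0 := by
      intro h7
      rw [h7, zero_add] at x1
      exact (mul_ne_zero e.ne_zero h.r1.1) x1
    obtain ⟨-, hS10, lam, hlam, hpos⟩ := h.r1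
    by_cases h8 : (b : K) = z1
    · rw [h8, hS1, mul_zero] at y0
      apply hv0
      rw [← neg_eq_zero]
      exact y0.symm
    · have h9 : 0 < lam (b : K) := hpos _ hDb hb0 h8
      have h10 : 0 < lam (z1 - (b : K)) := hpos _ hne (sub_ne_zero.mpr (Ne.symm h8)) (by
        intro h11
        exact hb0 (sub_eq_self.mp h11))
      rw [map_sub, hlam] at h10
      omega
  -- (B)
  obtain ⟨x1, y1⟩ := h3 z1 hS1i hjS1
  rw [hS1, mul_zero] at x1
  rw [hS1, neg_zero] at y1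
  have hne : W.coeff (z1 + (b : K)) ≠ 0 := by
    intro h7
    rw [h7, mul_zero, add_zero] at x1
    exact h.r1.1 x1
  have bb1 := hD.bin _ hne
  have disb1 : ∀ i, psi (b : K) i = 0 ∨ psi z1 i = 0 := by
    intro i
    have q1 := bb i
    have q2 := b1 i
    have q3 := bb1 i
    simp only [map_add, Pi.add_apply] at q3
    omega
  have y1' : W.coeff (z1 + (b : K)) + (e0 : RO ℤ) * W.coeff (z1 + (b : K) + z0) = 0 :=
    (mul_eq_zero.mp y1).resolve_left e.ne_zero
  -- (C)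
  have c2 : (e : RO ℤ) * (e0 : RO ℤ) *
      (W.coeff ((b : K) + z0) + (e1 : RO ℤ) * W.coeff ((b : K) + z0 + z1)) =
      -(W.coeff 0 + (e0 : RO ℤ) * W.coeff z0) := by
    have h5 : (b : K) + z0 + z1 = z1 + (b : K) + z0 := by abel
    rw [h5]
    linear_combination y0 - x0' + (e : RO ℤ) * (e1 : RO ℤ) * y1' - (e1 : RO ℤ) * x1 + hm1
  -- the functionals
  have k0 : m0 (b : K) = 0 := by
    by_contra h5
    have h6 := (h.F0 (b : K) h5).2 disb
    rw [h6, mul_zero] at y0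
    apply hv0
    rw [← neg_eq_zero]
    exact y0.symm
  have k1 : m1 ((b : K) + z0) = 0 := by
    by_contra h5
    have h6 := (h.F1 ((b : K) + z0) h5).2 (by
      intro i
      have q1 := disb1 i
      have q2 := hdis i
      simp only [map_add, Pi.add_apply]
      omega)
    rw [h6, mul_zero] at c2
    exact (neg_ne_zero.mpr hv0) c2.symm
  have q1 := h.ev _ hDbS (by
    rw [k1, map_add, k0, h.m00]
    exact ⟨0, by ring⟩)
  have q2 := h.ev _ hne (by
    rw [map_add, h.m10] at k1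
    rw [map_add, map_add, h.m01, h.m11, k0]
    exact ⟨1, by omega⟩)
  rw [map_add] at q1 q2
  have := h.n0
  have := h.n1
  omega

end

end Pool.Agent.B5.KO67
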