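import Pool.Agent.Lib.MP_b5021c_nt.KO.H67.Vdf
import Pool.Agent.Lib.MP_b5021c_nt.KO.H40.K4x
import Pool.Agent.Lib.MP_b5021c_nt.IfaceOF
import Pool.Agent.Lib.MP_b5021c_nt.E.H78.Fcl
import Pool.Agent.Lib.MP_b5021c_nt.B.H36.Evr

/-!
# MP_b5021c_nt, all `θ`, K ODD, (O4), cycles of length `≥ 4`: `V''` is in `DD` (row OC_VDD)
-/

set_option linter.unusedSectionVars false

namespace Pool.Agent.B5.KO67

open scoped LaurentPolynomial
open Polynomial
open Pool.Agent.B5.KE
open Pool.Agent.B5.Nr.Sch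
open Pool.Agent.B5.Nr (TrezS)
open Pool.Agent.B5.OC
open Pool.Agent.B5.H40 (uT)
open Pool.Agent.B5.KV67 (TT1 tA_val)
open Pool.Agent.B5.KO.H40 (tC_val dc_csm content)

/-- `2 + 2 i` is the square of `1 + x` with `|x| < 1`. -/
theorem sq_two_i : ∃ x : ℂ, ‖x‖ < 1 ∧ (1 + x) ^ 2 = 2 + 2 * Complex.I := by
  obtain ⟨s, hs0, hs⟩ : ∃ s : ℝ, 0 < s ∧ s ^ 2 = 2 :=
    ⟨Real.sqrt 2, Real.sqrt_pos.mpr (by norm_num), Real.sq_sqrt (by norm_num)⟩
  have hs1 : 1 < s := by nlinarith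
  obtain ⟨p, hp0, hp⟩ : ∃ p : ℝ, 0 < p ∧ p ^ 2 = 1 + s :=
    ⟨Real.sqrt (1 + s), Real.sqrt_pos.mpr (by linarith), Real.sq_sqrt (by linarith)⟩
  obtain ⟨r, hr0, hr⟩ : ∃ r : ℝ, 0 < r ∧ r ^ 2 = s - 1 :=
    ⟨Real.sqrt (s - 1), Real.sqrt_pos.mpr (by linarith), Real.sq_sqrt (by linarith)⟩
  have hpr : p * r = 1 := by
    have h1 : (p * r) ^ 2 = 1 := by
      rw [mul_pow, hp, hr]
      linear_combination hs
    have h2 : 0 < p * r := mul_pos hp0 hr0
    nlinarith
  have hps : s < p := by nlinarith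
  refine ⟨⟨p - 1, r⟩, ?_, ?_⟩
  · have h1 : ‖(⟨p - 1, r⟩ : ℂ)‖ ^ 2 < 1 := by
      rw [← Complex.normSq_eq_norm_sq, Complex.normSq_apply]
      change (p - 1) * (p - 1) + r * r < 1
      nlinarith
    nlinarith [norm_nonneg (⟨p - 1, r⟩ : ℂ)]
  · have h2 : (1 : ℂ) + ⟨p - 1, r⟩ = ⟨p, r⟩ := by
      apply Complex.ext <;> simp
    rw [h2]
    apply Complex.ext
    · simp only [pow_two, Complex.mul_re, Complex.add_re, Complex.re_ofNat, Complex.I_re,
        Complex.im_ofNat, Complex.I_im, mul_zero, zero_mul, sub_zero, add_zero]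
      nlinarith
    · simp only [pow_two, Complex.mul_im, Complex.add_im, Complex.re_ofNat, Complex.I_re,
        Complex.im_ofNat, Complex.I_im, mul_zero, add_zero, zero_add, mul_one]
      linarith

/-- The face of two disjoint rays. -/
theorem face_two (hFcm : FcmS) {P L : Type} [Fintype P] [DecidableEq P] [AddCommGroup L]
    [Module.Free ℤ L] [Module.Finite ℤ L] {phi : L →+ (P → ℤ)} {D : AO ℤ L} {S S1 : L}
    (hD : DD phi D) (h2 : 2 ≤ Module.finrank ℤ L) (rS : Ray D S) (rS1 : Ray D S1)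
    (dis : ∀ p, phi S p = 0 ∨ phi S1 p = 0) (z : Circle) {x y : ℂ} (hx : ‖x‖ < 1) (hy : ‖y‖ < 1) :
    evR z (D.coeff 0) + evR z (D.coeff S) * x + evR z (D.coeff S1) * y +
      evR z (D.coeff (S + S1)) * (x * y) ≠ 0 := by
  have h := hFcm ℤ P L phi D 2 ![S, S1] hD h2 (by
      intro i
      fin_cases i
      · exact hD.bin S rS.1
      · exact hD.bin S1 rS1.1) (by
      intro i
      fin_cases i
      · exact rS.2.1
      · exact rS1.2.1) (by
      intro i j hij p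
      fin_cases i <;> fin_cases j
      · exact absurd rfl hij
      · exact dis p
      · exact (dis p).symm
      · exact absurd rfl hij) z ![x, y] (by
      intro i
      fin_cases i
      · exact hx
      · exact hy)
  have hu : (Finset.univ : Finset (Finset (Fin 2))) = {∅, {0}, {1}, {0, 1}} := by decide
  have s1 : ∑ i ∈ ({0, 1} : Finset (Fin 2)), ![S, S1] i = S + S1 := by
    rw [Finset.sum_pair (by decide)]
    rfl
  have s2 : ∏ i ∈ ({0, 1} : Finset (Fin 2)), ![x, y] i = x * y := by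
    rw [Finset.prod_pair (by decide)]
    rfl
  rw [hu, Finset.sum_insert (by decide), Finset.sum_insert (by decide),
    Finset.sum_insert (by decide)] at h
  simp only [Finset.sum_empty, Finset.prod_empty, Finset.sum_singleton, Finset.prod_singleton,
    Matrix.cons_val_zero, Matrix.cons_val_one, mul_one, s1, s2] at h
  intro h3
  apply h
  linear_combination h3

/-- (OC_VDD) -/
theorem vddS (hU : UnitRS) (hM1 : M1S) (hMm : MmulS) (hMV : MVS) (hE1 : E1S) (hE2 : E2S)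
    (hPc : PCZS) (hClp : ClpS) (hC0 : Coeff0S) (hG0 : G0S) (hI1 : Inj1S) (hRk : RkS)
    (hFD : FDS) (hWW : WWfS) (hRF : RayFacS) (hMug : MugS) (hMco : McoS) (hTr : TrezS)
    (hTsa : TsaS) (hMfc : MfcS) (hRn : RnkS) (hO5 : H67.O5aS) (hCnf : CnfS) (hFcm : FcmS)
    (hVdf : VdfS) (hRay : RayS) : VddS := by
  intro P L _ _ _ _ _ phi D q f E a j eta C k Z mu g1 H hor hg1 hgp Y
  have h := H.cyc
  have fp := H.kb.ko.min.fp
  have hD := fp.dd
  have hj := H.kb.ko.j2
  have h2 := Oc.fr2 H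
  have hu := H.f0
  have e1 := one_nz (k := k)
  have e2 := two_nz (k := k)
  have n0 : (-1 : ZMod (k + 3)) ≠ 0 := neg_ne_zero.mpr e1
  have n1 : (-1 : ZMod (k + 3)) ≠ 1 := fun hc => e2 (by linear_combination -hc)
  obtain ⟨e, he, hRN⟩ := H.kb.rn (Z 0) (H.mem 0)
  have hM : Mut D (Z 0) (Z 1) (eta (Z 0)) (eta (Z 1)) := by
    have := h.mtl 0
    rwa [zero_add] at this
  have hM' : Mut D (Z 0) (Z 1) (ld e 1) (eta (Z 1)) := by
    rw [← he]
    exact hM
  have dis : ∀ i, phi (Z 0) i = 0 ∨ phi (Z 1) i = 0 := h.dis 0 1 e1.symm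
  have rZ : ∀ i, Ray D (Z i) := fun i => (h.mtl i).r0
  have hEm : (aeval (-1 : ℂ) E : ℂ) ≠ 0 := H.Ez (-1) (by simp)
  have hload : ld e 1 * kap = eta (Z 0) * tA := by rw [he]; rfl
  have hload1 : eta (Z 1) * uT (1 : ℤˣ) 1 = eta (Z 1) * tC := rfl
  have hfull : rk (supp (dc Y (ld e 1 * kap) (eta (Z 1) * uT (1 : ℤˣ) 1) D)) + 2 =
      Module.finrank ℤ L := by
    refine (hRn ℤ P L phi D _ _ _ _ hD.inj hD.bin hM' Y _ _).mpr fun nu' hk =>
      hVdf P L phi D q f E a j eta C k Z mu H hor nu' ?_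
    rw [he]
    exact hk
  -- the ray `Z (-1)`
  have hS0 : phi (Z 0) Y.i0 = 1 := Y.h0
  have hS1 : phi (Z 1) Y.i1 = 1 := by
    have h1 := Y.h1
    rw [Y.hk, Y.eT] at h1
    exact h1
  have z0 : phi (Z (-1)) Y.i0 = 0 :=
    (h.dis (-1) 0 n0 Y.i0).resolve_right (by rw [hS0]; exact one_ne_zero)
  have z1 : phi (Z (-1)) Y.i1 = 0 :=
    (h.dis (-1) 1 n1 Y.i1).resolve_right (by rw [hS1]; exact one_ne_zero)
  obtain ⟨x, hx⟩ : ∃ x : Ker Y.k1, ((x : Ker (co phi Y.i0)) : L) = Z (-1) :=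
    ⟨⟨⟨Z (-1), z0⟩, (Y.hk _).trans z1⟩, rfl⟩
  have hxc : (eta (Z (-1)) : RO ℤ) * (dc Y (eta (Z 0) * tA) (eta (Z 1) * tC) D).coeff x =
      toLaurent g1 := by
    have ar := ar3_of hMco hCnf H (-1)
    have s01 := ar.s01
    have s012 := ar.s012
    have hco := H.co (-1)
    rw [neg_add_cancel] at s01
    rw [neg_add_cancel, show (-1 : ZMod (k + 3)) + 2 = 1 by ring] at s012
    rw [map_mul, toLaurent_X] at s01 s012 hco
    rw [dc_csm hD.bin dis, hx, ← hgp]
    unfold csm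
    rw [Units.val_mul, Units.val_mul, tA_val, tC_val]
    linear_combination hco - (LaurentPolynomial.T (-1) : RO ℤ) * s01 -
      (LaurentPolynomial.T (-1) * LaurentPolynomial.T 1 : RO ℤ) * s012 +
      (toLaurent f - LaurentPolynomial.T 1 * toLaurent f : RO ℤ) * TT1
  have hxp : (eta (Z (-1)) : RO ℤ) *
      (dc Y (ld e 1 * kap) (eta (Z 1) * uT (1 : ℤˣ) 1) D).coeff x = toLaurent g1 := by
    rw [hload, hload1]
    exact hxc
  have hg1ne : g1 ≠ 0 := by
    rintro rfl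
    rw [coeff_zero] at hg1
    exact zero_ne_one hg1
  have hxne : (dc Y (ld e 1 * kap) (eta (Z 1) * uT (1 : ℤˣ) 1) D).coeff x ≠ 0 := by
    intro h3
    rw [h3, mul_zero] at hxp
    exact (toLaurent_ne_zero.mpr hg1ne) hxp.symm
  have hray := (hRay P L phi D q f E a j eta C k Z mu H hor (-1) n0 n1 Y (ld e 1 * kap)
    (eta (Z 1) * uT (1 : ℤˣ) 1) x hx hxne).1
  obtain ⟨c, G, hc, hdc, hDG, hVG, hrG, hG00, hGx, hfr⟩ := double2 hMm hMV hE1 hE2 hPc hClp hC0
    hG0 hI1 hRk hFD hWW hRF hMug hMco hTr hTsa hO5 H.kb hu H.n (H.mem 0) he hRN hM' H.eE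
    (fun z hz => H.Ez z hz.le) hEm Y hfull x hray hg1 hxp
  obtain ⟨V, hVd⟩ : ∃ V : ℤ[X], V = E - (1 + X) * f := ⟨_, rfl⟩
  rw [← hVd] at hG00
  have hXV : X * V = (1 - X - X ^ 2) * f - q := by
    rw [hVd]
    linear_combination -H.eE
  have hV0 : V.coeff 0 = j := by
    rw [hVd, coeff_sub, H.E0, mul_coeff_zero, hu]
    simp
  have hj0 : (j : ℤ) ≠ 0 := by exact_mod_cast (by omega : j ≠ 0)
  have hjV : V.coeff 0 ≠ 0 := by rw [hV0]; exact hj0
  obtain ⟨c', g', hc', hg', hcg, ⟨u, huc⟩, -⟩ :=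
    split_one hU hg1 (eta (Z (-1))).isUnit hGx
  have hG0ne : G.coeff 0 ≠ 0 := ((hMV ℤ).1 _ _ hVG).1
  obtain ⟨m, p', hp', hp'0⟩ := H40.exists_normal (G.coeff 0) hG0ne
  obtain ⟨n, s, hs, hus⟩ := (hU ℤ _).mp u.isUnit
  obtain ⟨s', rfl⟩ := hs
  have hVp : c' ∣ V := by
    refine ⟨-(Polynomial.C (s' : ℤ) * p'), ?_⟩
    have h3 : (LaurentPolynomial.T (n + m) : RO ℤ) * toLaurent (Polynomial.C (s' : ℤ) * (c' * p')) =
        LaurentPolynomial.T 1 * toLaurent (-V) := by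
      rw [huc, hp', hus] at hG00
      rw [LaurentPolynomial.T_add, map_mul toLaurent (Polynomial.C _), map_mul, toLaurent_C, map_neg]
      rw [map_mul, toLaurent_X] at hG00
      linear_combination hG00
    obtain ⟨-, h4⟩ := H56.nf_unique (n + m) 1 _ _ (by
      rw [mul_coeff_zero, coeff_C_zero, mul_coeff_zero, hc', one_mul]
      exact mul_ne_zero (Units.ne_zero s') hp'0) (by
      rw [coeff_neg]
      exact neg_ne_zero.mpr hjV) h3
    linear_combination h4
  have hc'ne : (toLaurent c' : RO ℤ) ≠ 0 := by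
    rw [toLaurent_ne_zero]
    intro h4
    rw [h4, coeff_zero] at hc'
    exact zero_ne_one hc'
  have hMc : M (toLaurent c' : RO ℤ) = 1 := by
    have h3 := ((hMV ℤ).1 _ _ hc).2
    rw [huc, (hMm ℤ).1 _ _ u.ne_zero hc'ne, (hMm ℤ).2.2 _ u.isUnit, one_mul] at h3
    exact h3
  obtain ⟨d, hd⟩ := content hU hM1 hMm hMfc hD h2 hRN hM' H.cusp hXV hc' hMc hVp
  have hc1 : c' = 1 := by
    rcases Nat.eq_zero_or_pos d with h3 | h3
    · rw [hd, h3, pow_zero]
    · exfalso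
      have h4 : (aeval Complex.I c' : ℂ) = 0 := by
        rw [hd, map_pow, map_add, map_one, map_pow, aeval_X, Complex.I_sq, add_neg_cancel,
          zero_pow h3.ne']
      obtain ⟨b, hb⟩ := hVp
      have v0 : (aeval Complex.I V : ℂ) = 0 := by rw [hb, map_mul, h4, zero_mul]
      have g0 : (aeval Complex.I g1 : ℂ) = 0 := by rw [hcg, map_mul, h4, zero_mul]
      obtain ⟨zc, hzc⟩ := circle_of Complex.I (by simp)
      obtain ⟨psi, hpsi⟩ : ∃ psi : RO ℤ, psi = (eta (Z (-1)) : RO ℤ) * (eta (Z 1) : RO ℤ) *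
        D.coeff (Z (-1) + Z 1) := ⟨_, rfl⟩
      rw [← hpsi] at hgp
      have hq : (aeval Complex.I q : ℂ) = (2 - Complex.I) * aeval Complex.I f := by
        have h5 := congrArg (fun p : ℤ[X] => (aeval Complex.I p : ℂ)) hXV
        simp only [map_sub, map_mul, map_one, aeval_X, map_pow, v0, mul_zero, Complex.I_sq] at h5
        linear_combination h5
      have hps : evR zc psi = Complex.I * aeval Complex.I f := by
        have h5 := congrArg (evR zc) hgp
        rw [map_add, map_mul, ← toLaurent_X, evR_poly, evR_poly, evR_poly, aeval_X, hzc, g0] at h5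
        linear_combination (-Complex.I) * h5 + evR zc psi * Complex.I_sq
      have hA : ∀ i, evR zc (eta (Z i) : RO ℤ) * evR zc (D.coeff (Z i)) =
          Complex.I * aeval Complex.I f := by
        intro i
        rw [← map_mul, H.co, evR_poly, hzc, map_mul, aeval_X]
      obtain ⟨y, hy, hy2⟩ := sq_two_i
      have hun : ∀ i, ‖y * evR zc (eta (Z i) : RO ℤ)‖ < 1 := by
        intro i
        rw [norm_mul, H36.norm_evR_unit zc _ (eta (Z i)).isUnit, mul_one]
        exact hy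
      apply face_two hFcm hD h2 (rZ (-1)) (rZ 1) (h.dis (-1) 1 n1) zc (hun (-1)) (hun 1)
      have hpe : evR zc psi = evR zc (eta (Z (-1)) : RO ℤ) * evR zc (eta (Z 1) : RO ℤ) *
          evR zc (D.coeff (Z (-1) + Z 1)) := by
        rw [hpsi, map_mul, map_mul]
      have hD0 : evR zc (D.coeff 0) = (2 - Complex.I) * aeval Complex.I f := by
        rw [H.kb.ko.D0, evR_poly, hzc, hq]
      have hAm := hA (-1)
      have hA1 := hA 1
      rw [hps] at hpe
      linear_combination hD0 + y * hAm + y * hA1 - y ^ 2 * hpe +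
        (Complex.I * aeval Complex.I f) * hy2 + 2 * (aeval Complex.I f : ℂ) * Complex.I_sq
  rw [hc1, map_one, mul_one] at huc
  subst huc
  rw [hload, hload1] at hdc
  refine ⟨?_, ?_, hfr⟩
  · rw [hdc]
    exact H78.dd_cst u.isUnit (fun z => (u.isUnit.map (evR z)).ne_zero) hDG
  · rw [hdc, H71.cst_mul_coeff]
    obtain ⟨hN, n2, r, hr, hr0, hrz⟩ := hVG
    have hsn : ‖(Coef.emb (s' : ℤ) : ℂ)‖ = 1 := by
      rcases Int.isUnit_iff.1 s'.isUnit with h1 | h1 <;> rw [h1] <;> simp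
    refine ⟨hN, n + n2, Polynomial.C (s' : ℤ) * r, ?_, ?_, ?_⟩
    · rw [hus, hr, LaurentPolynomial.T_add, map_mul, toLaurent_C]
      ring
    · rw [coeff_C_mul, map_mul, norm_mul, hsn, one_mul, hr0]
    · intro z hz h0
      rw [Polynomial.map_mul, map_C, eval_mul, eval_C] at h0
      rcases mul_eq_zero.1 h0 with h1 | h1
      · rw [h1, norm_zero] at hsn
        exact zero_ne_one hsn
      · exact hrz z hz h1

end Pool.Agent.B5.KO67
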